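import Pool.Agent.CTP.LinDefs

/-! Row ANG. The total angle of a path and its sign (page, section 2, WINDING and ALT). -/

namespace Pool.CTP

theorem cr_eq_im (v w : ℂ) : cr v w = ((starRingEnd ℂ) v * w).im := by
  simp [cr, Complex.mul_im]
  ring

theorem arc_mul_pos (v w : ℂ) {r s : ℝ} (hr : 0 < r) (hs : 0 < s) :
    arc (r * v) (s * w) = arc v w := by
  unfold arc
  have e : (starRingEnd ℂ) ((r : ℂ) * v) * ((s : ℂ) * w) =
      ((r * s : ℝ) : ℂ) * ((starRingEnd ℂ) v * w) := by
    rw [map_mul, Complex.conj_ofReal, Complex.ofReal_mul]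
    ring
  rw [e, Complex.arg_real_mul _ (mul_pos hr hs)]

theorem arc_mul_left (v w : ℂ) {r : ℝ} (hr : 0 < r) : arc (r * v) w = arc v w := by
  have := arc_mul_pos v w hr one_pos
  rwa [Complex.ofReal_one, one_mul] at this

theorem arc_mul_right (v w : ℂ) {r : ℝ} (hr : 0 < r) : arc v (r * w) = arc v w := by
  have := arc_mul_pos v w one_pos hr
  rwa [Complex.ofReal_one, one_mul] at this

theorem arc_self (v : ℂ) : arc v v = 0 := by
  unfold arc
  have e : (starRingEnd ℂ) v * v = ((Complex.normSq v : ℝ) : ℂ) := by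
    rw [mul_comm, Complex.mul_conj]
  rw [e, Complex.arg_ofReal_of_nonneg (Complex.normSq_nonneg v)]

theorem arc_neg_neg (v w : ℂ) : arc (-v) (-w) = arc v w := by
  unfold arc
  rw [map_neg, neg_mul_neg]

theorem NA_of_cr_ne_zero {v w : ℂ} (h : cr v w ≠ 0) : NA v w := by
  unfold NA
  rw [Complex.mem_slitPlane_iff]
  right
  rw [← cr_eq_im]
  exact h

theorem NA_of_pos {v : ℂ} (hv : v ≠ 0) {c : ℝ} (hc : 0 < c) : NA v (c * v) := by
  unfold NA
  have e : (starRingEnd ℂ) v * ((c : ℂ) * v) = ((c * Complex.normSq v : ℝ) : ℂ) := by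
    rw [Complex.ofReal_mul, ← Complex.mul_conj]
    ring
  rw [e, Complex.mem_slitPlane_iff]
  left
  rw [Complex.ofReal_re]
  exact mul_pos hc (Complex.normSq_pos.mpr hv)

theorem NA.ne_left {v w : ℂ} (h : NA v w) : v ≠ 0 := by
  rintro rfl
  unfold NA at h
  rw [map_zero, zero_mul] at h
  exact Complex.zero_notMem_slitPlane h

theorem NA.ne_right {v w : ℂ} (h : NA v w) : w ≠ 0 := by
  rintro rfl
  unfold NA at h
  rw [mul_zero] at h
  exact Complex.zero_notMem_slitPlane h

theorem exp_arc (v w : ℂ) :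
    Complex.exp ((arc v w : ℝ) * Complex.I) * ((‖v‖ * ‖w‖ : ℝ) : ℂ) = (starRingEnd ℂ) v * w := by
  have h := Complex.norm_mul_exp_arg_mul_I ((starRingEnd ℂ) v * w)
  have e : ‖(starRingEnd ℂ) v * w‖ = ‖v‖ * ‖w‖ := by
    rw [norm_mul, Complex.norm_conj]
  rw [e] at h
  unfold arc
  rw [mul_comm]
  exact h

theorem exp_arcs (l : List ℂ) (a : ℂ) (h : NAl (a :: l)) :
    Complex.exp ((arcs (a :: l) : ℝ) * Complex.I) *
      ((‖a‖ * ‖(a :: l).getLast (List.cons_ne_nil _ _)‖ : ℝ) : ℂ) =
      (starRingEnd ℂ) a * (a :: l).getLast (List.cons_ne_nil _ _) := by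
  induction l generalizing a with
  | nil =>
    have e : arcs [a] = 0 := rfl
    rw [e]
    simp only [Complex.ofReal_zero, zero_mul, Complex.exp_zero, one_mul, List.getLast_singleton]
    rw [mul_comm ((starRingEnd ℂ) a), Complex.mul_conj, Complex.normSq_eq_norm_sq, sq]
  | cons b l ih =>
    have e : arcs (a :: b :: l) = arc a b + arcs (b :: l) := rfl
    have h1 : NA a b := h.1
    have h2 : NAl (b :: l) := h.2
    have ih' := ih b h2
    have hl : (a :: b :: l).getLast (List.cons_ne_nil _ _) =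
        (b :: l).getLast (List.cons_ne_nil _ _) := by
      rw [List.getLast_cons]
    rw [hl, e]
    set z := (b :: l).getLast (List.cons_ne_nil _ _) with hz
    have h3 := exp_arc a b
    have hb : ((‖b‖ * ‖b‖ : ℝ) : ℂ) ≠ 0 := by
      have : ‖b‖ ≠ 0 := norm_ne_zero_iff.mpr h1.ne_right
      exact_mod_cast mul_ne_zero this this
    have hbb : b * (starRingEnd ℂ) b = ((‖b‖ * ‖b‖ : ℝ) : ℂ) := by
      rw [Complex.mul_conj, Complex.normSq_eq_norm_sq, sq]
    have e4 : Complex.exp (((arc a b + arcs (b :: l) : ℝ) : ℂ) * Complex.I) =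
        Complex.exp ((arc a b : ℝ) * Complex.I) *
          Complex.exp ((arcs (b :: l) : ℝ) * Complex.I) := by
      rw [← Complex.exp_add]
      congr 1
      push_cast
      ring
    rw [e4]
    apply mul_right_cancel₀ hb
    calc Complex.exp ((arc a b : ℝ) * Complex.I) * Complex.exp ((arcs (b :: l) : ℝ) * Complex.I) *
          ((‖a‖ * ‖z‖ : ℝ) : ℂ) * ((‖b‖ * ‖b‖ : ℝ) : ℂ)
        = (Complex.exp ((arc a b : ℝ) * Complex.I) * ((‖a‖ * ‖b‖ : ℝ) : ℂ)) *
          (Complex.exp ((arcs (b :: l) : ℝ) * Complex.I) * ((‖b‖ * ‖z‖ : ℝ) : ℂ)) := by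
          push_cast; ring
      _ = ((starRingEnd ℂ) a * b) * ((starRingEnd ℂ) b * z) := by rw [h3, ih']
      _ = (starRingEnd ℂ) a * z * (b * (starRingEnd ℂ) b) := by ring
      _ = (starRingEnd ℂ) a * z * ((‖b‖ * ‖b‖ : ℝ) : ℂ) := by rw [hbb]

/-- the sign is a sign -/
theorem sg_sq {n : ℕ} (hn : 1 ≤ n) (w : List ℂ) (h : NAs n w) : sg n w ^ 2 = 1 := by
  obtain ⟨hw, h⟩ := h
  obtain ⟨a, l, rfl⟩ := List.exists_cons_of_ne_nil hw
  have h1 := exp_arcs (l ++ [(-1) ^ (n - 1) * a]) a h
  have hlast : (a :: (l ++ [(-1) ^ (n - 1) * a])).getLast (List.cons_ne_nil _ _) =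
      (-1) ^ (n - 1) * a := by
    rw [List.getLast_cons (by simp), List.getLast_append_singleton]
  rw [hlast] at h1
  have ha : a ≠ 0 := by
    cases l with
    | nil => exact h.1.ne_left
    | cons b l => exact h.1.ne_left
  have hTh : Th n (a :: l) = arcs (a :: (l ++ [(-1) ^ (n - 1) * a])) := rfl
  rw [← hTh] at h1
  have hna : ((‖a‖ * ‖a‖ : ℝ) : ℂ) ≠ 0 := by
    have : ‖a‖ ≠ 0 := norm_ne_zero_iff.mpr ha
    exact_mod_cast mul_ne_zero this this
  have hnorm : ‖(-1 : ℂ) ^ (n - 1) * a‖ = ‖a‖ := by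
    rw [norm_mul, norm_pow, norm_neg, norm_one, one_pow, one_mul]
  rw [hnorm] at h1
  have e2 : (starRingEnd ℂ) a * ((-1) ^ (n - 1) * a) =
      (-1) ^ (n - 1) * ((‖a‖ * ‖a‖ : ℝ) : ℂ) := by
    have : a * (starRingEnd ℂ) a = ((‖a‖ * ‖a‖ : ℝ) : ℂ) := by
      rw [Complex.mul_conj, Complex.normSq_eq_norm_sq, sq]
    rw [← this]
    ring
  rw [e2] at h1
  have h2 : Complex.exp ((Th n (a :: l) : ℝ) * Complex.I) = (-1) ^ (n - 1) :=
    mul_right_cancel₀ hna h1
  have h3 : Complex.exp ((((n : ℝ) - 1) * Real.pi : ℝ) * Complex.I) = (-1) ^ (n - 1) := by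
    have e : ((((n : ℝ) - 1) * Real.pi : ℝ) : ℂ) * Complex.I =
        ((n - 1 : ℕ) : ℂ) * (Real.pi * Complex.I) := by
      rw [Nat.cast_sub hn]
      push_cast
      ring
    rw [e, Complex.exp_nat_mul, Complex.exp_pi_mul_I]
  have h4 : Complex.exp ((Th n (a :: l) : ℝ) * Complex.I) =
      Complex.exp ((((n : ℝ) - 1) * Real.pi : ℝ) * Complex.I) := by rw [h2, h3]
  rw [Complex.exp_eq_exp_iff_exists_int] at h4
  obtain ⟨k, hk⟩ := h4
  have h5 : Th n (a :: l) = ((n : ℝ) - 1) * Real.pi + k * (2 * Real.pi) := by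
    have hI : ((Th n (a :: l) : ℝ) : ℂ) * Complex.I =
        (((((n : ℝ) - 1) * Real.pi + k * (2 * Real.pi) : ℝ)) : ℂ) * Complex.I := by
      rw [hk]
      push_cast
      ring
    exact Complex.ofReal_injective (mul_right_cancel₀ Complex.I_ne_zero hI)
  unfold sg
  rw [h5]
  have e6 : (((n : ℝ) - 1) * Real.pi + k * (2 * Real.pi) - ((n : ℝ) - 1) * Real.pi) / 2 =
      k * Real.pi := by ring
  rw [e6]
  have h7 := Real.sin_sq_add_cos_sq (k * Real.pi)
  rw [Real.sin_int_mul_pi] at h7
  linarith [h7]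

theorem continuousAt_arc {X : Type*} [TopologicalSpace X] {f g : X → ℂ} {x : X}
    (hf : ContinuousAt f x) (hg : ContinuousAt g x) (h : NA (f x) (g x)) :
    ContinuousAt (fun y => arc (f y) (g y)) x := by
  unfold arc
  have h1 : ContinuousAt (fun y => (starRingEnd ℂ) (f y) * g y) x :=
    ((Complex.continuous_conj.continuousAt).comp hf).mul hg
  exact ContinuousAt.comp (g := Complex.arg) (Complex.continuousAt_arg h) h1

theorem eventually_NA {X : Type*} [TopologicalSpace X] {f g : X → ℂ} {x : X}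
    (hf : ContinuousAt f x) (hg : ContinuousAt g x) (h : NA (f x) (g x)) :
    ∀ᶠ y in nhds x, NA (f y) (g y) := by
  have h1 : ContinuousAt (fun y => (starRingEnd ℂ) (f y) * g y) x :=
    ((Complex.continuous_conj.continuousAt).comp hf).mul hg
  exact h1.eventually (Complex.isOpen_slitPlane.mem_nhds h)

theorem continuousAt_arcs {X : Type*} [TopologicalSpace X] (f : List (X → ℂ)) {x : X}
    (hf : ∀ g ∈ f, ContinuousAt g x) (h : NAl (f.map fun g => g x)) :
    ContinuousAt (fun y => arcs (f.map fun g => g y)) x ∧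
      ∀ᶠ y in nhds x, NAl (f.map fun g => g y) := by
  induction f with
  | nil =>
    constructor
    · exact continuousAt_const
    · exact Filter.Eventually.of_forall fun _ => trivial
  | cons a f ih =>
    cases f with
    | nil =>
      constructor
      · exact continuousAt_const
      · exact Filter.Eventually.of_forall fun _ => trivial
    | cons b f =>
      have ha := hf a List.mem_cons_self
      have hb := hf b (List.mem_cons_of_mem _ List.mem_cons_self)
      have h1 : NA (a x) (b x) := h.1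
      have h2 : NAl ((b :: f).map fun g => g x) := h.2
      obtain ⟨ih1, ih2⟩ := ih (fun g hg => hf g (List.mem_cons_of_mem _ hg)) h2
      constructor
      · have e : (fun y => arcs ((a :: b :: f).map fun g => g y)) =
            fun y => arc (a y) (b y) + arcs ((b :: f).map fun g => g y) := rfl
        rw [e]
        exact (continuousAt_arc ha hb h1).add ih1
      · filter_upwards [eventually_NA ha hb h1, ih2] with y hy1 hy2
        exact ⟨hy1, hy2⟩

/-- the sign is locally constant -/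
theorem sg_locally_constant {X : Type*} [TopologicalSpace X] {n : ℕ} (hn : 1 ≤ n)
    (f : List (X → ℂ)) (x : X) (hf : ∀ g ∈ f, ContinuousAt g x) (h : NAs n (f.map fun g => g x)) :
    ∀ᶠ y in nhds x, sg n (f.map fun g => g y) = sg n (f.map fun g => g x) := by
  obtain ⟨hne, hNA⟩ := h
  have hfne : f ≠ [] := by
    rintro rfl
    exact hne rfl
  obtain ⟨a, l, rfl⟩ := List.exists_cons_of_ne_nil hfne
  -- the closed list of functions
  let F : List (X → ℂ) := (a :: l) ++ [fun y => (-1) ^ (n - 1) * a y]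
  have hF : ∀ y, ((a :: l).map fun g => g y) ++
      [(-1) ^ (n - 1) * ((a :: l).map fun g => g y).headD 0] = F.map fun g => g y := by
    intro y
    simp [F]
  have ha : ContinuousAt a x := hf a List.mem_cons_self
  have hFc : ∀ g ∈ F, ContinuousAt g x := by
    intro g hg
    rcases List.mem_append.mp hg with hg | hg
    · exact hf g hg
    · rw [List.mem_singleton] at hg
      subst hg
      exact continuousAt_const.mul ha
  have hNA' : NAl (F.map fun g => g x) := by
    rw [← hF x]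
    exact hNA
  obtain ⟨h1, h2⟩ := continuousAt_arcs F hFc hNA'
  have hTh : ∀ y, Th n ((a :: l).map fun g => g y) = arcs (F.map fun g => g y) := by
    intro y
    rw [← hF y]
    rfl
  have hsg : ContinuousAt (fun y => sg n ((a :: l).map fun g => g y)) x := by
    have e : (fun y => sg n ((a :: l).map fun g => g y)) =
        fun y => Real.cos ((arcs (F.map fun g => g y) - ((n : ℝ) - 1) * Real.pi) / 2) := by
      funext y
      unfold sg
      rw [hTh y]
    rw [e]
    exact (Real.continuous_cos.continuousAt).comp ((h1.sub continuousAt_const).div_const 2)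
  have h3 : ∀ᶠ y in nhds x, |sg n ((a :: l).map fun g => g y) -
      sg n ((a :: l).map fun g => g x)| < 1 := by
    have := Metric.continuousAt_iff'.mp hsg 1 one_pos
    filter_upwards [this] with y hy
    rwa [Real.dist_eq] at hy
  have hx1 : sg n ((a :: l).map fun g => g x) ^ 2 = 1 := sg_sq hn _ ⟨hne, hNA⟩
  filter_upwards [h2, h3] with y hy1 hy2
  have hy3 : sg n ((a :: l).map fun g => g y) ^ 2 = 1 := by
    refine sg_sq hn _ ⟨by simp, ?_⟩
    rw [hF y]
    exact hy1
  have key : ∀ s : ℝ, s ^ 2 = 1 → s = 1 ∨ s = -1 := by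
    intro s hs
    have : (s - 1) * (s + 1) = 0 := by linear_combination hs
    rcases mul_eq_zero.mp this with h | h
    · left; linarith
    · right; linarith
  rcases key _ hx1 with h4 | h4
  all_goals rcases key _ hy3 with h5 | h5
  all_goals rw [h4, h5] at hy2 ⊢
  all_goals first
    | rfl
    | (exfalso; norm_num at hy2)

theorem arcs_append_congr (l1 : List ℂ) {l2 l3 : List ℂ} (h : arcs l2 = arcs l3)
    (h0 : l2.head? = l3.head?) : arcs (l1 ++ l2) = arcs (l1 ++ l3) := by
  induction l1 with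
  | nil => exact h
  | cons a l1 ih =>
    cases l1 with
    | nil =>
      cases l2 with
      | nil =>
        cases l3 with
        | nil => rfl
        | cons c l3 => simp at h0
      | cons b l2 =>
        cases l3 with
        | nil => simp at h0
        | cons c l3 =>
          have hbc : b = c := by simpa using h0
          subst hbc
          have e1 : arcs ([a] ++ b :: l2) = arc a b + arcs (b :: l2) := rfl
          have e2 : arcs ([a] ++ b :: l3) = arc a b + arcs (b :: l3) := rfl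
          rw [e1, e2, h]
    | cons b l1 =>
      have e1 : arcs (a :: b :: l1 ++ l2) = arc a b + arcs (b :: l1 ++ l2) := rfl
      have e2 : arcs (a :: b :: l1 ++ l3) = arc a b + arcs (b :: l1 ++ l3) := rfl
      rw [e1, e2, ih]

theorem head_append_cons (l1 l2 l3 : List ℂ) (a : ℂ) :
    (l1 ++ a :: l2).headD 0 = (l1 ++ a :: l3).headD 0 := by
  cases l1 <;> simp

/-- a positive multiple of the preceding vector can be deleted -/
theorem sg_delete_multiple (n : ℕ) (l1 l2 : List ℂ) (u : ℂ) (hu : u ≠ 0) {c : ℝ} (hc : 0 < c) :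
    sg n (l1 ++ u :: (c * u) :: l2) = sg n (l1 ++ u :: l2) := by
  unfold sg Th
  rw [head_append_cons l1 ((c * u) :: l2) l2 u]
  set e := (-1 : ℂ) ^ (n - 1) * (l1 ++ u :: l2).headD 0 with he
  have h1 : arcs (u :: (c * u) :: (l2 ++ [e])) = arcs (u :: (l2 ++ [e])) := by
    have h2 : arcs (u :: (c * u) :: (l2 ++ [e])) =
        arc u (c * u) + arcs ((c * u) :: (l2 ++ [e])) := rfl
    rw [h2, arc_mul_right u u hc, arc_self, zero_add]
    cases l2 with
    | nil =>
      have e1 : arcs (((c : ℂ) * u) :: ([] ++ [e])) = arc (c * u) e + arcs [e] := rfl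
      have e2 : arcs (u :: ([] ++ [e])) = arc u e + arcs [e] := rfl
      rw [e1, e2, arc_mul_left u e hc]
    | cons b l2 =>
      have e1 : arcs (((c : ℂ) * u) :: (b :: l2 ++ [e])) =
        arc (c * u) b + arcs (b :: l2 ++ [e]) := rfl
      have e2 : arcs (u :: (b :: l2 ++ [e])) = arc u b + arcs (b :: l2 ++ [e]) := rfl
      rw [e1, e2, arc_mul_left u b hc]
  have h3 := arcs_append_congr l1 h1 rfl
  rw [List.append_assoc, List.append_assoc]
  simp only [List.cons_append] at h3 ⊢
  rw [h3]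

/-- a positive multiple of the following vector can be deleted -/
theorem sg_delete_multiple' (n : ℕ) (l1 l2 : List ℂ) (u v : ℂ) (hu : u ≠ 0) {c : ℝ} (hc : 0 < c) :
    sg n (l1 ++ v :: (c * u) :: u :: l2) = sg n (l1 ++ v :: u :: l2) := by
  unfold sg Th
  rw [head_append_cons l1 ((c * u) :: u :: l2) (u :: l2) v]
  set e := (-1 : ℂ) ^ (n - 1) * (l1 ++ v :: u :: l2).headD 0 with he
  have h1 : arcs (v :: (c * u) :: u :: (l2 ++ [e])) = arcs (v :: u :: (l2 ++ [e])) := by
    have h2 : arcs (v :: (c * u) :: u :: (l2 ++ [e])) =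
        arc v (c * u) + (arc (c * u) u + arcs (u :: (l2 ++ [e]))) := rfl
    have h3 : arcs (v :: u :: (l2 ++ [e])) = arc v u + arcs (u :: (l2 ++ [e])) := rfl
    rw [h2, h3, arc_mul_right v u hc, arc_mul_left u u hc, arc_self, zero_add]
  have h3 := arcs_append_congr l1 h1 rfl
  rw [List.append_assoc, List.append_assoc]
  simp only [List.cons_append] at h3 ⊢
  rw [h3]

theorem arc_pos {v w : ℂ} (h : 0 < cr v w) : 0 < arc v w ∧ arc v w < Real.pi := by
  rw [cr_eq_im] at h
  unfold arc
  constructor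
  · rcases lt_or_eq_of_le (Complex.arg_nonneg_iff.mpr h.le) with h1 | h1
    · exact h1
    · exfalso
      have := (Complex.arg_eq_zero_iff.mp h1.symm).2
      linarith
  · refine lt_of_le_of_ne (Complex.arg_le_pi _) ?_
    intro h1
    have := (Complex.arg_eq_pi_iff.mp h1).2
    linarith

theorem arc_neg {v w : ℂ} (h : cr v w < 0) : arc v w < 0 ∧ -Real.pi < arc v w := by
  rw [cr_eq_im] at h
  unfold arc
  exact ⟨Complex.arg_neg_iff.mpr h, Complex.neg_pi_lt_arg _⟩

theorem arc_add {a f b : ℂ} (hf : f ≠ 0) (haf : NA a f) (hfb : NA f b)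
    (h : arc a f + arc f b ∈ Set.Ioc (-Real.pi) Real.pi) : arc a f + arc f b = arc a b := by
  unfold arc at *
  have h1 : (starRingEnd ℂ) a * f ≠ 0 := Complex.slitPlane_ne_zero haf
  have h2 : (starRingEnd ℂ) f * b ≠ 0 := Complex.slitPlane_ne_zero hfb
  have h3 := (Complex.arg_mul_eq_add_arg_iff h1 h2).mpr h
  rw [← h3]
  have e : (starRingEnd ℂ) a * f * ((starRingEnd ℂ) f * b) =
      ((Complex.normSq f : ℝ) : ℂ) * ((starRingEnd ℂ) a * b) := by
    rw [← Complex.mul_conj]
    ring
  rw [e, Complex.arg_real_mul _ (Complex.normSq_pos.mpr hf)]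

theorem arc_add_free {a f b : ℂ} (haf : cr a f ≠ 0) (hfb : cr f b ≠ 0)
    (hab : cr a b ≠ 0) (h : ∀ r s : ℝ, 0 < r → 0 < s → f ≠ -(r * a + s * b)) :
    arc a f + arc f b = arc a b := by
  have hf : f ≠ 0 := by
    rintro rfl
    apply haf
    simp [cr]
  have hlin : f = ((cr f b / cr a b : ℝ) : ℂ) * a + ((cr a f / cr a b : ℝ) : ℂ) * b := by
    apply Complex.ext
    · rw [Complex.add_re, Complex.re_ofReal_mul, Complex.re_ofReal_mul]
      field_simp
      unfold cr
      ring
    · rw [Complex.add_im, Complex.im_ofReal_mul, Complex.im_ofReal_mul]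
      field_simp
      unfold cr
      ring
  have hnot : ¬ (cr f b / cr a b < 0 ∧ cr a f / cr a b < 0) := by
    rintro ⟨h1, h2⟩
    refine h (-(cr f b / cr a b)) (-(cr a f / cr a b)) (by linarith) (by linarith) ?_
    rw [Complex.ofReal_neg, Complex.ofReal_neg]
    linear_combination hlin
  -- the sum of the two angles
  have h0 : Complex.exp (((arc a f + arc f b : ℝ) : ℂ) * Complex.I) *
      ((‖a‖ * ‖f‖ * (‖f‖ * ‖b‖) : ℝ) : ℂ) =
      ((Complex.normSq f : ℝ) : ℂ) * ((starRingEnd ℂ) a * b) := by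
    have h1 := exp_arc a f
    have h2 := exp_arc f b
    have e : Complex.exp (((arc a f + arc f b : ℝ) : ℂ) * Complex.I) =
        Complex.exp ((arc a f : ℝ) * Complex.I) * Complex.exp ((arc f b : ℝ) * Complex.I) := by
      rw [← Complex.exp_add]
      congr 1
      push_cast
      ring
    have e3 : (starRingEnd ℂ) a * f * ((starRingEnd ℂ) f * b) =
        ((Complex.normSq f : ℝ) : ℂ) * ((starRingEnd ℂ) a * b) := by
      rw [← Complex.mul_conj]
      ring
    rw [e, ← e3, ← h1, ← h2]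
    push_cast
    ring
  have hsin : Real.sin (arc a f + arc f b) * (‖a‖ * ‖f‖ * (‖f‖ * ‖b‖)) =
      Complex.normSq f * cr a b := by
    have h1 := congrArg Complex.im h0
    rw [Complex.im_mul_ofReal, Complex.im_ofReal_mul, Complex.exp_ofReal_mul_I_im,
      ← cr_eq_im] at h1
    exact h1
  have hnf : 0 < Complex.normSq f := Complex.normSq_pos.mpr hf
  have hnn : 0 ≤ ‖a‖ * ‖f‖ * (‖f‖ * ‖b‖) := by positivity
  apply arc_add hf (NA_of_cr_ne_zero haf) (NA_of_cr_ne_zero hfb)
  rcases lt_or_gt_of_ne haf with h1 | h1 <;> rcases lt_or_gt_of_ne hfb with h2 | h2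
  · -- both negative
    obtain ⟨p1, p2⟩ := arc_neg h1
    obtain ⟨q1, q2⟩ := arc_neg h2
    have hab' : cr a b < 0 := by
      rcases lt_or_gt_of_ne hab with h3 | h3
      · exact h3
      · exact absurd ⟨div_neg_of_neg_of_pos h2 h3, div_neg_of_neg_of_pos h1 h3⟩ hnot
    constructor
    · by_contra hle
      push Not at hle
      have hs : 0 ≤ Real.sin (arc a f + arc f b) := by
        have e : Real.sin (arc a f + arc f b) = Real.sin (arc a f + arc f b + 2 * Real.pi) := by
          rw [Real.sin_add_two_pi]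
        rw [e]
        exact Real.sin_nonneg_of_nonneg_of_le_pi (by linarith) (by linarith)
      have h4 : 0 ≤ Real.sin (arc a f + arc f b) * (‖a‖ * ‖f‖ * (‖f‖ * ‖b‖)) :=
        mul_nonneg hs hnn
      rw [hsin] at h4
      have h5 : Complex.normSq f * cr a b < 0 := mul_neg_of_pos_of_neg hnf hab'
      linarith
    · linarith [Real.pi_pos]
  · obtain ⟨p1, p2⟩ := arc_neg h1
    obtain ⟨q1, q2⟩ := arc_pos h2
    exact ⟨by linarith, by linarith⟩
  · obtain ⟨p1, p2⟩ := arc_pos h1
    obtain ⟨q1, q2⟩ := arc_neg h2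
    exact ⟨by linarith, by linarith⟩
  · obtain ⟨p1, p2⟩ := arc_pos h1
    obtain ⟨q1, q2⟩ := arc_pos h2
    have hab' : 0 < cr a b := by
      rcases lt_or_gt_of_ne hab with h3 | h3
      · exact absurd ⟨div_neg_of_pos_of_neg h2 h3, div_neg_of_pos_of_neg h1 h3⟩ hnot
      · exact h3
    constructor
    · linarith [Real.pi_pos]
    · by_contra hle
      push Not at hle
      have hs : Real.sin (arc a f + arc f b) ≤ 0 := by
        have e : Real.sin (arc a f + arc f b) = Real.sin (arc a f + arc f b - 2 * Real.pi) := by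
          rw [Real.sin_sub_two_pi]
        rw [e]
        exact Real.sin_nonpos_of_nonpos_of_neg_pi_le (by linarith) (by linarith)
      have h4 : Real.sin (arc a f + arc f b) * (‖a‖ * ‖f‖ * (‖f‖ * ‖b‖)) ≤ 0 :=
        mul_nonpos_of_nonpos_of_nonneg hs hnn
      rw [hsin] at h4
      have h5 : 0 < Complex.normSq f * cr a b := mul_pos hnf hab'
      linarith

/-- a vector whose opposite is not in the cone of its neighbours can be deleted -/
theorem sg_delete_free (n : ℕ) (l1 l2 : List ℂ) (a f b : ℂ) (haf : cr a f ≠ 0) (hfb : cr f b ≠ 0)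
    (hab : cr a b ≠ 0) (h : ∀ r s : ℝ, 0 < r → 0 < s → f ≠ -(r * a + s * b)) :
    sg n (l1 ++ a :: f :: b :: l2) = sg n (l1 ++ a :: b :: l2) := by
  unfold sg Th
  rw [head_append_cons l1 (f :: b :: l2) (b :: l2) a]
  set e := (-1 : ℂ) ^ (n - 1) * (l1 ++ a :: b :: l2).headD 0 with he
  have h1 : arcs (a :: f :: b :: (l2 ++ [e])) = arcs (a :: b :: (l2 ++ [e])) := by
    have h2 : arcs (a :: f :: b :: (l2 ++ [e])) =
        arc a f + (arc f b + arcs (b :: (l2 ++ [e]))) := rfl
    have h3 : arcs (a :: b :: (l2 ++ [e])) = arc a b + arcs (b :: (l2 ++ [e])) := rfl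
    rw [h2, h3, ← arc_add_free haf hfb hab h]
    ring
  have h3 := arcs_append_congr l1 h1 rfl
  rw [List.append_assoc, List.append_assoc]
  simp only [List.cons_append] at h3 ⊢
  rw [h3]

theorem arcs_map_neg (l : List ℂ) : arcs (l.map fun v => -v) = arcs l := by
  induction l with
  | nil => rfl
  | cons a l ih =>
    cases l with
    | nil => rfl
    | cons b l =>
      have e1 : arcs ((a :: b :: l).map fun v => -v) =
          arc (-a) (-b) + arcs ((b :: l).map fun v => -v) := rfl
      have e2 : arcs (a :: b :: l) = arc a b + arcs (b :: l) := rfl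
      rw [e1, e2, ih, arc_neg_neg]

theorem arcs_append (l1 l2 : List ℂ) (a b : ℂ) :
    arcs ((l1 ++ [a]) ++ b :: l2) = arcs (l1 ++ [a]) + arc a b + arcs (b :: l2) := by
  induction l1 with
  | nil =>
    have e1 : arcs (([] ++ [a]) ++ b :: l2) = arc a b + arcs (b :: l2) := rfl
    have e2 : arcs ([] ++ [a]) = 0 := rfl
    rw [e1, e2]
    ring
  | cons c l1 ih =>
    cases l1 with
    | nil =>
      have e1 : arcs (([c] ++ [a]) ++ b :: l2) = arc c a + (arc a b + arcs (b :: l2)) := rfl
      have e2 : arcs ([c] ++ [a]) = arc c a + arcs [a] := rfl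
      have e3 : arcs [a] = 0 := rfl
      rw [e1, e2, e3]
      ring
    | cons d l1 =>
      have e1 : arcs ((c :: d :: l1 ++ [a]) ++ b :: l2) =
          arc c d + arcs ((d :: l1 ++ [a]) ++ b :: l2) := rfl
      have e2 : arcs (c :: d :: l1 ++ [a]) = arc c d + arcs (d :: l1 ++ [a]) := rfl
      rw [e1, e2, ih]
      ring

theorem arc_flip_pos {a b : ℂ} (h : 0 < cr a b) : arc (-a) b = arc a b - Real.pi := by
  unfold arc
  rw [map_neg, neg_mul]
  exact Complex.arg_neg_eq_arg_sub_pi_of_im_pos (by rw [← cr_eq_im]; exact h)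

theorem arc_flip_neg {a b : ℂ} (h : cr a b < 0) : arc (-a) b = arc a b + Real.pi := by
  unfold arc
  rw [map_neg, neg_mul]
  exact Complex.arg_neg_eq_arg_add_pi_of_im_neg (by rw [← cr_eq_im]; exact h)

/-- changing the sign of an initial part and the dimension by one -/
theorem sg_flip {n : ℕ} (hn : 1 ≤ n) (l1 l2 : List ℂ) (a b : ℂ) (h : cr a b ≠ 0) :
    sg (n + 1) (l1 ++ a :: b :: l2) * |cr a b| =
      sg n ((l1 ++ [a]).map (fun v => -v) ++ b :: l2) * cr a b := by
  have hhead : ((l1 ++ [a]).map (fun v => -v) ++ b :: l2).headD 0 =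
      -((l1 ++ a :: b :: l2).headD 0) := by
    cases l1 <;> simp
  set z := (l1 ++ a :: b :: l2).headD 0 with hz
  have hend : (-1 : ℂ) ^ (n + 1 - 1) * z = (-1 : ℂ) ^ (n - 1) * (-z) := by
    obtain ⟨m, rfl⟩ : ∃ m, n = m + 1 := ⟨n - 1, by omega⟩
    simp only [Nat.add_sub_cancel]
    ring
  have h1 : Th (n + 1) (l1 ++ a :: b :: l2) =
      arcs (l1 ++ [a]) + arc a b + arcs (b :: (l2 ++ [(-1 : ℂ) ^ (n - 1) * (-z)])) := by
    have e : l1 ++ a :: b :: l2 ++ [(-1 : ℂ) ^ (n + 1 - 1) * z] =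
        (l1 ++ [a]) ++ b :: (l2 ++ [(-1 : ℂ) ^ (n - 1) * (-z)]) := by
      rw [hend]
      simp
    unfold Th
    rw [← hz, e, arcs_append]
  have h2 : Th n ((l1 ++ [a]).map (fun v => -v) ++ b :: l2) =
      arcs (l1 ++ [a]) + arc (-a) b + arcs (b :: (l2 ++ [(-1 : ℂ) ^ (n - 1) * (-z)])) := by
    unfold Th
    rw [hhead]
    have e : (l1 ++ [a]).map (fun v => -v) ++ b :: l2 ++ [(-1 : ℂ) ^ (n - 1) * (-z)] =
        (l1.map (fun v => -v) ++ [-a]) ++ b :: (l2 ++ [(-1 : ℂ) ^ (n - 1) * (-z)]) := by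
      simp
    rw [e, arcs_append]
    have e2 : l1.map (fun v => -v) ++ [-a] = (l1 ++ [a]).map (fun v => -v) := by simp
    rw [e2, arcs_map_neg]
  unfold sg
  rcases lt_or_gt_of_ne h with h3 | h3
  · have h4 := arc_flip_neg h3
    have e : (Th (n + 1) (l1 ++ a :: b :: l2) - (((n + 1 : ℕ) : ℝ) - 1) * Real.pi) / 2 =
        (Th n ((l1 ++ [a]).map (fun v => -v) ++ b :: l2) - ((n : ℝ) - 1) * Real.pi) / 2 -
          Real.pi := by
      rw [h1, h2, h4]
      push_cast
      ring
    rw [e, Real.cos_sub_pi, abs_of_neg h3]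
    ring
  · have h4 := arc_flip_pos h3
    have e : (Th (n + 1) (l1 ++ a :: b :: l2) - (((n + 1 : ℕ) : ℝ) - 1) * Real.pi) / 2 =
        (Th n ((l1 ++ [a]).map (fun v => -v) ++ b :: l2) - ((n : ℝ) - 1) * Real.pi) / 2 := by
      rw [h1, h2, h4]
      push_cast
      ring
    rw [e, abs_of_pos h3]

/-- two vectors, `n = 2` -/
theorem sg_two (a b : ℂ) (h : cr a b ≠ 0) : 0 < sg 2 [a, b] * cr a b := by
  have hsymm : cr (-b) a = cr a b := by
    unfold cr
    simp
    ring
  have h1 : Th 2 [a, b] = arc a b + arc b (-a) := by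
    have e : Th 2 [a, b] = arc a b + (arc b ((-1 : ℂ) ^ (2 - 1) * a) + 0) := rfl
    rw [e]
    norm_num
  have h2 : arc b (-a) = arc (-b) a := by
    rw [← arc_neg_neg b (-a), neg_neg]
  have hconj : ∀ u v : ℂ, arc (-v) u = Complex.arg (-(starRingEnd ℂ) ((starRingEnd ℂ) u * v)) := by
    intro u v
    unfold arc
    congr 1
    rw [map_mul, Complex.conj_conj, map_neg]
    ring
  have h3 : arc (-b) a = Complex.arg (-(starRingEnd ℂ) ((starRingEnd ℂ) a * b)) := hconj a b
  have hne : Complex.arg ((starRingEnd ℂ) a * b) ≠ Real.pi := by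
    intro h4
    apply h
    rw [cr_eq_im]
    exact (Complex.arg_eq_pi_iff.mp h4).2
  have hc : Complex.arg ((starRingEnd ℂ) ((starRingEnd ℂ) a * b)) = - arc a b := by
    rw [Complex.arg_conj, if_neg hne]
    rfl
  unfold sg
  rcases lt_or_gt_of_ne h with h4 | h4
  · have h5 : 0 < ((starRingEnd ℂ) ((starRingEnd ℂ) a * b)).im := by
      rw [Complex.conj_im, ← cr_eq_im]
      linarith
    rw [Complex.arg_neg_eq_arg_sub_pi_of_im_pos h5, hc] at h3
    rw [h1, h2, h3]
    have e : (arc a b + (-arc a b - Real.pi) - (((2 : ℕ) : ℝ) - 1) * Real.pi) / 2 = -Real.pi := by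
      push_cast
      ring
    rw [e, Real.cos_neg, Real.cos_pi]
    linarith
  · have h5 : ((starRingEnd ℂ) ((starRingEnd ℂ) a * b)).im < 0 := by
      rw [Complex.conj_im, ← cr_eq_im]
      linarith
    rw [Complex.arg_neg_eq_arg_add_pi_of_im_neg h5, hc] at h3
    rw [h1, h2, h3]
    have e : (arc a b + (-arc a b + Real.pi) - (((2 : ℕ) : ℝ) - 1) * Real.pi) / 2 = 0 := by
      push_cast
      ring
    rw [e, Real.cos_zero]
    linarith

end Pool.CTP
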