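import Pool.Agent.CTP.LinDefs

/-! Row COMP. Compactness of the solution set in the chart (page, 3.3). -/

namespace Pool.CTP

/-- the family: `q` moves linearly from `p` (`τ = 0`) to `q` (`τ = 1`) -/
noncomputable def BsT {n : ℕ} (P Q : List (List (Vec n))) (B C : List (Vec n)) (a p q b : Vec n)
    (τ : ℝ) : List (List (Vec n)) :=
  P ++ (B ++ [a, p]) :: (((1 - τ) • p + τ • q) :: b :: C) :: Q

namespace Comp

variable {n : ℕ}

/-- closedness of the solution condition in a continuous family -/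
theorem closed_sol {X : Type*} [TopologicalSpace X] (Fs : List (List (X → Vec n)))
    (hF : ∀ F ∈ Fs, ∀ f ∈ F, Continuous f) (AA : X → (Vec n →ₗ[ℝ] ℂ × ℂ))
    (hA : ∀ f : X → Vec n, Continuous f → Continuous (fun x => AA x (f x))) :
    IsClosed {x | Sol (AA x) (Fs.map fun F => F.map fun f => f x)} := by
  have : {x | Sol (AA x) (Fs.map fun F => F.map fun f => f x)} =
      ⋂ F ∈ Fs, ⋂ f ∈ F, ⋂ g ∈ F, {x | DD (AA x) (f x) (g x) = 0} := by
    ext x
    simp [Sol]
  rw [this]
  refine isClosed_biInter fun F hFF => isClosed_biInter fun f hf => isClosed_biInter fun g hg => ?_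
  refine isClosed_eq ?_ continuous_const
  have h1 := hA f (hF F hFF f hf)
  have h2 := hA g (hF F hFF g hg)
  unfold DD
  exact (h1.fst.mul h2.snd).sub (h1.snd.mul h2.fst)

/-- the family of `BsT` as a family of lists of functions -/
noncomputable def FsT (P Q : List (List (Vec n))) (B C : List (Vec n)) (a p q b : Vec n) :
    List (List (ℝ → Vec n)) :=
  (P.map fun L => L.map fun v _ => v) ++ ((B ++ [a, p]).map fun v _ => v) ::
    ((fun τ : ℝ => (1 - τ) • p + τ • q) :: (b :: C).map fun v _ => v) ::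
      Q.map fun L => L.map fun v _ => v

theorem FsT_eq (P Q : List (List (Vec n))) (B C : List (Vec n)) (a p q b : Vec n) (τ : ℝ) :
    (FsT P Q B C a p q b).map (fun F => F.map fun f => f τ) = BsT P Q B C a p q b τ := by
  simp [FsT, BsT, Function.comp_def]

theorem FsT_cont (P Q : List (List (Vec n))) (B C : List (Vec n)) (a p q b : Vec n) :
    ∀ F ∈ FsT P Q B C a p q b, ∀ f ∈ F, Continuous f := by
  intro F hF f hf
  simp only [FsT, List.mem_append, List.mem_cons, List.mem_map] at hF
  rcases hF with ⟨L, _, rfl⟩ | rfl | rfl | ⟨L, _, rfl⟩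
  · obtain ⟨v, _, rfl⟩ := List.mem_map.1 hf
    exact continuous_const
  · obtain ⟨v, _, rfl⟩ := List.mem_map.1 hf
    exact continuous_const
  · rcases List.mem_cons.1 hf with rfl | hf
    · fun_prop
    · obtain ⟨v, _, rfl⟩ := List.mem_map.1 hf
      exact continuous_const
  · obtain ⟨v, _, rfl⟩ := List.mem_map.1 hf
    exact continuous_const

/-- the set of solutions in a continuous family over the unit interval is closed -/
theorem closed_BsT {Y : Type*} [TopologicalSpace Y] (P Q : List (List (Vec n)))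
    (B C : List (Vec n)) (a p q b : Vec n) (AA : Y → (Vec n →ₗ[ℝ] ℂ × ℂ))
    (hA : ∀ f : ℝ × Y → Vec n, Continuous f → Continuous (fun x => AA x.2 (f x))) :
    IsClosed {x : ℝ × Y | Sol (AA x.2) (BsT P Q B C a p q b x.1)} := by
  have h := closed_sol (X := ℝ × Y)
    ((FsT P Q B C a p q b).map fun F => F.map fun f x => f x.1) (by
      intro F hF f hf
      obtain ⟨F', hF', rfl⟩ := List.mem_map.1 hF
      obtain ⟨f', hf', rfl⟩ := List.mem_map.1 hf
      exact (FsT_cont P Q B C a p q b F' hF' f' hf').comp continuous_fst)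
    (fun x => AA x.2) hA
  convert h using 3 with x
  rw [← FsT_eq]
  simp [Function.comp_def]

/-- the map with given values at the standard vectors -/
noncomputable def Acol (M : Fin n → ℂ × ℂ) : Vec n →ₗ[ℝ] ℂ × ℂ where
  toFun X := ∑ j, X j • M j
  map_add' X Y := by simp [add_smul, Finset.sum_add_distrib]
  map_smul' c X := by simp [Finset.smul_sum, smul_smul]

theorem Acol_apply (M : Fin n → ℂ × ℂ) (X : Vec n) : Acol M X = ∑ j, X j • M j := rfl

theorem Acol_eq (A : Vec n →ₗ[ℝ] ℂ × ℂ) : Acol (fun j => A (Pi.single j 1)) = A := by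
  ext X <;> simp [Acol_apply]

theorem Acol_single (M : Fin n → ℂ × ℂ) (j : Fin n) : Acol M (Pi.single j 1) = M j := by
  rw [Acol_apply, Finset.sum_eq_single j]
  · simp
  · intro b _ hb
    simp [hb]
  · simp

theorem Acol_cont {Y : Type*} [TopologicalSpace Y] (f : Y → Vec n) (hf : Continuous f)
    (g : Y → Fin n → ℂ × ℂ) (hg : Continuous g) : Continuous fun x => Acol (g x) (f x) := by
  simp only [Acol_apply]
  fun_prop

/-- normalisation of a rank two map at two standard vectors -/
theorem exists_normalised (A : Vec n →ₗ[ℝ] ℂ × ℂ) (i j : Fin n)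
    (hD : DD A (Pi.single i 1) (Pi.single j 1) ≠ 0) :
    ∃ M : Fin n → ℂ × ℂ, M i = (1, 0) ∧ M j = (0, 1) ∧
      (∀ k, M k = (DD A (Pi.single k 1) (Pi.single j 1) / DD A (Pi.single i 1) (Pi.single j 1),
        DD A (Pi.single i 1) (Pi.single k 1) / DD A (Pi.single i 1) (Pi.single j 1))) ∧
      ∀ X Y, DD (Acol M) X Y = DD A X Y / DD A (Pi.single i 1) (Pi.single j 1) := by
  set D := DD A (Pi.single i 1) (Pi.single j 1) with hDdef
  set M : Fin n → ℂ × ℂ := fun k => (DD A (Pi.single k 1) (Pi.single j 1) / D,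
        DD A (Pi.single i 1) (Pi.single k 1) / D) with hM
  have key : ∀ X, Acol M X = (DD A X (Pi.single j 1) / D, DD A (Pi.single i 1) X / D) := by
    intro X
    have hX : X = ∑ k, X k • (Pi.single k 1 : Vec n) := by
      ext k; simp [Finset.sum_apply, Pi.single_apply]
    rw [Acol_apply]
    have h1 : (DD A X (Pi.single j 1) / D : ℂ) = ∑ k, X k • (DD A (Pi.single k 1) (Pi.single j 1) / D) := by
      conv_lhs => rw [hX]
      simp only [DD, map_sum, map_smul, Prod.fst_sum, Prod.snd_sum, Prod.smul_fst, Prod.smul_snd,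
        Finset.sum_mul, Finset.sum_div, sub_div]
      rw [← Finset.sum_sub_distrib]
      refine Finset.sum_congr rfl fun k _ => ?_
      simp only [Complex.real_smul]
      ring
    have h2 : (DD A (Pi.single i 1) X / D : ℂ) = ∑ k, X k • (DD A (Pi.single i 1) (Pi.single k 1) / D) := by
      conv_lhs => rw [hX]
      simp only [DD, map_sum, map_smul, Prod.fst_sum, Prod.snd_sum, Prod.smul_fst, Prod.smul_snd,
        Finset.mul_sum, Finset.sum_div, sub_div]
      rw [← Finset.sum_sub_distrib]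
      refine Finset.sum_congr rfl fun k _ => ?_
      simp only [Complex.real_smul]
      ring
    rw [h1, h2]
    ext
    · simp [Prod.fst_sum, hM]
    · simp [Prod.snd_sum, hM]
  have hD0 : D ≠ 0 := hD
  refine ⟨M, ?_, ?_, fun k => rfl, ?_⟩
  · simp only [hM, Prod.mk.injEq]
    refine ⟨div_self hD0, ?_⟩
    have : DD A (Pi.single i 1) (Pi.single i 1) = 0 := by unfold DD; ring
    rw [this, zero_div]
  · simp only [hM, Prod.mk.injEq]
    refine ⟨?_, div_self hD0⟩
    have : DD A (Pi.single j 1) (Pi.single j 1) = 0 := by unfold DD; ring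
    rw [this, zero_div]
  · intro X Y
    have e : DD (Acol M) X Y = (DD A X (Pi.single j 1) / D) * (DD A (Pi.single i 1) Y / D) -
        (DD A (Pi.single i 1) X / D) * (DD A Y (Pi.single j 1) / D) := by
      rw [DD, key X, key Y]
    rw [e]
    field_simp
    rw [hDdef]
    unfold DD
    ring

theorem Ach_cont {m : ℕ} {Y : Type*} [TopologicalSpace Y] (f : Y → Vec (m + 2))
    (hf : Continuous f) (g : Y → Fin (2 * m) → ℂ) (hg : Continuous g) :
    Continuous fun x => Ach (g x) (f x) := by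
  have e : ∀ x, Ach (g x) (f x) =
      (((f x 0 : ℝ) : ℂ) + ∑ j : Fin m, ((f x j.succ.succ : ℝ) : ℂ) * g x (i0 j),
        ((f x 1 : ℝ) : ℂ) + ∑ j : Fin m, ((f x j.succ.succ : ℝ) : ℂ) * g x (i1 j)) := fun x => rfl
  simp only [e]
  refine Continuous.prodMk ?_ ?_ <;>
  · refine Continuous.add (by fun_prop) (continuous_finsetSum _ fun j _ => ?_)
    fun_prop

end Comp

open Pool.CTP.Comp in
theorem comp_bt {m : ℕ} (P Q : List (List (Vec (m + 2)))) (B C : List (Vec (m + 2)))
    (a p q b : Vec (m + 2))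
    (h : ∀ τ : ℝ, 0 ≤ τ → τ ≤ 1 → ∀ A : Vec (m + 2) →ₗ[ℝ] ℂ × ℂ, Rk2 A →
      Sol A (BsT P Q B C a p q b τ) → DD A (e0 m) (e1 m) ≠ 0) :
    IsCompact {x : ℝ × (Fin (2 * m) → ℂ) | 0 ≤ x.1 ∧ x.1 ≤ 1 ∧
      Sol (Ach x.2) (BsT P Q B C a p q b x.1)} := by
  -- the normalised compact sets
  have hK : ∀ i j : Fin (m + 2), ∃ c : ℝ, 0 < c ∧ ∀ τ : ℝ, 0 ≤ τ → τ ≤ 1 →
      ∀ M : Fin (m + 2) → ℂ × ℂ, M i = (1, 0) → M j = (0, 1) → (∀ k, ‖M k‖ ≤ 1) →
      Sol (Acol M) (BsT P Q B C a p q b τ) → c ≤ ‖DD (Acol M) (e0 m) (e1 m)‖ := by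
    intro i j
    set K : Set (ℝ × (Fin (m + 2) → ℂ × ℂ)) := {x | 0 ≤ x.1 ∧ x.1 ≤ 1 ∧ x.2 i = (1, 0) ∧
      x.2 j = (0, 1) ∧ (∀ k, ‖x.2 k‖ ≤ 1) ∧ Sol (Acol x.2) (BsT P Q B C a p q b x.1)} with hKdef
    have hcl : IsClosed K := by
      have h1 : IsClosed {x : ℝ × (Fin (m + 2) → ℂ × ℂ) | 0 ≤ x.1} :=
        isClosed_le continuous_const continuous_fst
      have h2 : IsClosed {x : ℝ × (Fin (m + 2) → ℂ × ℂ) | x.1 ≤ 1} :=
        isClosed_le continuous_fst continuous_const
      have h3 : IsClosed {x : ℝ × (Fin (m + 2) → ℂ × ℂ) | x.2 i = (1, 0)} :=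
        isClosed_eq (by fun_prop) continuous_const
      have h4 : IsClosed {x : ℝ × (Fin (m + 2) → ℂ × ℂ) | x.2 j = (0, 1)} :=
        isClosed_eq (by fun_prop) continuous_const
      have h5 : IsClosed {x : ℝ × (Fin (m + 2) → ℂ × ℂ) | ∀ k, ‖x.2 k‖ ≤ 1} := by
        have e : {x : ℝ × (Fin (m + 2) → ℂ × ℂ) | ∀ k, ‖x.2 k‖ ≤ 1} =
            ⋂ k, {x : ℝ × (Fin (m + 2) → ℂ × ℂ) | ‖x.2 k‖ ≤ 1} := by
          ext x; simp
        rw [e]
        exact isClosed_iInter fun k => isClosed_le (by fun_prop) continuous_const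
      have h6 : IsClosed {x : ℝ × (Fin (m + 2) → ℂ × ℂ) |
          Sol (Acol x.2) (BsT P Q B C a p q b x.1)} :=
        closed_BsT P Q B C a p q b Acol fun f hf => Acol_cont f hf _ continuous_snd
      have h7 := h1.inter (h2.inter (h3.inter (h4.inter (h5.inter h6))))
      rw [hKdef]
      exact h7
    have hb : Bornology.IsBounded K := by
      refine (Metric.isBounded_closedBall (x := (0 : ℝ × (Fin (m + 2) → ℂ × ℂ))) (r := 1)).subset ?_
      intro x hx
      rw [mem_closedBall_zero_iff, Prod.norm_def]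
      refine max_le ?_ ?_
      · rw [Real.norm_eq_abs, abs_of_nonneg hx.1]
        exact hx.2.1
      · exact (pi_norm_le_iff_of_nonneg zero_le_one).2 hx.2.2.2.2.1
    have hcomp : IsCompact K := Metric.isCompact_of_isClosed_isBounded hcl hb
    have hcont : Continuous fun x : ℝ × (Fin (m + 2) → ℂ × ℂ) =>
        ‖DD (Acol x.2) (e0 m) (e1 m)‖ := by
      have h1 : Continuous fun x : ℝ × (Fin (m + 2) → ℂ × ℂ) => Acol x.2 (e0 m) :=
        Acol_cont _ continuous_const _ continuous_snd
      have h2 : Continuous fun x : ℝ × (Fin (m + 2) → ℂ × ℂ) => Acol x.2 (e1 m) :=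
        Acol_cont _ continuous_const _ continuous_snd
      unfold DD
      exact ((h1.fst.mul h2.snd).sub (h1.snd.mul h2.fst)).norm
    rcases K.eq_empty_or_nonempty with hKe | hKne
    · refine ⟨1, one_pos, fun τ h0 h1 M hi hj hk hs => ?_⟩
      have : (τ, M) ∈ K := ⟨h0, h1, hi, hj, hk, hs⟩
      rw [hKe] at this
      exact this.elim
    · obtain ⟨x0, hx0, hmin⟩ := hcomp.exists_isMinOn hKne hcont.continuousOn
      refine ⟨‖DD (Acol x0.2) (e0 m) (e1 m)‖, ?_, fun τ h0 h1 M hi hj hk hs => ?_⟩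
      · rw [norm_pos_iff]
        refine h x0.1 hx0.1 hx0.2.1 _ ?_ hx0.2.2.2.2.2
        refine ⟨Pi.single i 1, Pi.single j 1, ?_⟩
        rw [DD, Acol_single, Acol_single, hx0.2.2.1, hx0.2.2.2.1]
        simp
      · have hmem : (τ, M) ∈ K := ⟨h0, h1, hi, hj, hk, hs⟩
        have hm := isMinOn_iff.1 hmin (τ, M) hmem
        simpa only using hm
  choose c hc0 hc using hK
  -- a common lower bound
  obtain ⟨c0, hc00, hc0le⟩ : ∃ c0 : ℝ, 0 < c0 ∧ ∀ i j, c0 ≤ c i j := by
    obtain ⟨⟨i0', j0'⟩, _, hmin⟩ := Finset.exists_min_image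
      (Finset.univ : Finset (Fin (m + 2) × Fin (m + 2))) (fun x => c x.1 x.2)
      ⟨(0, 0), Finset.mem_univ _⟩
    exact ⟨c i0' j0', hc0 _ _, fun i j => hmin (i, j) (Finset.mem_univ _)⟩
  -- closed and bounded
  refine Metric.isCompact_of_isClosed_isBounded ?_ ?_
  · have h1 : IsClosed {x : ℝ × (Fin (2 * m) → ℂ) | 0 ≤ x.1} :=
      isClosed_le continuous_const continuous_fst
    have h2 : IsClosed {x : ℝ × (Fin (2 * m) → ℂ) | x.1 ≤ 1} :=
      isClosed_le continuous_fst continuous_const
    have h3 : IsClosed {x : ℝ × (Fin (2 * m) → ℂ) |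
        Sol (Ach x.2) (BsT P Q B C a p q b x.1)} := by
      exact closed_BsT P Q B C a p q b Ach fun f hf => Ach_cont f hf _ continuous_snd
    exact h1.inter (h2.inter h3)
  · refine (Metric.isBounded_closedBall
      (x := (0 : ℝ × (Fin (2 * m) → ℂ))) (r := max 1 (1 / c0))).subset ?_
    intro x hx
    rw [mem_closedBall_zero_iff, Prod.norm_def]
    refine max_le ?_ ?_
    · rw [Real.norm_eq_abs, abs_of_nonneg hx.1]
      exact hx.2.1.trans (le_max_left _ _)
    · set A := Ach x.2 with hA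
      have hA0 : A (e0 m) = (1, 0) := by
        ext <;> simp [A, Ach, e0]
      have hA1 : A (e1 m) = (0, 1) := by
        have hz : ∀ j : Fin m, (Pi.single 1 1 : Vec (m + 2)) j.succ.succ = 0 := fun j => by
          rw [Pi.single_apply, if_neg (by simp [Fin.ext_iff])]
        ext <;> simp [A, Ach, e1, hz]
      -- the maximal minor
      obtain ⟨⟨i, j⟩, _, hmax⟩ := Finset.exists_max_image
        (Finset.univ : Finset (Fin (m + 2) × Fin (m + 2)))
        (fun y => ‖DD A (Pi.single y.1 1) (Pi.single y.2 1)‖) ⟨(0, 0), Finset.mem_univ _⟩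
      set D := DD A (Pi.single i 1) (Pi.single j 1) with hD
      have hmax' : ∀ k l : Fin (m + 2), ‖DD A (Pi.single k 1) (Pi.single l 1)‖ ≤ ‖D‖ :=
        fun k l => hmax (k, l) (Finset.mem_univ _)
      have hD1 : 1 ≤ ‖D‖ := by
        have := hmax' 0 1
        have e : DD A (Pi.single 0 1) (Pi.single 1 1) = 1 := by
          rw [DD]
          have h0 : A (Pi.single 0 1) = (1, 0) := hA0
          have h1 : A (Pi.single 1 1) = (0, 1) := hA1
          rw [h0, h1]; simp
        rw [e, norm_one] at this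
        exact this
      have hD0 : D ≠ 0 := by
        intro h0
        rw [h0, norm_zero] at hD1
        linarith
      obtain ⟨M, hMi, hMj, hMk, hMD⟩ := exists_normalised A i j hD0
      have hle := hc i j x.1 hx.1 hx.2.1 M hMi hMj (by
        intro k
        rw [hMk k, Prod.norm_def]
        refine max_le ?_ ?_
        · show ‖DD A (Pi.single k 1) (Pi.single j 1) / D‖ ≤ 1
          rw [norm_div]
          exact (div_le_one (by linarith)).2 (hmax' k j)
        · show ‖DD A (Pi.single i 1) (Pi.single k 1) / D‖ ≤ 1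
          rw [norm_div]
          exact (div_le_one (by linarith)).2 (hmax' i k)) (by
        intro L hL v hv w hw
        rw [hMD, hx.2.2 L hL v hv w hw, zero_div])
      have hDD01 : DD A (e0 m) (e1 m) = 1 := by rw [DD, hA0, hA1]; simp
      rw [hMD, hDD01, norm_div, norm_one] at hle
      have hDle : ‖D‖ ≤ 1 / c0 := by
        have h1 : c0 ≤ 1 / ‖D‖ := (hc0le i j).trans hle
        rw [le_div_iff₀ (by linarith)] at h1
        rw [le_div_iff₀ hc00]
        linarith
      rw [pi_norm_le_iff_of_nonneg (le_trans zero_le_one (le_max_left _ _))]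
      intro k
      refine (?_ : ‖x.2 k‖ ≤ ‖D‖).trans (hDle.trans (le_max_right _ _))
      -- the coordinate is a minor
      have hAs : ∀ l : Fin m, A (Pi.single l.succ.succ 1) = (x.2 (i0 l), x.2 (i1 l)) := by
        intro l
        have e1' : (Pi.single l.succ.succ 1 : Vec (m + 2)) 0 = 0 := by
          rw [Pi.single_apply, if_neg (by simp [Fin.ext_iff])]
        have e2' : (Pi.single l.succ.succ 1 : Vec (m + 2)) 1 = 0 := by
          rw [Pi.single_apply, if_neg (by simp [Fin.ext_iff])]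
        ext1
        · show algebraMap ℝ ℂ ((Pi.single l.succ.succ 1 : Vec (m + 2)) 0) +
            ∑ j : Fin m, algebraMap ℝ ℂ ((Pi.single l.succ.succ 1 : Vec (m + 2)) j.succ.succ) *
              x.2 (i0 j) = x.2 (i0 l)
          rw [e1', Finset.sum_eq_single l]
          · simp
          · intro b _ hb
            simp [hb]
          · simp
        · show algebraMap ℝ ℂ ((Pi.single l.succ.succ 1 : Vec (m + 2)) 1) +
            ∑ j : Fin m, algebraMap ℝ ℂ ((Pi.single l.succ.succ 1 : Vec (m + 2)) j.succ.succ) *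
              x.2 (i1 j) = x.2 (i1 l)
          rw [e2', Finset.sum_eq_single l]
          · simp
          · intro b _ hb
            simp [hb]
          · simp
      obtain ⟨l, hl | hl⟩ : ∃ l : Fin m, k = i0 l ∨ k = i1 l := by
        have hk := k.2
        refine ⟨⟨(k : ℕ) / 2, by omega⟩, ?_⟩
        rcases Nat.mod_two_eq_zero_or_one (k : ℕ) with h0 | h0
        · left; apply Fin.ext; simp only [i0]; omega
        · right; apply Fin.ext; simp only [i1]; omega
      · have e : DD A (Pi.single l.succ.succ 1) (Pi.single 1 1) = x.2 k := by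
          have h1 : A (Pi.single 1 1) = (0, 1) := hA1
          rw [DD, hAs l, h1, hl]; simp
        rw [← e]
        exact hmax' _ _
      · have e : DD A (Pi.single 0 1) (Pi.single l.succ.succ 1) = x.2 k := by
          have h0 : A (Pi.single 0 1) = (1, 0) := hA0
          rw [DD, hAs l, h0, hl]; simp
        rw [← e]
        exact hmax' _ _

end Pool.CTP
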