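import Pool.Agent.CTP.Lin

/-! Row CORE2, auxiliary lemmas (valid over any field): parallel images, merging blocks,
contraction of blocks. -/

namespace Pool.CTP

section general
variable {n : ℕ} {K : Type*} [Field K] [Algebra ℝ K]

theorem DD_symm (A : Vec n →ₗ[ℝ] K × K) (x y : Vec n) : DD A y x = - DD A x y := by
  unfold DD; ring

theorem DD_self (A : Vec n →ₗ[ℝ] K × K) (x : Vec n) : DD A x x = 0 := by
  unfold DD; ring

theorem DD_smul_left (A : Vec n →ₗ[ℝ] K × K) (r : ℝ) (x y : Vec n) :
    DD A (r • x) y = algebraMap ℝ K r * DD A x y := by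
  unfold DD
  rw [map_smul]
  simp only [Prod.smul_fst, Prod.smul_snd]
  simp only [Algebra.smul_def]
  ring

theorem DD_smul_right (A : Vec n →ₗ[ℝ] K × K) (r : ℝ) (x y : Vec n) :
    DD A x (r • y) = algebraMap ℝ K r * DD A x y := by
  unfold DD
  rw [map_smul]
  simp only [Prod.smul_fst, Prod.smul_snd]
  simp only [Algebra.smul_def]
  ring

theorem DD_neg_left (A : Vec n →ₗ[ℝ] K × K) (x y : Vec n) : DD A (-x) y = - DD A x y := by
  unfold DD
  rw [map_neg]
  simp only [Prod.fst_neg, Prod.snd_neg]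
  ring

theorem DD_neg_right (A : Vec n →ₗ[ℝ] K × K) (x y : Vec n) : DD A x (-y) = - DD A x y := by
  unfold DD
  rw [map_neg]
  simp only [Prod.fst_neg, Prod.snd_neg]
  ring

theorem DD_comp {k : ℕ} (A : Vec k →ₗ[ℝ] K × K) (π : Vec n →ₗ[ℝ] Vec k) (x y : Vec n) :
    DD (A ∘ₗ π) x y = DD A (π x) (π y) := rfl

theorem DD_eq_zero_of_left {A : Vec n →ₗ[ℝ] K × K} {x : Vec n} (h : A x = 0) (y : Vec n) :
    DD A x y = 0 := by
  unfold DD; rw [h]; simp

theorem DD_trans (A : Vec n →ₗ[ℝ] K × K) {x y z : Vec n} (hy : A y ≠ 0) (h1 : DD A x y = 0)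
    (h2 : DD A y z = 0) : DD A x z = 0 := by
  unfold DD at *
  by_cases h : (A y).1 = 0
  · have h' : (A y).2 ≠ 0 := fun h' => hy (Prod.ext h h')
    rw [h] at h1 h2
    have e1 : (A x).1 * (A y).2 = 0 := by linear_combination h1
    have e2 : (A y).2 * (A z).1 = 0 := by linear_combination -h2
    have e1' : (A x).1 = 0 := by
      rcases mul_eq_zero.mp e1 with h3 | h3
      · exact h3
      · exact absurd h3 h'
    have e2' : (A z).1 = 0 := by
      rcases mul_eq_zero.mp e2 with h3 | h3
      · exact absurd h3 h'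
      · exact h3
    rw [e1', e2']; ring
  · have : (A y).1 * ((A x).1 * (A z).2 - (A x).2 * (A z).1) = 0 := by
      linear_combination (A x).1 * h2 + (A z).1 * h1
    rcases mul_eq_zero.mp this with h3 | h3
    · exact absurd h3 h
    · exact h3

/-- all images of the list are parallel -/
def Par (A : Vec n →ₗ[ℝ] K × K) (B : List (Vec n)) : Prop :=
  ∀ x ∈ B, ∀ x' ∈ B, DD A x x' = 0

theorem sol_iff_par (A : Vec n →ₗ[ℝ] K × K) (Bs : List (List (Vec n))) :
    Sol A Bs ↔ ∀ B ∈ Bs, Par A B := Iff.rfl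

theorem Par.append {A : Vec n →ₗ[ℝ] K × K} {B C : List (Vec n)} (hB : Par A B) (hC : Par A C)
    {a b : Vec n} (ha : a ∈ B) (hb : b ∈ C) (ha0 : A a ≠ 0) (hb0 : A b ≠ 0)
    (hab : DD A a b = 0) : Par A (B ++ C) := by
  have key : ∀ x ∈ B, ∀ y ∈ C, DD A x y = 0 := by
    intro x hx y hy
    exact DD_trans A hb0 (DD_trans A ha0 (hB x hx a ha) hab) (hC b hb y hy)
  intro x hx y hy
  rcases List.mem_append.mp hx with hx | hx <;> rcases List.mem_append.mp hy with hy | hy
  · exact hB x hx y hy
  · exact key x hx y hy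
  · rw [DD_symm, key y hy x hx, neg_zero]
  · exact hC x hx y hy

theorem Par.sub {A : Vec n →ₗ[ℝ] K × K} {B C : List (Vec n)} (hB : Par A B) (h : C ⊆ B) :
    Par A C := fun x hx y hy => hB x (h hx) y (h hy)

theorem Par.map_smul {A : Vec n →ₗ[ℝ] K × K} {B : List (Vec n)} (hB : Par A B) (r : ℝ) :
    Par A (B.map fun v => r • v) := by
  intro x hx y hy
  obtain ⟨x', hx', rfl⟩ := List.mem_map.mp hx
  obtain ⟨y', hy', rfl⟩ := List.mem_map.mp hy
  rw [DD_smul_left, DD_smul_right, hB x' hx' y' hy']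
  ring

theorem Par.of_comp_neg {k : ℕ} {A : Vec k →ₗ[ℝ] K × K} {π : Vec n →ₗ[ℝ] Vec k}
    {B C : List (Vec n)} (h : Par (A ∘ₗ π) (B ++ C)) : Par A (negB π B ++ C.map π) := by
  have h' : ∀ x ∈ negB π B ++ C.map π, ∃ x' ∈ B ++ C, x = π x' ∨ x = - π x' := by
    intro x hx
    rcases List.mem_append.mp hx with hx | hx
    · obtain ⟨x', hx', rfl⟩ := List.mem_map.mp hx
      exact ⟨x', List.mem_append.mpr (Or.inl hx'), Or.inr rfl⟩
    · obtain ⟨x', hx', rfl⟩ := List.mem_map.mp hx
      exact ⟨x', List.mem_append.mpr (Or.inr hx'), Or.inl rfl⟩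
  intro x hx y hy
  obtain ⟨x', hx', ex⟩ := h' x hx
  obtain ⟨y', hy', ey⟩ := h' y hy
  have e : DD A (π x') (π y') = 0 := h x' hx' y' hy'
  rcases ex with ex | ex <;> rcases ey with ey | ey <;> rw [ex, ey] <;>
    simp only [DD_neg_left, DD_neg_right, e, neg_zero]

theorem Rk2.of_comp {k : ℕ} {A : Vec k →ₗ[ℝ] K × K} {π : Vec n →ₗ[ℝ] Vec k}
    (h : Rk2 (A ∘ₗ π)) : Rk2 A := by
  obtain ⟨x, y, hxy⟩ := h
  exact ⟨π x, π y, hxy⟩

theorem not_rk2_one (A : Vec 1 →ₗ[ℝ] K × K) : ¬ Rk2 A := by
  rintro ⟨x, y, h⟩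
  apply h
  have hx : x = (x 0) • (fun _ => (1 : ℝ)) := by
    ext i
    have : i = 0 := Subsingleton.elim _ _
    simp [this]
  have hy : y = (y 0) • (fun _ => (1 : ℝ)) := by
    ext i
    have : i = 0 := Subsingleton.elim _ _
    simp [this]
  rw [hx, hy, DD_smul_left, DD_smul_right, DD_self]
  ring

/-- a map of rank two on the plane is injective -/
theorem ne_zero_two {A : Vec 2 →ₗ[ℝ] K × K} (hA : Rk2 A) {x : Vec 2} (hx : x ≠ 0) : A x ≠ 0 := by
  intro h
  obtain ⟨π, hπ⟩ := exists_contr (n := 1) le_rfl x hx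
  obtain ⟨A', hA'⟩ := hπ.factor A h
  rw [hA'] at hA
  exact not_rk2_one A' hA.of_comp

/-- the blocks after the contraction -/
def cbl {k : ℕ} (π : Vec n →ₗ[ℝ] Vec k) (P Q : List (List (Vec n))) (B C : List (Vec n)) :
    List (List (Vec k)) := P.map (negB π) ++ (negB π B ++ C.map π) :: Q.map (List.map π)

theorem flatten_map_map {α β : Type*} (f : α → β) (P : List (List α)) :
    (P.map (List.map f)).flatten = P.flatten.map f := by
  rw [List.map_flatten]

theorem cbl_flatten {k : ℕ} (π : Vec n →ₗ[ℝ] Vec k) (P Q : List (List (Vec n)))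
    (B C : List (Vec n)) :
    (cbl π P Q B C).flatten = negB π (P.flatten ++ B) ++ (C ++ Q.flatten).map π := by
  have h1 : (P.map (negB π)).flatten = negB π P.flatten := by
    unfold negB
    rw [List.map_flatten]
  have h2 : (Q.map (List.map π)).flatten = Q.flatten.map π := by
    rw [List.map_flatten]
  unfold cbl
  rw [List.flatten_append, List.flatten_cons, h1, h2]
  unfold negB
  simp [List.map_append, List.append_assoc]

theorem cbl_length {k : ℕ} (π : Vec n →ₗ[ℝ] Vec k) (P Q : List (List (Vec n)))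
    (B C : List (Vec n)) : (cbl π P Q B C).length = (P ++ (B ++ C) :: Q).length := by
  simp [cbl]

theorem cbl_flatten_length {k : ℕ} (π : Vec n →ₗ[ℝ] Vec k) (P Q : List (List (Vec n)))
    (B C : List (Vec n)) :
    (cbl π P Q B C).flatten.length = (P ++ (B ++ C) :: Q).flatten.length := by
  rw [cbl_flatten]
  simp only [negB, List.length_append, List.length_map, List.flatten_append, List.flatten_cons]
  ring

theorem cbl_sol {k : ℕ} {π : Vec n →ₗ[ℝ] Vec k} {P Q : List (List (Vec n))}
    {B C : List (Vec n)} {A : Vec k →ₗ[ℝ] K × K} (h : Sol (A ∘ₗ π) (P ++ (B ++ C) :: Q)) :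
    Sol A (cbl π P Q B C) := by
  intro D hD
  rcases List.mem_append.mp hD with hD | hD
  · obtain ⟨D', hD', rfl⟩ := List.mem_map.mp hD
    have h1 : Par (A ∘ₗ π) (D' ++ []) := by
      rw [List.append_nil]
      exact h D' (List.mem_append.mpr (Or.inl hD'))
    have h2 : Par A (negB π D') := by simpa using h1.of_comp_neg
    exact h2
  · rcases List.mem_cons.mp hD with rfl | hD
    · exact Par.of_comp_neg (h (B ++ C) (List.mem_append.mpr (Or.inr (List.mem_cons_self))))
    · obtain ⟨D', hD', rfl⟩ := List.mem_map.mp hD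
      have h1 : Par (A ∘ₗ π) ([] ++ D') := by
        rw [List.nil_append]
        exact h D' (List.mem_append.mpr (Or.inr (List.mem_cons_of_mem _ hD')))
      have h2 : Par A (D'.map π) := by simpa [negB] using h1.of_comp_neg
      exact h2

/-- contraction of data with a vector in the kernel: the bound in dimension `n` implies a
stronger bound -/
theorem contr_bound {n : ℕ}
    (IH : ∀ Bs : List (List (Vec n)), TP n Bs.flatten → ∀ A : Vec n →ₗ[ℝ] K × K, Rk2 A →
      Sol A Bs → Bs.flatten.length + 4 ≤ Bs.length + 2 * n) (hn : 1 ≤ n)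
    (P Q : List (List (Vec (n + 1)))) (B C : List (Vec (n + 1))) (x : Vec (n + 1))
    (htp : TP (n + 1) (P.flatten ++ B ++ x :: (C ++ Q.flatten))) (hx : x ≠ 0)
    (A : Vec (n + 1) →ₗ[ℝ] K × K) (hA : Rk2 A) (hAx : A x = 0)
    (hs : Sol A (P ++ (B ++ C) :: Q)) :
    (P ++ (B ++ C) :: Q).flatten.length + 4 ≤ (P ++ (B ++ C) :: Q).length + 2 * n := by
  obtain ⟨π, hπ⟩ := exists_contr hn x hx
  obtain ⟨A', rfl⟩ := hπ.factor A hAx
  have h1 : TP n (cbl π P Q B C).flatten := by
    rw [cbl_flatten]
    exact TP.contr hπ htp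
  have h2 := IH _ h1 A' hA.of_comp (cbl_sol hs)
  rw [cbl_length, cbl_flatten_length] at h2
  exact h2

/-- a vector of the list in the kernel: one condition more than expected is impossible -/
theorem zero_bound {n : ℕ}
    (IH : ∀ Bs : List (List (Vec n)), TP n Bs.flatten → ∀ A : Vec n →ₗ[ℝ] K × K, Rk2 A →
      Sol A Bs → Bs.flatten.length + 4 ≤ Bs.length + 2 * n) (hn : 1 ≤ n)
    {Bs : List (List (Vec (n + 1)))} (htp : TP (n + 1) Bs.flatten)
    (hl : n + 1 ≤ Bs.flatten.length) (A : Vec (n + 1) →ₗ[ℝ] K × K) (hA : Rk2 A)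
    (hs : Sol A Bs) {x : Vec (n + 1)} (hx : x ∈ Bs.flatten) (hx0 : A x = 0) :
    Bs.flatten.length + 5 ≤ Bs.length + 2 * (n + 1) := by
  have hxne : x ≠ 0 := TP.ne_zero htp (by omega) hl hx
  obtain ⟨D, hD, hxD⟩ := List.mem_flatten.mp hx
  obtain ⟨P, Q, rfl⟩ := List.append_of_mem hD
  obtain ⟨B, C, rfl⟩ := List.append_of_mem hxD
  have htp' : TP (n + 1) (P.flatten ++ B ++ x :: (C ++ Q.flatten)) := by
    have e : (P ++ (B ++ x :: C) :: Q).flatten = P.flatten ++ B ++ x :: (C ++ Q.flatten) := by
      simp [List.append_assoc]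
    rw [← e]
    exact htp
  have hs' : Sol A (P ++ (B ++ C) :: Q) := by
    intro D hD
    rcases List.mem_append.mp hD with hD | hD
    · exact hs D (List.mem_append.mpr (Or.inl hD))
    · rcases List.mem_cons.mp hD with rfl | hD
      · refine Par.sub (hs (B ++ x :: C) (List.mem_append.mpr (Or.inr List.mem_cons_self))) ?_
        intro y hy
        rcases List.mem_append.mp hy with hy | hy
        · exact List.mem_append.mpr (Or.inl hy)
        · exact List.mem_append.mpr (Or.inr (List.mem_cons_of_mem _ hy))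
      · exact hs D (List.mem_append.mpr (Or.inr (List.mem_cons_of_mem _ hD)))
  have h := contr_bound IH hn P Q B C x htp' hxne A hA hx0 hs'
  simp only [List.length_append, List.length_cons, List.flatten_append, List.flatten_cons] at h ⊢
  omega

/-- neighbours in a block with opposite images: one condition more than expected is
impossible -/
theorem neg_bound {n : ℕ}
    (IH : ∀ Bs : List (List (Vec n)), TP n Bs.flatten → ∀ A : Vec n →ₗ[ℝ] K × K, Rk2 A →
      Sol A Bs → Bs.flatten.length + 4 ≤ Bs.length + 2 * n) (hn : 1 ≤ n)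
    {P Q : List (List (Vec (n + 1)))} {B C : List (Vec (n + 1))} {a b : Vec (n + 1)}
    (htp : TP (n + 1) (P ++ (B ++ a :: b :: C) :: Q).flatten)
    (hl : n + 1 ≤ (P ++ (B ++ a :: b :: C) :: Q).flatten.length)
    (A : Vec (n + 1) →ₗ[ℝ] K × K) (hA : Rk2 A)
    (hs : Sol A (P ++ (B ++ a :: b :: C) :: Q)) {c : ℝ} (hc : 0 ≤ c) (h0 : A (c • a + b) = 0) :
    (P ++ (B ++ a :: b :: C) :: Q).flatten.length + 5 ≤
      (P ++ (B ++ a :: b :: C) :: Q).length + 2 * (n + 1) := by
  have e : (P ++ (B ++ a :: b :: C) :: Q).flatten = (P.flatten ++ B) ++ a :: b :: (C ++ Q.flatten) := by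
    simp [List.append_assoc]
  have htp1 : TP (n + 1) ((P.flatten ++ B) ++ a :: (c • a + (1 : ℝ) • b) :: (C ++ Q.flatten)) :=
    TP.cone_right (by rw [← e]; exact htp) hc one_pos
  rw [one_smul] at htp1
  have hl1 : n + 1 ≤ ((P.flatten ++ B) ++ a :: (c • a + b) :: (C ++ Q.flatten)).length := by
    rw [e] at hl
    simpa using hl
  have hne : c • a + b ≠ 0 := TP.ne_zero htp1 (by omega) hl1 (by simp)
  have htp' : TP (n + 1) (P.flatten ++ (B ++ [a]) ++ (c • a + b) :: (C ++ Q.flatten)) := by
    have e' : P.flatten ++ (B ++ [a]) ++ (c • a + b) :: (C ++ Q.flatten) =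
        (P.flatten ++ B) ++ a :: (c • a + b) :: (C ++ Q.flatten) := by
      simp [List.append_assoc]
    rw [e']
    exact htp1
  have hs' : Sol A (P ++ ((B ++ [a]) ++ C) :: Q) := by
    intro D hD
    rcases List.mem_append.mp hD with hD | hD
    · exact hs D (List.mem_append.mpr (Or.inl hD))
    · rcases List.mem_cons.mp hD with rfl | hD
      · refine Par.sub (hs (B ++ a :: b :: C)
          (List.mem_append.mpr (Or.inr List.mem_cons_self))) ?_
        intro y hy
        simp only [List.mem_append, List.mem_cons, List.not_mem_nil, or_false] at hy ⊢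
        tauto
      · exact hs D (List.mem_append.mpr (Or.inr (List.mem_cons_of_mem _ hD)))
  have h := contr_bound IH hn P Q (B ++ [a]) C (c • a + b) htp' hne A hA h0 hs'
  simp only [List.length_append, List.length_cons, List.flatten_append, List.flatten_cons,
    List.length_nil] at h ⊢
  omega

/-- merging neighbouring blocks -/
theorem Sol.merge {A : Vec n →ₗ[ℝ] K × K} {P Q : List (List (Vec n))} {B C : List (Vec n)}
    {a b : Vec n} (hs : Sol A (P ++ (B ++ [a]) :: (b :: C) :: Q)) (ha : A a ≠ 0) (hb : A b ≠ 0)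
    (hab : DD A a b = 0) : Sol A (P ++ (B ++ a :: b :: C) :: Q) := by
  intro D hD
  rcases List.mem_append.mp hD with hD | hD
  · exact hs D (List.mem_append.mpr (Or.inl hD))
  · rcases List.mem_cons.mp hD with rfl | hD
    · have h1 : Par A (B ++ [a]) := hs _ (List.mem_append.mpr (Or.inr List.mem_cons_self))
      have h2 : Par A (b :: C) := hs _
        (List.mem_append.mpr (Or.inr (List.mem_cons_of_mem _ List.mem_cons_self)))
      have h3 := h1.append h2 (a := a) (b := b) (by simp) (by simp) ha hb hab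
      have e : (B ++ [a]) ++ (b :: C) = B ++ a :: b :: C := by simp
      rw [e] at h3
      exact h3
    · exact hs D (List.mem_append.mpr (Or.inr
        (List.mem_cons_of_mem _ (List.mem_cons_of_mem _ hD))))

/-- a block of `n` vectors forces rank one -/
theorem not_rk2_of_big {Bs : List (List (Vec n))} (htp : TP n Bs.flatten) {B : List (Vec n)}
    (hB : B ∈ Bs) (hl : n ≤ B.length) (A : Vec n →ₗ[ℝ] K × K) (hs : Sol A Bs) : ¬ Rk2 A := by
  have hBtp : TP n B := by
    obtain ⟨P, Q, rfl⟩ := List.append_of_mem hB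
    refine TP.sublist htp ?_
    rw [List.flatten_append, List.flatten_cons]
    exact (List.sublist_append_left B _).trans (List.sublist_append_right _ _)
  -- linear in the second variable
  have h1 : ∀ x ∈ B, ∀ y, DD A x y = 0 := by
    intro x hx
    let f : Vec n →ₗ[ℝ] K :=
      { toFun := fun y => DD A x y
        map_add' := by intro y z; unfold DD; rw [map_add]; simp only [Prod.fst_add, Prod.snd_add]; ring
        map_smul' := by
          intro r y
          rw [DD_smul_right, RingHom.id_apply, Algebra.smul_def] }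
    have hf : f = 0 := TP.eq_zero hBtp hl f (fun y hy => hs B hB x hx y hy)
    intro y
    have : f y = 0 := by rw [hf]; rfl
    exact this
  have h2 : ∀ y x, DD A x y = 0 := by
    intro y
    let f : Vec n →ₗ[ℝ] K :=
      { toFun := fun x => DD A x y
        map_add' := by intro x z; unfold DD; rw [map_add]; simp only [Prod.fst_add, Prod.snd_add]; ring
        map_smul' := by
          intro r x
          rw [DD_smul_left, RingHom.id_apply, Algebra.smul_def] }
    have hf : f = 0 := TP.eq_zero hBtp hl f (fun x hx => h1 x hx y)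
    intro x
    have : f x = 0 := by rw [hf]; rfl
    exact this
  rintro ⟨x, y, hxy⟩
  exact hxy (h2 y x)

/-- rotation of the first block -/
theorem Sol.rotate {A : Vec n →ₗ[ℝ] K × K} {Q : List (List (Vec n))} {B C : List (Vec n)}
    {a b : Vec n} (hs : Sol A ((a :: B) :: (Q ++ [C ++ [b]]))) (ha : A a ≠ 0) (hb : A b ≠ 0)
    (hab : DD A a b = 0) (r : ℝ) (hr : r ≠ 0) :
    Sol A (Q ++ [(C ++ [b]) ++ (a :: B).map fun v => r • v]) := by
  intro D hD
  rcases List.mem_append.mp hD with hD | hD
  · exact hs D (List.mem_cons_of_mem _ (List.mem_append.mpr (Or.inl hD)))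
  · rw [List.mem_singleton] at hD
    subst hD
    have h1 : Par A (C ++ [b]) :=
      hs _ (List.mem_cons_of_mem _ (List.mem_append.mpr (Or.inr (List.mem_singleton.mpr rfl))))
    have h2 : Par A (a :: B) := hs _ List.mem_cons_self
    have h3 := h2.map_smul r
    refine h1.append h3 (a := b) (b := r • a) (by simp) (by simp) hb ?_ ?_
    · rw [map_smul]
      exact smul_ne_zero hr ha
    · rw [DD_smul_right, DD_symm, hab]
      ring

end general

theorem length_le_flatten {α : Type*} (Bs : List (List α)) (h : ∀ B ∈ Bs, B ≠ []) :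
    Bs.length ≤ Bs.flatten.length := by
  induction Bs with
  | nil => simp
  | cons B Bs ih =>
    have h1 : 1 ≤ B.length := by
      have := h B List.mem_cons_self
      exact List.length_pos_iff.mpr this
    have h2 := ih fun D hD => h D (List.mem_cons_of_mem _ hD)
    rw [List.flatten_cons, List.length_append, List.length_cons]
    omega

end Pool.CTP
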