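import Pool.Agent.CTP.CorE1
import Pool.Agent.CTP.CorE_aux

/-! Row CORE2. Real overdetermined problems have no solutions; consequences (page, section 2). -/

namespace Pool.CTP

variable {n : ℕ}

theorem cds_count_append (a b : List ℂ) :
    (cds a).count 0 + (cds b).count 0 ≤ (cds (a ++ b)).count 0 := by
  induction a with
  | nil => simp [cds]
  | cons x a ih =>
    cases a with
    | nil =>
      cases b with
      | nil => simp [cds]
      | cons y b =>
        have e : cds ([x] ++ y :: b) = cr x y :: cds (y :: b) := rfl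
        rw [e]
        have h1 : (cds (y :: b)).count 0 ≤ (cr x y :: cds (y :: b)).count 0 :=
          List.count_le_count_cons
        simp only [cds, List.count_nil, zero_add] at h1 ⊢
        exact h1
    | cons y a =>
      have e1 : cds (x :: y :: a) = cr x y :: cds (y :: a) := rfl
      have e2 : cds (x :: y :: a ++ b) = cr x y :: cds (y :: a ++ b) := rfl
      rw [e1, e2, List.count_cons, List.count_cons]
      omega

theorem block_count (A : Vec n →ₗ[ℝ] ℝ × ℝ) (B : List (Vec n)) (h : Par A B) :
    B.length ≤ (cds (B.map fun x => cv (A x))).count 0 + 1 := by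
  induction B with
  | nil => simp
  | cons x B ih =>
    cases B with
    | nil => simp
    | cons y B =>
      have e : cds ((x :: y :: B).map fun x => cv (A x)) =
          cr (cv (A x)) (cv (A y)) :: cds ((y :: B).map fun x => cv (A x)) := rfl
      have e0 : cr (cv (A x)) (cv (A y)) = 0 := h x (by simp) y (by simp)
      have h' : Par A (y :: B) := h.sub (List.subset_cons_self _ _)
      have := ih h'
      rw [e, e0, List.count_cons_self]
      simp only [List.length_cons] at this ⊢
      omega

theorem blocks_count (A : Vec n →ₗ[ℝ] ℝ × ℝ) (Bs : List (List (Vec n))) (h : Sol A Bs) :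
    Bs.flatten.length ≤ (cds (Bs.flatten.map fun x => cv (A x))).count 0 + Bs.length := by
  induction Bs with
  | nil => simp
  | cons B Bs ih =>
    have h1 := block_count A B (h B List.mem_cons_self)
    have h2 := ih fun D hD => h D (List.mem_cons_of_mem _ hD)
    have h3 := cds_count_append (B.map fun x => cv (A x)) (Bs.flatten.map fun x => cv (A x))
    rw [← List.map_append] at h3
    rw [List.flatten_cons, List.length_append, List.length_cons]
    omega

theorem corE (hn : 2 ≤ n) (Bs : List (List (Vec n))) (htp : TP n Bs.flatten)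
    (A : Vec n →ₗ[ℝ] ℝ × ℝ) (hA : Rk2 A) (hs : Sol A Bs) :
    Bs.flatten.length + 4 ≤ Bs.length + 2 * n := by
  induction n, hn using Nat.le_induction with
  | base =>
    by_cases hl : 2 ≤ Bs.flatten.length
    · have hv : ∀ x ∈ Bs.flatten, A x ≠ 0 := fun x hx =>
        ne_zero_two hA (TP.ne_zero htp (by omega) hl hx)
      have h1 := zeros_le le_rfl Bs.flatten htp hl A hA hv
      have h2 := blocks_count A Bs hs
      omega
    · rcases Bs with _ | ⟨B, Bs⟩
      · simp
      · simp only [List.length_cons] at hl ⊢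
        omega
  | succ n hn ih =>
    by_cases hl : n + 1 ≤ Bs.flatten.length
    · by_cases hv : ∀ x ∈ Bs.flatten, A x ≠ 0
      · have h1 := zeros_le (by omega) Bs.flatten htp hl A hA hv
        have h2 := blocks_count A Bs hs
        omega
      · push Not at hv
        obtain ⟨x, hx, hx0⟩ := hv
        have := zero_bound (fun Bs h A hA hs => ih Bs h A hA hs) (by omega) htp hl A hA hs hx hx0
        omega
    · rcases Bs with _ | ⟨B, Bs⟩
      · simp only [List.flatten_nil, List.length_nil]
        omega
      · simp only [List.length_cons] at hl ⊢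
        omega

/-- a block of `n` vectors forces rank one (also over the complex numbers) -/
theorem not_big {K : Type*} [Field K] [Algebra ℝ K] {Bs : List (List (Vec n))} (hn : 2 ≤ n)
    (htp : TP n Bs.flatten) {B : List (Vec n)} (hB : B ∈ Bs) (hl : n ≤ B.length)
    (A : Vec n →ₗ[ℝ] K × K) (hs : Sol A Bs) : ¬ Rk2 A := not_rk2_of_big htp hB hl A hs

theorem nz {Bs : List (List (Vec n))} (h : Good n Bs) (A : Vec n →ₗ[ℝ] ℝ × ℝ) (hA : Rk2 A)
    (hs : Sol A Bs) : ∀ x ∈ Bs.flatten, A x ≠ 0 := by
  intro x hx hx0
  have hne : x ≠ 0 := TP.ne_zero h.tp (by have := h.two; omega) h.len hx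
  obtain ⟨m, rfl⟩ : ∃ m, n = m + 1 := ⟨n - 1, by have := h.two; omega⟩
  rcases Nat.lt_or_ge m 2 with hm | hm
  · obtain rfl : m = 1 := by have := h.two; omega
    exact ne_zero_two hA hne hx0
  · have h1 := zero_bound (fun Bs h A hA hs => corE hm Bs h A hA hs) (by omega) h.tp h.len A hA hs
      hx hx0
    have h2 := h.num
    omega

theorem adj {P Q : List (List (Vec n))} {B C : List (Vec n)} {a b : Vec n}
    (h : Good n (P ++ (B ++ [a]) :: (b :: C) :: Q)) (A : Vec n →ₗ[ℝ] ℝ × ℝ) (hA : Rk2 A)
    (hs : Sol A (P ++ (B ++ [a]) :: (b :: C) :: Q)) : DD A a b ≠ 0 := by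
  intro hab
  have ha := nz h A hA hs a (by simp)
  have hb := nz h A hA hs b (by simp)
  have hs' := hs.merge ha hb hab
  have e : (P ++ (B ++ a :: b :: C) :: Q).flatten = (P ++ (B ++ [a]) :: (b :: C) :: Q).flatten := by
    simp
  have htp : TP n (P ++ (B ++ a :: b :: C) :: Q).flatten := by
    rw [e]
    exact h.tp
  have h1 := corE h.two _ htp A hA hs'
  have h2 := h.num
  rw [e] at h1
  simp only [List.length_append, List.length_cons] at h1 h2
  omega

theorem pos {P Q : List (List (Vec n))} {B C : List (Vec n)} {a b : Vec n}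
    (h : Good n (P ++ (B ++ a :: b :: C) :: Q)) (A : Vec n →ₗ[ℝ] ℝ × ℝ) (hA : Rk2 A)
    (hs : Sol A (P ++ (B ++ a :: b :: C) :: Q)) : ∃ c : ℝ, 0 < c ∧ A b = c • A a := by
  have ha := nz h A hA hs a (by simp)
  have hb := nz h A hA hs b (by simp)
  have hab : DD A a b = 0 :=
    hs (B ++ a :: b :: C) (by simp) a (by simp) b (by simp)
  obtain ⟨c, hc⟩ : ∃ c : ℝ, A b = c • A a := by
    unfold DD at hab
    by_cases h1 : (A a).1 = 0
    · have h2 : (A a).2 ≠ 0 := fun h2 => ha (Prod.ext h1 h2)
      refine ⟨(A b).2 / (A a).2, Prod.ext ?_ ?_⟩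
      · rw [Prod.smul_fst, smul_eq_mul, h1, mul_zero]
        rw [h1] at hab
        have : (A a).2 * (A b).1 = 0 := by linarith
        rcases mul_eq_zero.mp this with h3 | h3
        · exact absurd h3 h2
        · exact h3
      · rw [Prod.smul_snd, smul_eq_mul]
        field_simp
    · refine ⟨(A b).1 / (A a).1, Prod.ext ?_ ?_⟩
      · rw [Prod.smul_fst, smul_eq_mul]
        field_simp
      · rw [Prod.smul_snd, smul_eq_mul]
        field_simp
        linarith
  refine ⟨c, ?_, hc⟩
  by_contra hc0
  push Not at hc0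
  obtain ⟨m, rfl⟩ : ∃ m, n = m + 1 := ⟨n - 1, by have := h.two; omega⟩
  have h0 : A ((-c) • a + b) = 0 := by
    rw [map_add, map_smul, hc, neg_smul, neg_add_cancel]
  rcases Nat.lt_or_ge m 2 with hm | hm
  · obtain rfl : m = 1 := by have := h.two; omega
    -- all blocks are singletons
    have h1 := h.num
    have h2 := length_le_flatten P fun D hD => h.ne D (by simp [hD])
    have h3 := length_le_flatten Q fun D hD => h.ne D (by simp [hD])
    simp only [List.length_append, List.length_cons, List.flatten_append,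
      List.flatten_cons] at h1
    omega
  · have h1 := neg_bound (fun Bs h A hA hs => corE hm Bs h A hA hs) (by omega) h.tp h.len A hA hs
      (c := -c) (by linarith) h0
    have h2 := h.num
    omega

theorem cyc {Q : List (List (Vec n))} {B C : List (Vec n)} {a b : Vec n}
    (h : Good n ((a :: B) :: (Q ++ [C ++ [b]]))) (A : Vec n →ₗ[ℝ] ℝ × ℝ) (hA : Rk2 A)
    (hs : Sol A ((a :: B) :: (Q ++ [C ++ [b]]))) : DD A a b ≠ 0 := by
  intro hab
  have ha := nz h A hA hs a (by simp)
  have hb := nz h A hA hs b (by simp)
  have hr : ((-1 : ℝ) ^ (n - 1)) ≠ 0 := pow_ne_zero _ (by norm_num)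
  have hs' := hs.rotate ha hb hab _ hr
  have htp : TP n (Q ++ [(C ++ [b]) ++ (a :: B).map fun v => (-1 : ℝ) ^ (n - 1) • v]).flatten := by
    have e : (Q ++ [(C ++ [b]) ++ (a :: B).map fun v => (-1 : ℝ) ^ (n - 1) • v]).flatten =
        (Q ++ [C ++ [b]]).flatten ++ (a :: B).map fun v => (-1 : ℝ) ^ (n - 1) • v := by
      simp [List.append_assoc]
    rw [e]
    refine TP.rot ?_
    have e' : (a :: B) ++ (Q ++ [C ++ [b]]).flatten = ((a :: B) :: (Q ++ [C ++ [b]])).flatten := by
      simp
    rw [e']
    exact h.tp
  have h1 := corE h.two _ htp A hA hs'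
  have h2 := h.num
  simp only [List.length_append, List.length_cons, List.flatten_append, List.flatten_cons,
    List.flatten_nil, List.length_nil, List.length_map] at h1 h2
  omega

end Pool.CTP
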