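import Pool.Agent.CTP.Pot
import Pool.Agent.COT.Zeros

/-! Row CORE1. Neighbours with parallel images. -/

namespace Pool.CTP

noncomputable section

theorem count_cds (w : List ℂ) : (cds w).count 0 =
    COT.zer (fun z => COT.D (w.getD z 0) (w.getD (z + 1) 0)) (w.length - 1) := by
  induction w with
  | nil => rw [List.length_nil, COT.zer_zero]; rfl
  | cons a w ih =>
    cases w with
    | nil => rw [List.length_singleton, COT.zer_zero]; rfl
    | cons b l =>
      have h1 : cds (a :: b :: l) = cr a b :: cds (b :: l) := rfl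
      have h2 : (a :: b :: l).length - 1 = ((b :: l).length - 1) + 1 := by simp
      rw [h1, h2, COT.zer_succ', List.count_cons, ih]
      have h3 : (fun z => COT.D ((a :: b :: l).getD (z + 1) 0) ((a :: b :: l).getD (z + 1 + 1) 0)) =
          fun z => COT.D ((b :: l).getD z 0) ((b :: l).getD (z + 1) 0) := by
        funext z
        simp
      rw [h3]
      congr 1
      have h4 : COT.D ((a :: b :: l).getD 0 0) ((a :: b :: l).getD (0 + 1) 0) = cr a b := by
        rw [cr_eq_D]
        simp
      rw [h4]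
      by_cases h : cr a b = 0
      · simp [h]
      · simp [h]

theorem surj_of_rk2 {n : ℕ} (A : Vec n →ₗ[ℝ] ℝ × ℝ) (hA : Rk2 A) : Function.Surjective (cvl ∘ₗ A) := by
  obtain ⟨x, x', h⟩ := hA
  intro w
  set D := DD A x x' with hD
  refine ⟨((w.re * (A x').2 - w.im * (A x').1) / D) • x + (((A x).1 * w.im - (A x).2 * w.re) / D) • x', ?_⟩
  rw [LinearMap.comp_apply, map_add, map_smul, map_smul]
  apply Complex.ext
  · simp only [cvl, cv, LinearMap.coe_mk, AddHom.coe_mk, Prod.fst_add, Prod.smul_fst, smul_eq_mul]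
    field_simp
    rw [hD, DD]
    ring
  · simp only [cvl, cv, LinearMap.coe_mk, AddHom.coe_mk, Prod.snd_add, Prod.smul_snd, smul_eq_mul]
    field_simp
    rw [hD, DD]
    ring

/-- neighbours with parallel images -/
theorem zeros_le {n : ℕ} (hn : 2 ≤ n) (L : List (Vec n)) (hL : TP n L) (hl : n ≤ L.length)
    (A : Vec n →ₗ[ℝ] ℝ × ℝ) (hA : Rk2 A) (hv : ∀ x ∈ L, A x ≠ 0) :
    (cds (L.map fun x => cv (A x))).count 0 ≤ 2 * (n - 2) := by
  obtain ⟨m, rfl⟩ : ∃ m, n = m + 2 := ⟨n - 2, by omega⟩
  have h1 := COT.zer_le (TP_of_TP hL) hl (cvl ∘ₗ A) (surj_of_rk2 A hA) (by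
    intro z hz h0
    rw [List.getD_eq_getElem _ _ hz] at h0
    apply hv _ (List.getElem_mem hz)
    have h2 : cv (A L[z]) = 0 := h0
    have h3 := congrArg Complex.re h2
    have h4 := congrArg Complex.im h2
    exact Prod.ext h3 h4)
  rw [count_cds, List.length_map]
  refine le_of_eq_of_le ?_ (h1.trans (by omega))
  have key : ∀ K ≤ L.length - 1, COT.zer (fun z => COT.D ((L.map fun x => cv (A x)).getD z 0)
      ((L.map fun x => cv (A x)).getD (z + 1) 0)) K =
      COT.zer (fun z => COT.D ((cvl ∘ₗ A) (L.getD z 0)) ((cvl ∘ₗ A) (L.getD (z + 1) 0))) K := by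
    intro K
    induction K with
    | zero => intro _; rw [COT.zer_zero, COT.zer_zero]
    | succ K ih =>
      intro hK
      rw [COT.zer_succ, COT.zer_succ, ih (by omega)]
      have h2 : ∀ z < L.length, (L.map fun x => cv (A x)).getD z 0 = (cvl ∘ₗ A) (L.getD z 0) := by
        intro z hz
        rw [List.getD_eq_getElem _ _ (by rw [List.length_map]; exact hz), List.getElem_map,
          List.getD_eq_getElem _ _ hz]
        rfl
      rw [h2 K (by omega), h2 (K + 1) (by omega)]
  exact key _ le_rfl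

end

end Pool.CTP
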