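import Pool.Agent.CTP.CorE

/-! Row CPLX. Complex solutions, assuming the reality theorem for smaller data. -/

namespace Pool.CTP

variable {n : ℕ}

/-- on `ℝ^2` every map is real -/
theorem isR_two (A : Vec 2 →ₗ[ℝ] ℂ × ℂ) : IsR A := by
  refine ⟨LinearMap.prod (LinearMap.proj 0) (LinearMap.proj 1), (A (Pi.single 0 1)).1,
    (A (Pi.single 1 1)).1, (A (Pi.single 0 1)).2, (A (Pi.single 1 1)).2, fun x => ?_⟩
  have hx : x = x 0 • (Pi.single 0 1 : Vec 2) + x 1 • (Pi.single 1 1 : Vec 2) := by
    funext i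
    fin_cases i <;> simp
  have h1 : A x = x 0 • A (Pi.single 0 1) + x 1 • A (Pi.single 1 1) := by
    conv_lhs => rw [hx]
    rw [map_add, map_smul, map_smul]
  rw [h1]
  ext
  · simp [mul_comm]
  · simp [mul_comm]

theorem IsR.comp {k : ℕ} {A : Vec n →ₗ[ℝ] ℂ × ℂ} (h : IsR A) (π : Vec k →ₗ[ℝ] Vec n) :
    IsR (A ∘ₗ π) := by
  obtain ⟨B, a, b, c, d, h⟩ := h
  exact ⟨B ∘ₗ π, a, b, c, d, fun x => h (π x)⟩

/-- a real representative of a real solution of rank two is a solution of rank two -/
theorem IsR.exists_real {A : Vec n →ₗ[ℝ] ℂ × ℂ} (h : IsR A) (hA : Rk2 A) :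
    ∃ (B : Vec n →ₗ[ℝ] ℝ × ℝ) (a b c d : ℂ), a * d - b * c ≠ 0 ∧ Rk2 B ∧
      (∀ x, A x = (a * ((B x).1 : ℂ) + b * ((B x).2 : ℂ), c * ((B x).1 : ℂ) + d * ((B x).2 : ℂ))) ∧
      ∀ x y, DD A x y = 0 ↔ DD B x y = 0 := by
  obtain ⟨B, a, b, c, d, h⟩ := h
  have key : ∀ x y, DD A x y = (a * d - b * c) * ((DD B x y : ℝ) : ℂ) := by
    intro x y
    simp only [DD, h]
    push_cast
    ring
  obtain ⟨x, y, hxy⟩ := hA
  rw [key] at hxy
  have h1 : a * d - b * c ≠ 0 := left_ne_zero_of_mul hxy
  have h2 : DD B x y ≠ 0 := fun h0 => right_ne_zero_of_mul hxy (by rw [h0]; simp)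
  refine ⟨B, a, b, c, d, h1, ⟨x, y, h2⟩, h, fun x y => ?_⟩
  rw [key, mul_eq_zero]
  constructor
  · rintro (h3 | h3)
    · exact absurd h3 h1
    · exact_mod_cast h3
  · intro h3
    right
    exact_mod_cast h3

section par
variable {K : Type*} [Field K] [Algebra ℝ K]

theorem cDD_comm (A : Vec n →ₗ[ℝ] K × K) (x y : Vec n) : DD A y x = -DD A x y := by
  simp only [DD]
  ring

theorem cDD_self (A : Vec n →ₗ[ℝ] K × K) (x : Vec n) : DD A x x = 0 := by
  simp only [DD]
  ring

theorem cDD_trans (A : Vec n →ₗ[ℝ] K × K) {x y z : Vec n} (hy : A y ≠ 0) (h1 : DD A x y = 0)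
    (h2 : DD A y z = 0) : DD A x z = 0 := by
  simp only [DD] at h1 h2 ⊢
  by_cases hy1 : (A y).1 = 0
  · have hy2 : (A y).2 ≠ 0 := by
      intro h
      exact hy (Prod.ext hy1 h)
    apply mul_left_cancel₀ hy2
    linear_combination (A x).2 * h2 + (A z).2 * h1
  · apply mul_left_cancel₀ hy1
    linear_combination (A x).1 * h2 + (A z).1 * h1

theorem cDD_smul_left (A : Vec n →ₗ[ℝ] K × K) (c : ℝ) (x y : Vec n) :
    DD A (c • x) y = algebraMap ℝ K c * DD A x y := by
  simp only [DD, map_smul, Prod.smul_fst, Prod.smul_snd]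
  simp only [Algebra.smul_def]
  ring

theorem cDD_smul_right (A : Vec n →ₗ[ℝ] K × K) (c : ℝ) (x y : Vec n) :
    DD A x (c • y) = algebraMap ℝ K c * DD A x y := by
  simp only [DD, map_smul, Prod.smul_fst, Prod.smul_snd]
  simp only [Algebra.smul_def]
  ring

theorem cDD_neg_left (A : Vec n →ₗ[ℝ] K × K) (x y : Vec n) : DD A (-x) y = -DD A x y := by
  simp only [DD, map_neg, Prod.fst_neg, Prod.snd_neg]
  ring

theorem cDD_neg_right (A : Vec n →ₗ[ℝ] K × K) (x y : Vec n) : DD A x (-y) = -DD A x y := by
  simp only [DD, map_neg, Prod.fst_neg, Prod.snd_neg]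
  ring

theorem cDD_comp {k : ℕ} (A : Vec n →ₗ[ℝ] K × K) (π : Vec k →ₗ[ℝ] Vec n) (x y : Vec k) :
    DD (A ∘ₗ π) x y = DD A (π x) (π y) := rfl

theorem Sol.sub {A : Vec n →ₗ[ℝ] K × K} {Bs Bs' : List (List (Vec n))} (h : Sol A Bs)
    (h' : ∀ B' ∈ Bs', ∃ B ∈ Bs, ∀ x ∈ B', x ∈ B) : Sol A Bs' := by
  intro B' hB' x hx y hy
  obtain ⟨B, hB, hsub⟩ := h' B' hB'
  exact h B hB x (hsub x hx) y (hsub y hy)

end par

/-- remove points of blocks of at least two points, until the data are admissible -/
theorem exists_reduce (hn : 3 ≤ n) (e : ℕ) : ∀ (Bs : List (List (Vec n))),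
    (∀ B ∈ Bs, B ≠ []) → TP n Bs.flatten → Bs.flatten.length + 4 = Bs.length + 2 * n + e →
      ∃ Bs', Good n Bs' ∧ Bs'.flatten.length + e = Bs.flatten.length ∧
        ∀ B' ∈ Bs', ∃ B ∈ Bs, ∀ x ∈ B', x ∈ B := by
  induction e with
  | zero =>
    intro Bs hne htp hlen
    refine ⟨Bs, ⟨by omega, hne, htp, ?_, by omega⟩, by omega, fun B hB => ⟨B, hB, fun x hx => hx⟩⟩
    have h1 : 1 ≤ Bs.length := by
      rcases Bs with _ | ⟨B, Bs⟩
      · simp at hlen
        omega
      · simp
    omega
  | succ e ih =>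
    intro Bs hne htp hlen
    -- a block with at least two points
    have hex : ∃ B ∈ Bs, 2 ≤ B.length := by
      by_contra hcon
      push Not at hcon
      have h1 : Bs.flatten.length ≤ Bs.length := by
        rw [List.length_flatten]
        calc (Bs.map List.length).sum ≤ (Bs.map fun _ => 1).sum := by
              apply List.sum_le_sum
              intro B hB
              have := hcon B hB
              omega
          _ = Bs.length := by simp
      omega
    obtain ⟨B, hB, hB2⟩ := hex
    obtain ⟨P, Q, rfl⟩ := List.append_of_mem hB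
    have hBne : B ≠ [] := by
      rintro rfl
      simp at hB2
    obtain ⟨B0, x, rfl⟩ : ∃ B0 x, B = B0 ++ [x] :=
      ⟨B.dropLast, B.getLast hBne, (List.dropLast_append_getLast hBne).symm⟩
    have hB0 : B0 ≠ [] := by
      rintro rfl
      simp at hB2
    have hsub : (P ++ B0 :: Q).flatten.Sublist (P ++ (B0 ++ [x]) :: Q).flatten := by
      simp only [List.flatten_append, List.flatten_cons]
      apply List.Sublist.append_left
      apply List.Sublist.append_right
      exact List.sublist_append_left _ _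
    have hl : (P ++ (B0 ++ [x]) :: Q).flatten.length = (P ++ B0 :: Q).flatten.length + 1 := by
      simp only [List.flatten_append, List.flatten_cons, List.length_append, List.length_singleton]
      omega
    obtain ⟨Bs', hG, hlen', hsub'⟩ := ih (P ++ B0 :: Q) (by
        intro B hB
        rcases List.mem_append.1 hB with h | h
        · exact hne B (List.mem_append_left _ h)
        · rcases List.mem_cons.1 h with rfl | h
          · exact hB0
          · exact hne B (List.mem_append_right _ (List.mem_cons_of_mem _ h)))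
      (htp.sublist hsub) (by
        rw [hl] at hlen
        simp only [List.length_append, List.length_cons] at hlen ⊢
        omega)
    refine ⟨Bs', hG, by omega, fun B' hB' => ?_⟩
    obtain ⟨B, hB, hBs⟩ := hsub' B' hB'
    rcases List.mem_append.1 hB with h | h
    · exact ⟨B, List.mem_append_left _ h, hBs⟩
    · rcases List.mem_cons.1 h with rfl | h
      · exact ⟨B ++ [x], by simp, fun y hy => List.mem_append_left _ (hBs y hy)⟩
      · exact ⟨B, List.mem_append_right _ (List.mem_cons_of_mem _ h), hBs⟩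

theorem corE_C (hn : 2 ≤ n) (hR : ∀ Bs', Good n Bs' → RR n Bs') (Bs : List (List (Vec n)))
    (htp : TP n Bs.flatten) (A : Vec n →ₗ[ℝ] ℂ × ℂ) (hA : Rk2 A)
    (hs : Sol A Bs) : Bs.flatten.length + 4 ≤ Bs.length + 2 * n := by
  by_contra hcon
  push Not at hcon
  have hreal : IsR A := by
    rcases Nat.lt_or_ge 2 n with h3 | h3
    · -- remove the empty blocks
      set Bs1 := Bs.filter (fun B => !B.isEmpty) with hBs1
      have hfl : Bs1.flatten = Bs.flatten := List.flatten_filter_not_isEmpty
      have hl1 : Bs1.length ≤ Bs.length := List.length_filter_le _ _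
      obtain ⟨e, he⟩ : ∃ e, Bs1.flatten.length + 4 = Bs1.length + 2 * n + e := by
        rw [hfl]
        exact ⟨Bs.flatten.length + 4 - (Bs1.length + 2 * n), by omega⟩
      obtain ⟨Bs', hG, -, hsub⟩ := exists_reduce h3 e Bs1 (by
          intro B hB
          rw [hBs1, List.mem_filter] at hB
          intro h0
          rw [h0] at hB
          simp at hB)
        (by rw [hfl]; exact htp) he
      refine hR Bs' hG A hA (hs.sub fun B' hB' => ?_)
      obtain ⟨B, hB, hBx⟩ := hsub B' hB'
      exact ⟨B, List.mem_of_mem_filter hB, hBx⟩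
    · have h2 : n = 2 := by omega
      subst h2
      exact isR_two A
  obtain ⟨B, -, -, -, -, -, hB, -, hDD⟩ := hreal.exists_real hA
  have := corE hn Bs htp B hB (fun C hC x hx y hy => (hDD x y).1 (hs C hC x hx y hy))
  omega

theorem Rk2.of_comp_c {k : ℕ} {K : Type*} [Field K] [Algebra ℝ K] {A : Vec n →ₗ[ℝ] K × K}
    {π : Vec k →ₗ[ℝ] Vec n} (h : Rk2 (A ∘ₗ π)) : Rk2 A := by
  obtain ⟨x, y, hxy⟩ := h
  exact ⟨π x, π y, hxy⟩

theorem nz_C {Bs : List (List (Vec n))} (h : Good n Bs)
    (hR : ∀ k, k + 1 = n → 2 ≤ k → ∀ Bs', Good k Bs' → RR k Bs')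
    (A : Vec n →ₗ[ℝ] ℂ × ℂ) (hA : Rk2 A)
    (hs : Sol A Bs) : ∀ x ∈ Bs.flatten, A x ≠ 0 := by
  intro x hx h0
  rcases Nat.lt_or_ge 2 n with h3 | h3
  · obtain ⟨k, rfl⟩ : ∃ k, n = k + 1 := ⟨n - 1, by omega⟩
    have hx0 : x ≠ 0 := h.tp.ne_zero (by omega) h.len hx
    obtain ⟨π, hπ⟩ := exists_contr (by omega) x hx0
    obtain ⟨A', hA'⟩ := hπ.factor A h0
    obtain ⟨B, hB, hxB⟩ := List.mem_flatten.1 hx
    obtain ⟨P, Q, rfl⟩ := List.append_of_mem hB
    obtain ⟨B1, B2, rfl⟩ := List.append_of_mem hxB
    have htp : TP (k + 1) ((P.flatten ++ B1) ++ x :: (B2 ++ Q.flatten)) := by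
      have := h.tp
      simpa using this
    have htp' := TP.contr hπ htp
    have e1 : (P.map (negB π) ++ (negB π B1 ++ B2.map π) :: Q.map (List.map π)).flatten =
        negB π (P.flatten ++ B1) ++ (B2 ++ Q.flatten).map π := by
      simp [negB, List.flatten_append, List.map_flatten]
      rfl
    have hc := corE_C (n := k) (by omega) (hR k rfl (by omega))
      (P.map (negB π) ++ (negB π B1 ++ B2.map π) :: Q.map (List.map π)) (by
        rw [e1]
        exact htp') A' (by
          rw [hA'] at hA
          exact hA.of_comp_c) (by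
        intro C hC y hy z hz
        have hDD : ∀ D ∈ P ++ (B1 ++ x :: B2) :: Q, ∀ u ∈ D, ∀ v ∈ D,
            DD A' (π u) (π v) = 0 := by
          intro D hD u hu v hv
          have := hs D hD u hu v hv
          rw [hA'] at this
          exact this
        rcases List.mem_append.1 hC with hC | hC
        · obtain ⟨D, hD, rfl⟩ := List.mem_map.1 hC
          obtain ⟨u, hu, rfl⟩ := List.mem_map.1 hy
          obtain ⟨v, hv, rfl⟩ := List.mem_map.1 hz
          rw [cDD_neg_left, cDD_neg_right, neg_neg]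
          exact hDD D (List.mem_append_left _ hD) u hu v hv
        · rcases List.mem_cons.1 hC with rfl | hC
          · have hm : ∀ w ∈ negB π B1 ++ B2.map π, ∃ u ∈ B1 ++ x :: B2, w = π u ∨ w = -π u := by
              intro w hw
              rcases List.mem_append.1 hw with hw | hw
              · obtain ⟨u, hu, rfl⟩ := List.mem_map.1 hw
                exact ⟨u, List.mem_append_left _ hu, Or.inr rfl⟩
              · obtain ⟨u, hu, rfl⟩ := List.mem_map.1 hw
                exact ⟨u, List.mem_append_right _ (List.mem_cons_of_mem _ hu), Or.inl rfl⟩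
            obtain ⟨u, hu, hyu⟩ := hm y hy
            obtain ⟨v, hv, hzv⟩ := hm z hz
            have h1 := hDD (B1 ++ x :: B2) (by simp) u hu v hv
            rcases hyu with rfl | rfl <;> rcases hzv with rfl | rfl
            · exact h1
            · rw [cDD_neg_right, h1, neg_zero]
            · rw [cDD_neg_left, h1, neg_zero]
            · rw [cDD_neg_left, cDD_neg_right, h1, neg_zero, neg_zero]
          · obtain ⟨D, hD, rfl⟩ := List.mem_map.1 hC
            obtain ⟨u, hu, rfl⟩ := List.mem_map.1 hy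
            obtain ⟨v, hv, rfl⟩ := List.mem_map.1 hz
            exact hDD D (List.mem_append_right _ (List.mem_cons_of_mem _ hD)) u hu v hv)
    have hnum := h.num
    rw [e1] at hc
    simp only [List.flatten_append, List.flatten_cons, List.length_append, List.length_cons,
      List.length_map, negB] at hc hnum
    omega
  · have h2 : n = 2 := by
      have := h.two
      omega
    subst h2
    obtain ⟨B, -, -, -, -, -, hB, hAB, hDD⟩ := (isR_two A).exists_real hA
    have hsB : Sol B Bs := fun C hC u hu v hv => (hDD u v).1 (hs C hC u hu v hv)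
    have h1 := nz h B hB hsB x hx
    apply h1
    by_contra hne
    obtain ⟨u, v, huv⟩ := hB
    have h2 : ∀ y, DD B x y = 0 := by
      intro y
      rw [← hDD]
      simp [DD, h0]
    have h3 := cDD_trans B hne (by rw [cDD_comm, h2 u, neg_zero]) (h2 v)
    exact huv h3

/-- a complex solution of data with one condition too many is real -/
theorem isR_of_over (hn : 3 ≤ n) {M : ℕ} {Bs : List (List (Vec n))} (hne : ∀ B ∈ Bs, B ≠ [])
    (htp : TP n Bs.flatten) (hlen : Bs.flatten.length + 4 = Bs.length + 2 * n + 1)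
    (hM : Bs.flatten.length ≤ M)
    (hR' : ∀ Bs', Good n Bs' → Bs'.flatten.length < M → RR n Bs')
    (A : Vec n →ₗ[ℝ] ℂ × ℂ) (hA : Rk2 A) (hs : Sol A Bs) : IsR A := by
  obtain ⟨Bs', hG, hl, hsub⟩ := exists_reduce hn 1 Bs hne htp hlen
  exact hR' Bs' hG (by omega) A hA (hs.sub hsub)

/-- merging two blocks -/
theorem sol_merge {K : Type*} [Field K] [Algebra ℝ K] {A : Vec n →ₗ[ℝ] K × K}
    {X Y : List (Vec n)} {a b : Vec n} (ha : a ∈ X) (hb : b ∈ Y) (hA : A a ≠ 0) (hB : A b ≠ 0)
    (hX : ∀ x ∈ X, ∀ y ∈ X, DD A x y = 0) (hY : ∀ x ∈ Y, ∀ y ∈ Y, DD A x y = 0)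
    (hab : DD A a b = 0) : ∀ x ∈ X ++ Y, ∀ y ∈ X ++ Y, DD A x y = 0 := by
  have hcross : ∀ x ∈ X, ∀ y ∈ Y, DD A x y = 0 := by
    intro x hx y hy
    exact cDD_trans A hB (cDD_trans A hA (hX x hx a ha) hab) (hY b hb y hy)
  intro x hx y hy
  rcases List.mem_append.1 hx with hx | hx <;> rcases List.mem_append.1 hy with hy | hy
  · exact hX x hx y hy
  · exact hcross x hx y hy
  · rw [cDD_comm, hcross y hy x hx, neg_zero]
  · exact hY x hx y hy

theorem adj_C {P Q : List (List (Vec n))} {B C : List (Vec n)} {a b : Vec n}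
    (h : Good n (P ++ (B ++ [a]) :: (b :: C) :: Q))
    (hR : ∀ k, k + 1 = n → 2 ≤ k → ∀ Bs', Good k Bs' → RR k Bs')
    (hR' : ∀ Bs', Good n Bs' →
      Bs'.flatten.length < (P ++ (B ++ [a]) :: (b :: C) :: Q).flatten.length → RR n Bs')
    (A : Vec n →ₗ[ℝ] ℂ × ℂ) (hA : Rk2 A)
    (hs : Sol A (P ++ (B ++ [a]) :: (b :: C) :: Q)) : DD A a b ≠ 0 := by
  intro hab
  have hnz := nz_C h hR A hA hs
  have ha : A a ≠ 0 := hnz a (by simp)
  have hb : A b ≠ 0 := hnz b (by simp)
  have hreal : IsR A := by
    rcases Nat.lt_or_ge 2 n with h3 | h3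
    · have e1 : (P ++ ((B ++ [a]) ++ (b :: C)) :: Q).flatten =
          (P ++ (B ++ [a]) :: (b :: C) :: Q).flatten := by
        simp
      refine isR_of_over h3 (M := (P ++ (B ++ [a]) :: (b :: C) :: Q).flatten.length)
        (Bs := P ++ ((B ++ [a]) ++ (b :: C)) :: Q) ?_ (by rw [e1]; exact h.tp) ?_
        (by rw [e1]) hR' A hA ?_
      · intro D hD
        rcases List.mem_append.1 hD with hD | hD
        · exact h.ne D (List.mem_append_left _ hD)
        · rcases List.mem_cons.1 hD with rfl | hD
          · simp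
          · exact h.ne D (List.mem_append_right _
              (List.mem_cons_of_mem _ (List.mem_cons_of_mem _ hD)))
      · rw [e1]
        have := h.num
        simp only [List.length_append, List.length_cons] at this ⊢
        omega
      · intro D hD
        rcases List.mem_append.1 hD with hD | hD
        · exact hs D (List.mem_append_left _ hD)
        · rcases List.mem_cons.1 hD with rfl | hD
          · exact sol_merge (a := a) (b := b) (by simp) (by simp) ha hb
              (hs (B ++ [a]) (by simp)) (hs (b :: C) (by simp)) hab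
          · exact hs D (List.mem_append_right _
              (List.mem_cons_of_mem _ (List.mem_cons_of_mem _ hD)))
    · have h2 : n = 2 := by
        have := h.two
        omega
      subst h2
      exact isR_two A
  obtain ⟨B', -, -, -, -, -, hB', -, hDD⟩ := hreal.exists_real hA
  exact adj h B' hB' (fun D hD x hx y hy => (hDD x y).1 (hs D hD x hx y hy)) ((hDD a b).1 hab)

theorem cyc_C {Q : List (List (Vec n))} {B C : List (Vec n)} {a b : Vec n}
    (h : Good n ((a :: B) :: (Q ++ [C ++ [b]])))
    (hR : ∀ k, k + 1 = n → 2 ≤ k → ∀ Bs', Good k Bs' → RR k Bs')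
    (hR' : ∀ Bs', Good n Bs' →
      Bs'.flatten.length < ((a :: B) :: (Q ++ [C ++ [b]])).flatten.length → RR n Bs')
    (A : Vec n →ₗ[ℝ] ℂ × ℂ) (hA : Rk2 A)
    (hs : Sol A ((a :: B) :: (Q ++ [C ++ [b]]))) : DD A a b ≠ 0 := by
  intro hab
  have hnz := nz_C h hR A hA hs
  have ha : A a ≠ 0 := hnz a (by simp)
  have hb : A b ≠ 0 := hnz b (by simp)
  have hreal : IsR A := by
    rcases Nat.lt_or_ge 2 n with h3 | h3
    · set c : ℝ := (-1 : ℝ) ^ (n - 1) with hc
      have hc0 : c ≠ 0 := pow_ne_zero _ (by norm_num)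
      set B1 : List (Vec n) := (a :: B).map (fun v => c • v) with hB1
      have e1 : (Q ++ [(C ++ [b]) ++ B1]).flatten = (Q.flatten ++ (C ++ [b])) ++ B1 := by
        simp
      have htp : TP n ((Q.flatten ++ (C ++ [b])) ++ B1) := by
        apply TP.rot (L1 := a :: B) (L2 := Q.flatten ++ (C ++ [b]))
        have := h.tp
        simpa using this
      have hl : (Q ++ [(C ++ [b]) ++ B1]).flatten.length =
          ((a :: B) :: (Q ++ [C ++ [b]])).flatten.length := by
        rw [e1]
        simp only [hB1, List.length_append, List.length_map, List.flatten_cons,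
          List.flatten_append, List.flatten_nil, List.length_cons, List.length_nil]
        omega
      refine isR_of_over h3 (M := ((a :: B) :: (Q ++ [C ++ [b]])).flatten.length)
        (Bs := Q ++ [(C ++ [b]) ++ B1]) ?_ (by rw [e1]; exact htp) ?_ hl.le hR' A hA ?_
      · intro D hD
        rcases List.mem_append.1 hD with hD | hD
        · exact h.ne D (List.mem_cons_of_mem _ (List.mem_append_left _ hD))
        · rw [List.mem_singleton.1 hD]
          simp
      · rw [hl]
        have := h.num
        simp only [List.length_append, List.length_cons, List.length_nil] at this ⊢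
        omega
      · intro D hD
        rcases List.mem_append.1 hD with hD | hD
        · exact hs D (List.mem_cons_of_mem _ (List.mem_append_left _ hD))
        · rw [List.mem_singleton.1 hD]
          have hBB : ∀ x ∈ B1, ∀ y ∈ B1, DD A x y = 0 := by
            intro x hx y hy
            obtain ⟨u, hu, rfl⟩ := List.mem_map.1 hx
            obtain ⟨v, hv, rfl⟩ := List.mem_map.1 hy
            rw [cDD_smul_left, cDD_smul_right, hs (a :: B) (by simp) u hu v hv, mul_zero, mul_zero]
          have hca : A (c • a) ≠ 0 := by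
            rw [map_smul]
            exact smul_ne_zero hc0 ha
          exact sol_merge (a := b) (b := c • a) (by simp) (by simp [hB1]) hb hca
            (hs (C ++ [b]) (by simp)) hBB (by
              rw [cDD_smul_right, cDD_comm, hab, neg_zero, mul_zero])
    · have h2 : n = 2 := by
        have := h.two
        omega
      subst h2
      exact isR_two A
  obtain ⟨B', -, -, -, -, -, hB', -, hDD⟩ := hreal.exists_real hA
  exact cyc h B' hB' (fun D hD x hx y hy => (hDD x y).1 (hs D hD x hx y hy)) ((hDD a b).1 hab)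

end Pool.CTP
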