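import Mathlib

/-! Totally positive lists of vectors, blocks, and two-dimensional quotients in which the vectors of
every block become parallel: definitions. -/

namespace Pool.CTP

noncomputable section

/-- real vectors -/
abbrev Vec (n : ℕ) := Fin n → ℝ

/-- determinant of a list of `n` row vectors -/
def dl (n : ℕ) (l : List (Vec n)) : ℝ := Matrix.det (fun i : Fin n => l.getD (i : ℕ) (0 : Vec n))

/-- totally positive list: all maximal minors are positive -/
def TP (n : ℕ) (l : List (Vec n)) : Prop :=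
  ∀ s : List (Vec n), s.Sublist l → s.length = n → 0 < dl n s

section field
variable {n : ℕ} {K : Type*} [Field K] [Algebra ℝ K]

/-- the determinant of the images of `x` and `x'` in the plane -/
def DD (A : Vec n →ₗ[ℝ] K × K) (x x' : Vec n) : K := (A x).1 * (A x').2 - (A x).2 * (A x').1

/-- `A` has rank two -/
def Rk2 (A : Vec n →ₗ[ℝ] K × K) : Prop := ∃ x x', DD A x x' ≠ 0

/-- the images of the vectors of each block are parallel -/
def Sol (A : Vec n →ₗ[ℝ] K × K) (Bs : List (List (Vec n))) : Prop :=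
  ∀ B ∈ Bs, ∀ x ∈ B, ∀ x' ∈ B, DD A x x' = 0

/-- derivative of `DD A x x'` in the direction `Φ` -/
def dD (A Φ : Vec n →ₗ[ℝ] K × K) (x x' : Vec n) : K :=
  (Φ x).1 * (A x').2 - (Φ x).2 * (A x').1 + ((A x).1 * (Φ x').2 - (A x).2 * (Φ x').1)

/-- the solution `A` is simple: the linearised equations have only the trivial solutions -/
def Trans (A : Vec n →ₗ[ℝ] K × K) (Bs : List (List (Vec n))) : Prop :=
  ∀ Φ : Vec n →ₗ[ℝ] K × K, (∀ B ∈ Bs, ∀ x ∈ B, ∀ x' ∈ B, dD A Φ x x' = 0) →
    ∃ a b c d : K, ∀ x, Φ x = (a * (A x).1 + b * (A x).2, c * (A x).1 + d * (A x).2)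

end field

variable {n : ℕ}

/-- admissible data: nonempty blocks, a totally positive list, `2 (n - 2)` conditions -/
structure Good (n : ℕ) (Bs : List (List (Vec n))) : Prop where
  two : 2 ≤ n
  ne : ∀ B ∈ Bs, B ≠ []
  tp : TP n Bs.flatten
  len : n ≤ Bs.flatten.length
  num : Bs.flatten.length + 4 = Bs.length + 2 * n

/-- `A` is real up to `GL_2` -/
def IsR (A : Vec n →ₗ[ℝ] ℂ × ℂ) : Prop :=
  ∃ (B : Vec n →ₗ[ℝ] ℝ × ℝ) (a b c d : ℂ), ∀ x,
    A x = (a * ((B x).1 : ℂ) + b * ((B x).2 : ℂ), c * ((B x).1 : ℂ) + d * ((B x).2 : ℂ))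

/-- all complex solutions are real -/
def RR (n : ℕ) (Bs : List (List (Vec n))) : Prop :=
  ∀ A : Vec n →ₗ[ℝ] ℂ × ℂ, Rk2 A → Sol A Bs → IsR A

/-- all real solutions are simple -/
def TT (n : ℕ) (Bs : List (List (Vec n))) : Prop :=
  ∀ A : Vec n →ₗ[ℝ] ℝ × ℝ, Rk2 A → Sol A Bs → Trans A Bs

/-! plane geometry -/

/-- a real plane vector as a complex number -/
def cv (p : ℝ × ℝ) : ℂ := ⟨p.1, p.2⟩

/-- the determinant of two plane vectors -/
def cr (v w : ℂ) : ℝ := v.re * w.im - v.im * w.re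

/-- the list of determinants of neighbours -/
def cds : List ℂ → List ℝ
  | a :: b :: l => cr a b :: cds (b :: l)
  | _ => []

/-- the number of sign changes of a list of nonzero numbers -/
def sch : List ℝ → ℕ
  | a :: b :: l => (if a * b < 0 then 1 else 0) + sch (b :: l)
  | _ => 0

/-- oriented angle from `v` to `w`, in `(-π, π]` -/
def arc (v w : ℂ) : ℝ := Complex.arg ((starRingEnd ℂ) v * w)

/-- the total angle of a path -/
def arcs : List ℂ → ℝ
  | a :: b :: l => arc a b + arcs (b :: l)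
  | _ => 0

/-- the total angle of the path closed by `(-1)^(n-1)` times its starting point -/
def Th (n : ℕ) (w : List ℂ) : ℝ := arcs (w ++ [(-1) ^ (n - 1) * w.headD 0])

/-- the sign of the closed path -/
def sg (n : ℕ) (w : List ℂ) : ℝ := Real.cos ((Th n w - ((n : ℝ) - 1) * Real.pi) / 2)

/-! the Jacobian -/

/-- pairs of neighbours -/
def pairs {α : Type*} (B : List α) : List (α × α) := B.zip B.tail

/-- pairs of neighbours inside the blocks -/
def rows {α : Type*} (Bs : List (List α)) : List (α × α) := (Bs.map pairs).flatten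

/-- coordinates, with index in `ℕ` -/
def cf (x : Vec n) (j : ℕ) : ℝ := if h : j < n then x ⟨j, h⟩ else 0

/-- coefficient of the coordinate `(j, i)` (number `c = 2 j + i`) of `Φ` in `dD A Φ x x'` -/
def drow (A : Vec n →ₗ[ℝ] ℝ × ℝ) (x x' : Vec n) (c : ℕ) : ℝ :=
  if c % 2 = 0 then cf x (c / 2) * (A x').2 - cf x' (c / 2) * (A x).2
  else cf x' (c / 2) * (A x).1 - cf x (c / 2) * (A x').1

/-- coefficient of the coordinate `(j, i')` (number `c = 2 j + i'`) of `Φ` in `(Φ x)_i` -/
def erow (x : Vec n) (i : ℕ) (c : ℕ) : ℝ := if c % 2 = i then cf x (c / 2) else 0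

/-- the Jacobian: the determinant of `Φ ↦ (Φ y, Φ x, (dD A Φ)_(rows))` -/
def Jf (n : ℕ) (x y : Vec n) (R : List (Vec n × Vec n)) (A : Vec n →ₗ[ℝ] ℝ × ℝ) : ℝ :=
  Matrix.det (fun r c : Fin (2 * n) =>
    ([erow y 0, erow y 1, erow x 0, erow x 1] ++ R.map (fun p => drow A p.1 p.2)).getD
      (r : ℕ) 0 (c : ℕ))

/-- first vector -/
def fst (Bs : List (List (Vec n))) : Vec n := Bs.flatten.headD 0

/-- last vector -/
def lst (Bs : List (List (Vec n))) : Vec n := Bs.flatten.getLastD 0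

/-- the sign condition -/
def Sgn (n : ℕ) (Bs : List (List (Vec n))) (A : Vec n →ₗ[ℝ] ℝ × ℝ) : Prop :=
  0 < sg n (Bs.flatten.map fun x => cv (A x)) * Jf n (fst Bs) (lst Bs) (rows Bs) A *
    DD A (fst Bs) (lst Bs)

/-- all real solutions satisfy the sign condition -/
def SS (n : ℕ) (Bs : List (List (Vec n))) : Prop :=
  ∀ A : Vec n →ₗ[ℝ] ℝ × ℝ, Rk2 A → Sol A Bs → Sgn n Bs A

/-- the expected number of solutions, from the sizes of the blocks -/
def num (n : ℕ) (s : List ℕ) : ℤ :=
  (((1 - Polynomial.X) * (s.map fun r => ∑ i ∈ Finset.range r, Polynomial.X ^ i).prod :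
    Polynomial ℤ)).coeff (n - 2)

/-- the number of real solutions, counted in the chart given by the last and the first vector -/
def CC (n : ℕ) (Bs : List (List (Vec n))) : Prop :=
  ∃ d : ℕ, (d : ℤ) = num n (Bs.map List.length) ∧
    {A : Vec n →ₗ[ℝ] ℝ × ℝ | A (lst Bs) = (1, 0) ∧ A (fst Bs) = (0, 1) ∧ Sol A Bs}.encard = d

/-- the statement proved by induction -/
def Main (n : ℕ) (Bs : List (List (Vec n))) : Prop := RR n Bs ∧ TT n Bs ∧ SS n Bs ∧ CC n Bs

end

end Pool.CTP
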