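import Pool.Agent.CTP.Defs

/-! Contraction data, chart maps, chart polynomials. -/

namespace Pool.CTP

noncomputable section

/-- `π` is the quotient map by the line of `x`, compatible with determinants -/
structure IsContr {n : ℕ} (x : Vec (n + 1)) (π : Vec (n + 1) →ₗ[ℝ] Vec n) : Prop where
  surj : Function.Surjective π
  ker : ∀ v, π v = 0 ↔ ∃ c : ℝ, v = c • x
  det : ∀ s : List (Vec (n + 1)), s.length = n → dl n (s.map π) = dl (n + 1) (x :: s)

/-- first and second standard vectors -/
def e0 (m : ℕ) : Vec (m + 2) := Pi.single 0 1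
/-- second standard vector -/
def e1 (m : ℕ) : Vec (m + 2) := Pi.single 1 1

section
variable {K : Type*} [Field K] [Algebra ℝ K]

/-- index of the coordinate `(j, 0)` -/
def i0 {m : ℕ} (j : Fin m) : Fin (2 * m) := ⟨2 * (j : ℕ), by have := j.2; omega⟩
/-- index of the coordinate `(j, 1)` -/
def i1 {m : ℕ} (j : Fin m) : Fin (2 * m) := ⟨2 * (j : ℕ) + 1, by have := j.2; omega⟩

/-- the map with `e0 ↦ (1,0)`, `e1 ↦ (0,1)` and given values at the other standard vectors -/
def Ach {m : ℕ} (x : Fin (2 * m) → K) : Vec (m + 2) →ₗ[ℝ] K × K where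
  toFun X := (algebraMap ℝ K (X 0) + ∑ j : Fin m, algebraMap ℝ K (X j.succ.succ) * x (i0 j),
    algebraMap ℝ K (X 1) + ∑ j : Fin m, algebraMap ℝ K (X j.succ.succ) * x (i1 j))
  map_add' X Y := by
    ext <;> simp [add_mul, Finset.sum_add_distrib] <;> ring
  map_smul' c X := by
    ext <;> simp [Finset.mul_sum, mul_add, mul_assoc, Algebra.smul_def]

end

/-- first coordinate of the image of `X`, as a polynomial in the chart coordinates -/
def lin0 {m : ℕ} (X : Vec (m + 2)) : MvPolynomial (Fin (2 * m)) ℝ :=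
  MvPolynomial.C (X 0) + ∑ j : Fin m, MvPolynomial.C (X j.succ.succ) * MvPolynomial.X (i0 j)

/-- second coordinate of the image of `X`, as a polynomial in the chart coordinates -/
def lin1 {m : ℕ} (X : Vec (m + 2)) : MvPolynomial (Fin (2 * m)) ℝ :=
  MvPolynomial.C (X 1) + ∑ j : Fin m, MvPolynomial.C (X j.succ.succ) * MvPolynomial.X (i1 j)

/-- the determinant of the images of two vectors, as a polynomial in the chart coordinates -/
def Fp {m : ℕ} (p : Vec (m + 2) × Vec (m + 2)) : MvPolynomial (Fin (2 * m)) ℝ :=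
  lin0 p.1 * lin1 p.2 - lin1 p.1 * lin0 p.2

/-- the real Jacobian determinant of a polynomial map -/
def jacR {N : ℕ} (P : Fin N → MvPolynomial (Fin N) ℝ) (x : Fin N → ℝ) : ℝ :=
  Matrix.det (fun k j : Fin N => MvPolynomial.eval x (MvPolynomial.pderiv j (P k)))

/-- a real point as a complex point -/
def toC {N : ℕ} (x : Fin N → ℝ) : Fin N → ℂ := fun i => (x i : ℂ)

/-- non-antiparallel nonzero vectors -/
def NA (v w : ℂ) : Prop := (starRingEnd ℂ) v * w ∈ Complex.slitPlane

/-- all neighbours of the list are non-antiparallel -/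
def NAl : List ℂ → Prop
  | a :: b :: l => NA a b ∧ NAl (b :: l)
  | _ => True

/-- all neighbours of the closed list are non-antiparallel -/
def NAs (n : ℕ) (w : List ℂ) : Prop := w ≠ [] ∧ NAl (w ++ [(-1) ^ (n - 1) * w.headD 0])

/-- the contracted blocks, left part -/
def negB {n k : ℕ} (π : Vec n →ₗ[ℝ] Vec k) (B : List (Vec n)) : List (Vec k) := B.map fun v => -π v

end

end Pool.CTP
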