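import Pool.Agent.CT.Deg5
import Pool.Agent.CTP.LinDefs

/-! Row DEG3. The degree argument (page, section 4 and end of 3.3), from the continuation
theorem of `Pool.Agent.CT.Deg5`. -/

namespace Pool.CTP

open Set Filter Topology Pool.Agent.CT

theorem emb_eq_toC {N : ℕ} (x : Fin N → ℝ) : emb N x = toC x := rfl

theorem toC_injective {N : ℕ} : Function.Injective (toC : (Fin N → ℝ) → (Fin N → ℂ)) :=
  emb_injective N

theorem aeval_toC {N : ℕ} (p : MvPolynomial (Fin N) ℝ) (x : Fin N → ℝ) :
    MvPolynomial.aeval (toC x) p = ((MvPolynomial.eval x p : ℝ) : ℂ) := by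
  induction p using MvPolynomial.induction_on with
  | C a => simp
  | add p q hp hq => rw [map_add, map_add, hp, hq, Complex.ofReal_add]
  | mul_X p i hp => rw [map_mul, map_mul, hp, Complex.ofReal_mul, MvPolynomial.aeval_X,
      MvPolynomial.eval_X]; rfl

theorem contDiff_aeval {N : ℕ} (p : MvPolynomial (Fin N) ℝ) :
    ContDiff ℝ 1 fun z : Fin N → ℂ => MvPolynomial.aeval z p := by
  induction p using MvPolynomial.induction_on with
  | C a => simp only [MvPolynomial.aeval_C]; exact contDiff_const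
  | add p q hp hq => simp only [map_add]; exact hp.add hq
  | mul_X p i hp =>
    simp only [map_mul, MvPolynomial.aeval_X]
    exact hp.mul (contDiff_apply ℝ ℂ i)

theorem differentiable_aeval {N : ℕ} (p : MvPolynomial (Fin N) ℝ) :
    Differentiable ℂ fun z : Fin N → ℂ => MvPolynomial.aeval z p := by
  induction p using MvPolynomial.induction_on with
  | C a => simp only [MvPolynomial.aeval_C]; exact differentiable_const _
  | add p q hp hq => simp only [map_add]; exact hp.add hq
  | mul_X p i hp =>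
    simp only [map_mul, MvPolynomial.aeval_X]
    exact hp.mul (differentiable_apply i)

theorem contDiff_eval {N : ℕ} (p : MvPolynomial (Fin N) ℝ) :
    ContDiff ℝ 1 fun x : Fin N → ℝ => MvPolynomial.eval x p := by
  induction p using MvPolynomial.induction_on with
  | C a => simp only [MvPolynomial.eval_C]; exact contDiff_const
  | add p q hp hq => simp only [map_add]; exact hp.add hq
  | mul_X p i hp =>
    simp only [map_mul, MvPolynomial.eval_X]
    exact hp.mul (contDiff_apply ℝ ℝ i)

theorem hasFDerivAt_eval {N : ℕ} (p : MvPolynomial (Fin N) ℝ) (x : Fin N → ℝ) :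
    HasFDerivAt (fun x : Fin N → ℝ => MvPolynomial.eval x p)
      (∑ j, MvPolynomial.eval x (MvPolynomial.pderiv j p) •
        (ContinuousLinearMap.proj j : (Fin N → ℝ) →L[ℝ] ℝ)) x := by
  induction p using MvPolynomial.induction_on with
  | C a =>
    simp only [MvPolynomial.eval_C, MvPolynomial.pderiv_C, map_zero, zero_smul,
      Finset.sum_const_zero]
    exact hasFDerivAt_const _ _
  | add p q hp hq =>
    simp only [map_add, add_smul, Finset.sum_add_distrib]
    exact hp.add hq
  | mul_X p i hp =>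
    simp only [map_mul, MvPolynomial.eval_X]
    have h1 : HasFDerivAt (fun x : Fin N → ℝ => x i)
        (ContinuousLinearMap.proj i : (Fin N → ℝ) →L[ℝ] ℝ) x :=
      (ContinuousLinearMap.proj i : (Fin N → ℝ) →L[ℝ] ℝ).hasFDerivAt
    refine (hp.mul h1).congr_fderiv ?_
    ext v
    simp only [MvPolynomial.pderiv_mul, map_add, map_mul, MvPolynomial.eval_X,
      MvPolynomial.pderiv_X, FunLike.coe_sum, Finset.sum_apply,
      FunLike.coe_smul, Pi.smul_apply, smul_eq_mul, add_apply,
      ContinuousLinearMap.proj_apply]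
    have h3 : ∑ j, MvPolynomial.eval x p *
        MvPolynomial.eval x (Pi.single (M := fun _ => MvPolynomial (Fin N) ℝ) j 1 i) * v j =
        MvPolynomial.eval x p * v i := by
      rw [Finset.sum_eq_single i]
      · simp
      · intro j _ hj
        simp [Pi.single_eq_of_ne hj.symm]
      · intro h
        exact absurd (Finset.mem_univ i) h
    simp only [add_mul, Finset.sum_add_distrib]
    rw [h3, add_comm, Finset.mul_sum]
    congr 1
    refine Finset.sum_congr rfl fun j _ => ?_
    ring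

/-- the Jacobian determinant of a polynomial map -/
theorem det_fderiv_eq_jacR {N : ℕ} (P : Fin N → MvPolynomial (Fin N) ℝ) (x : Fin N → ℝ) :
    (fderiv ℝ (fun (x : Fin N → ℝ) (k : Fin N) => MvPolynomial.eval x (P k)) x).det =
      jacR P x := by
  have h1 : HasFDerivAt (fun (x : Fin N → ℝ) (k : Fin N) => MvPolynomial.eval x (P k))
      (ContinuousLinearMap.pi fun k => ∑ j, MvPolynomial.eval x (MvPolynomial.pderiv j (P k)) •
        (ContinuousLinearMap.proj j : (Fin N → ℝ) →L[ℝ] ℝ)) x :=
    hasFDerivAt_pi.2 fun k => hasFDerivAt_eval (P k) x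
  rw [h1.fderiv]
  unfold jacR
  rw [← LinearMap.det_toLin']
  have h2 : ∀ A : (Fin N → ℝ) →L[ℝ] (Fin N → ℝ), A.det =
    LinearMap.det (A : (Fin N → ℝ) →ₗ[ℝ] (Fin N → ℝ)) := fun _ => rfl
  rw [h2]
  congr 1
  ext j k
  simp [Matrix.mulVec_single, Pi.single_apply]

/-- Let `(1 - τ) P + τ Q` be a homotopy of real polynomial maps whose complex zeros in the open set
`W`, for `τ ∈ [0, 1]`, form a compact set; let all zeros in `W` of `P` be real, and let `e` be a
locally constant sign near the real zeros with `e * jacR P > 0` at the zeros of `P`. Then all zeros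
of `Q` in `W` are real, and if they are simple then `e * jacR Q > 0` there, and there are as many
of them as there are zeros of `P`. -/
theorem deg_main {N : ℕ} (P Q : Fin N → MvPolynomial (Fin N) ℝ) (W : Set (Fin N → ℂ))
    (hW : IsOpen W)
    (hcomp : IsCompact {p : ℝ × (Fin N → ℂ) | 0 ≤ p.1 ∧ p.1 ≤ 1 ∧ p.2 ∈ W ∧
      ∀ k, (1 - (p.1 : ℂ)) * MvPolynomial.aeval p.2 (P k) +
        (p.1 : ℂ) * MvPolynomial.aeval p.2 (Q k) = 0})
    (h0 : ∀ x ∈ W, (∀ k, MvPolynomial.aeval x (P k) = 0) → ∃ x' : Fin N → ℝ, x = toC x')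
    (e : (Fin N → ℝ) → ℝ)
    (he : ∀ τ : ℝ, 0 ≤ τ → τ ≤ 1 → ∀ x : Fin N → ℝ, toC x ∈ W →
      (∀ k, (1 - τ) * MvPolynomial.eval x (P k) + τ * MvPolynomial.eval x (Q k) = 0) →
        e x ^ 2 = 1 ∧ ∀ᶠ y in nhds x, e y = e x)
    (hs : ∀ x : Fin N → ℝ, toC x ∈ W → (∀ k, MvPolynomial.eval x (P k) = 0) →
      0 < e x * jacR P x) :
    (∀ x ∈ W, (∀ k, MvPolynomial.aeval x (Q k) = 0) → ∃ x' : Fin N → ℝ, x = toC x') ∧
    ((∀ x : Fin N → ℝ, toC x ∈ W → (∀ k, MvPolynomial.eval x (Q k) = 0) → jacR Q x ≠ 0) →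
      (∀ x : Fin N → ℝ, toC x ∈ W → (∀ k, MvPolynomial.eval x (Q k) = 0) → 0 < e x * jacR Q x) ∧
      {x : Fin N → ℝ | toC x ∈ W ∧ ∀ k, MvPolynomial.eval x (Q k) = 0}.encard =
        {x : Fin N → ℝ | toC x ∈ W ∧ ∀ k, MvPolynomial.eval x (P k) = 0}.encard) := by
  classical
  set K : Set (ℝ × (Fin N → ℂ)) := {p : ℝ × (Fin N → ℂ) | 0 ≤ p.1 ∧ p.1 ≤ 1 ∧ p.2 ∈ W ∧
      ∀ k, (1 - (p.1 : ℂ)) * MvPolynomial.aeval p.2 (P k) +
        (p.1 : ℂ) * MvPolynomial.aeval p.2 (Q k) = 0} with hK
  set F : ℝ × (Fin N → ℂ) → (Fin N → ℂ) := fun p k =>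
    (1 - (p.1 : ℂ)) * MvPolynomial.aeval p.2 (P k) + (p.1 : ℂ) * MvPolynomial.aeval p.2 (Q k)
    with hF
  set f : ℝ × (Fin N → ℝ) → (Fin N → ℝ) := fun p k =>
    (1 - p.1) * MvPolynomial.eval p.2 (P k) + p.1 * MvPolynomial.eval p.2 (Q k) with hf
  have hcast : ContDiff ℝ 1 fun p : ℝ × (Fin N → ℂ) => (p.1 : ℂ) :=
    Complex.ofRealCLM.contDiff.comp contDiff_fst
  have hFC1 : ContDiff ℝ 1 F := by
    rw [contDiff_pi]
    intro k
    exact ((contDiff_const.sub hcast).mul ((contDiff_aeval (P k)).comp contDiff_snd)).add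
      (hcast.mul ((contDiff_aeval (Q k)).comp contDiff_snd))
  have hFd : ∀ t, Differentiable ℂ fun y => F (t, y) := by
    intro t
    rw [differentiable_pi]
    intro k
    change Differentiable ℂ fun y : Fin N → ℂ => (1 - (t : ℂ)) * MvPolynomial.aeval y (P k) +
      (t : ℂ) * MvPolynomial.aeval y (Q k)
    exact ((differentiable_aeval (P k)).const_mul _).add ((differentiable_aeval (Q k)).const_mul _)
  have hfC1 : ContDiff ℝ 1 f := by
    rw [contDiff_pi]
    intro k
    exact ((contDiff_const.sub contDiff_fst).mul ((contDiff_eval (P k)).comp contDiff_snd)).add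
      (contDiff_fst.mul ((contDiff_eval (Q k)).comp contDiff_snd))
  have hcompat : ∀ t x, F (t, emb N x) = emb N (f (t, x)) := by
    intro t x
    funext k
    rw [emb_apply]
    simp only [hF, hf]
    rw [emb_eq_toC, aeval_toC, aeval_toC]
    push_cast
    ring
  have hKR : ∀ t x, (t, emb N x) ∈ K ↔ (0 ≤ t ∧ t ≤ 1 ∧ toC x ∈ W ∧ f (t, x) = 0) := by
    intro t x
    have h1 : F (t, emb N x) = 0 ↔ f (t, x) = 0 := by
      rw [hcompat]
      constructor
      · intro h
        exact emb_injective N (by rw [h, map_zero])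
      · intro h
        rw [h, map_zero]
    rw [← h1]
    constructor
    · rintro ⟨a1, a2, a3, a4⟩
      exact ⟨a1, a2, a3, funext a4⟩
    · rintro ⟨a1, a2, a3, a4⟩
      exact ⟨a1, a2, a3, fun k => congrFun a4 k⟩
  -- jacobians
  have hf0 : (fun x => f (0, x)) = fun (x : Fin N → ℝ) (k : Fin N) => MvPolynomial.eval x (P k) := by
    funext x k
    simp [hf]
  have hf1 : (fun x => f (1, x)) = fun (x : Fin N → ℝ) (k : Fin N) => MvPolynomial.eval x (Q k) := by
    funext x k
    simp [hf]
  have hJ0 : ∀ x, (fderiv ℝ (fun x => f (0, x)) x).det = jacR P x := by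
    intro x
    rw [hf0, det_fderiv_eq_jacR]
  have hJ1 : ∀ x, (fderiv ℝ (fun x => f (1, x)) x).det = jacR Q x := by
    intro x
    rw [hf1, det_fderiv_eq_jacR]
  have hsq : ∀ a : ℝ, a ^ 2 = 1 → a = 1 ∨ a = -1 := by
    intro a ha
    have h1 : (a - 1) * (a + 1) = 0 := by
      ring_nf
      linarith
    rcases mul_eq_zero.1 h1 with h | h
    · exact Or.inl (by linarith)
    · exact Or.inr (by linarith)
  have hsgn : ∀ a b : ℝ, (a = 1 ∨ a = -1) →
      (0 < a * b ↔ a * ((SignType.sign b : SignType) : ℝ) = 1) := by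
    intro a b ha
    rcases lt_trichotomy b 0 with hb | hb | hb
    · rw [sign_neg hb]
      have hc : (((-1 : SignType)) : ℝ) = -1 := by simp
      rw [hc]
      rcases ha with h | h <;> rw [h]
      · constructor
        · intro h'
          linarith
        · intro h'
          norm_num at h'
      · constructor
        · intro h'
          norm_num
        · intro h'
          linarith
    · subst hb
      simp
    · rw [sign_pos hb]
      have hc : (((1 : SignType)) : ℝ) = 1 := by simp
      rw [hc]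
      rcases ha with h | h <;> rw [h]
      · constructor
        · intro h'
          norm_num
        · intro h'
          linarith
      · constructor
        · intro h'
          linarith
        · intro h'
          norm_num at h'
  have heK : ∀ p : ℝ × (Fin N → ℝ), (p.1, emb N p.2) ∈ K →
      (e p.2 = 1 ∨ e p.2 = -1) ∧ ∀ᶠ y in nhds p.2, e y = e p.2 := by
    intro p hp
    obtain ⟨a1, a2, a3, a4⟩ := (hKR p.1 p.2).1 hp
    obtain ⟨b1, b2⟩ := he p.1 a1 a2 p.2 a3 (fun k => congrFun a4 k)
    exact ⟨hsq _ b1, b2⟩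
  -- the zeros at time zero
  have hcj : Continuous fun x : Fin N → ℝ => ((0 : ℝ), emb N x) := by
    have := (emb N).continuous
    fun_prop
  set S : Set (Fin N → ℝ) := {x | ((0 : ℝ), emb N x) ∈ K} with hS
  have hSc : IsCompact S := by
    have h1 : Topology.IsClosedEmbedding fun x : Fin N → ℝ => ((0 : ℝ), emb N x) := by
      apply Isometry.isClosedEmbedding
      apply Isometry.of_dist_eq
      intro x y
      simp only [Prod.dist_eq, dist_self]
      rw [dist_eq_norm (emb N x), ← map_sub, norm_emb, dist_eq_norm]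
      exact max_eq_right (norm_nonneg _)
    exact h1.isCompact_preimage hcomp
  have hSJ : ∀ x ∈ S, 0 < e x * jacR P x := by
    intro x hx
    obtain ⟨a1, a2, a3, a4⟩ := (hKR 0 x).1 hx
    exact hs x a3 fun k => by
      have := congrFun a4 k
      simpa [hf] using this
  have hSf : S.Finite := by
    apply finite_simple (fun x => f (0, x)) (slice_contDiff hfC1 0) S hSc
    · intro x hx
      exact ((hKR 0 x).1 hx).2.2.2
    · intro x hx h00
      rw [hJ0] at h00
      have := hSJ x hx
      rw [h00, mul_zero] at this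
      exact lt_irrefl _ this
  set Z : Finset (Fin N → ℝ) := hSf.toFinset with hZ
  have hZm : ∀ x, x ∈ Z ↔ ((0 : ℝ), emb N x) ∈ K := fun x => hSf.mem_toFinset
  have hmain := continuation F f hFC1 hFd hfC1 hcompat (K := K) (U := {p | p.2 ∈ W}) hcomp
    (hW.preimage continuous_snd) (fun p hp => hp.2.2.1) (fun p hp => ⟨hp.1, hp.2.1⟩)
    (fun p hp => funext hp.2.2.2)
    (fun p hp ht h00 => ⟨ht.1, ht.2, hp, fun k => congrFun h00 k⟩)
    (fun p => e p.2) (fun t x hx => (heK (t, x) hx).1)
    (by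
      intro p hp
      apply ContinuousAt.continuousWithinAt
      have h1 := (continuous_snd.tendsto p).eventually (heK p hp).2
      exact (continuousAt_const (y := e p.2)).congr (h1.mono fun q hq => hq.symm))
    Z (by
      intro y
      constructor
      · intro hy
        obtain ⟨x, rfl⟩ := h0 y hy.2.2.1 (fun k => by
          have := hy.2.2.2 k
          simpa using this)
        exact ⟨x, (hZm x).2 hy, rfl⟩
      · rintro ⟨x, hx, rfl⟩
        exact (hZm x).1 hx)
    (fun x hx => by
      rw [hJ0]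
      intro h00
      have := hSJ x ((hZm x).1 hx)
      rw [h00, mul_zero] at this
      exact lt_irrefl _ this)
    1 (Or.inl rfl)
    (fun x hx => by
      rw [hJ0]
      exact (hsgn _ _ (heK (0, x) ((hZm x).1 hx)).1).1 (hSJ x ((hZm x).1 hx)))
  have h1K : ∀ x, (1, emb N x) ∈ K ↔ (toC x ∈ W ∧ ∀ k, MvPolynomial.eval x (Q k) = 0) := by
    intro x
    rw [hKR]
    constructor
    · rintro ⟨-, -, a3, a4⟩
      exact ⟨a3, fun k => by
        have := congrFun a4 k
        simpa [hf] using this⟩
    · rintro ⟨a3, a4⟩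
      exact ⟨zero_le_one, le_rfl, a3, funext fun k => by simp [hf, a4 k]⟩
  refine ⟨fun x hx hQ => ?_, fun hsimple => ?_⟩
  · obtain ⟨x', hx'⟩ := hmain.1 x ⟨zero_le_one, le_rfl, hx, fun k => by simp [hQ k]⟩
    exact ⟨x', hx'⟩
  · obtain ⟨Z1, hZ1, hcard, hZ1s⟩ := hmain.2 (fun x hx => by
      rw [hJ1]
      exact hsimple x ((h1K x).1 hx).1 ((h1K x).1 hx).2)
    refine ⟨fun x hx hQ => ?_, ?_⟩
    · have h2 : x ∈ Z1 := (hZ1 x).2 ((h1K x).2 ⟨hx, hQ⟩)
      have h3 := hZ1s x h2
      rw [hJ1] at h3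
      exact (hsgn _ _ (heK (1, x) ((hZ1 x).1 h2)).1).2 h3
    · have e1 : {x : Fin N → ℝ | toC x ∈ W ∧ ∀ k, MvPolynomial.eval x (Q k) = 0} = (Z1 : Set _) := by
        ext x
        rw [Finset.mem_coe, hZ1, h1K]
        rfl
      have e0 : {x : Fin N → ℝ | toC x ∈ W ∧ ∀ k, MvPolynomial.eval x (P k) = 0} = (Z : Set _) := by
        ext x
        rw [Finset.mem_coe, hZm, hKR]
        constructor
        · rintro ⟨a3, a4⟩
          exact ⟨le_rfl, zero_le_one, a3, funext fun k => by simp [hf, a4 k]⟩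
        · rintro ⟨-, -, a3, a4⟩
          exact ⟨a3, fun k => by
            have := congrFun a4 k
            simpa [hf] using this⟩
      rw [e1, e0, Set.encard_coe_eq_coe_finsetCard, Set.encard_coe_eq_coe_finsetCard, hcard]

end Pool.CTP
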