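import Pool.Agent.CTP.Lin

/-! Row JAC1. The Jacobian: change of coordinates and contraction. -/

namespace Pool.CTP

variable {n : ℕ}

/-! private helpers: pairs of vectors as vectors with `2 n` coordinates -/

noncomputable section

theorem J1_cf {x : Vec n} {j : ℕ} (h : j < n) : cf x j = x ⟨j, h⟩ := by
  unfold cf; rw [dif_pos h]

theorem J1_cf_add (x y : Vec n) (j : ℕ) : cf (x + y) j = cf x j + cf y j := by
  unfold cf; split_ifs <;> simp

theorem J1_cf_smul (c : ℝ) (x : Vec n) (j : ℕ) : cf (c • x) j = c * cf x j := by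
  unfold cf; split_ifs <;> simp

theorem J1_cf_cons (a : ℝ) (w : Vec n) (j : ℕ) :
    cf (Fin.cons a w : Vec (n + 1)) (j + 1) = cf w j := by
  unfold cf
  by_cases h : j < n
  · rw [dif_pos (by omega), dif_pos h]; rfl
  · rw [dif_neg (by omega), dif_neg h]

/-- pairs of vectors as vectors with `2 n` coordinates -/
def J1_io (n : ℕ) : (Vec n × Vec n) ≃ₗ[ℝ] Vec (2 * n) where
  toFun w := fun c => if (c : ℕ) % 2 = 0 then cf w.1 ((c : ℕ) / 2) else cf w.2 ((c : ℕ) / 2)
  map_add' v w := by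
    ext c
    simp only [Prod.fst_add, Prod.snd_add, Pi.add_apply, J1_cf_add]
    split_ifs <;> rfl
  map_smul' r w := by
    ext c
    simp only [Prod.smul_fst, Prod.smul_snd, Pi.smul_apply, J1_cf_smul, RingHom.id_apply,
      smul_eq_mul]
    split_ifs <;> rfl
  invFun v := (fun j => v ⟨2 * (j : ℕ), by have := j.2; omega⟩,
    fun j => v ⟨2 * (j : ℕ) + 1, by have := j.2; omega⟩)
  left_inv w := by
    ext j
    · simp only [Nat.mul_mod_right, if_true]
      rw [J1_cf (by have := j.2; omega)]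
      exact congrArg w.1 (Fin.ext (show 2 * (j : ℕ) / 2 = j by omega))
    · have h1 : ¬ ((2 * (j : ℕ) + 1) % 2 = 0) := by omega
      simp only [h1, if_false]
      rw [J1_cf (by have := j.2; omega)]
      exact congrArg w.2 (Fin.ext (show (2 * (j : ℕ) + 1) / 2 = j by omega))
  right_inv v := by
    ext c
    have hc := c.2
    simp only []
    split_ifs with h
    · rw [J1_cf (by omega)]
      exact congrArg v (Fin.ext (show 2 * ((c : ℕ) / 2) = c by omega))
    · rw [J1_cf (by omega)]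
      exact congrArg v (Fin.ext (show 2 * ((c : ℕ) / 2) + 1 = c by omega))

theorem J1_io_apply (w : Vec n × Vec n) (c : Fin (2 * n)) :
    J1_io n w c = if (c : ℕ) % 2 = 0 then cf w.1 ((c : ℕ) / 2) else cf w.2 ((c : ℕ) / 2) := rfl

/-- the pair of vectors of a row -/
def J1_dr (A : Vec n →ₗ[ℝ] ℝ × ℝ) (x x' : Vec n) : Vec n × Vec n :=
  ((A x').2 • x - (A x).2 • x', (A x).1 • x' - (A x').1 • x)

/-- restriction to the first `N` indices -/
def J1_res (N : ℕ) (f : ℕ → ℝ) : Vec N := fun c => f c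

theorem J1_res_drow (A : Vec n →ₗ[ℝ] ℝ × ℝ) (x x' : Vec n) :
    J1_res (2 * n) (drow A x x') = J1_io n (J1_dr A x x') := by
  ext c
  rw [J1_io_apply]
  unfold J1_res drow J1_dr
  have h1 : ∀ (u v : Vec n) (α β : ℝ) (j : ℕ), cf (α • u - β • v) j = α * cf u j - β * cf v j := by
    intro u v α β j
    rw [sub_eq_add_neg, ← neg_smul, J1_cf_add, J1_cf_smul, J1_cf_smul]; ring
  split_ifs
  · rw [h1]; ring
  · rw [h1]; ring

theorem J1_res_erow0 (x : Vec n) : J1_res (2 * n) (erow x 0) = J1_io n (x, 0) := by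
  ext c
  rw [J1_io_apply]
  unfold J1_res erow
  split_ifs
  · rfl
  · simp [cf]

theorem J1_res_erow1 (x : Vec n) : J1_res (2 * n) (erow x 1) = J1_io n (0, x) := by
  ext c
  rw [J1_io_apply]
  unfold J1_res erow
  have h : (c : ℕ) % 2 = 1 ↔ ¬ ((c : ℕ) % 2 = 0) := by omega
  simp only [h]
  split_ifs
  · simp [cf]
  · rfl

/-- the list of pairs -/
def J1_L (x y : Vec n) (R : List (Vec n × Vec n)) (A : Vec n →ₗ[ℝ] ℝ × ℝ) :
    List (Vec n × Vec n) :=
  [(y, 0), (0, y), (x, 0), (0, x)] ++ R.map (fun p => J1_dr A p.1 p.2)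

theorem J1_Jf (x y : Vec n) (R : List (Vec n × Vec n)) (A : Vec n →ₗ[ℝ] ℝ × ℝ) :
    Jf n x y R A = dl (2 * n) ((J1_L x y R A).map (J1_io n)) := by
  have h1 : (J1_L x y R A).map (J1_io n) =
      ([erow y 0, erow y 1, erow x 0, erow x 1] ++ R.map (fun p => drow A p.1 p.2)).map
        (J1_res (2 * n)) := by
    unfold J1_L
    rw [List.map_append, List.map_append, List.map_map, List.map_map]
    congr 1
    · simp only [List.map_cons, List.map_nil, J1_res_erow0, J1_res_erow1]
    · apply List.map_congr_left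
      intro p _
      exact (J1_res_drow A p.1 p.2).symm
  rw [h1]
  unfold Jf dl
  congr 1
  ext r c
  have := List.getD_map (l := [erow y 0, erow y 1, erow x 0, erow x 1] ++
    R.map (fun p => drow A p.1 p.2)) (n := (r : ℕ)) (d := (0 : ℕ → ℝ)) (f := J1_res (2 * n))
  have h0 : J1_res (2 * n) (0 : ℕ → ℝ) = (0 : Vec (2 * n)) := rfl
  rw [h0] at this
  exact (congrFun this c).symm

theorem J1_conj (l : List (Vec n × Vec n)) (T : Vec n →ₗ[ℝ] Vec n) :
    dl (2 * n) ((l.map (fun p => (T p.1, T p.2))).map (J1_io n)) =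
      LinearMap.det T ^ 2 * dl (2 * n) (l.map (J1_io n)) := by
  have h1 : (l.map (fun p => (T p.1, T p.2))).map (J1_io n) = (l.map (J1_io n)).map
      ((J1_io n : (Vec n × Vec n) →ₗ[ℝ] Vec (2 * n)) ∘ₗ (T.prodMap T) ∘ₗ
        ((J1_io n).symm : Vec (2 * n) →ₗ[ℝ] (Vec n × Vec n))) := by
    rw [List.map_map, List.map_map]
    apply List.map_congr_left
    intro p _
    simp
  rw [h1, dl_map, LinearMap.det_conj, LinearMap.det_prodMap, sq]

/-- invariance under linear isomorphisms -/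
theorem Jf_map (T : Vec n ≃ₗ[ℝ] Vec n) (x y : Vec n) (R : List (Vec n × Vec n))
    (A : Vec n →ₗ[ℝ] ℝ × ℝ) :
    Jf n (T x) (T y) (R.map fun p => (T p.1, T p.2)) (A ∘ₗ (T.symm : Vec n →ₗ[ℝ] Vec n)) =
      LinearMap.det (T : Vec n →ₗ[ℝ] Vec n) ^ 2 * Jf n x y R A := by
  rw [J1_Jf, J1_Jf, ← J1_conj]
  congr 2
  unfold J1_L
  rw [List.map_append, List.map_map, List.map_map]
  congr 1
  · simp
  · apply List.map_congr_left
    intro p _
    simp [J1_dr]

theorem J1_dr_map {k : ℕ} (A : Vec k →ₗ[ℝ] ℝ × ℝ) (π : Vec n →ₗ[ℝ] Vec k) (u u' : Vec n) :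
    (π (J1_dr (A ∘ₗ π) u u').1, π (J1_dr (A ∘ₗ π) u u').2) = J1_dr A (π u) (π u') := by
  simp [J1_dr]

theorem J1_dr_neg (A : Vec n →ₗ[ℝ] ℝ × ℝ) (u u' : Vec n) :
    J1_dr A (-u) (-u') = J1_dr A u u' := by
  simp [J1_dr]

/-- pairs: contraction of both factors -/
theorem J1_two {z : Vec (n + 1)} {π : Vec (n + 1) →ₗ[ℝ] Vec n} (hπ : IsContr z π) :
    ∃ c : ℝ, 0 < c ∧ ∀ l : List (Vec (n + 1) × Vec (n + 1)),
      dl (2 * (n + 1)) (J1_io (n + 1) (z, 0) :: J1_io (n + 1) (0, z) :: l.map (J1_io (n + 1))) =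
        c * dl (2 * n) ((l.map fun p => (π p.1, π p.2)).map (J1_io n)) := by
  have hz : π z = 0 := (hπ.ker z).mpr ⟨1, by simp⟩
  have hz0 : z ≠ 0 := by
    rintro rfl
    have hinj : Function.Injective π := by
      rw [← LinearMap.ker_eq_bot, LinearMap.ker_eq_bot']
      intro v hv
      obtain ⟨c, hc⟩ := (hπ.ker v).mp hv
      rw [hc, smul_zero]
    have := LinearMap.finrank_le_finrank_of_injective hinj
    simp at this
  obtain ⟨f, hf⟩ := Lin_fun z hz0
  let T : Vec (n + 1) →ₗ[ℝ] Vec (n + 1) :=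
    { toFun := fun v => Fin.cons (f v) (π v)
      map_add' := by
        intro v w
        ext i
        refine Fin.cases ?_ (fun i => ?_) i
        · simp only [Pi.add_apply, Fin.cons_zero, map_add]
        · simp only [Pi.add_apply, Fin.cons_succ, map_add]
      map_smul' := by
        intro c v
        ext i
        refine Fin.cases ?_ (fun i => ?_) i
        · simp only [Pi.smul_apply, Fin.cons_zero, map_smul, RingHom.id_apply]
        · simp only [Pi.smul_apply, Fin.cons_succ, map_smul, RingHom.id_apply] }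
  have hT : ∀ v, T v = Fin.cons (f v) (π v) := fun v => rfl
  have hTi : Function.Injective T := by
    rw [← LinearMap.ker_eq_bot, LinearMap.ker_eq_bot']
    intro v hv
    rw [hT] at hv
    have h0 : f v = 0 := by
      have := congrFun hv 0
      simpa using this
    have h1 : π v = 0 := by
      ext i
      have := congrFun hv i.succ
      simpa using this
    obtain ⟨c, hc⟩ := (hπ.ker v).mp h1
    rw [hc, map_smul, hf, smul_eq_mul, mul_one] at h0
    rw [hc, h0, zero_smul]
  have hd : LinearMap.det T ≠ 0 := by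
    intro h
    have := LinearMap.bot_lt_ker_of_det_eq_zero h
    rw [LinearMap.ker_eq_bot.mpr hTi] at this
    exact lt_irrefl _ this
  refine ⟨(LinearMap.det T ^ 2)⁻¹, by positivity, fun l => ?_⟩
  have h1 := J1_conj ((z, 0) :: (0, z) :: l) T
  have h2 : dl (2 * (n + 1)) ((((z, 0) :: (0, z) :: l).map (fun p => (T p.1, T p.2))).map
      (J1_io (n + 1))) = dl (2 * n) ((l.map fun p => (π p.1, π p.2)).map (J1_io n)) := by
    have hTz : T z = Fin.cons 1 0 := by rw [hT, hf, hz]
    simp only [List.map_cons, map_zero, hTz]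
    have c0 : cf (Fin.cons 1 0 : Vec (n + 1)) 0 = 1 := by
      rw [J1_cf (Nat.succ_pos n)]; rfl
    have c1 : ∀ j, cf (Fin.cons 1 0 : Vec (n + 1)) (j + 1) = 0 := by
      intro j
      rw [J1_cf_cons]; simp [cf]
    have c2 : ∀ j, cf (0 : Vec (n + 1)) j = 0 := by intro j; simp [cf]
    change dl ((2 * n + 1) + 1) _ = _
    rw [Lin_det_e0]
    rotate_left
    · change J1_io (n + 1) (Fin.cons 1 0, 0) 0 = 1
      rw [J1_io_apply]
      simpa using c0
    · intro i
      change J1_io (n + 1) (Fin.cons 1 0, 0) i.succ = 0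
      rw [J1_io_apply]
      split_ifs with h
      · obtain ⟨j, hj⟩ : ∃ j, ((i.succ : Fin ((2 * n + 1) + 1)) : ℕ) / 2 = j + 1 :=
          ⟨((i.succ : Fin ((2 * n + 1) + 1)) : ℕ) / 2 - 1, by
            rw [Fin.val_succ] at h ⊢; omega⟩
        exact (congrArg (cf (Fin.cons 1 0 : Vec (n + 1))) hj).trans (c1 j)
      · exact c2 _
    rw [List.map_cons, Lin_det_e0]
    rotate_left
    · change J1_io (n + 1) (0, Fin.cons 1 0) (Fin.succ 0) = 1
      rw [J1_io_apply]
      rw [if_neg (by simp)]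
      have hv : ((Fin.succ 0 : Fin ((2 * n + 1) + 1)) : ℕ) / 2 = 0 := by
        rw [Fin.val_succ, Fin.val_zero]
      exact (congrArg (cf (Fin.cons 1 0 : Vec (n + 1))) hv).trans c0
    · intro i
      change J1_io (n + 1) (0, Fin.cons 1 0) i.succ.succ = 0
      rw [J1_io_apply]
      split_ifs with h
      · exact c2 _
      · obtain ⟨j, hj⟩ : ∃ j, ((i.succ.succ : Fin ((2 * n + 1) + 1)) : ℕ) / 2 = j + 1 :=
          ⟨((i.succ.succ : Fin ((2 * n + 1) + 1)) : ℕ) / 2 - 1, by
            rw [Fin.val_succ, Fin.val_succ]; omega⟩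
        exact (congrArg (cf (Fin.cons 1 0 : Vec (n + 1))) hj).trans (c1 j)
    congr 1
    rw [List.map_map, List.map_map, List.map_map, List.map_map]
    apply List.map_congr_left
    intro p _
    ext c
    change J1_io (n + 1) (T p.1, T p.2) c.succ.succ = J1_io n (π p.1, π p.2) c
    rw [J1_io_apply, J1_io_apply, hT, hT]
    have hc : ((c.succ.succ : Fin ((2 * n + 1) + 1)) : ℕ) = c + 2 := rfl
    have hc2 : ((c : ℕ) + 2) / 2 = (c : ℕ) / 2 + 1 := by omega
    have hc3 : ((c : ℕ) + 2) % 2 = (c : ℕ) % 2 := by omega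
    rw [hc, hc2, hc3, J1_cf_cons, J1_cf_cons]
  rw [h2] at h1
  rw [h1]
  simp only [List.map_cons]
  rw [← mul_assoc, inv_mul_cancel₀ (by positivity), one_mul]

/-- contraction at a vector in the kernel of `A` (page, 3.3, type I) -/
theorem Jf_contr {z : Vec (n + 1)} {π : Vec (n + 1) →ₗ[ℝ] Vec n} (hπ : IsContr z π)
    (hn : 2 ≤ n) (x y a b : Vec (n + 1)) (R1 R2 : List (Vec (n + 1) × Vec (n + 1)))
    (hR : R1.length + R2.length + 4 = 2 * n) (A : Vec n →ₗ[ℝ] ℝ × ℝ) :
    ∃ c : ℝ, 0 < c ∧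
      Jf (n + 1) x y (R1 ++ (a, z) :: (z, b) :: R2) (A ∘ₗ π) =
        -(c * DD (A ∘ₗ π) a b * Jf n (-π x) (π y)
          (R1.map (fun p => (-π p.1, -π p.2)) ++ R2.map (fun p => (π p.1, π p.2))) A) := by
  have hz : π z = 0 := (hπ.ker z).mpr ⟨1, by simp⟩
  obtain ⟨c, hc, hcl⟩ := J1_two hπ
  refine ⟨c, hc, ?_⟩
  have hk : (A ∘ₗ π) z = 0 := by simp [hz]
  set l1 : List (Vec (n + 1) × Vec (n + 1)) :=
    [(y, 0), (0, y), (x, 0), (0, x)] ++ R1.map (fun p => J1_dr (A ∘ₗ π) p.1 p.2) with hl1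
  set l2 : List (Vec (n + 1) × Vec (n + 1)) :=
    R2.map (fun p => J1_dr (A ∘ₗ π) p.1 p.2) with hl2
  have hlen : l1.length + l2.length + 2 = 2 * (n + 1) := by
    rw [hl1, hl2]
    simp only [List.length_append, List.length_map, List.length_cons, List.length_nil]
    omega
  -- left side
  have e1 : Jf (n + 1) x y (R1 ++ (a, z) :: (z, b) :: R2) (A ∘ₗ π) =
      dl (2 * (n + 1)) (l1.map (J1_io (n + 1)) ++ J1_io (n + 1) (J1_dr (A ∘ₗ π) a z) ::
        J1_io (n + 1) (J1_dr (A ∘ₗ π) z b) :: l2.map (J1_io (n + 1))) := by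
    rw [J1_Jf]
    congr 1
    simp [J1_L, hl1, hl2]
  set u : Vec (2 * (n + 1)) := J1_io (n + 1) (z, 0) with hu
  set w : Vec (2 * (n + 1)) := J1_io (n + 1) (0, z) with hw
  have ea : J1_io (n + 1) (J1_dr (A ∘ₗ π) a z) =
      (-((A ∘ₗ π) a).2) • u + ((A ∘ₗ π) a).1 • w := by
    rw [hu, hw, ← map_smul, ← map_smul, ← map_add]
    congr 1
    simp [J1_dr, hz]
  have eb : J1_io (n + 1) (J1_dr (A ∘ₗ π) z b) =
      ((A ∘ₗ π) b).2 • u + (-((A ∘ₗ π) b).1) • w := by
    rw [hu, hw, ← map_smul, ← map_smul, ← map_add]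
    congr 1
    simp [J1_dr, hz]
  set M1 := l1.map (J1_io (n + 1)) with hM1
  set M2 := l2.map (J1_io (n + 1)) with hM2
  have hM : M1.length + M2.length + 2 = 2 * (n + 1) := by simpa [hM1, hM2] using hlen
  have rep : ∀ v : Vec (2 * (n + 1)), dl (2 * (n + 1)) (M1 ++ v :: v :: M2) = 0 := by
    intro v
    apply dl_zero_of_not_nodup
    · simp only [List.length_append, List.length_cons]; omega
    · intro hnd
      have := (List.nodup_append.mp hnd).2.1
      simp at this
  have e2 : dl (2 * (n + 1)) (M1 ++ J1_io (n + 1) (J1_dr (A ∘ₗ π) a z) ::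
        J1_io (n + 1) (J1_dr (A ∘ₗ π) z b) :: M2) =
      -(DD (A ∘ₗ π) a b) * dl (2 * (n + 1)) (M1 ++ u :: w :: M2) := by
    have key : ∀ v : Vec (2 * (n + 1)), dl (2 * (n + 1)) (M1 ++ v ::
        J1_io (n + 1) (J1_dr (A ∘ₗ π) z b) :: M2) =
        ((A ∘ₗ π) b).2 * dl (2 * (n + 1)) (M1 ++ v :: u :: M2) +
          (-((A ∘ₗ π) b).1) * dl (2 * (n + 1)) (M1 ++ v :: w :: M2) := by
      intro v
      have a1 : ∀ v', M1 ++ v :: v' :: M2 = (M1 ++ [v]) ++ v' :: M2 := by intro v'; simp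
      rw [a1, a1, a1, eb, dl_comb]
      simp only [List.length_append, List.length_cons, List.length_nil]; omega
    rw [ea, dl_comb _ _ _ _ _ _ (by simp only [List.length_cons]; omega), key, key, rep, rep,
      dl_swap M1 M2 w u (by omega)]
    unfold DD
    ring
  have e3 : dl (2 * (n + 1)) (M1 ++ u :: w :: M2) = dl (2 * (n + 1)) (u :: w :: (M1 ++ M2)) := by
    rw [dl_move M1 (w :: M2) u (by simp only [List.length_cons]; omega)]
    have := dl_move_pre M1 [u] M2 w (by
      simp only [List.length_cons, List.length_nil]; omega)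
    simp only [List.cons_append, List.nil_append] at this
    rw [this, ← mul_assoc, ← pow_add, Even.neg_one_pow ⟨M1.length, rfl⟩, one_mul]
  have e4 : dl (2 * (n + 1)) (u :: w :: (M1 ++ M2)) =
      c * dl (2 * n) (((l1 ++ l2).map fun p => (π p.1, π p.2)).map (J1_io n)) := by
    rw [← hcl (l1 ++ l2), List.map_append]
  -- right side
  have e5 : Jf n (-π x) (π y)
      (R1.map (fun p => (-π p.1, -π p.2)) ++ R2.map (fun p => (π p.1, π p.2))) A =
      dl (2 * n) (((l1 ++ l2).map fun p => (π p.1, π p.2)).map (J1_io n)) := by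
    rw [J1_Jf]
    have q1 : (J1_L (-π x) (π y)
        (R1.map (fun p => (-π p.1, -π p.2)) ++ R2.map (fun p => (π p.1, π p.2))) A).map (J1_io n) =
        [J1_io n (π y, 0), J1_io n (0, π y)] ++
          ((-1 : ℝ) • J1_io n (π x, 0)) :: ((-1 : ℝ) • J1_io n (0, π x)) ::
          ((R1.map fun p => J1_dr A (π p.1) (π p.2)) ++
            (R2.map fun p => J1_dr A (π p.1) (π p.2))).map (J1_io n) := by
      rw [← map_smul, ← map_smul]
      simp [J1_L, J1_dr_neg, List.map_append, Function.comp_def]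
    have q2 : ((l1 ++ l2).map fun p => (π p.1, π p.2)).map (J1_io n) =
        [J1_io n (π y, 0), J1_io n (0, π y)] ++
          (J1_io n (π x, 0)) :: (J1_io n (0, π x)) ::
          ((R1.map fun p => J1_dr A (π p.1) (π p.2)) ++
            (R2.map fun p => J1_dr A (π p.1) (π p.2))).map (J1_io n) := by
      simp only [hl1, hl2, List.map_append, List.map_cons, List.map_map,
        List.cons_append, List.nil_append, map_zero, Function.comp_def, J1_dr_map]
    rw [q1, q2, dl_smul _ _ _ _ (by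
      simp only [List.length_append, List.length_cons, List.length_nil, List.length_map]; omega)]
    have a1 : ∀ v' : Vec (2 * n), ∀ M : List (Vec (2 * n)),
        [J1_io n (π y, 0), J1_io n (0, π y)] ++ (J1_io n (π x, 0)) :: v' :: M =
        [J1_io n (π y, 0), J1_io n (0, π y), J1_io n (π x, 0)] ++ v' :: M := by
      intro v' M; simp
    rw [a1, a1, dl_smul _ _ _ _ (by
      simp only [List.length_append, List.length_cons, List.length_nil, List.length_map]; omega)]
    ring
  rw [e1, e2, e3, e4, e5]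
  ring

end

end Pool.CTP
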