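import Pool.Agent.CTP.LinDefs

/-! Row JAC2. The Jacobian in the chart, and the Jacobian of a simple solution. -/

namespace Pool.CTP

variable {n : ℕ}

theorem Ach_e0 {m : ℕ} {K : Type*} [Field K] [Algebra ℝ K] (x : Fin (2 * m) → K) :
    Ach x (e0 m) = (1, 0) := by
  have h1 : ∀ j : Fin m, e0 m j.succ.succ = 0 := fun j => by
    unfold e0
    exact Pi.single_eq_of_ne (by simp [Fin.ext_iff]) _
  have h2 : e0 m 1 = 0 := by
    unfold e0
    exact Pi.single_eq_of_ne (by simp) _
  have h3 : e0 m 0 = 1 := by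
    unfold e0
    simp
  simp [Ach, h1, h2, h3]

theorem Ach_e1 {m : ℕ} {K : Type*} [Field K] [Algebra ℝ K] (x : Fin (2 * m) → K) :
    Ach x (e1 m) = (0, 1) := by
  have h1 : ∀ j : Fin m, e1 m j.succ.succ = 0 := fun j => by
    unfold e1
    exact Pi.single_eq_of_ne (by simp [Fin.ext_iff]) _
  have h2 : e1 m 1 = 1 := by
    unfold e1
    simp
  have h3 : e1 m 0 = 0 := by
    unfold e1
    exact Pi.single_eq_of_ne (by simp) _
  simp [Ach, h1, h2, h3]

theorem Ach_single {m : ℕ} {K : Type*} [Field K] [Algebra ℝ K] (x : Fin (2 * m) → K)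
    (j : Fin m) : Ach x (Pi.single j.succ.succ 1 : Vec (m + 2)) = (x (i0 j), x (i1 j)) := by
  have h0 : (Pi.single j.succ.succ 1 : Vec (m + 2)) 0 = 0 :=
    Pi.single_eq_of_ne (by simp [Fin.ext_iff]) _
  have h1 : (Pi.single j.succ.succ 1 : Vec (m + 2)) 1 = 0 :=
    Pi.single_eq_of_ne (by simp [Fin.ext_iff]) _
  have h2 : ∀ i : Fin m, (Pi.single j.succ.succ 1 : Vec (m + 2)) i.succ.succ =
      if i = j then 1 else 0 := by
    intro i
    by_cases h : i = j
    · subst h
      simp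
    · rw [if_neg h]
      apply Pi.single_eq_of_ne
      intro h'
      exact h (Fin.succ_injective _ (Fin.succ_injective _ h'))
  simp [Ach, h1, h2]

theorem Ach_injective {m : ℕ} {K : Type*} [Field K] [Algebra ℝ K] :
    Function.Injective (Ach : (Fin (2 * m) → K) → (Vec (m + 2) →ₗ[ℝ] K × K)) := by
  intro x y h
  funext c
  have hj : (c : ℕ) / 2 < m := by
    have := c.2
    omega
  have h1 := congrArg (fun A => A (Pi.single (Fin.succ (Fin.succ ⟨(c : ℕ) / 2, hj⟩)) 1)) h
  simp only [Ach_single] at h1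
  rcases Nat.mod_two_eq_zero_or_one (c : ℕ) with h2 | h2
  · have h3 : c = i0 ⟨(c : ℕ) / 2, hj⟩ := by
      apply Fin.ext
      simp only [i0]
      omega
    rw [h3]
    exact congrArg Prod.fst h1
  · have h3 : c = i1 ⟨(c : ℕ) / 2, hj⟩ := by
      apply Fin.ext
      simp only [i1]
      omega
    rw [h3]
    exact congrArg Prod.snd h1

/-- every map with the right values is given by chart coordinates -/
theorem exists_Ach {m : ℕ} {K : Type*} [Field K] [Algebra ℝ K] (A : Vec (m + 2) →ₗ[ℝ] K × K)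
    (h0 : A (e0 m) = (1, 0)) (h1 : A (e1 m) = (0, 1)) : ∃ x : Fin (2 * m) → K, A = Ach x := by
  refine ⟨fun c => if (c : ℕ) % 2 = 0 then
      (A (Pi.single (Fin.succ (Fin.succ ⟨(c : ℕ) / 2, by have := c.2; omega⟩)) 1)).1 else
      (A (Pi.single (Fin.succ (Fin.succ ⟨(c : ℕ) / 2, by have := c.2; omega⟩)) 1)).2, ?_⟩
  apply LinearMap.pi_ext'
  intro i
  apply LinearMap.ext_ring
  simp only [LinearMap.comp_apply, LinearMap.coe_single]
  refine Fin.cases ?_ (fun i => ?_) i
  · exact h0.trans (Ach_e0 _).symm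
  · refine Fin.cases ?_ (fun j => ?_) i
    · exact h1.trans (Ach_e1 _).symm
    · rw [Ach_single]
      have e1 : (⟨((i0 j : Fin (2 * m)) : ℕ) / 2, by have := (i0 j).2; omega⟩ : Fin m) = j := by
        apply Fin.ext
        simp only [i0]
        omega
      have e2 : (⟨((i1 j : Fin (2 * m)) : ℕ) / 2, by have := (i1 j).2; omega⟩ : Fin m) = j := by
        apply Fin.ext
        simp only [i1]
        omega
      have e3 : ((i0 j : Fin (2 * m)) : ℕ) % 2 = 0 := by
        simp only [i0]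
        omega
      have e4 : ¬ ((i1 j : Fin (2 * m)) : ℕ) % 2 = 0 := by
        simp only [i1]
        omega
      simp only [e1, e2, e3, e4, if_true, if_false]

theorem eval_lin0 {m : ℕ} (X : Vec (m + 2)) (x : Fin (2 * m) → ℝ) :
    MvPolynomial.eval x (lin0 X) = (Ach x X).1 := by
  simp [lin0, Ach]

theorem eval_lin1 {m : ℕ} (X : Vec (m + 2)) (x : Fin (2 * m) → ℝ) :
    MvPolynomial.eval x (lin1 X) = (Ach x X).2 := by
  simp [lin1, Ach]

theorem aeval_lin0 {m : ℕ} (X : Vec (m + 2)) (x : Fin (2 * m) → ℂ) :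
    MvPolynomial.aeval x (lin0 X) = (Ach x X).1 := by
  simp [lin0, Ach]

theorem aeval_lin1 {m : ℕ} (X : Vec (m + 2)) (x : Fin (2 * m) → ℂ) :
    MvPolynomial.aeval x (lin1 X) = (Ach x X).2 := by
  simp [lin1, Ach]

/-- values of the chart polynomials -/
theorem aeval_Fp {m : ℕ} (p : Vec (m + 2) × Vec (m + 2)) (x : Fin (2 * m) → ℂ) :
    MvPolynomial.aeval x (Fp p) = DD (Ach x) p.1 p.2 := by
  simp only [Fp, DD, map_sub, map_mul, aeval_lin0, aeval_lin1]

theorem eval_Fp {m : ℕ} (p : Vec (m + 2) × Vec (m + 2)) (x : Fin (2 * m) → ℝ) :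
    MvPolynomial.eval x (Fp p) = DD (Ach x) p.1 p.2 := by
  simp only [Fp, DD, map_sub, map_mul, eval_lin0, eval_lin1]

theorem i0_or_i1 {m : ℕ} (c : Fin (2 * m)) :
    ∃ j : Fin m, (j : ℕ) = (c : ℕ) / 2 ∧
      (((c : ℕ) % 2 = 0 ∧ c = i0 j) ∨ ((c : ℕ) % 2 = 1 ∧ c = i1 j)) := by
  have hj : (c : ℕ) / 2 < m := by
    have := c.2
    omega
  refine ⟨⟨(c : ℕ) / 2, hj⟩, rfl, ?_⟩
  rcases Nat.mod_two_eq_zero_or_one (c : ℕ) with h2 | h2
  · left
    refine ⟨h2, Fin.ext ?_⟩
    simp only [i0]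
    omega
  · right
    refine ⟨h2, Fin.ext ?_⟩
    simp only [i1]
    omega

theorem i0_inj {m : ℕ} {i j : Fin m} : (i0 i : Fin (2 * m)) = i0 j ↔ i = j := by
  constructor
  · intro h
    have := congrArg Fin.val h
    simp only [i0] at this
    exact Fin.ext (by omega)
  · rintro rfl
    rfl

theorem i1_inj {m : ℕ} {i j : Fin m} : (i1 i : Fin (2 * m)) = i1 j ↔ i = j := by
  constructor
  · intro h
    have := congrArg Fin.val h
    simp only [i1] at this
    exact Fin.ext (by omega)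
  · rintro rfl
    rfl

theorem i0_ne_i1 {m : ℕ} (i j : Fin m) : (i0 i : Fin (2 * m)) ≠ i1 j := by
  intro h
  have := congrArg Fin.val h
  simp only [i0, i1] at this
  omega

theorem cf_succ_succ {m : ℕ} (X : Vec (m + 2)) (j : Fin m) :
    cf X ((j : ℕ) + 2) = X j.succ.succ := by
  unfold cf
  rw [dif_pos (by have := j.2; omega)]
  congr 1

theorem pderiv_lin0 {m : ℕ} (X : Vec (m + 2)) (j : Fin m) :
    MvPolynomial.pderiv (i0 j) (lin0 X) = MvPolynomial.C (X j.succ.succ) := by
  classical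
  simp [lin0, MvPolynomial.pderiv_X, Pi.single_apply, i0_inj]

theorem pderiv_lin0' {m : ℕ} (X : Vec (m + 2)) (j : Fin m) :
    MvPolynomial.pderiv (i1 j) (lin0 X) = 0 := by
  classical
  simp [lin0, MvPolynomial.pderiv_X, i0_ne_i1]

theorem pderiv_lin1 {m : ℕ} (X : Vec (m + 2)) (j : Fin m) :
    MvPolynomial.pderiv (i1 j) (lin1 X) = MvPolynomial.C (X j.succ.succ) := by
  classical
  simp [lin1, MvPolynomial.pderiv_X, Pi.single_apply, i1_inj]

theorem pderiv_lin1' {m : ℕ} (X : Vec (m + 2)) (j : Fin m) :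
    MvPolynomial.pderiv (i0 j) (lin1 X) = 0 := by
  classical
  simp [lin1, MvPolynomial.pderiv_X, (i0_ne_i1 _ _).symm]

theorem eval_pderiv_Fp {m : ℕ} (p : Vec (m + 2) × Vec (m + 2)) (x : Fin (2 * m) → ℝ)
    (c : Fin (2 * m)) :
    MvPolynomial.eval x (MvPolynomial.pderiv c (Fp p)) =
      drow (Ach x) p.1 p.2 ((c : ℕ) + 4) := by
  obtain ⟨j, hj, h | h⟩ := i0_or_i1 c
  · have h1 : ((c : ℕ) + 4) / 2 = (j : ℕ) + 2 := by omega
    unfold drow
    rw [if_pos (by omega), h1, cf_succ_succ, cf_succ_succ, h.2]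
    simp only [Fp, map_sub, Derivation.leibniz, smul_eq_mul, pderiv_lin0, pderiv_lin1', map_add,
      map_mul, MvPolynomial.eval_C, eval_lin0, eval_lin1, map_zero]
    ring
  · have h1 : ((c : ℕ) + 4) / 2 = (j : ℕ) + 2 := by omega
    unfold drow
    rw [if_neg (by omega), h1, cf_succ_succ, cf_succ_succ, h.2]
    simp only [Fp, map_sub, Derivation.leibniz, smul_eq_mul, pderiv_lin0', pderiv_lin1, map_add,
      map_mul, MvPolynomial.eval_C, eval_lin0, eval_lin1, map_zero]
    ring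

theorem cf_e0 (m k : ℕ) : cf (e0 m) k = if k = 0 then 1 else 0 := by
  unfold cf e0
  by_cases h : k < m + 2
  · rw [dif_pos h]
    by_cases hk : k = 0
    · subst hk
      rw [if_pos rfl]
      exact Pi.single_eq_same (M := fun _ => ℝ) 0 1
    · rw [if_neg hk]
      exact Pi.single_eq_of_ne (by simpa [Fin.ext_iff] using hk) _
  · rw [dif_neg h, if_neg (by omega)]

theorem cf_e1 (m k : ℕ) : cf (e1 m) k = if k = 1 then 1 else 0 := by
  unfold cf e1
  by_cases h : k < m + 2
  · rw [dif_pos h]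
    by_cases hk : k = 1
    · subst hk
      rw [if_pos rfl]
      exact Pi.single_eq_same (M := fun _ => ℝ) 1 1
    · rw [if_neg hk]
      exact Pi.single_eq_of_ne (by simpa [Fin.ext_iff] using hk) _
  · rw [dif_neg h, if_neg (by omega)]

theorem unit_rows (m : ℕ) (L : List (ℕ → ℝ)) (i : ℕ) (hi : i < 4) (c : ℕ) :
    ([erow (e0 m) 0, erow (e0 m) 1, erow (e1 m) 0, erow (e1 m) 1] ++ L).getD i 0 c =
      if c = i then 1 else 0 := by
  interval_cases i
  all_goals
    simp only [List.cons_append, List.getD_cons_zero, List.getD_cons_succ, erow, cf_e0, cf_e1]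
    split_ifs <;> first | rfl | omega

theorem low_rows (L0 : List (ℕ → ℝ)) (h0 : L0.length = 4) {m : ℕ}
    (A : Vec (m + 2) →ₗ[ℝ] ℝ × ℝ) (R : List (Vec (m + 2) × Vec (m + 2))) (i c : ℕ) :
    (L0 ++ R.map (fun p => drow A p.1 p.2)).getD (4 + i) 0 c =
      drow A (R.getD i (0, 0)).1 (R.getD i (0, 0)).2 c := by
  rw [List.getD_append_right _ _ _ _ (by omega), h0, Nat.add_sub_cancel_left]
  by_cases hi : i < R.length
  · rw [List.getD_eq_getElem _ _ (by simpa using hi), List.getElem_map,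
      List.getD_eq_getElem _ _ hi]
  · rw [List.getD_eq_default _ _ (by simpa using hi), List.getD_eq_default _ _ (by simpa using hi)]
    have h1 : ∀ k, cf (0 : Vec (m + 2)) k = 0 := by
      intro k
      unfold cf
      split_ifs <;> rfl
    simp [drow, h1]

theorem det_unit_rows {k N M : ℕ} (hM : k + N = M) (F : Matrix (Fin M) (Fin M) ℝ)
    (D : Matrix (Fin N) (Fin N) ℝ)
    (h1 : ∀ i c : Fin M, (i : ℕ) < k → F i c = if (c : ℕ) = i then 1 else 0)
    (h2 : ∀ (i j : Fin N) (r c : Fin M), (r : ℕ) = k + i → (c : ℕ) = k + j → F r c = D i j) :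
    D.det = F.det := by
  let e : Fin k ⊕ Fin N ≃ Fin M := finSumFinEquiv.trans (finCongr hM)
  have hl : ∀ i : Fin k, ((e (Sum.inl i) : Fin M) : ℕ) = i := fun i => rfl
  have hr : ∀ i : Fin N, ((e (Sum.inr i) : Fin M) : ℕ) = k + i := fun i => rfl
  have h3 : F.submatrix e e = Matrix.fromBlocks 1 0
      (Matrix.of fun (r : Fin N) (c : Fin k) => F (e (Sum.inr r)) (e (Sum.inl c))) D := by
    ext r c
    rcases r with r | r <;> rcases c with c | c
    · rw [Matrix.submatrix_apply, Matrix.fromBlocks_apply₁₁, h1 _ _ (by rw [hl]; exact r.2),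
        hl, hl, Matrix.one_apply]
      simp only [Fin.ext_iff, eq_comm]
    · rw [Matrix.submatrix_apply, Matrix.fromBlocks_apply₁₂, h1 _ _ (by rw [hl]; exact r.2),
        hl, hr, if_neg (by have := r.2; omega)]
      rfl
    · rw [Matrix.submatrix_apply, Matrix.fromBlocks_apply₂₁]
      rfl
    · rw [Matrix.submatrix_apply, Matrix.fromBlocks_apply₂₂, h2 r c _ _ (hr r) (hr c)]
  rw [← Matrix.det_submatrix_equiv_self e F, h3, Matrix.det_fromBlocks_zero₁₂, Matrix.det_one,
      one_mul]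

/-- in the chart, the Jacobian is the Jacobian determinant of the polynomial map -/
theorem jacR_eq {m : ℕ} (R : List (Vec (m + 2) × Vec (m + 2))) (x : Fin (2 * m) → ℝ) :
    jacR (fun k : Fin (2 * m) => Fp (R.getD (k : ℕ) (0, 0))) x =
      Jf (m + 2) (e1 m) (e0 m) R (Ach x) := by
  refine det_unit_rows (k := 4) (by ring) _ _ ?_ ?_
  · intro i c hi
    exact unit_rows m _ _ hi _
  · intro i j r c hr hc
    show ([erow (e0 m) 0, erow (e0 m) 1, erow (e1 m) 0, erow (e1 m) 1] ++
      R.map (fun p => drow (Ach x) p.1 p.2)).getD (r : ℕ) 0 _ = _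
    rw [hr, low_rows _ rfl, hc, eval_pderiv_Fp, Nat.add_comm 4 (j : ℕ)]

theorem sum_range_two_mul (g : ℕ → ℝ) (k : ℕ) :
    ∑ c ∈ Finset.range (2 * k), g c = ∑ j ∈ Finset.range k, (g (2 * j) + g (2 * j + 1)) := by
  induction k with
  | zero => simp
  | succ k ih =>
    rw [Finset.sum_range_succ, ← ih, show 2 * (k + 1) = 2 * k + 1 + 1 by ring,
      Finset.sum_range_succ, Finset.sum_range_succ]
    ring

theorem cf_add (X Y : Vec n) (j : ℕ) : cf (X + Y) j = cf X j + cf Y j := by
  unfold cf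
  split_ifs
  · rfl
  · simp

theorem cf_smul (r : ℝ) (X : Vec n) (j : ℕ) : cf (r • X) j = r * cf X j := by
  unfold cf
  split_ifs
  · rfl
  · simp

theorem cf_single (i : Fin n) (j : ℕ) :
    cf (Pi.single i 1 : Vec n) j = if j = (i : ℕ) then 1 else 0 := by
  unfold cf
  by_cases h : j < n
  · rw [dif_pos h]
    by_cases hj : j = (i : ℕ)
    · rw [if_pos hj]
      subst hj
      exact Pi.single_eq_same (M := fun _ => ℝ) i 1
    · rw [if_neg hj]
      exact Pi.single_eq_of_ne (by simpa [Fin.ext_iff] using hj) _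
  · rw [dif_neg h, if_neg (by have := i.2; omega)]

/-- the linear map with given coordinates -/
noncomputable def Phi (n : ℕ) (v : ℕ → ℝ) : Vec n →ₗ[ℝ] ℝ × ℝ where
  toFun X := (∑ j ∈ Finset.range n, cf X j * v (2 * j),
    ∑ j ∈ Finset.range n, cf X j * v (2 * j + 1))
  map_add' X Y := by
    ext <;> simp [cf_add, add_mul, Finset.sum_add_distrib]
  map_smul' r X := by
    ext <;> simp [cf_smul, mul_assoc, Finset.mul_sum]

theorem sum_erow0 (v : ℕ → ℝ) (X : Vec n) :
    ∑ c ∈ Finset.range (2 * n), erow X 0 c * v c = (Phi n v X).1 := by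
  rw [sum_range_two_mul]
  refine Finset.sum_congr rfl fun j _ => ?_
  have h1 : (2 * j) % 2 = 0 := by omega
  have h3 : (2 * j) / 2 = j := by omega
  simp [erow, h1, h3]

theorem sum_erow1 (v : ℕ → ℝ) (X : Vec n) :
    ∑ c ∈ Finset.range (2 * n), erow X 1 c * v c = (Phi n v X).2 := by
  rw [sum_range_two_mul]
  refine Finset.sum_congr rfl fun j _ => ?_
  have h2 : (2 * j + 1) % 2 = 1 := by omega
  have h3 : (2 * j + 1) / 2 = j := by omega
  simp [erow, h2, h3]

theorem sum_drow (A : Vec n →ₗ[ℝ] ℝ × ℝ) (v : ℕ → ℝ) (X X' : Vec n) :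
    ∑ c ∈ Finset.range (2 * n), drow A X X' c * v c = dD A (Phi n v) X X' := by
  rw [sum_range_two_mul]
  have h0 : ∀ j ∈ Finset.range n, drow A X X' (2 * j) * v (2 * j) +
      drow A X X' (2 * j + 1) * v (2 * j + 1) =
      (cf X j * v (2 * j)) * (A X').2 - (cf X' j * v (2 * j)) * (A X).2 +
      ((cf X' j * v (2 * j + 1)) * (A X).1 - (cf X j * v (2 * j + 1)) * (A X').1) := by
    intro j _
    have h1 : (2 * j) % 2 = 0 := by omega
    have h2 : (2 * j + 1) % 2 ≠ 0 := by omega
    have h3 : (2 * j) / 2 = j := by omega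
    have h4 : (2 * j + 1) / 2 = j := by omega
    unfold drow
    rw [if_pos h1, if_neg h2, h3, h4]
    ring
  rw [Finset.sum_congr rfl h0, Finset.sum_add_distrib, Finset.sum_sub_distrib,
    Finset.sum_sub_distrib, ← Finset.sum_mul, ← Finset.sum_mul, ← Finset.sum_mul,
    ← Finset.sum_mul]
  show _ = (Phi n v X).1 * (A X').2 - (Phi n v X).2 * (A X').1 +
    ((A X).1 * (Phi n v X').2 - (A X).2 * (Phi n v X').1)
  simp only [Phi, LinearMap.coe_mk, AddHom.coe_mk]
  ring

theorem length_pairs {α : Type*} (B : List α) : (pairs B).length = B.length - 1 := by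
  unfold pairs
  rw [List.length_zip, List.length_tail]
  omega

theorem length_rows {α : Type*} (Bs : List (List α)) (h : ∀ B ∈ Bs, B ≠ []) :
    (rows Bs).length + Bs.length = Bs.flatten.length := by
  induction Bs with
  | nil => simp [rows]
  | cons B Bs ih =>
    have h1 := ih fun B hB => h B (List.mem_cons_of_mem _ hB)
    have h2 : 0 < B.length := List.length_pos_iff.2 (h B List.mem_cons_self)
    simp only [rows, List.map_cons, List.flatten_cons, List.length_append, length_pairs,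
      List.length_cons] at h1 ⊢
    omega

section
variable {K : Type*} [Field K] [Algebra ℝ K]

theorem dD_self (A Φ : Vec n →ₗ[ℝ] K × K) (x : Vec n) : dD A Φ x x = 0 := by
  unfold dD
  ring

theorem dD_symm (A Φ : Vec n →ₗ[ℝ] K × K) (x x' : Vec n) (h : dD A Φ x x' = 0) :
    dD A Φ x' x = 0 := by
  unfold dD at h ⊢
  linear_combination -h

theorem dD_trans (A Φ : Vec n →ₗ[ℝ] K × K) (x y z : Vec n) (hxy : dD A Φ x y = 0)
    (hyz : dD A Φ y z = 0) (h1 : DD A x y = 0) (h2 : DD A y z = 0) (h3 : DD A x z = 0)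
    (hy : A y ≠ 0) : dD A Φ x z = 0 := by
  unfold dD at hxy hyz ⊢
  unfold DD at h1 h2 h3
  have h4 : (A y).1 ≠ 0 ∨ (A y).2 ≠ 0 := by
    by_contra h
    push Not at h
    exact hy (Prod.ext h.1 h.2)
  rcases h4 with h4 | h4
  · apply mul_left_cancel₀ h4
    linear_combination (A z).1 * hxy + (Φ x).1 * h2 + (A x).1 * hyz + (Φ z).1 * h1 -
      (Φ y).1 * h3
  · apply mul_left_cancel₀ h4
    linear_combination (A z).2 * hxy + (Φ x).2 * h2 + (A x).2 * hyz + (Φ z).2 * h1 -
      (Φ y).2 * h3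

theorem dD_of_pairs (A Φ : Vec n →ₗ[ℝ] K × K) :
    ∀ B : List (Vec n), (∀ x ∈ B, A x ≠ 0) → (∀ x ∈ B, ∀ y ∈ B, DD A x y = 0) →
      (∀ p ∈ pairs B, dD A Φ p.1 p.2 = 0) → ∀ x ∈ B, ∀ y ∈ B, dD A Φ x y = 0
  | [], _, _, _ => by simp
  | [a], _, _, _ => by
    intro x hx y hy
    rw [List.mem_singleton] at hx hy
    rw [hx, hy]
    exact dD_self A Φ a
  | a :: b :: l, hv, hs, hp => by
    have ih := dD_of_pairs A Φ (b :: l) (fun x hx => hv x (List.mem_cons_of_mem _ hx))
      (fun x hx y hy => hs x (List.mem_cons_of_mem _ hx) y (List.mem_cons_of_mem _ hy))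
      (fun p hq => hp p (by
        have : pairs (a :: b :: l) = (a, b) :: pairs (b :: l) := rfl
        rw [this]
        exact List.mem_cons_of_mem _ hq))
    have hab : dD A Φ a b = 0 := hp (a, b) (by
      have : pairs (a :: b :: l) = (a, b) :: pairs (b :: l) := rfl
      rw [this]
      exact List.mem_cons_self)
    have key : ∀ y ∈ b :: l, dD A Φ a y = 0 := by
      intro y hy
      have hbm : b ∈ b :: l := List.mem_cons_self
      refine dD_trans A Φ a b y hab (ih b hbm y hy) ?_ ?_ ?_ (hv b (List.mem_cons_of_mem _ hbm))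
      · exact hs a List.mem_cons_self b (List.mem_cons_of_mem _ hbm)
      · exact hs b (List.mem_cons_of_mem _ hbm) y (List.mem_cons_of_mem _ hy)
      · exact hs a List.mem_cons_self y (List.mem_cons_of_mem _ hy)
    intro x hx y hy
    rcases List.mem_cons.1 hx with hx' | hx'
    · rcases List.mem_cons.1 hy with hy' | hy'
      · rw [hx', hy']
        exact dD_self A Φ _
      · rw [hx']
        exact key y hy'
    · rcases List.mem_cons.1 hy with hy' | hy'
      · rw [hy']
        exact dD_symm A Φ _ _ (key x hx')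
      · exact ih x hx' y hy'

end

/-- a simple solution has a nonzero Jacobian -/
theorem Jf_ne_zero {Bs : List (List (Vec n))} (h : Good n Bs) (A : Vec n →ₗ[ℝ] ℝ × ℝ)
    (hs : Sol A Bs) (hv : ∀ x ∈ Bs.flatten, A x ≠ 0) (hT : Trans A Bs) (x y : Vec n)
    (hxy : DD A x y ≠ 0) : Jf n x y (rows Bs) A ≠ 0 := by
  intro h0
  unfold Jf at h0
  obtain ⟨v, hv0, hmv⟩ := Matrix.exists_mulVec_eq_zero_iff.2 h0
  let v' : ℕ → ℝ := fun c => if hc : c < 2 * n then v ⟨c, hc⟩ else 0
  have hlen : (rows Bs).length + 4 = 2 * n := by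
    have h1 := length_rows Bs h.ne
    have h2 := h.num
    omega
  have hrow : ∀ ρ ∈ [erow y 0, erow y 1, erow x 0, erow x 1] ++
      (rows Bs).map (fun p => drow A p.1 p.2), ∑ c ∈ Finset.range (2 * n), ρ c * v' c = 0 := by
    intro ρ hρ
    obtain ⟨r, hr, hr2⟩ := List.mem_iff_getElem.1 hρ
    have hr3 : r < 2 * n := by
      have : ([erow y 0, erow y 1, erow x 0, erow x 1] ++
        (rows Bs).map (fun p => drow A p.1 p.2)).length = 2 * n := by
        simp only [List.length_append, List.length_cons, List.length_nil, List.length_map]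
        omega
      omega
    have h1 := congrFun hmv ⟨r, hr3⟩
    have h2 : ∑ c : Fin (2 * n), ([erow y 0, erow y 1, erow x 0, erow x 1] ++
        (rows Bs).map (fun p => drow A p.1 p.2)).getD r 0 (c : ℕ) * v c = 0 := h1
    rw [List.getD_eq_getElem _ _ hr, hr2] at h2
    rw [← h2, ← Fin.sum_univ_eq_sum_range (fun c => ρ c * v' c)]
    refine Finset.sum_congr rfl fun c _ => ?_
    have : v' (c : ℕ) = v c := by
      simp only [v']
      rw [dif_pos c.2]
    rw [this]
  have hy1 := hrow (erow y 0) (by simp)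
  have hy2 := hrow (erow y 1) (by simp)
  have hx1 := hrow (erow x 0) (by simp)
  have hx2 := hrow (erow x 1) (by simp)
  rw [sum_erow0] at hy1 hx1
  rw [sum_erow1] at hy2 hx2
  have hd : ∀ p ∈ rows Bs, dD A (Phi n v') p.1 p.2 = 0 := by
    intro p hp
    rw [← sum_drow]
    exact hrow _ (List.mem_append_right _ (List.mem_map.2 ⟨p, hp, rfl⟩))
  obtain ⟨a, b, c, d, habcd⟩ := hT (Phi n v') (by
    intro B hB
    refine dD_of_pairs A (Phi n v') B (fun z hz => hv z ?_) (hs B hB) fun p hp => hd p ?_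
    · exact List.mem_flatten.2 ⟨B, hB, hz⟩
    · exact List.mem_flatten.2 ⟨pairs B, List.mem_map.2 ⟨B, hB, rfl⟩, hp⟩)
  have ex := habcd x
  have ey := habcd y
  have ex1 : a * (A x).1 + b * (A x).2 = 0 := by rw [← hx1, ex]
  have ex2 : c * (A x).1 + d * (A x).2 = 0 := by rw [← hx2, ex]
  have ey1 : a * (A y).1 + b * (A y).2 = 0 := by rw [← hy1, ey]
  have ey2 : c * (A y).1 + d * (A y).2 = 0 := by rw [← hy2, ey]
  unfold DD at hxy
  have ha : a = 0 := by
    apply mul_left_cancel₀ hxy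
    linear_combination (A y).2 * ex1 - (A x).2 * ey1
  have hb : b = 0 := by
    apply mul_left_cancel₀ hxy
    linear_combination (A x).1 * ey1 - (A y).1 * ex1
  have hc : c = 0 := by
    apply mul_left_cancel₀ hxy
    linear_combination (A y).2 * ex2 - (A x).2 * ey2
  have hd' : d = 0 := by
    apply mul_left_cancel₀ hxy
    linear_combination (A x).1 * ey2 - (A y).1 * ex2
  have hz : ∀ z, Phi n v' z = 0 := by
    intro z
    rw [habcd z, ha, hb, hc, hd']
    simp
  apply hv0
  funext k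
  have hk := k.2
  have hj : (k : ℕ) / 2 < n := by omega
  have h5 := hz (Pi.single ⟨(k : ℕ) / 2, hj⟩ 1)
  have h6 : v' (2 * ((k : ℕ) / 2)) = 0 := by
    have := congrArg Prod.fst h5
    simpa [Phi, cf_single, hj] using this
  have h7 : v' (2 * ((k : ℕ) / 2) + 1) = 0 := by
    have := congrArg Prod.snd h5
    simpa [Phi, cf_single, hj] using this
  have h8 : v k = v' (k : ℕ) := by
    simp only [v']
    rw [dif_pos hk]
  rw [h8]
  rcases Nat.mod_two_eq_zero_or_one (k : ℕ) with h9 | h9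
  · rw [show (k : ℕ) = 2 * ((k : ℕ) / 2) by omega]
    exact h6
  · rw [show (k : ℕ) = 2 * ((k : ℕ) / 2) + 1 by omega]
    exact h7

end Pool.CTP
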