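import Pool.Agent.CTP.Defs

/-! Row NUM. Identities for the number of solutions. -/

namespace Pool.CTP

open Polynomial

/-- the sum `1 + X + ... + X ^ (r - 1)` -/
private noncomputable def qn (r : ℕ) : ℤ[X] := ∑ i ∈ Finset.range r, X ^ i

private theorem qn_mul (r : ℕ) : (1 - X : ℤ[X]) * qn r = 1 - X ^ r := by
  rw [qn, mul_comm]
  exact geom_sum_mul_neg X r

private theorem one_sub_X_ne : (1 - X : ℤ[X]) ≠ 0 := by
  intro h
  have := congrArg (fun p : ℤ[X] => p.coeff 0) h
  simp at this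

private theorem num_eq (n : ℕ) (s : List ℕ) :
    num n s = ((1 - X : ℤ[X]) * (s.map qn).prod).coeff (n - 2) := rfl

private theorem qn_step (x y : ℕ) (hx : 2 ≤ x) (hy : 2 ≤ y) :
    qn x * qn y = qn (x + y - 1) + X * (qn (x - 1) * qn (y - 1)) := by
  apply mul_left_cancel₀ (mul_ne_zero one_sub_X_ne one_sub_X_ne)
  obtain ⟨a, rfl⟩ : ∃ a, x = a + 2 := ⟨x - 2, by omega⟩
  obtain ⟨b, rfl⟩ : ∃ b, y = b + 2 := ⟨y - 2, by omega⟩
  have e1 : a + 2 + (b + 2) - 1 = a + b + 3 := by omega
  have e2 : a + 2 - 1 = a + 1 := by omega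
  have e3 : b + 2 - 1 = b + 1 := by omega
  rw [e1, e2, e3]
  have h1 := qn_mul (a + 2)
  have h2 := qn_mul (b + 2)
  have h3 := qn_mul (a + b + 3)
  have h4 := qn_mul (a + 1)
  have h5 := qn_mul (b + 1)
  calc (1 - X) * (1 - X) * (qn (a + 2) * qn (b + 2))
      = ((1 - X) * qn (a + 2)) * ((1 - X) * qn (b + 2)) := by ring
    _ = (1 - X ^ (a + 2)) * (1 - X ^ (b + 2)) := by rw [h1, h2]
    _ = (1 - X) * (1 - X ^ (a + b + 3)) + X * ((1 - X ^ (a + 1)) * (1 - X ^ (b + 1))) := by ring
    _ = (1 - X) * ((1 - X) * qn (a + b + 3)) +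
          X * (((1 - X) * qn (a + 1)) * ((1 - X) * qn (b + 1))) := by rw [h3, h4, h5]
    _ = (1 - X) * (1 - X) * (qn (a + b + 3) + X * (qn (a + 1) * qn (b + 1))) := by ring

theorem num_free (n : ℕ) (s t : List ℕ) : num n (s ++ 1 :: t) = num n (s ++ t) := by
  rw [num_eq, num_eq]
  congr 2
  simp [qn]

theorem num_step (n : ℕ) (hn : 2 ≤ n) (s t : List ℕ) (x y : ℕ) (hx : 2 ≤ x) (hy : 2 ≤ y) :
    num (n + 1) (s ++ x :: y :: t) =
      num (n + 1) (s ++ (x + y - 1) :: t) + num n (s ++ (x - 1) :: (y - 1) :: t) := by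
  rw [num_eq, num_eq, num_eq]
  have e : n + 1 - 2 = n - 2 + 1 := by omega
  rw [e, ← coeff_X_mul _ (n - 2), ← coeff_add]
  congr 1
  simp only [List.map_append, List.map_cons, List.prod_append, List.prod_cons]
  have h := qn_step x y hx hy
  calc (1 - X) * ((s.map qn).prod * (qn x * (qn y * (t.map qn).prod)))
      = (1 - X) * (s.map qn).prod * (qn x * qn y) * (t.map qn).prod := by ring
    _ = (1 - X) * (s.map qn).prod * (qn (x + y - 1) + X * (qn (x - 1) * qn (y - 1))) *
          (t.map qn).prod := by rw [h]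
    _ = _ := by ring

private theorem natDegree_qn (r : ℕ) : (qn r).natDegree ≤ r - 1 := by
  rw [qn]
  apply Polynomial.natDegree_sum_le_of_forall_le
  intro i hi
  rw [Finset.mem_range] at hi
  exact (natDegree_X_pow_le i).trans (by omega)

private theorem natDegree_prod (l : List ℕ) (hl : ∀ x ∈ l, 1 ≤ x) :
    ((l.map qn).prod).natDegree + l.length ≤ l.sum := by
  induction l with
  | nil => simp
  | cons a l ih =>
    have h1 := ih (fun x hx => hl x (List.mem_cons_of_mem _ hx))
    have h2 := hl a List.mem_cons_self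
    have h3 := natDegree_qn a
    have h4 := natDegree_mul_le (p := qn a) (q := (l.map qn).prod)
    simp only [List.map_cons, List.prod_cons, List.length_cons, List.sum_cons]
    omega

theorem num_big (n : ℕ) (hn : 2 ≤ n) (s : List ℕ) (hs : ∀ x ∈ s, 1 ≤ x)
    (h : s.sum + 4 = s.length + 2 * n) (x : ℕ) (hx : x ∈ s) (hxn : n ≤ x) : num n s = 0 := by
  obtain ⟨a, b, rfl⟩ := List.append_of_mem hx
  rw [num_eq]
  have hab : ∀ z ∈ a ++ b, 1 ≤ z := by
    intro z hz
    rw [List.mem_append] at hz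
    apply hs
    rw [List.mem_append, List.mem_cons]
    tauto
  have hd := natDegree_prod (a ++ b) hab
  have e : (1 - X : ℤ[X]) * ((a ++ x :: b).map qn).prod =
      ((a ++ b).map qn).prod - X ^ x * ((a ++ b).map qn).prod := by
    simp only [List.map_append, List.map_cons, List.prod_append, List.prod_cons]
    calc (1 - X : ℤ[X]) * ((a.map qn).prod * (qn x * (b.map qn).prod))
        = ((1 - X) * qn x) * ((a.map qn).prod * (b.map qn).prod) := by ring
      _ = (1 - X ^ x) * ((a.map qn).prod * (b.map qn).prod) := by rw [qn_mul]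
      _ = _ := by ring
  rw [e, coeff_sub, coeff_X_pow_mul', if_neg (by omega), sub_zero]
  apply coeff_eq_zero_of_natDegree_lt
  simp only [List.length_append, List.length_cons, List.sum_append, List.sum_cons] at h hd
  omega

theorem num_two : num 2 [1, 1] = 1 := by
  rw [num_eq]
  simp [qn]

end Pool.CTP
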