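import Pool.Agent.CTP.Cplx
import Pool.Agent.CTP.Ang
import Pool.Agent.CTP.Jac1
import Pool.Agent.CTP.Jac2
import Pool.Agent.CTP.Num

/-! Row EASY. Free points in the middle, big blocks, the base case, normalisation. -/

namespace Pool.CTP

variable {n : ℕ}

theorem good_drop {P Q : List (List (Vec n))} {f : Vec n} (hP : P ≠ []) (hQ : Q ≠ [])
    (h : Good n (P ++ [f] :: Q)) : Good n (P ++ Q) := by
  have h1 := h.num
  have h2 := h.two
  have hPl : 1 ≤ P.length := List.length_pos_iff.2 hP
  have hQl : 1 ≤ Q.length := List.length_pos_iff.2 hQ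
  refine ⟨h.two, ?_, ?_, ?_, ?_⟩
  · intro B hB
    apply h.ne
    rcases List.mem_append.1 hB with hB | hB
    · exact List.mem_append_left _ hB
    · exact List.mem_append_right _ (List.mem_cons_of_mem _ hB)
  · apply h.tp.sublist
    simp only [List.flatten_append, List.flatten_cons]
    exact List.Sublist.append_left (List.sublist_append_right _ _) _
  · simp only [List.flatten_append, List.flatten_cons, List.length_append, List.length_cons,
      List.length_nil] at h1 ⊢
    omega
  · simp only [List.flatten_append, List.flatten_cons, List.length_append, List.length_cons,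
      List.length_nil] at h1 ⊢
    omega

theorem sol_drop {K : Type*} [Field K] [Algebra ℝ K] {P Q : List (List (Vec n))} {f : Vec n}
    (A : Vec n →ₗ[ℝ] K × K) : Sol A (P ++ [f] :: Q) ↔ Sol A (P ++ Q) := by
  constructor
  · intro h B hB
    apply h
    rcases List.mem_append.1 hB with hB | hB
    · exact List.mem_append_left _ hB
    · exact List.mem_append_right _ (List.mem_cons_of_mem _ hB)
  · intro h B hB
    rcases List.mem_append.1 hB with hB | hB
    · exact h B (List.mem_append_left _ hB)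
    · rcases List.mem_cons.1 hB with rfl | hB
      · intro x hx x' hx'
        rw [List.mem_singleton] at hx hx'
        subst hx; subst hx'
        unfold DD; ring
      · exact h B (List.mem_append_right _ hB)

theorem trans_drop {K : Type*} [Field K] [Algebra ℝ K] {P Q : List (List (Vec n))} {f : Vec n}
    (A : Vec n →ₗ[ℝ] K × K) (h : Trans A (P ++ Q)) : Trans A (P ++ [f] :: Q) := by
  intro Φ hΦ
  apply h
  intro B hB
  apply hΦ
  rcases List.mem_append.1 hB with hB | hB
  · exact List.mem_append_left _ hB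
  · exact List.mem_append_right _ (List.mem_cons_of_mem _ hB)

theorem rows_drop {α : Type*} {P Q : List (List α)} {f : α} :
    rows (P ++ [f] :: Q) = rows (P ++ Q) := by
  simp [rows, pairs]

theorem flatten_ne_nil {Bs : List (List (Vec n))} (h : ∀ B ∈ Bs, B ≠ []) (hne : Bs ≠ []) :
    Bs.flatten ≠ [] := by
  cases Bs with
  | nil => exact absurd rfl hne
  | cons B Bs =>
      have hB := h B List.mem_cons_self
      intro h0
      rw [List.flatten_cons, List.append_eq_nil_iff] at h0
      exact hB h0.1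

theorem fst_append {P Q : List (List (Vec n))} (hP : P.flatten ≠ []) :
    fst (P ++ Q) = fst P := by
  unfold fst
  rw [List.flatten_append]
  generalize P.flatten = l at hP
  cases l with
  | nil => exact absurd rfl hP
  | cons a l => rfl

theorem lst_append {P Q : List (List (Vec n))} (hQ : Q.flatten ≠ []) :
    lst (P ++ Q) = lst Q := by
  unfold lst
  rw [List.flatten_append, List.getLastD_eq_getLast?, List.getLastD_eq_getLast?,
    List.getLast?_append_of_ne_nil _ hQ]

theorem lst_cons {B : List (Vec n)} {Q : List (List (Vec n))} (hQ : Q.flatten ≠ []) :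
    lst (B :: Q) = lst Q := by
  have := lst_append (P := [B]) hQ
  simpa using this

theorem cr_cv (A : Vec n →ₗ[ℝ] ℝ × ℝ) (x y : Vec n) : cr (cv (A x)) (cv (A y)) = DD A x y := rfl

theorem good_replace {P Q : List (List (Vec n))} {f g : Vec n}
    (h : Good n (P ++ [f] :: Q)) (ht : TP n (P ++ [g] :: Q).flatten) :
    Good n (P ++ [g] :: Q) := by
  refine ⟨h.two, ?_, ht, ?_, ?_⟩
  · intro B hB
    rcases List.mem_append.1 hB with hB | hB
    · exact h.ne B (List.mem_append_left _ hB)
    · rcases List.mem_cons.1 hB with rfl | hB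
      · simp
      · exact h.ne B (List.mem_append_right _ (List.mem_cons_of_mem _ hB))
  · have := h.len
    simpa using this
  · have := h.num
    simpa using this

/-- a free point is not opposite to the cone of its neighbours -/
theorem free_cone {P Q : List (List (Vec n))} {B C : List (Vec n)} {a f b : Vec n}
    (h : Good n ((P ++ [B ++ [a]]) ++ [f] :: (b :: C) :: Q)) (A : Vec n →ₗ[ℝ] ℝ × ℝ) (hA : Rk2 A)
    (hs : Sol A ((P ++ [B ++ [a]]) ++ (b :: C) :: Q)) {r s : ℝ} (hr : 0 < r) (hs0 : 0 < s) :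
    A (r • a + f + s • b) ≠ 0 := by
  have h1 : TP n ((P.flatten ++ B) ++ a :: f :: b :: (C ++ Q.flatten)) := by
    have := h.tp
    simpa using this
  have h2 := h1.cone_right (r := r) (s := 1) hr.le one_pos
  have h3 : TP n (((P.flatten ++ B) ++ [a]) ++ (r • a + (1 : ℝ) • f) :: b ::
      (C ++ Q.flatten)) := by
    simpa using h2
  have h4 := h3.cone_left (r := 1) (s := s) one_pos hs0.le
  have h5 : Good n ((P ++ [B ++ [a]]) ++ [r • a + f + s • b] :: (b :: C) :: Q) := by
    apply good_replace h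
    simpa using h4
  apply nz h5 A hA ((sol_drop A).2 hs)
  simp

theorem main_drop_SS {P Q : List (List (Vec n))} {B C : List (Vec n)} {a f b : Vec n}
    (h : Good n ((P ++ [B ++ [a]]) ++ [f] :: (b :: C) :: Q))
    (hm : SS n ((P ++ [B ++ [a]]) ++ (b :: C) :: Q)) :
    SS n ((P ++ [B ++ [a]]) ++ [f] :: (b :: C) :: Q) := by
  intro A hA hs
  have hs' : Sol A ((P ++ [B ++ [a]]) ++ (b :: C) :: Q) := (sol_drop A).1 hs
  have hd : Good n ((P ++ [B ++ [a]]) ++ (b :: C) :: Q) := good_drop (by simp) (by simp) h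
  have h0 := hm A hA hs'
  have e1 : DD A a f ≠ 0 := by
    apply adj (P := P) (Q := (b :: C) :: Q) (B := B) (C := [])
    · simpa using h
    · exact hA
    · simpa using hs
  have e2 : DD A f b ≠ 0 := by
    apply adj (P := P ++ [B ++ [a]]) (Q := Q) (B := []) (C := C)
    · simpa using h
    · exact hA
    · simpa using hs
  have e3 : DD A a b ≠ 0 := by
    apply adj (P := P) (Q := Q) (B := B) (C := C)
    · simpa using hd
    · exact hA
    · simpa using hs'
  have hc : ∀ r s : ℝ, 0 < r → 0 < s → cv (A f) ≠ -(r * cv (A a) + s * cv (A b)) := by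
    intro r s hr hs0 he
    apply free_cone h A hA hs' hr hs0
    have hre := congrArg Complex.re he
    have him := congrArg Complex.im he
    simp only [cv, Complex.neg_re, Complex.add_re, Complex.mul_re, Complex.ofReal_re,
      Complex.ofReal_im, zero_mul, sub_zero, Complex.neg_im, Complex.add_im, Complex.mul_im,
      add_zero] at hre him
    rw [map_add, map_add, map_smul, map_smul]
    ext
    · simp only [Prod.fst_add, Prod.smul_fst, smul_eq_mul, Prod.fst_zero]
      linarith
    · simp only [Prod.snd_add, Prod.smul_snd, smul_eq_mul, Prod.snd_zero]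
      linarith
  have hsg := sg_delete_free n ((P.flatten ++ B).map fun x => cv (A x))
    ((C ++ Q.flatten).map fun x => cv (A x)) (cv (A a)) (cv (A f)) (cv (A b)) e1 e2 e3 hc
  unfold Sgn at h0 ⊢
  rw [rows_drop]
  have f1 : fst ((P ++ [B ++ [a]]) ++ [f] :: (b :: C) :: Q) =
      fst ((P ++ [B ++ [a]]) ++ (b :: C) :: Q) := by
    have hPf : (P ++ [B ++ [a]]).flatten ≠ [] := by
      rw [List.flatten_append]
      simp
    rw [fst_append hPf, fst_append hPf]
  have f2 : lst ((P ++ [B ++ [a]]) ++ [f] :: (b :: C) :: Q) =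
      lst ((P ++ [B ++ [a]]) ++ (b :: C) :: Q) := by
    have hQf : ((b :: C) :: Q).flatten ≠ [] := by simp
    rw [lst_append (by simp), lst_append hQf, lst_cons hQf]
  have f3 : ((P ++ [B ++ [a]]) ++ [f] :: (b :: C) :: Q).flatten.map (fun x => cv (A x)) =
      (P.flatten ++ B).map (fun x => cv (A x)) ++ cv (A a) :: cv (A f) :: cv (A b) ::
        (C ++ Q.flatten).map (fun x => cv (A x)) := by simp
  have f4 : ((P ++ [B ++ [a]]) ++ (b :: C) :: Q).flatten.map (fun x => cv (A x)) =
      (P.flatten ++ B).map (fun x => cv (A x)) ++ cv (A a) :: cv (A b) ::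
        (C ++ Q.flatten).map (fun x => cv (A x)) := by simp
  rw [f1, f2, f3, hsg, ← f4]
  exact h0

/-- a free point in the middle can be dropped -/
theorem main_drop {P Q : List (List (Vec n))} {f : Vec n} (hP : P ≠ []) (hQ : Q ≠ [])
    (h : Good n (P ++ [f] :: Q)) (hm : Main n (P ++ Q)) : Main n (P ++ [f] :: Q) := by
  obtain ⟨hR, hT, hS, hC⟩ := hm
  refine ⟨?_, ?_, ?_, ?_⟩
  · intro A hA hs
    exact hR A hA ((sol_drop A).1 hs)
  · intro A hA hs
    exact trans_drop A (hT A hA ((sol_drop A).1 hs))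
  · obtain ⟨P', B', rfl⟩ : ∃ P' B', P = P' ++ [B'] :=
      ⟨P.dropLast, P.getLast hP, (List.dropLast_append_getLast hP).symm⟩
    have hB' : B' ≠ [] := h.ne B' (by simp)
    obtain ⟨B, a, rfl⟩ : ∃ B a, B' = B ++ [a] :=
      ⟨B'.dropLast, B'.getLast hB', (List.dropLast_append_getLast hB').symm⟩
    obtain ⟨D, Q', rfl⟩ : ∃ D Q', Q = D :: Q' := List.exists_cons_of_ne_nil hQ
    have hD : D ≠ [] := h.ne D (by simp)
    obtain ⟨b, C, rfl⟩ : ∃ b C, D = b :: C := List.exists_cons_of_ne_nil hD
    exact main_drop_SS h hS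
  · have g := good_drop hP hQ h
    have hPf : P.flatten ≠ [] := flatten_ne_nil
      (fun B hB => h.ne B (List.mem_append_left _ hB)) hP
    have hQf : Q.flatten ≠ [] := flatten_ne_nil
      (fun B hB => h.ne B (List.mem_append_right _ (List.mem_cons_of_mem _ hB))) hQ
    obtain ⟨d, hd, he⟩ := hC
    refine ⟨d, ?_, ?_⟩
    · rw [hd]
      rw [List.map_append, List.map_append, List.map_cons, List.length_singleton, num_free]
    · rw [← he]
      have f1 : fst (P ++ [f] :: Q) = fst (P ++ Q) := by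
        rw [fst_append hPf, fst_append hPf]
      have f2 : lst (P ++ [f] :: Q) = lst (P ++ Q) := by
        rw [lst_append (by simp), lst_append hQf, lst_cons hQf]
      rw [f1, f2]
      simp only [sol_drop]

/-- a block of `n` points: no solutions of rank two -/
theorem big_not_rk2 {K : Type*} [Field K] [Algebra ℝ K] {Bs : List (List (Vec n))}
    (h : Good n Bs) {B : List (Vec n)} (hB : B ∈ Bs)
    (hl : n ≤ B.length) (A : Vec n →ₗ[ℝ] K × K) (hs : Sol A Bs) : ¬ Rk2 A :=
  not_big h.two h.tp hB hl A hs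

/-- a block of `n` points: there are no solutions -/
theorem main_big {Bs : List (List (Vec n))} (h : Good n Bs) {B : List (Vec n)} (hB : B ∈ Bs)
    (hl : n ≤ B.length) : Main n Bs := by
  refine ⟨?_, ?_, ?_, ?_⟩
  · intro A hA hs
    exact absurd hA (big_not_rk2 h hB hl A hs)
  · intro A hA hs
    exact absurd hA (big_not_rk2 h hB hl A hs)
  · intro A hA hs
    exact absurd hA (big_not_rk2 h hB hl A hs)
  · refine ⟨0, ?_, ?_⟩
    · have h1 : num n (Bs.map List.length) = 0 := by
        refine num_big n h.two _ ?_ ?_ B.length (List.mem_map_of_mem hB) hl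
        · intro x hx
          obtain ⟨C, hC, rfl⟩ := List.mem_map.1 hx
          exact List.length_pos_iff.2 (h.ne C hC)
        · have := h.num
          rw [List.length_flatten] at this
          rw [this, List.length_map]
      rw [h1]; rfl
    · rw [Nat.cast_zero, Set.encard_eq_zero, Set.eq_empty_iff_forall_notMem]
      rintro A ⟨h1, h2, hs⟩
      apply big_not_rk2 h hB hl A hs
      refine ⟨fst Bs, lst Bs, ?_⟩
      unfold DD
      rw [h1, h2]
      simp

/-- the determinant of a list of two vectors -/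
theorem dl_two (x y : Vec 2) : dl 2 [x, y] = x 0 * y 1 - x 1 * y 0 := by
  exact Matrix.det_fin_two _

/-- coordinates with respect to two vectors of the plane -/
theorem expand_two (x y v : Vec 2) (h : dl 2 [x, y] ≠ 0) :
    v = ((v 0 * y 1 - v 1 * y 0) / dl 2 [x, y]) • x +
      ((x 0 * v 1 - x 1 * v 0) / dl 2 [x, y]) • y := by
  rw [dl_two] at h ⊢
  ext i
  fin_cases i
  · simp only [Fin.zero_eta, Fin.isValue, Pi.add_apply, Pi.smul_apply, smul_eq_mul]
    rw [div_mul_eq_mul_div, div_mul_eq_mul_div, ← add_div, eq_div_iff h]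
    ring
  · simp only [Fin.mk_one, Fin.isValue, Pi.add_apply, Pi.smul_apply, smul_eq_mul]
    rw [div_mul_eq_mul_div, div_mul_eq_mul_div, ← add_div, eq_div_iff h]
    ring

theorem Jf_two (x y : Vec 2) (A : Vec 2 →ₗ[ℝ] ℝ × ℝ) :
    Jf 2 x y [] A = dl 2 [x, y] ^ 2 := by
  rw [dl_two]
  have hM : (fun r c : Fin (2 * 2) =>
      ([erow y 0, erow y 1, erow x 0, erow x 1] ++
        ([] : List (Vec 2 × Vec 2)).map (fun p => drow A p.1 p.2)).getD
        (r : ℕ) 0 (c : ℕ)) = (!![y 0, 0, y 1, 0; 0, y 0, 0, y 1; x 0, 0, x 1, 0;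
          0, x 0, 0, x 1] : Matrix (Fin 4) (Fin 4) ℝ) := by
    ext r c
    fin_cases r <;> fin_cases c <;> simp [erow, cf]
  unfold Jf
  refine (congrArg Matrix.det hM).trans ?_
  have e : (Fin.succAbove (2 : Fin 4) (2 : Fin 3)) = 3 := by decide
  simp [Matrix.det_succ_row_zero, Fin.sum_univ_succ, e]
  ring

theorem main_base {x y : Vec 2} (h : Good 2 [[x], [y]]) : Main 2 [[x], [y]] := by
  have hd : 0 < dl 2 [x, y] := by
    have := h.tp
    exact this [x, y] (by simp) rfl
  have hD : ∀ A : Vec 2 →ₗ[ℝ] ℝ × ℝ, Rk2 A → DD A x y ≠ 0 := by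
    rintro A ⟨v, w, hvw⟩ h0
    apply hvw
    have hv := expand_two x y v hd.ne'
    have hw := expand_two x y w hd.ne'
    generalize (v 0 * y 1 - v 1 * y 0) / dl 2 [x, y] = r1 at hv
    generalize (x 0 * v 1 - x 1 * v 0) / dl 2 [x, y] = s1 at hv
    generalize (w 0 * y 1 - w 1 * y 0) / dl 2 [x, y] = r2 at hw
    generalize (x 0 * w 1 - x 1 * w 0) / dl 2 [x, y] = s2 at hw
    have e : DD A v w = (r1 * s2 - s1 * r2) * DD A x y := by
      rw [hv, hw]
      simp only [DD, map_add, map_smul, Prod.fst_add, Prod.snd_add, Prod.smul_fst, Prod.smul_snd,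
        smul_eq_mul]
      ring
    rw [e, h0, mul_zero]
  refine ⟨?_, ?_, ?_, ?_⟩
  · intro A _ _
    exact isR_two A
  · intro A hA hs Φ _
    have h0 := hD A hA
    -- solve for the matrix
    have key : ∀ u v : ℝ, ∃ a b : ℝ, u = a * (A x).1 + b * (A x).2 ∧
        v = a * (A y).1 + b * (A y).2 := by
      intro u v
      refine ⟨(u * (A y).2 - v * (A x).2) / DD A x y, (v * (A x).1 - u * (A y).1) / DD A x y,
        ?_, ?_⟩
      · field_simp
        simp only [DD]; ring
      · field_simp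
        simp only [DD]; ring
    obtain ⟨a, b, h1, h2⟩ := key (Φ x).1 (Φ y).1
    obtain ⟨c, d, h3, h4⟩ := key (Φ x).2 (Φ y).2
    refine ⟨a, b, c, d, fun v => ?_⟩
    have hv := expand_two x y v hd.ne'
    generalize (v 0 * y 1 - v 1 * y 0) / dl 2 [x, y] = r1 at hv
    generalize (x 0 * v 1 - x 1 * v 0) / dl 2 [x, y] = s1 at hv
    rw [hv]
    ext
    · simp only [map_add, map_smul, Prod.fst_add, Prod.snd_add, Prod.smul_fst, Prod.smul_snd,
        smul_eq_mul]
      rw [h1, h2]; ring
    · simp only [map_add, map_smul, Prod.fst_add, Prod.snd_add, Prod.smul_fst, Prod.smul_snd,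
        smul_eq_mul]
      rw [h3, h4]; ring
  · intro A hA hs
    have h0 := hD A hA
    have h1 := sg_two (cv (A x)) (cv (A y)) h0
    have h2 : 0 < Jf 2 x y [] A := by
      rw [Jf_two]; positivity
    show 0 < sg 2 [cv (A x), cv (A y)] * Jf 2 x y [] A * DD A x y
    have h3 : 0 < sg 2 [cv (A x), cv (A y)] * DD A x y := h1
    calc (0 : ℝ) < sg 2 [cv (A x), cv (A y)] * DD A x y * Jf 2 x y [] A := mul_pos h3 h2
      _ = _ := by ring
  · refine ⟨1, ?_, ?_⟩
    · exact num_two.symm
    · rw [Nat.cast_one, Set.encard_eq_one]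
      have hdn := hd.ne'
      let A : Vec 2 →ₗ[ℝ] ℝ × ℝ :=
        { toFun := fun v => ((x 0 * v 1 - x 1 * v 0) / dl 2 [x, y],
            (v 0 * y 1 - v 1 * y 0) / dl 2 [x, y])
          map_add' := by
            intro v w
            ext
            · simp only [Pi.add_apply, Prod.mk_add_mk]; ring
            · simp only [Pi.add_apply, Prod.mk_add_mk]; ring
          map_smul' := by
            intro c v
            ext
            · simp only [Pi.smul_apply, smul_eq_mul, RingHom.id_apply, Prod.smul_mk]; ring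
            · simp only [Pi.smul_apply, smul_eq_mul, RingHom.id_apply, Prod.smul_mk]; ring }
      have hAy : A y = (1, 0) := by
        show ((x 0 * y 1 - x 1 * y 0) / dl 2 [x, y], (y 0 * y 1 - y 1 * y 0) / dl 2 [x, y]) = _
        rw [← dl_two, div_self hdn]
        ext <;> simp [mul_comm]
      have hAx : A x = (0, 1) := by
        show ((x 0 * x 1 - x 1 * x 0) / dl 2 [x, y], (x 0 * y 1 - x 1 * y 0) / dl 2 [x, y]) = _
        rw [← dl_two x y, div_self hdn]
        ext <;> simp [mul_comm]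
      refine ⟨A, ?_⟩
      ext A'
      constructor
      · rintro ⟨h1, h2, _⟩
        have h1' : A' y = (1, 0) := h1
        have h2' : A' x = (0, 1) := h2
        rw [Set.mem_singleton_iff]
        apply LinearMap.ext
        intro v
        rw [expand_two x y v hdn, map_add, map_add, map_smul, map_smul, map_smul, map_smul,
          h1', h2', hAy, hAx]
      · rintro rfl
        refine ⟨hAy, hAx, ?_⟩
        intro B hB u hu u' hu'
        have : u = u' := by
          rcases List.mem_cons.1 hB with rfl | hB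
          · rw [List.mem_singleton] at hu hu'
            rw [hu, hu']
          · rw [List.mem_singleton] at hB
            subst hB
            rw [List.mem_singleton] at hu hu'
            rw [hu, hu']
        rw [this]
        unfold DD; ring

theorem good_map {Bs : List (List (Vec n))} (h : Good n Bs) (T : Vec n ≃ₗ[ℝ] Vec n)
    (hT : 0 < LinearMap.det (T : Vec n →ₗ[ℝ] Vec n)) : Good n (Bs.map fun B => B.map T) := by
  have hf : (Bs.map fun B => B.map T).flatten = Bs.flatten.map T := by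
    rw [List.map_flatten]
  refine ⟨h.two, ?_, ?_, ?_, ?_⟩
  · intro B hB
    obtain ⟨C, hC, rfl⟩ := List.mem_map.1 hB
    simpa using h.ne C hC
  · rw [hf]
    exact h.tp.map (T : Vec n →ₗ[ℝ] Vec n) hT
  · rw [hf, List.length_map]
    exact h.len
  · rw [hf, List.length_map, List.length_map]
    exact h.num

section maps
variable {K : Type*} [Field K] [Algebra ℝ K]

theorem DD_comp_symm (T : Vec n ≃ₗ[ℝ] Vec n) (A : Vec n →ₗ[ℝ] K × K) (x y : Vec n) :
    DD (A ∘ₗ (T.symm : Vec n →ₗ[ℝ] Vec n)) (T x) (T y) = DD A x y := by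
  simp [DD]

theorem sol_map_symm (T : Vec n ≃ₗ[ℝ] Vec n) (A : Vec n →ₗ[ℝ] K × K) {Bs : List (List (Vec n))} :
    Sol (A ∘ₗ (T.symm : Vec n →ₗ[ℝ] Vec n)) (Bs.map fun B => B.map T) ↔ Sol A Bs := by
  constructor
  · intro h B hB x hx x' hx'
    have := h (B.map T) (List.mem_map.2 ⟨B, hB, rfl⟩) (T x) (List.mem_map_of_mem hx) (T x')
      (List.mem_map_of_mem hx')
    rwa [DD_comp_symm] at this
  · intro h B hB x hx x' hx'
    obtain ⟨C, hC, rfl⟩ := List.mem_map.1 hB
    obtain ⟨y, hy, rfl⟩ := List.mem_map.1 hx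
    obtain ⟨y', hy', rfl⟩ := List.mem_map.1 hx'
    rw [DD_comp_symm]
    exact h C hC y hy y' hy'

theorem rk2_symm (T : Vec n ≃ₗ[ℝ] Vec n) {A : Vec n →ₗ[ℝ] K × K} (h : Rk2 A) :
    Rk2 (A ∘ₗ (T.symm : Vec n →ₗ[ℝ] Vec n)) := by
  obtain ⟨x, x', hx⟩ := h
  exact ⟨T x, T x', by rwa [DD_comp_symm]⟩

end maps

theorem RR_of_map {Bs : List (List (Vec n))} (T : Vec n ≃ₗ[ℝ] Vec n)
    (hm : RR n (Bs.map fun B => B.map T)) : RR n Bs := by
  intro A hA hs
  have h1 := hm (A ∘ₗ (T.symm : Vec n →ₗ[ℝ] Vec n)) (rk2_symm T hA) ((sol_map_symm T A).2 hs)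
  have h2 := h1.comp (T : Vec n →ₗ[ℝ] Vec n)
  have h3 : (A ∘ₗ (T.symm : Vec n →ₗ[ℝ] Vec n)) ∘ₗ (T : Vec n →ₗ[ℝ] Vec n) = A := by
    ext x <;> simp
  rwa [h3] at h2

theorem TT_map {Bs : List (List (Vec n))} (T : Vec n ≃ₗ[ℝ] Vec n)
    (hm : TT n Bs) : TT n (Bs.map fun B => B.map T) := by
  intro A hA hs
  have h3 : (A ∘ₗ (T : Vec n →ₗ[ℝ] Vec n)) ∘ₗ (T.symm : Vec n →ₗ[ℝ] Vec n) = A := by
    ext x <;> simp
  have hA' : Rk2 (A ∘ₗ (T : Vec n →ₗ[ℝ] Vec n)) := by
    obtain ⟨x, x', hx⟩ := hA
    refine ⟨T.symm x, T.symm x', ?_⟩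
    simpa [DD] using hx
  have hs' : Sol (A ∘ₗ (T : Vec n →ₗ[ℝ] Vec n)) Bs := by
    rw [← sol_map_symm T, h3]
    exact hs
  intro Φ hΦ
  obtain ⟨a, b, c, d, h⟩ := hm _ hA' hs' (Φ ∘ₗ (T : Vec n →ₗ[ℝ] Vec n)) (by
    intro B hB x hx x' hx'
    have := hΦ (B.map T) (List.mem_map.2 ⟨B, hB, rfl⟩) (T x) (List.mem_map_of_mem hx) (T x')
      (List.mem_map_of_mem hx')
    simpa [dD] using this)
  refine ⟨a, b, c, d, fun x => ?_⟩
  have := h (T.symm x)
  simpa using this

theorem fst_mapT {Bs : List (List (Vec n))} (hne : Bs.flatten ≠ []) (T : Vec n ≃ₗ[ℝ] Vec n) :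
    fst (Bs.map fun B => B.map T) = T (fst Bs) := by
  unfold fst
  have hf : (Bs.map fun B => B.map T).flatten = Bs.flatten.map T := by
    rw [List.map_flatten]
  rw [hf]
  generalize Bs.flatten = l at hne
  cases l with
  | nil => exact absurd rfl hne
  | cons a l => rfl

theorem lst_mapT {Bs : List (List (Vec n))} (hne : Bs.flatten ≠ []) (T : Vec n ≃ₗ[ℝ] Vec n) :
    lst (Bs.map fun B => B.map T) = T (lst Bs) := by
  unfold lst
  have hf : (Bs.map fun B => B.map T).flatten = Bs.flatten.map T := by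
    rw [List.map_flatten]
  rw [hf]
  generalize Bs.flatten = l at hne
  rw [List.getLastD_eq_getLast?, List.getLastD_eq_getLast?, List.getLast?_map,
    List.getLast?_eq_some_getLast hne]
  rfl

theorem rows_map (Bs : List (List (Vec n))) (T : Vec n ≃ₗ[ℝ] Vec n) :
    rows (Bs.map fun B => B.map T) = (rows Bs).map fun p => (T p.1, T p.2) := by
  unfold rows
  rw [List.map_map, List.map_flatten, List.map_map]
  congr 1
  apply List.map_congr_left
  intro B hB
  simp only [Function.comp, pairs]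
  rw [← List.map_tail, List.zip_map]
  rfl

theorem SS_of_map {Bs : List (List (Vec n))} (hne : Bs.flatten ≠ []) (T : Vec n ≃ₗ[ℝ] Vec n)
    (hm : SS n (Bs.map fun B => B.map T)) : SS n Bs := by
  intro A hA hs
  have h1 := hm (A ∘ₗ (T.symm : Vec n →ₗ[ℝ] Vec n)) (rk2_symm T hA) ((sol_map_symm T A).2 hs)
  unfold Sgn at h1 ⊢
  have hf : ((Bs.map fun B => B.map T).flatten.map fun x =>
      cv ((A ∘ₗ (T.symm : Vec n →ₗ[ℝ] Vec n)) x)) = Bs.flatten.map fun x => cv (A x) := by
    rw [← List.map_flatten, List.map_map]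
    apply List.map_congr_left
    intro x hx
    simp
  rw [hf, fst_mapT hne, lst_mapT hne, rows_map, Jf_map, DD_comp_symm] at h1
  have h2 : 0 < LinearMap.det (T : Vec n →ₗ[ℝ] Vec n) ^ 2 := by
    have := LinearEquiv.isUnit_det' T
    have := this.ne_zero
    positivity
  have h3 : 0 < LinearMap.det (T : Vec n →ₗ[ℝ] Vec n) ^ 2 *
      (sg n (Bs.flatten.map fun x => cv (A x)) * Jf n (fst Bs) (lst Bs) (rows Bs) A *
        DD A (fst Bs) (lst Bs)) := by
    calc _ < _ := h1
      _ = _ := by ring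
  exact (pos_iff_pos_of_mul_pos h3).1 h2

theorem CC_of_map {Bs : List (List (Vec n))} (hne : Bs.flatten ≠ []) (T : Vec n ≃ₗ[ℝ] Vec n)
    (hm : CC n (Bs.map fun B => B.map T)) : CC n Bs := by
  obtain ⟨d, hd, he⟩ := hm
  refine ⟨d, ?_, ?_⟩
  · rw [hd, List.map_map]
    congr 1
    apply List.map_congr_left
    intro B hB
    simp
  · rw [← he]
    have hinj : Function.Injective fun A : Vec n →ₗ[ℝ] ℝ × ℝ =>
        A ∘ₗ (T.symm : Vec n →ₗ[ℝ] Vec n) := by
      intro A A' h
      have h' : A ∘ₗ (T.symm : Vec n →ₗ[ℝ] Vec n) = A' ∘ₗ (T.symm : Vec n →ₗ[ℝ] Vec n) := h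
      apply LinearMap.ext
      intro x
      have := congrArg (fun F : Vec n →ₗ[ℝ] ℝ × ℝ => F (T x)) h'
      simpa using this
    rw [← hinj.encard_image]
    congr 1
    ext A
    constructor
    · rintro ⟨A', ⟨h1, h2, h3⟩, rfl⟩
      refine ⟨?_, ?_, (sol_map_symm T A').2 h3⟩
      · rw [lst_mapT hne]; simpa using h1
      · rw [fst_mapT hne]; simpa using h2
    · rintro ⟨h1, h2, h3⟩
      have h4 : (A ∘ₗ (T : Vec n →ₗ[ℝ] Vec n)) ∘ₗ (T.symm : Vec n →ₗ[ℝ] Vec n) = A := by
        ext x <;> simp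
      refine ⟨A ∘ₗ (T : Vec n →ₗ[ℝ] Vec n), ⟨?_, ?_, ?_⟩, h4⟩
      · rw [lst_mapT hne] at h1; simpa using h1
      · rw [fst_mapT hne] at h2; simpa using h2
      · rw [← sol_map_symm T, h4]
        exact h3

end Pool.CTP
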