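import Pool.Agent.CTP.LinDefs

/-! Row LIN. Determinants of lists, operations on totally positive lists. -/

namespace Pool.CTP

variable {n : ℕ}

/-! private helpers -/

theorem Lin_getD_lt (l1 l2 : List (Vec n)) (x : Vec n) {i : ℕ} (h : i < l1.length) :
    (l1 ++ x :: l2).getD i 0 = l1.getD i 0 := List.getD_append _ _ _ _ h

theorem Lin_getD_eq (l1 l2 : List (Vec n)) (x : Vec n) :
    (l1 ++ x :: l2).getD l1.length 0 = x := by
  rw [List.getD_append_right _ _ _ _ le_rfl]; simp

theorem Lin_getD_gt (l1 l2 : List (Vec n)) (x : Vec n) {i : ℕ} (h : l1.length < i) :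
    (l1 ++ x :: l2).getD i 0 = l2.getD (i - l1.length - 1) 0 := by
  rw [List.getD_append_right _ _ _ _ h.le]
  obtain ⟨k, hk⟩ : ∃ k, i - l1.length = k + 1 := ⟨i - l1.length - 1, by omega⟩
  rw [hk]; simp

/-- the matrix of a list -/
def Lin_M (n : ℕ) (l : List (Vec n)) : Matrix (Fin n) (Fin n) ℝ :=
  Matrix.of fun i : Fin n => l.getD (i : ℕ) (0 : Vec n)

theorem Lin_M_apply (l : List (Vec n)) (i j : Fin n) :
    Lin_M n l i j = l.getD (i : ℕ) (0 : Vec n) j := rfl

theorem dl_eq_det (l : List (Vec n)) : dl n l = (Lin_M n l).det := rfl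

theorem dl_swap (l1 l2 : List (Vec n)) (a b : Vec n) (h : l1.length + l2.length + 2 = n) :
    dl n (l1 ++ a :: b :: l2) = - dl n (l1 ++ b :: a :: l2) := by
  have hp : l1.length < n := by omega
  have hq : l1.length + 1 < n := by omega
  have hne : (⟨l1.length, hp⟩ : Fin n) ≠ ⟨l1.length + 1, hq⟩ := by
    intro h; simp at h
  have := Matrix.det_permute (Equiv.swap (⟨l1.length, hp⟩ : Fin n) ⟨l1.length + 1, hq⟩)
    (Lin_M n (l1 ++ b :: a :: l2))
  rw [Equiv.Perm.sign_swap hne] at this
  simp only [Units.val_neg, Units.val_one, Int.cast_neg, Int.cast_one, neg_mul, one_mul] at this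
  rw [dl_eq_det, dl_eq_det, ← this]
  congr 1
  ext i j
  simp only [Matrix.submatrix_apply, id, Lin_M_apply]
  rcases lt_trichotomy (i : ℕ) l1.length with hi | hi | hi
  · rw [Equiv.swap_apply_of_ne_of_ne (fun h => by simp [h] at hi) (fun h => by simp [h] at hi),
      Lin_getD_lt _ _ _ hi, Lin_getD_lt _ _ _ hi]
  · have : i = ⟨l1.length, hp⟩ := Fin.ext hi
    subst this
    rw [Equiv.swap_apply_left, Lin_getD_eq, Lin_getD_gt _ _ _ (by simp)]
    simp
  · rcases eq_or_ne (i : ℕ) (l1.length + 1) with h1 | h1
    · have : i = ⟨l1.length + 1, hq⟩ := Fin.ext h1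
      subst this
      rw [Equiv.swap_apply_right, Lin_getD_eq, Lin_getD_gt _ _ _ (by simp)]
      simp
    · rw [Equiv.swap_apply_of_ne_of_ne (fun h => by simp [h] at hi) (fun h => by simp [h] at h1),
        Lin_getD_gt _ _ _ hi, Lin_getD_gt _ _ _ hi]
      obtain ⟨k, hk⟩ : ∃ k, (i : ℕ) - l1.length - 1 = k + 1 := ⟨i - l1.length - 2, by omega⟩
      rw [hk]; simp

theorem dl_move_pre (l1 p l2 : List (Vec n)) (a : Vec n)
    (h : p.length + l1.length + l2.length + 1 = n) :
    dl n (p ++ (l1 ++ a :: l2)) = (-1) ^ l1.length * dl n (p ++ (a :: (l1 ++ l2))) := by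
  induction l1 using List.reverseRecOn generalizing l2 with
  | nil => simp
  | append_singleton l c ih =>
    have h' : p.length + l.length + l2.length + 2 = n := by
      simp only [List.length_append, List.length_cons, List.length_nil] at h; omega
    have h1 : p ++ ((l ++ [c]) ++ a :: l2) = (p ++ l) ++ c :: a :: l2 := by simp
    rw [h1, dl_swap _ _ _ _ (by simp only [List.length_append]; omega)]
    have h2 : (p ++ l) ++ a :: c :: l2 = p ++ (l ++ a :: (c :: l2)) := by simp
    rw [h2, ih (c :: l2) (by simp only [List.length_cons]; omega)]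
    simp [pow_succ]

theorem dl_move (l1 l2 : List (Vec n)) (a : Vec n) (h : l1.length + l2.length + 1 = n) :
    dl n (l1 ++ a :: l2) = (-1) ^ l1.length * dl n (a :: (l1 ++ l2)) := by
  simpa using dl_move_pre l1 [] l2 a (by simpa using h)

theorem dl_exch_pre (t1 p t2 : List (Vec n)) (h : p.length + t1.length + t2.length = n) :
    dl n (p ++ (t2 ++ t1)) = (-1) ^ (t1.length * t2.length) * dl n (p ++ (t1 ++ t2)) := by
  induction t1 generalizing p with
  | nil => simp
  | cons a t ih =>
    have h' : p.length + t.length + t2.length + 1 = n := by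
      simp only [List.length_cons] at h; omega
    rw [dl_move_pre t2 p t a (by omega)]
    have h1 : p ++ a :: (t2 ++ t) = (p ++ [a]) ++ (t2 ++ t) := by simp
    have h3 : (p ++ [a]).length + t.length + t2.length = n := by
      simp only [List.length_append, List.length_cons, List.length_nil]; omega
    rw [h1, ih (p ++ [a]) h3]
    have h2 : (p ++ [a]) ++ (t ++ t2) = p ++ (a :: t ++ t2) := by simp
    rw [h2, ← mul_assoc, ← pow_add, List.length_cons]
    congr 2
    ring

theorem Lin_update (l1 l2 : List (Vec n)) (x : Vec n) (h : l1.length < n) :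
    Lin_M n (l1 ++ x :: l2) = Matrix.updateRow (Lin_M n (l1 ++ 0 :: l2)) ⟨l1.length, h⟩ x := by
  ext i j
  rcases lt_trichotomy (i : ℕ) l1.length with hi | hi | hi
  · rw [Matrix.updateRow_ne (fun h => by simp [h] at hi), Lin_M_apply, Lin_M_apply,
      Lin_getD_lt _ _ _ hi, Lin_getD_lt _ _ _ hi]
  · have : i = ⟨l1.length, h⟩ := Fin.ext hi
    subst this
    rw [Matrix.updateRow_self, Lin_M_apply, Lin_getD_eq]
  · rw [Matrix.updateRow_ne (fun h => by simp [h] at hi), Lin_M_apply, Lin_M_apply,
      Lin_getD_gt _ _ _ hi, Lin_getD_gt _ _ _ hi]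

theorem dl_comb (l1 l2 : List (Vec n)) (a b : Vec n) (r s : ℝ)
    (h : l1.length + l2.length + 1 = n) :
    dl n (l1 ++ (r • a + s • b) :: l2) = r * dl n (l1 ++ a :: l2) + s * dl n (l1 ++ b :: l2) := by
  have hp : l1.length < n := by omega
  rw [dl_eq_det, dl_eq_det, dl_eq_det, Lin_update l1 l2 (r • a + s • b) hp,
    Lin_update l1 l2 a hp, Lin_update l1 l2 b hp]
  rw [Matrix.det_updateRow_add, Matrix.det_updateRow_smul, Matrix.det_updateRow_smul]

theorem dl_smul (l1 l2 : List (Vec n)) (a : Vec n) (r : ℝ)
    (h : l1.length + l2.length + 1 = n) :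
    dl n (l1 ++ (r • a) :: l2) = r * dl n (l1 ++ a :: l2) := by
  have := dl_comb l1 l2 a 0 r 0 h
  simpa using this

theorem dl_smul_map (t1 p t2 : List (Vec n)) (c : ℝ) (f : Vec n → Vec n)
    (h : p.length + t1.length + t2.length = n) :
    dl n (p ++ (t1.map (fun v => c • f v) ++ t2)) =
      c ^ t1.length * dl n (p ++ (t1.map f ++ t2)) := by
  induction t1 generalizing p with
  | nil => simp
  | cons a t ih =>
    have h' : p.length + t.length + t2.length + 1 = n := by
      simp only [List.length_cons] at h; omega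
    simp only [List.map_cons, List.cons_append]
    rw [dl_smul p _ (f a) c (by simp only [List.length_append, List.length_map]; omega)]
    have h1 : p ++ f a :: (t.map (fun v => c • f v) ++ t2) =
      (p ++ [f a]) ++ (t.map (fun v => c • f v) ++ t2) := by simp
    have h3 : (p ++ [f a]).length + t.length + t2.length = n := by
      simp only [List.length_append, List.length_cons, List.length_nil]; omega
    rw [h1, ih (p ++ [f a]) h3]
    have h2 : (p ++ [f a]) ++ (t.map f ++ t2) = p ++ f a :: (t.map f ++ t2) := by simp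
    rw [h2, List.length_cons, pow_succ]
    ring

theorem dl_zero_of_not_nodup (l : List (Vec n)) (h : l.length = n) (hd : ¬ l.Nodup) :
    dl n l = 0 := by
  rw [List.nodup_iff_injective_get] at hd
  simp only [Function.Injective, not_forall] at hd
  obtain ⟨i, j, hij, hne⟩ := hd
  rw [dl_eq_det]
  refine Matrix.det_zero_of_row_eq (i := Fin.cast h i) (j := Fin.cast h j) ?_ ?_
  · intro h'; exact hne (by simpa using h')
  · ext k
    rw [Lin_M_apply, Lin_M_apply, Fin.val_cast, Fin.val_cast,
      List.getD_eq_getElem _ _ i.2, List.getD_eq_getElem _ _ j.2]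
    simp only [List.get_eq_getElem] at hij
    rw [hij]

theorem dl_map (T : Vec n →ₗ[ℝ] Vec n) (l : List (Vec n)) :
    dl n (l.map T) = LinearMap.det T * dl n l := by
  have h1 : Lin_M n (l.map T) = Lin_M n l * (LinearMap.toMatrix' T).transpose := by
    ext i j
    have : (l.map T).getD (i : ℕ) (0 : Vec n) = T (l.getD (i : ℕ) 0) := by
      have := List.getD_map (l := l) (n := (i : ℕ)) (d := (0 : Vec n)) (f := T)
      rw [map_zero] at this
      exact this
    rw [Lin_M_apply, this]
    conv_lhs => rw [← LinearMap.toMatrix'_mulVec T]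
    simp only [Matrix.mulVec, dotProduct, Matrix.mul_apply, Matrix.transpose_apply,
      Lin_M_apply]
    exact Finset.sum_congr rfl fun k _ => mul_comm _ _
  rw [dl_eq_det, dl_eq_det, h1, Matrix.det_mul, Matrix.det_transpose, LinearMap.det_toMatrix',
    mul_comm]

/-- a nonzero determinant: a linear map vanishing on the list vanishes -/
theorem eq_zero_of_dl_ne_zero {V : Type*} [AddCommGroup V] [Module ℝ V] (l : List (Vec n))
    (h : dl n l ≠ 0) (f : Vec n →ₗ[ℝ] V) (hf : ∀ x ∈ l, f x = 0) : f = 0 := by
  have hli : LinearIndependent ℝ (fun i : Fin n => l.getD (i : ℕ) (0 : Vec n)) :=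
    Matrix.linearIndependent_rows_of_det_ne_zero (A := Lin_M n l) h
  have hspan := hli.span_eq_top_of_card_eq_finrank' (by simp)
  apply LinearMap.ext_on_range (v := fun i : Fin n => l.getD (i : ℕ) (0 : Vec n)) hspan
  intro i
  rw [LinearMap.zero_apply]
  by_cases hi : (i : ℕ) < l.length
  · rw [List.getD_eq_getElem _ _ hi]
    exact hf _ (List.getElem_mem hi)
  · rw [List.getD_eq_default _ _ (not_lt.mp hi), map_zero]

/-- deletion of the first coordinate, after expansion along a first row `e_0` -/
theorem Lin_det_e0 {k : ℕ} (s : List (Vec (k + 1))) (e : Vec (k + 1)) (he : e 0 = 1)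
    (he' : ∀ i : Fin k, e i.succ = 0) :
    dl (k + 1) (e :: s) = dl k (s.map fun v => fun i => v i.succ) := by
  rw [dl_eq_det, Matrix.det_succ_row_zero, Fin.sum_univ_succ]
  have h0 : ∀ i : Fin k, (-1 : ℝ) ^ ((i.succ : Fin (k + 1)) : ℕ) *
      Lin_M (k + 1) (e :: s) 0 i.succ *
      ((Lin_M (k + 1) (e :: s)).submatrix Fin.succ i.succ.succAbove).det = 0 := by
    intro i
    have : Lin_M (k + 1) (e :: s) 0 i.succ = 0 := by
      rw [Lin_M_apply]; simpa using he' i
    rw [this]; ring
  rw [Finset.sum_eq_zero fun i _ => h0 i, add_zero]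
  have h1 : Lin_M (k + 1) (e :: s) 0 0 = 1 := by
    rw [Lin_M_apply]; simpa using he
  rw [h1, dl_eq_det]
  simp only [Fin.val_zero, pow_zero, one_mul]
  congr 1
  ext i j
  rw [Matrix.submatrix_apply, Lin_M_apply, Lin_M_apply]
  have : (s.map fun v : Vec (k + 1) => fun i : Fin k => v i.succ).getD (i : ℕ) (0 : Vec k) =
      (fun v : Vec (k + 1) => fun i : Fin k => v i.succ) (s.getD (i : ℕ) 0) := by
    have := List.getD_map (l := s) (n := (i : ℕ)) (d := (0 : Vec (k + 1)))
      (f := fun v : Vec (k + 1) => fun i : Fin k => v i.succ)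
    exact this
  rw [this]
  simp

theorem Lin_bij {D : Vec n →ₗ[ℝ] Vec n} (h : LinearMap.det D ≠ 0) : Function.Bijective D := by
  have hi : Function.Injective D := by
    rw [← LinearMap.ker_eq_bot]
    by_contra hc
    exact h (LinearMap.det_eq_zero_iff_ker_ne_bot.mpr hc)
  exact ⟨hi, LinearMap.injective_iff_surjective.mp hi⟩

theorem exists_contr (hn : 1 ≤ n) (x : Vec (n + 1)) (hx : x ≠ 0) :
    ∃ π : Vec (n + 1) →ₗ[ℝ] Vec n, IsContr x π := by
  obtain ⟨j, hj⟩ : ∃ j, x j ≠ 0 := by
    by_contra h
    push Not at h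
    exact hx (funext h)
  -- the first version of the projection
  let p : Vec (n + 1) →ₗ[ℝ] Vec n :=
    { toFun := fun v i => v (j.succAbove i) - (v j / x j) * x (j.succAbove i)
      map_add' := by intro v w; ext i; simp only [Pi.add_apply]; ring
      map_smul' := by
        intro c v; ext i; simp only [Pi.smul_apply, smul_eq_mul, RingHom.id_apply]; ring }
  have hp : ∀ v i, p v i = v (j.succAbove i) - (v j / x j) * x (j.succAbove i) := fun v i => rfl
  have hker : ∀ v, p v = 0 → v = (v j / x j) • x := by
    intro v hv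
    ext i
    rcases Fin.eq_self_or_eq_succAbove j i with h | ⟨i', h⟩
    · rw [h, Pi.smul_apply, smul_eq_mul]; field_simp
    · have := congrFun hv i'
      rw [hp, Pi.zero_apply, sub_eq_zero] at this
      rw [h, this, Pi.smul_apply, smul_eq_mul]
  have hsurj : Function.Surjective p := by
    intro w
    refine ⟨j.insertNth 0 w, ?_⟩
    ext i
    rw [hp]
    simp
  let T : Vec (n + 1) →ₗ[ℝ] Vec (n + 1) :=
    { toFun := fun v => Fin.cons (v j / x j) (p v)
      map_add' := by
        intro v w
        ext i
        refine Fin.cases ?_ (fun i => ?_) i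
        · simp only [Pi.add_apply, Fin.cons_zero]; ring
        · simp only [Pi.add_apply, Fin.cons_succ, map_add]
      map_smul' := by
        intro c v
        ext i
        refine Fin.cases ?_ (fun i => ?_) i
        · simp only [Pi.smul_apply, Fin.cons_zero, RingHom.id_apply, smul_eq_mul]; ring
        · simp only [Pi.smul_apply, Fin.cons_succ, map_smul, RingHom.id_apply] }
  have hT : ∀ v, T v = Fin.cons (v j / x j) (p v) := fun v => rfl
  have hTi : Function.Injective T := by
    rw [← LinearMap.ker_eq_bot, LinearMap.ker_eq_bot']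
    intro v hv
    rw [hT] at hv
    have h0 : v j / x j = 0 := by
      have := congrFun hv 0
      simpa using this
    have h1 : p v = 0 := by
      ext i
      have := congrFun hv i.succ
      simpa using this
    rw [hker v h1, h0, zero_smul]
  have hd : LinearMap.det T ≠ 0 := by
    intro h
    have := LinearMap.bot_lt_ker_of_det_eq_zero h
    rw [LinearMap.ker_eq_bot.mpr hTi] at this
    exact lt_irrefl _ this
  set d := LinearMap.det T with hdd
  -- scaling of the first coordinate
  let D : Vec n →ₗ[ℝ] Vec n := Matrix.toLin' (Matrix.diagonal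
    (Function.update (fun _ : Fin n => (1 : ℝ)) ⟨0, hn⟩ d⁻¹))
  have hDdet : LinearMap.det D = d⁻¹ := by
    rw [LinearMap.det_toLin', Matrix.det_diagonal, Finset.prod_update_of_mem (Finset.mem_univ _)]
    simp
  have hDi : Function.Bijective D := Lin_bij (by rw [hDdet]; exact inv_ne_zero hd)
  refine ⟨D ∘ₗ p, ?_, ?_, ?_⟩
  · rw [LinearMap.coe_comp]
    exact hDi.2.comp hsurj
  · intro v
    constructor
    · intro h
      have : p v = 0 := hDi.1 (by simpa using h)
      exact ⟨_, hker v this⟩
    · rintro ⟨c, rfl⟩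
      rw [map_smul]
      have : p x = 0 := by
        ext i; rw [hp, div_self hj]; simp
      rw [LinearMap.comp_apply, this, map_zero, smul_zero]
  · intro s hs
    have h1 : s.map (D ∘ₗ p) = (s.map p).map D := by simp
    rw [h1, dl_map, hDdet]
    have h2 : dl (n + 1) (x :: s) = d⁻¹ * dl (n + 1) ((x :: s).map T) := by
      rw [dl_map, ← hdd, ← mul_assoc, inv_mul_cancel₀ hd, one_mul]
    rw [h2, List.map_cons, Lin_det_e0]
    · congr 2
      rw [List.map_map]
      apply List.map_congr_left
      intro v _
      ext i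
      simp [hT]
    · rw [hT, Fin.cons_zero, div_self hj]
    · intro i
      rw [hT, Fin.cons_succ, hp, div_self hj]; simp

/-- linear maps killing `x` factor through the contraction -/
theorem IsContr.factor {x : Vec (n + 1)} {π : Vec (n + 1) →ₗ[ℝ] Vec n} (h : IsContr x π)
    {V : Type*} [AddCommGroup V] [Module ℝ V] (A : Vec (n + 1) →ₗ[ℝ] V) (hA : A x = 0) :
    ∃ A' : Vec n →ₗ[ℝ] V, A = A' ∘ₗ π := by
  obtain ⟨g, hg⟩ := LinearMap.exists_rightInverse_of_surjective π (LinearMap.range_eq_top.mpr h.surj)
  refine ⟨A ∘ₗ g, ?_⟩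
  have key : ∀ v, A v = A (g (π v)) := by
    intro v
    have h1 : π (v - g (π v)) = 0 := by
      have : π (g (π v)) = π v := by
        have := congrArg (fun f => f (π v)) hg
        simpa using this
      rw [map_sub, this, sub_self]
    obtain ⟨c, hc⟩ := (h.ker _).mp h1
    have h2 : A (v - g (π v)) = 0 := by rw [hc, map_smul, hA, smul_zero]
    rw [map_sub, sub_eq_zero] at h2
    exact h2
  exact LinearMap.ext key

theorem TP.sublist {L L' : List (Vec n)} (h : TP n L) (hs : L'.Sublist L) : TP n L' :=
  fun s hs' hl => h s (hs'.trans hs) hl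

theorem TP.contr {x : Vec (n + 1)} {π : Vec (n + 1) →ₗ[ℝ] Vec n} (hπ : IsContr x π)
    {L1 L2 : List (Vec (n + 1))} (h : TP (n + 1) (L1 ++ x :: L2)) :
    TP n (negB π L1 ++ L2.map π) := by
  intro s hs hl
  obtain ⟨s1, s2, rfl, h1, h2⟩ := List.sublist_append_iff.mp hs
  obtain ⟨t1, ht1, rfl⟩ := List.sublist_map_iff.mp h1
  obtain ⟨t2, ht2, rfl⟩ := List.sublist_map_iff.mp h2
  have hlen : t1.length + t2.length = n := by simpa using hl
  have e1 : dl n (t1.map (fun v => -π v) ++ t2.map π) =
      (-1) ^ t1.length * dl n (t1.map π ++ t2.map π) := by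
    have := dl_smul_map (n := n) (t1.map π) [] (t2.map π) (-1) id (by simpa using hlen)
    simp only [List.nil_append, List.map_map, List.length_map] at this
    rw [← show t1.map (fun v => -π v) = t1.map ((fun v => (-1 : ℝ) • id v) ∘ π) from
      List.map_congr_left (fun v _ => by simp)] at this
    rw [this]
    simp
  rw [e1, ← List.map_append, hπ.det _ (by simpa using hlen)]
  have e2 := dl_move (n := n + 1) t1 t2 x (by omega)
  have e3 : ((-1 : ℝ) ^ t1.length) * dl (n + 1) (x :: (t1 ++ t2)) = dl (n + 1) (t1 ++ x :: t2) :=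
    e2.symm
  rw [e3]
  apply h
  · exact ht1.append (ht2.cons_cons x)
  · simp only [List.length_append, List.length_cons]; omega

theorem TP.rot {L1 L2 : List (Vec n)} (h : TP n (L1 ++ L2)) :
    TP n (L2 ++ L1.map fun v => (-1 : ℝ) ^ (n - 1) • v) := by
  intro s hs hl
  obtain ⟨s1, s2, rfl, h1, h2⟩ := List.sublist_append_iff.mp hs
  obtain ⟨t, ht, rfl⟩ := List.sublist_map_iff.mp h2
  have hlen : s1.length + t.length = n := by simpa using hl
  have e1 := dl_smul_map (n := n) t s1 [] ((-1) ^ (n - 1)) id (by simpa using hlen)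
  simp only [List.append_nil, id, List.map_id_fun, id] at e1
  have e2 := dl_exch_pre (n := n) t [] s1 (by simp; omega)
  simp only [List.nil_append] at e2
  rw [e1, e2]
  have e3 : ((-1 : ℝ) ^ (n - 1)) ^ t.length * ((-1) ^ (t.length * s1.length) * dl n (t ++ s1)) =
      dl n (t ++ s1) := by
    rw [← pow_mul, ← mul_assoc, ← pow_add]
    have : Even ((n - 1) * t.length + t.length * s1.length) := by
      rcases Nat.eq_zero_or_pos t.length with h0 | h0
      · simp [h0]
      · obtain ⟨a, ha⟩ : ∃ a, t.length = a + 1 := ⟨t.length - 1, by omega⟩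
        have h3 : n - 1 = a + s1.length := by omega
        rw [h3, ha]
        have : (a + s1.length) * (a + 1) + (a + 1) * s1.length =
          a * (a + 1) + 2 * (s1.length * (a + 1)) := by ring
        rw [this]
        exact (Nat.even_mul_succ_self a).add (even_two_mul _)
    rw [this.neg_one_pow, one_mul]
  rw [e3]
  apply h
  · exact ht.append h1
  · simp only [List.length_append]; omega

theorem TP.cone_right {L1 L2 : List (Vec n)} {a b : Vec n} (h : TP n (L1 ++ a :: b :: L2))
    {r s : ℝ} (hr : 0 ≤ r) (hs : 0 < s) : TP n (L1 ++ a :: (r • a + s • b) :: L2) := by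
  intro l hl hlen
  obtain ⟨t1, u, rfl, h1, h2⟩ := List.sublist_append_iff.mp hl
  simp only [List.length_append] at hlen
  rcases List.sublist_cons_iff.mp h2 with h3 | ⟨u', rfl, h3⟩
  · rcases List.sublist_cons_iff.mp h3 with h4 | ⟨u'', rfl, h4⟩
    · exact h _ (h1.append ((h4.cons b).cons a)) (by simpa using hlen)
    · rw [dl_comb _ _ _ _ _ _ (by simp only [List.length_cons] at hlen; omega)]
      have p1 := h (t1 ++ a :: u'') (h1.append ((h4.cons b).cons_cons a))
        (by simpa using hlen)
      have p2 := h (t1 ++ b :: u'') (h1.append ((h4.cons_cons b).cons a))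
        (by simpa using hlen)
      positivity
  · rcases List.sublist_cons_iff.mp h3 with h4 | ⟨u'', rfl, h4⟩
    · exact h _ (h1.append ((h4.cons b).cons_cons a)) (by simpa using hlen)
    · have e : t1 ++ a :: (r • a + s • b) :: u'' = (t1 ++ [a]) ++ (r • a + s • b) :: u'' := by simp
      simp only [List.length_cons] at hlen
      rw [e, dl_comb _ _ _ _ _ _ (by
        simp only [List.length_append, List.length_cons, List.length_nil]; omega)]
      have z1 : dl n ((t1 ++ [a]) ++ a :: u'') = 0 := by
        apply dl_zero_of_not_nodup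
        · simp only [List.length_append, List.length_cons, List.length_nil]; omega
        · intro hnd
          rw [List.append_assoc] at hnd
          have := (List.nodup_append.mp hnd).2.1
          simp at this
      have p2 := h ((t1 ++ [a]) ++ b :: u'') (by
        simpa using h1.append ((h4.cons_cons b).cons_cons a))
        (by simp only [List.length_append, List.length_cons, List.length_nil]; omega)
      rw [z1, mul_zero, zero_add]
      positivity

theorem TP.cone_left {L1 L2 : List (Vec n)} {a b : Vec n} (h : TP n (L1 ++ a :: b :: L2))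
    {r s : ℝ} (hr : 0 < r) (hs : 0 ≤ s) : TP n (L1 ++ (r • a + s • b) :: b :: L2) := by
  intro l hl hlen
  obtain ⟨t1, u, rfl, h1, h2⟩ := List.sublist_append_iff.mp hl
  simp only [List.length_append] at hlen
  rcases List.sublist_cons_iff.mp h2 with h3 | ⟨u', rfl, h3⟩
  · exact h _ (h1.append (h3.cons a)) (by simpa using hlen)
  · simp only [List.length_cons] at hlen
    rw [dl_comb _ _ _ _ _ _ (by omega)]
    rcases List.sublist_cons_iff.mp h3 with h4 | ⟨u'', rfl, h4⟩
    · have p1 := h (t1 ++ a :: u') (h1.append ((h4.cons b).cons_cons a))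
        (by simp only [List.length_append, List.length_cons]; omega)
      have p2 := h (t1 ++ b :: u') (h1.append ((h4.cons_cons b).cons a))
        (by simp only [List.length_append, List.length_cons]; omega)
      positivity
    · simp only [List.length_cons] at hlen
      have z1 : dl n (t1 ++ b :: b :: u'') = 0 := by
        apply dl_zero_of_not_nodup
        · simp only [List.length_append, List.length_cons]; omega
        · intro hnd
          have := (List.nodup_append.mp hnd).2.1
          simp at this
      have p1 := h (t1 ++ a :: b :: u'') (h1.append ((h4.cons_cons b).cons_cons a))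
        (by simp only [List.length_append, List.length_cons]; omega)
      rw [z1, mul_zero, add_zero]
      positivity

theorem TP.map {L : List (Vec n)} (h : TP n L) (T : Vec n →ₗ[ℝ] Vec n)
    (hT : 0 < LinearMap.det T) : TP n (L.map T) := by
  intro s hs hl
  obtain ⟨t, ht, rfl⟩ := List.sublist_map_iff.mp hs
  rw [dl_map]
  exact mul_pos hT (h t ht (by simpa using hl))

theorem TP.eq_zero {L : List (Vec n)} (h : TP n L) (hl : n ≤ L.length)
    {V : Type*} [AddCommGroup V] [Module ℝ V] (f : Vec n →ₗ[ℝ] V) (hf : ∀ x ∈ L, f x = 0) :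
    f = 0 :=
  eq_zero_of_dl_ne_zero (L.take n)
    (h _ (List.take_sublist _ _) (by rw [List.length_take]; omega)).ne' f
    fun x hx => hf x (List.mem_of_mem_take hx)

theorem TP.ne_zero {L : List (Vec n)} (h : TP n L) (hn : 1 ≤ n) (hl : n ≤ L.length)
    {x : Vec n} (hx : x ∈ L) : x ≠ 0 := by
  rintro rfl
  obtain ⟨L1, L2, rfl⟩ := List.append_of_mem hx
  simp only [List.length_append, List.length_cons] at hl
  have hlen : (L1.take (n - 1)).length + (L2.take (n - 1 - (L1.take (n - 1)).length)).length + 1
      = n := by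
    simp only [List.length_take]; omega
  have h1 := h (L1.take (n - 1) ++ 0 :: L2.take (n - 1 - (L1.take (n - 1)).length))
    ((List.take_sublist _ _).append ((List.take_sublist _ _).cons_cons _)) (by
      simp only [List.length_append, List.length_cons]; omega)
  have h2 := dl_smul (L1.take (n - 1)) (L2.take (n - 1 - (L1.take (n - 1)).length)) 0 0 hlen
  rw [zero_smul, zero_mul] at h2
  rw [h2] at h1
  exact lt_irrefl _ h1

/-- two members of a totally positive list are linearly independent -/
theorem TP.indep {L1 L2 L3 : List (Vec n)} {a b : Vec n}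
    (h : TP n (L1 ++ a :: (L2 ++ b :: L3))) (hn : 2 ≤ n)
    (hl : n ≤ (L1 ++ a :: (L2 ++ b :: L3)).length) {r s : ℝ} (h0 : r • a + s • b = 0) :
    r = 0 ∧ s = 0 := by
  simp only [List.length_append, List.length_cons] at hl
  obtain ⟨t1, t2, t3, h1, h2, h3, hlen⟩ : ∃ t1 t2 t3 : List (Vec n), t1.Sublist L1 ∧
      t2.Sublist L2 ∧ t3.Sublist L3 ∧ t1.length + t2.length + t3.length + 2 = n := by
    refine ⟨L1.take (n - 2), L2.take (n - 2 - L1.length),
      L3.take (n - 2 - L1.length - L2.length),
      List.take_sublist _ _, List.take_sublist _ _, List.take_sublist _ _, ?_⟩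
    simp only [List.length_take]; omega
  have hpos := h (t1 ++ a :: (t2 ++ b :: t3))
    (h1.append ((h2.append (h3.cons_cons b)).cons_cons a)) (by
      simp only [List.length_append, List.length_cons]; omega)
  have hr : r = 0 := by
    by_contra hr
    have ha : a = (-(s / r)) • b := by
      have : r • a = (-s) • b := by rw [neg_smul]; exact eq_neg_of_add_eq_zero_left h0
      have h' : a = r⁻¹ • (r • a) := by rw [smul_smul, inv_mul_cancel₀ hr, one_smul]
      rw [h', this, smul_smul]
      congr 1
      ring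
    rw [ha, dl_smul _ _ _ _ (by simp only [List.length_append, List.length_cons]; omega),
      dl_zero_of_not_nodup _ (by simp only [List.length_append, List.length_cons]; omega),
      mul_zero] at hpos
    · exact lt_irrefl _ hpos
    · intro hnd
      have := (List.nodup_append.mp hnd).2.1
      rw [List.nodup_cons] at this
      exact this.1 (by simp)
  refine ⟨hr, ?_⟩
  by_contra hs
  rw [hr, zero_smul, zero_add] at h0
  have hb : b = (0 : ℝ) • b := by
    rw [zero_smul]
    rcases smul_eq_zero.mp h0 with h | h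
    · exact absurd h hs
    · exact h
  have e : t1 ++ a :: (t2 ++ b :: t3) = (t1 ++ a :: t2) ++ b :: t3 := by simp
  rw [e, hb, dl_smul _ _ _ _ (by simp only [List.length_append, List.length_cons]; omega),
    zero_mul] at hpos
  exact lt_irrefl _ hpos

theorem TP.open {L : List (Vec n)} (h : TP n L) :
    ∃ ε > 0, ∀ L' : List (Vec n), L'.length = L.length →
      (∀ i < L.length, ∀ j, |L'.getD i 0 j - L.getD i 0 j| < ε) → TP n L' := by
  let U : Set (Fin L.length → Fin n → ℝ) :=
    {g | ∀ f : Fin n ↪o Fin L.length, 0 < Matrix.det (Matrix.of fun i j : Fin n => g (f i) j)}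
  have hU : IsOpen U := by
    have : U = ⋂ f : Fin n ↪o Fin L.length,
        {g | 0 < Matrix.det (Matrix.of fun i j : Fin n => g (f i) j)} := by
      ext g; simp [U]
    rw [this]
    apply isOpen_iInter_of_finite
    intro f
    apply isOpen_lt continuous_const
    apply Continuous.matrix_det
    exact continuous_matrix fun i j => (continuous_apply j).comp (continuous_apply (f i))
  have h0 : (fun i : Fin L.length => (L.get i : Fin n → ℝ)) ∈ U := by
    intro f
    have h1 := h (List.ofFn fun i => L.get (f i)) (by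
      rw [List.sublist_iff_exists_fin_orderEmbedding_get_eq]
      refine ⟨(Fin.castOrderIso (List.length_ofFn)).toOrderEmbedding.trans f, fun ix => ?_⟩
      simp only [List.get_eq_getElem, List.getElem_ofFn]
      rfl) (by simp)
    rw [dl_eq_det] at h1
    have : Lin_M n (List.ofFn fun i => L.get (f i)) =
        Matrix.of fun i j : Fin n => (L.get (f i) : Fin n → ℝ) j := by
      ext i j
      rw [Lin_M_apply, List.getD_eq_getElem _ _ (by simp)]
      simp
    rwa [this] at h1
  obtain ⟨ε, hε, hb⟩ := Metric.isOpen_iff.mp hU _ h0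
  refine ⟨ε, hε, fun L' hL' hd s hs hl => ?_⟩
  have h1 : (fun i : Fin L.length => (L'.getD (i : ℕ) 0 : Fin n → ℝ)) ∈ U := by
    apply hb
    rw [Metric.mem_ball, dist_pi_lt_iff hε]
    intro i
    rw [dist_pi_lt_iff hε]
    intro j
    rw [Real.dist_eq]
    have := hd i i.2 j
    rw [List.getD_eq_getElem L _ i.2] at this
    simpa using this
  obtain ⟨f, hf⟩ := List.sublist_iff_exists_fin_orderEmbedding_get_eq.mp hs
  have h2 := h1 (((Fin.castOrderIso hl.symm).toOrderEmbedding.trans f).trans
    (Fin.castOrderIso hL').toOrderEmbedding)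
  rw [dl_eq_det]
  have : Lin_M n s = Matrix.of fun i j : Fin n =>
      (fun i : Fin L.length => (L'.getD (i : ℕ) 0 : Fin n → ℝ))
        ((((Fin.castOrderIso hl.symm).toOrderEmbedding.trans f).trans
          (Fin.castOrderIso hL').toOrderEmbedding) i) j := by
    ext i j
    have hi : (i : ℕ) < s.length := by have := i.2; omega
    rw [Lin_M_apply, List.getD_eq_getElem _ _ hi]
    have := hf ⟨i, hi⟩
    simp only [List.get_eq_getElem] at this
    rw [this, Matrix.of_apply]
    have h3 := List.getD_eq_getElem L' (0 : Vec n) (f ⟨i, hi⟩).2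
    exact (congrFun h3 j).symm
  rw [this]
  exact h2

/-- a functional with value one at a given nonzero vector -/
theorem Lin_fun {k : ℕ} (u : Vec k) (hu : u ≠ 0) : ∃ f : Vec k →ₗ[ℝ] ℝ, f u = 1 := by
  obtain ⟨j, hj⟩ : ∃ j, u j ≠ 0 := by
    by_contra h
    push Not at h
    exact hu (funext h)
  refine ⟨(u j)⁻¹ • LinearMap.proj j, ?_⟩
  simp [hj]

theorem Lin_fun2 {m : ℕ} (x y : Vec (m + 2))
    (h : ∀ r s : ℝ, r • x + s • y = 0 → r = 0 ∧ s = 0) :
    ∃ f : Vec (m + 2) →ₗ[ℝ] ℝ, f x = 1 ∧ f y = 0 := by
  have hy : y ≠ 0 := by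
    rintro rfl
    have := (h 0 1 (by simp)).2
    exact one_ne_zero this
  obtain ⟨π, hπ⟩ := exists_contr (n := m + 1) (by omega) y hy
  have hx : π x ≠ 0 := by
    intro h0
    obtain ⟨c, hc⟩ := (hπ.ker x).mp h0
    have := (h 1 (-c) (by rw [hc]; simp)).1
    exact one_ne_zero this
  obtain ⟨f, hf⟩ := Lin_fun _ hx
  refine ⟨f ∘ₗ π, by simpa using hf, ?_⟩
  have : π y = 0 := (hπ.ker y).mpr ⟨1, by simp⟩
  simp [this]

/-- independent vectors go to the first two standard vectors by a map of positive determinant -/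
theorem exists_normal {m : ℕ} (hm : 1 ≤ m) (x y : Vec (m + 2))
    (h : ∀ r s : ℝ, r • x + s • y = 0 → r = 0 ∧ s = 0) :
    ∃ T : Vec (m + 2) ≃ₗ[ℝ] Vec (m + 2), T x = e0 m ∧ T y = e1 m ∧
      0 < LinearMap.det (T : Vec (m + 2) →ₗ[ℝ] Vec (m + 2)) := by
  obtain ⟨f, hfx, hfy⟩ := Lin_fun2 x y h
  obtain ⟨g, hgy, hgx⟩ := Lin_fun2 y x (fun r s h' => by
    have := h s r (by rw [← h']; exact add_comm _ _)
    exact ⟨this.2, this.1⟩)
  have hx : x ≠ 0 := by
    rintro rfl
    simp at hfx
  obtain ⟨p, hp⟩ := exists_contr (n := m + 1) (by omega) x hx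
  have hy : p y ≠ 0 := by
    intro h0
    obtain ⟨c, hc⟩ := (hp.ker y).mp h0
    have := (h (-c) 1 (by rw [hc]; simp)).2
    exact one_ne_zero this
  obtain ⟨q, hq⟩ := exists_contr (n := m) hm (p y) hy
  -- kernel of the composition
  have hker : ∀ v, q (p v) = 0 → f v = 0 → g v = 0 → v = 0 := by
    intro v hv hf hg
    obtain ⟨c, hc⟩ := (hq.ker _).mp hv
    have h1 : p (v - c • y) = 0 := by rw [map_sub, map_smul, hc, sub_self]
    obtain ⟨d, hd⟩ := (hp.ker _).mp h1
    have h2 : v = d • x + c • y := by rw [← hd]; simp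
    rw [h2] at hf hg
    simp only [map_add, map_smul, hfx, hfy, hgx, hgy, smul_eq_mul, mul_one, mul_zero,
      add_zero, zero_add] at hf hg
    rw [h2, hf, hg]; simp
  let T : Vec (m + 2) →ₗ[ℝ] Vec (m + 2) :=
    { toFun := fun v => Fin.cons (f v) (Fin.cons (g v) (q (p v)))
      map_add' := by
        intro v w
        ext i
        refine Fin.cases ?_ (fun i => ?_) i
        · simp only [Pi.add_apply, Fin.cons_zero, map_add]
        · refine Fin.cases ?_ (fun i => ?_) i
          · simp only [Pi.add_apply, Fin.cons_zero, Fin.cons_succ, map_add]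
          · simp only [Pi.add_apply, Fin.cons_succ, map_add]
      map_smul' := by
        intro c v
        ext i
        refine Fin.cases ?_ (fun i => ?_) i
        · simp only [Pi.smul_apply, Fin.cons_zero, map_smul, RingHom.id_apply]
        · refine Fin.cases ?_ (fun i => ?_) i
          · simp only [Pi.smul_apply, Fin.cons_zero, Fin.cons_succ, map_smul, RingHom.id_apply]
          · simp only [Pi.smul_apply, Fin.cons_succ, map_smul, RingHom.id_apply] }
  have hT : ∀ v, T v = Fin.cons (f v) (Fin.cons (g v) (q (p v))) := fun v => rfl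
  have hTi : Function.Injective T := by
    rw [← LinearMap.ker_eq_bot, LinearMap.ker_eq_bot']
    intro v hv
    rw [hT] at hv
    apply hker v
    · ext i
      have := congrFun hv i.succ.succ
      simpa using this
    · have := congrFun hv 0
      simpa using this
    · have := congrFun hv (Fin.succ 0)
      simpa using this
  have hd : LinearMap.det T ≠ 0 := by
    intro h
    have := LinearMap.bot_lt_ker_of_det_eq_zero h
    rw [LinearMap.ker_eq_bot.mpr hTi] at this
    exact lt_irrefl _ this
  have hpx : p x = 0 := (hp.ker x).mpr ⟨1, by simp⟩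
  have hqy : q (p y) = 0 := (hq.ker (p y)).mpr ⟨1, by simp⟩
  have hTx : T x = e0 m := by
    rw [hT, hfx, hgx, hpx, map_zero]
    ext i
    refine Fin.cases ?_ (fun i => ?_) i
    · simp [e0]
    · refine Fin.cases ?_ (fun i => ?_) i
      · simp [e0]
      · simp [e0]
  have hTy : T y = e1 m := by
    rw [hT, hfy, hgy, hqy]
    ext i
    refine Fin.cases ?_ (fun i => ?_) i
    · simp [e1]
    · refine Fin.cases ?_ (fun i => ?_) i
      · simp [e1]
      · simp [e1, Fin.ext_iff]
  rcases hd.lt_or_gt with hneg | hpos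
  · let D : Vec (m + 2) →ₗ[ℝ] Vec (m + 2) := Matrix.toLin' (Matrix.diagonal
      (Function.update (fun _ : Fin (m + 2) => (1 : ℝ)) ⟨2, by omega⟩ (-1)))
    have hDdet : LinearMap.det D = -1 := by
      rw [LinearMap.det_toLin', Matrix.det_diagonal,
        Finset.prod_update_of_mem (Finset.mem_univ _)]
      simp
    have hdet : LinearMap.det (D ∘ₗ T) = - LinearMap.det T := by
      rw [LinearMap.det_comp, hDdet]; ring
    have hbij := Lin_bij (D := D ∘ₗ T) (by rw [hdet]; exact neg_ne_zero.mpr hd)
    have hD0 : D (e0 m) = e0 m := by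
      ext i
      simp only [D, Matrix.toLin'_apply, Matrix.mulVec_diagonal, e0, Pi.single_apply]
      by_cases hi : i = 0
      · subst hi
        rw [Function.update_of_ne (by simp [Fin.ext_iff])]
        simp
      · simp [hi]
    have hD1 : D (e1 m) = e1 m := by
      ext i
      simp only [D, Matrix.toLin'_apply, Matrix.mulVec_diagonal, e1, Pi.single_apply]
      by_cases hi : i = 1
      · subst hi
        rw [Function.update_of_ne (by simp [Fin.ext_iff])]
        simp
      · simp [hi]
    refine ⟨LinearEquiv.ofBijective (D ∘ₗ T) hbij, ?_, ?_, ?_⟩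
    · simp [hTx, hD0]
    · simp [hTy, hD1]
    · have : ((LinearEquiv.ofBijective (D ∘ₗ T) hbij : Vec (m + 2) ≃ₗ[ℝ] Vec (m + 2)) :
          Vec (m + 2) →ₗ[ℝ] Vec (m + 2)) = D ∘ₗ T := by ext; simp
      rw [this, hdet]
      linarith
  · have hbij := Lin_bij (D := T) hd
    refine ⟨LinearEquiv.ofBijective T hbij, ?_, ?_, ?_⟩
    · simp [hTx]
    · simp [hTy]
    · have : ((LinearEquiv.ofBijective T hbij : Vec (m + 2) ≃ₗ[ℝ] Vec (m + 2)) :
          Vec (m + 2) →ₗ[ℝ] Vec (m + 2)) = T := by ext; simp
      rw [this]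
      exact hpos

end Pool.CTP
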