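import Pool.Agent.CTP.Defs
import Pool.Agent.COT.TP

/-! Row POT. Discrete Grassmann convexity for `k = 2` (page, section 1 (d)-(f)). -/

namespace Pool.CTP

noncomputable section

/-- all neighbours are linearly independent -/
def ND (w : List ℂ) : Prop := ∀ d ∈ cds w, d ≠ 0

theorem cr_eq_D (v w : ℂ) : cr v w = COT.D v w := by
  rw [COT.D_eq, cr]

theorem cds_eq_Ds : ∀ w : List ℂ, cds w = COT.Ds w
  | [] => rfl
  | [_] => rfl
  | a :: b :: l => by
    show cr a b :: cds (b :: l) = COT.D a b :: COT.Ds (b :: l)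
    rw [cr_eq_D, cds_eq_Ds (b :: l)]

theorem sch_eq_chg : ∀ l : List ℝ, sch l = COT.chg l
  | [] => rfl
  | [_] => rfl
  | a :: b :: l => by
    show (if a * b < 0 then 1 else 0) + sch (b :: l) = (if a * b < 0 then 1 else 0) + COT.chg (b :: l)
    rw [sch_eq_chg (b :: l)]

theorem sch_le_length : ∀ l : List ℝ, sch l ≤ l.length - 1
  | [] => by simp [sch]
  | [_] => by simp [sch]
  | a :: b :: l => by
    have h := sch_le_length (b :: l)
    have h1 : sch (a :: b :: l) = (if a * b < 0 then 1 else 0) + sch (b :: l) := rfl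
    rw [h1]
    simp only [List.length_cons] at h ⊢
    split_ifs <;> omega

theorem length_cds : ∀ w : List ℂ, (cds w).length = w.length - 1
  | [] => rfl
  | [_] => rfl
  | a :: b :: l => by
    have h := length_cds (b :: l)
    show (cr a b :: cds (b :: l)).length = _
    simp only [List.length_cons] at h ⊢
    omega

theorem lst_map {α : Type} (L : List α) (d : α) (g : α → ℂ) :
    COT.lst (fun z => g (L.getD z d)) L.length = L.map g := by
  induction L with
  | nil => rfl
  | cons a L ih =>
    show g ((a :: L).getD 0 d) :: COT.lst (fun z => g ((a :: L).getD (z + 1) d)) L.length = _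
    rw [List.map_cons, ← ih]
    simp

theorem ndD_of_ND : ∀ w : List ℂ, ND w → ∀ z, z + 1 < w.length → COT.D (w.getD z 0) (w.getD (z + 1) 0) ≠ 0
  | [], _, z, hz => absurd hz (by simp)
  | [_], _, z, hz => absurd hz (by simp)
  | a :: b :: l, h, z, hz => by
    rcases z with _ | z
    · have h1 : cr a b ≠ 0 := h _ (List.mem_cons_self ..)
      rw [cr_eq_D] at h1
      simpa using h1
    · have h1 : ND (b :: l) := fun d hd => h d (List.mem_cons_of_mem _ hd)
      have := ndD_of_ND (b :: l) h1 z (by simpa using hz)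
      simpa using this

theorem TP_of_TP {n : ℕ} {L : List (Vec n)} (h : TP n L) : COT.TP n L.length (fun z => L.getD z 0) := by
  intro f hf hf'
  have h1 := h (List.ofFn fun i : Fin n => L.get ⟨f i, hf' i i.2⟩) (by
    rw [List.sublist_iff_exists_fin_orderEmbedding_get_eq]
    have hlen : (List.ofFn fun i : Fin n => L.get ⟨f i, hf' i i.2⟩).length = n := by simp
    refine ⟨OrderEmbedding.ofStrictMono (fun i => ⟨f i, hf' i (by have := i.2; omega)⟩) ?_, ?_⟩
    · intro i j hij
      have h1 : (i : ℕ) < n := by have := i.2; omega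
      have h2 : (j : ℕ) < n := by have := j.2; omega
      exact hf (Set.mem_Iio.2 h1) (Set.mem_Iio.2 h2) hij
    · intro i
      simp) (by simp)
  refine lt_of_lt_of_eq h1 ?_
  unfold dl COT.dt
  congr 1
  ext i j
  simp only [Matrix.of_apply]
  have hi := hf' i i.2
  rw [List.getD_eq_getElem _ _ (by simp), List.getD_eq_getElem _ _ hi]
  simp

/-- a real plane vector as a complex number, linear -/
def cvl : (ℝ × ℝ) →ₗ[ℝ] ℂ where
  toFun := cv
  map_add' x y := by apply Complex.ext <;> simp [cv]
  map_smul' c x := by apply Complex.ext <;> simp [cv]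

theorem pot {n : ℕ} (hn : 2 ≤ n) (L : List (Vec n)) (hL : TP n L)
    (A : Vec n →ₗ[ℝ] ℝ × ℝ) (h : ND (L.map fun x => cv (A x))) :
    sch (cds (L.map fun x => cv (A x))) ≤ 2 * (n - 2) := by
  rcases Nat.lt_or_ge L.length n with hl | hl
  · have h1 := sch_le_length (cds (L.map fun x => cv (A x)))
    rw [length_cds, List.length_map] at h1
    omega
  · obtain ⟨m, rfl⟩ : ∃ m, n = m + 2 := ⟨n - 2, by omega⟩
    have h1 := COT.chg_le_TP (TP_of_TP hL) hl (cvl ∘ₗ A) (by
      intro z hz
      have h2 := ndD_of_ND _ h z (by simpa using hz)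
      rw [List.getD_eq_getElem _ _ (by rw [List.length_map]; omega),
        List.getD_eq_getElem _ _ (by rw [List.length_map]; omega), List.getElem_map,
        List.getElem_map] at h2
      rw [List.getD_eq_getElem _ _ (by omega), List.getD_eq_getElem _ _ hz]
      exact h2)
    have h3 : COT.lst (fun z => (cvl ∘ₗ A) (L.getD z 0)) L.length = L.map fun x => cv (A x) :=
      lst_map L 0 fun x => cv (A x)
    rw [h3, ← cds_eq_Ds, ← sch_eq_chg] at h1
    omega

end

end Pool.CTP
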