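import Pool.Agent.CTP.CorE

/-! Row RT. Reality for all lists of the same shape implies transversality (page, 3.1). -/

namespace Pool.CTP

open Filter Topology

theorem ev_list {α β : Type*} (l : List α) (f : Filter β) (p : α → β → Prop)
    (h : ∀ x ∈ l, ∀ᶠ d in f, p x d) : ∀ᶠ d in f, ∀ x ∈ l, p x d := by
  induction l with
  | nil => exact Filter.Eventually.of_forall fun d x hx => absurd hx List.not_mem_nil
  | cons a l ih =>
    filter_upwards [h a List.mem_cons_self, ih fun x hx => h x (List.mem_cons_of_mem _ hx)]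
      with d h1 h2 x hx
    rcases List.mem_cons.1 hx with hx' | hx'
    · rw [hx']
      exact h1
    · exact h2 x hx'

section
variable {n : ℕ}

/-- the coefficient `c` in `A x = c A r` -/
noncomputable def cc (A : Vec n →ₗ[ℝ] ℝ × ℝ) (r x : Vec n) : ℝ :=
  ((A x).1 * (A r).1 + (A x).2 * (A r).2) / ((A r).1 ^ 2 + (A r).2 ^ 2)

/-- the coefficient `κ` in `Φ x = c Φ r + κ A r` -/
noncomputable def kk (A Φ : Vec n →ₗ[ℝ] ℝ × ℝ) (r x : Vec n) : ℝ :=
  (((Φ x).1 - cc A r x * (Φ r).1) * (A r).1 + ((Φ x).2 - cc A r x * (Φ r).2) * (A r).2) /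
    ((A r).1 ^ 2 + (A r).2 ^ 2)

theorem sq_ne {A : Vec n →ₗ[ℝ] ℝ × ℝ} {r : Vec n} (h : A r ≠ 0) :
    (A r).1 ^ 2 + (A r).2 ^ 2 ≠ 0 := by
  intro h0
  apply h
  have h1 : (A r).1 = 0 := by nlinarith [sq_nonneg (A r).1, sq_nonneg (A r).2]
  have h2 : (A r).2 = 0 := by nlinarith [sq_nonneg (A r).1, sq_nonneg (A r).2]
  exact Prod.ext h1 h2

theorem cc_spec {A : Vec n →ₗ[ℝ] ℝ × ℝ} {r x : Vec n} (h : A r ≠ 0) (hd : DD A r x = 0) :
    (A x).1 = cc A r x * (A r).1 ∧ (A x).2 = cc A r x * (A r).2 := by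
  have h1 := sq_ne h
  unfold DD at hd
  unfold cc
  constructor
  · field_simp
    linear_combination (-(A r).2) * hd
  · field_simp
    linear_combination ((A r).1) * hd

theorem kk_spec {A Φ : Vec n →ₗ[ℝ] ℝ × ℝ} {r x : Vec n} (h : A r ≠ 0) (hd : DD A r x = 0)
    (hd' : dD A Φ r x = 0) :
    (Φ x).1 = cc A r x * (Φ r).1 + kk A Φ r x * (A r).1 ∧
      (Φ x).2 = cc A r x * (Φ r).2 + kk A Φ r x * (A r).2 := by
  have h1 := sq_ne h
  obtain ⟨c1, c2⟩ := cc_spec h hd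
  have h2 : (A r).1 * ((Φ x).2 - cc A r x * (Φ r).2) -
      (A r).2 * ((Φ x).1 - cc A r x * (Φ r).1) = 0 := by
    unfold dD at hd'
    rw [c1, c2] at hd'
    linear_combination hd'
  unfold kk
  constructor
  · field_simp
    linear_combination (-(A r).2) * h2
  · field_simp
    linear_combination ((A r).1) * h2

/-- the complex map `A + i δ Φ` -/
noncomputable def AC (A Φ : Vec n →ₗ[ℝ] ℝ × ℝ) (δ : ℝ) : Vec n →ₗ[ℝ] ℂ × ℂ where
  toFun x := (⟨(A x).1, δ * (Φ x).1⟩, ⟨(A x).2, δ * (Φ x).2⟩)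
  map_add' x y := by
    refine Prod.ext ?_ ?_ <;> apply Complex.ext <;> simp [mul_add]
  map_smul' c x := by
    refine Prod.ext ?_ ?_ <;> apply Complex.ext <;> simp [mul_left_comm]

/-- the perturbed vector -/
noncomputable def TT' (A Φ : Vec n →ₗ[ℝ] ℝ × ℝ) (l1 l2 : Vec n) (δ : ℝ) (r x : Vec n) : Vec n :=
  x - (δ ^ 2 * kk A Φ r x) • ((Φ r).1 • l1 + (Φ r).2 • l2)

theorem AC_TT' {A Φ : Vec n →ₗ[ℝ] ℝ × ℝ} {l1 l2 : Vec n} (hl1 : A l1 = (1, 0))
    (hl2 : A l2 = (0, 1)) (hp1 : Φ l1 = 0) (hp2 : Φ l2 = 0) (δ : ℝ) {r x : Vec n}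
    (h : A r ≠ 0) (hd : DD A r x = 0) (hd' : dD A Φ r x = 0) :
    AC A Φ δ (TT' A Φ l1 l2 δ r x) =
      (⟨cc A r x, δ * kk A Φ r x⟩ * ⟨(A r).1, δ * (Φ r).1⟩,
        ⟨cc A r x, δ * kk A Φ r x⟩ * ⟨(A r).2, δ * (Φ r).2⟩) := by
  obtain ⟨c1, c2⟩ := cc_spec h hd
  obtain ⟨k1, k2⟩ := kk_spec h hd hd'
  have h1 : A (TT' A Φ l1 l2 δ r x) = A x - (δ ^ 2 * kk A Φ r x) • Φ r := by
    unfold TT'
    rw [map_sub, map_smul, map_add, map_smul, map_smul, hl1, hl2]
    congr 2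
    ext <;> simp
  have h2 : Φ (TT' A Φ l1 l2 δ r x) = Φ x := by
    unfold TT'
    rw [map_sub, map_smul, map_add, map_smul, map_smul, hp1, hp2]
    simp
  show ((⟨(A (TT' A Φ l1 l2 δ r x)).1, δ * (Φ (TT' A Φ l1 l2 δ r x)).1⟩ : ℂ),
    (⟨(A (TT' A Φ l1 l2 δ r x)).2, δ * (Φ (TT' A Φ l1 l2 δ r x)).2⟩ : ℂ)) = _
  rw [h1, h2]
  refine Prod.ext ?_ ?_
  · apply Complex.ext
    · simp only [Complex.mul_re, Prod.fst_sub, Prod.smul_fst, smul_eq_mul]
      rw [c1]
      ring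
    · simp only [Complex.mul_im]
      rw [k1]
      ring
  · apply Complex.ext
    · simp only [Complex.mul_re, Prod.snd_sub, Prod.smul_snd, smul_eq_mul]
      rw [c2]
      ring
    · simp only [Complex.mul_im]
      rw [k2]
      ring

/-- the pairs of a block of the flattened list and its perturbation -/
noncomputable def prs (f : Vec n → Vec n → Vec n) (Bs : List (List (Vec n))) :
    List (Vec n × Vec n) :=
  (Bs.map fun B => B.map fun x => (x, f (B.headD 0) x)).flatten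

theorem prs_fst (f : Vec n → Vec n → Vec n) (Bs : List (List (Vec n))) :
    (prs f Bs).map Prod.fst = Bs.flatten := by
  unfold prs
  rw [List.map_flatten, List.map_map]
  congr 1
  conv_rhs => rw [← List.map_id Bs]
  refine List.map_congr_left fun B _ => ?_
  simp [Function.comp_def]

theorem prs_snd (f : Vec n → Vec n → Vec n) (Bs : List (List (Vec n))) :
    (prs f Bs).map Prod.snd = (Bs.map fun B => B.map fun x => f (B.headD 0) x).flatten := by
  unfold prs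
  rw [List.map_flatten, List.map_map]
  congr 1
  refine List.map_congr_left fun B _ => ?_
  simp [Function.comp_def]

theorem mem_prs {f : Vec n → Vec n → Vec n} {Bs : List (List (Vec n))} {p : Vec n × Vec n}
    (h : p ∈ prs f Bs) : ∃ B ∈ Bs, ∃ x ∈ B, p = (x, f (B.headD 0) x) := by
  unfold prs at h
  obtain ⟨l, hl, hp⟩ := List.mem_flatten.1 h
  obtain ⟨B, hB, rfl⟩ := List.mem_map.1 hl
  obtain ⟨x, hx, rfl⟩ := List.mem_map.1 hp
  exact ⟨B, hB, x, hx, rfl⟩

theorem flatten_close {f : Vec n → Vec n → Vec n} {Bs : List (List (Vec n))} {ε : ℝ}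
    (h : ∀ B ∈ Bs, ∀ x ∈ B, ∀ j, |f (B.headD 0) x j - x j| < ε) :
    ∀ i < Bs.flatten.length, ∀ j,
      |((Bs.map fun B => B.map fun x => f (B.headD 0) x).flatten).getD i 0 j -
        Bs.flatten.getD i 0 j| < ε := by
  intro i hi j
  rw [← prs_snd, ← prs_fst f Bs]
  rw [← prs_fst f Bs, List.length_map] at hi
  rw [List.getD_eq_getElem _ _ (by simpa using hi), List.getD_eq_getElem _ _ (by simpa using hi),
    List.getElem_map, List.getElem_map]
  obtain ⟨B, hB, x, hx, he⟩ := mem_prs (List.getElem_mem hi)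
  rw [he]
  exact h B hB x hx j

/-- the case of rank four -/
theorem rank_four {Bs : List (List (Vec n))} (h : Good n Bs)
    (hR : ∀ Bs', Good n Bs' → Bs'.map List.length = Bs.map List.length → RR n Bs')
    {A Φ : Vec n →ₗ[ℝ] ℝ × ℝ} (hA : Rk2 A) (hs : Sol A Bs)
    (hd : ∀ B ∈ Bs, ∀ x ∈ B, ∀ x' ∈ B, dD A Φ x x' = 0) {l1 l2 l3 : Vec n} (hl1 : A l1 = (1, 0))
    (hl2 : A l2 = (0, 1)) (hp1 : Φ l1 = 0) (hp2 : Φ l2 = 0) (hl3 : A l3 = 0)
    (hp3 : Φ l3 = (1, 0)) : False := by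
  have hnz : ∀ x ∈ Bs.flatten, A x ≠ 0 := nz h A hA hs
  obtain ⟨ε, hε, hopen⟩ := h.tp.open
  have hev : ∀ᶠ δ : ℝ in 𝓝 0, ∀ B ∈ Bs, ∀ x ∈ B, ∀ j,
      |TT' A Φ l1 l2 δ (B.headD 0) x j - x j| < ε := by
    refine ev_list _ _ _ fun B _ => ev_list _ _ _ fun x _ => ?_
    rw [Filter.eventually_all]
    intro j
    have hc : Continuous fun δ : ℝ => |TT' A Φ l1 l2 δ (B.headD 0) x j - x j| := by
      unfold TT'
      simp only [Pi.sub_apply, Pi.smul_apply, smul_eq_mul]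
      fun_prop
    refine hc.continuousAt.eventually_lt continuousAt_const ?_
    simp [TT', hε]
  obtain ⟨δ, hδ, hδ0⟩ : ∃ δ : ℝ, (∀ B ∈ Bs, ∀ x ∈ B, ∀ j,
      |TT' A Φ l1 l2 δ (B.headD 0) x j - x j| < ε) ∧ 0 < δ := by
    have h1 : ∀ᶠ δ : ℝ in 𝓝[>] 0, ∀ B ∈ Bs, ∀ x ∈ B, ∀ j,
      |TT' A Φ l1 l2 δ (B.headD 0) x j - x j| < ε := hev.filter_mono nhdsWithin_le_nhds
    exact (h1.and self_mem_nhdsWithin).exists
  set Bs' : List (List (Vec n)) :=
    Bs.map fun B => B.map fun x => TT' A Φ l1 l2 δ (B.headD 0) x with hBs'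
  have hlen : Bs'.map List.length = Bs.map List.length := by
    rw [hBs', List.map_map]
    refine List.map_congr_left fun B _ => ?_
    simp
  have hfl : Bs'.flatten.length = Bs.flatten.length := by
    rw [List.length_flatten, List.length_flatten, hlen]
  have hl0 : Bs'.length = Bs.length := by
    rw [hBs', List.length_map]
  have hgood : Good n Bs' := by
    refine ⟨h.two, ?_, ?_, ?_, ?_⟩
    · intro B' hB'
      obtain ⟨B, hB, rfl⟩ := List.mem_map.1 hB'
      intro h0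
      exact h.ne B hB (List.map_eq_nil_iff.1 h0)
    · exact hopen _ hfl (flatten_close hδ)
    · rw [hfl]
      exact h.len
    · rw [hfl, hl0]
      exact h.num
  have hw : ∀ B' ∈ Bs', ∃ w : ℂ × ℂ, ∀ y ∈ B', ∃ c : ℂ, AC A Φ δ y = (c * w.1, c * w.2) := by
    intro B' hB'
    obtain ⟨B, hB, rfl⟩ := List.mem_map.1 hB'
    have hrB : B.headD 0 ∈ B := by
      cases B with
      | nil => exact absurd rfl (h.ne _ hB)
      | cons a l => exact List.mem_cons_self
    refine ⟨(⟨(A (B.headD 0)).1, δ * (Φ (B.headD 0)).1⟩,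
      ⟨(A (B.headD 0)).2, δ * (Φ (B.headD 0)).2⟩), fun y hy => ?_⟩
    obtain ⟨x, hx, rfl⟩ := List.mem_map.1 hy
    exact ⟨_, AC_TT' hl1 hl2 hp1 hp2 δ (hnz _ (List.mem_flatten.2 ⟨B, hB, hrB⟩))
      (hs B hB _ hrB x hx) (hd B hB _ hrB x hx)⟩
  have hsol : Sol (AC A Φ δ) Bs' := by
    intro B' hB' y hy y' hy'
    obtain ⟨w, hw'⟩ := hw B' hB'
    obtain ⟨c, hc⟩ := hw' y hy
    obtain ⟨c', hc'⟩ := hw' y' hy'
    unfold DD
    rw [hc, hc']
    ring
  have hrk : Rk2 (AC A Φ δ) := by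
    refine ⟨l1, l2, ?_⟩
    have e1 : AC A Φ δ l1 = (1, 0) := by
      show ((⟨(A l1).1, δ * (Φ l1).1⟩ : ℂ), (⟨(A l1).2, δ * (Φ l1).2⟩ : ℂ)) = _
      rw [hl1, hp1]
      refine Prod.ext ?_ ?_ <;> apply Complex.ext <;> simp
    have e2 : AC A Φ δ l2 = (0, 1) := by
      show ((⟨(A l2).1, δ * (Φ l2).1⟩ : ℂ), (⟨(A l2).2, δ * (Φ l2).2⟩ : ℂ)) = _
      rw [hl2, hp2]
      refine Prod.ext ?_ ?_ <;> apply Complex.ext <;> simp
    unfold DD
    rw [e1, e2]
    simp
  obtain ⟨B, a, b, c, d, hB⟩ := hR Bs' hgood hlen (AC A Φ δ) hrk hsol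
  -- three plane vectors are dependent
  obtain ⟨α, β, γ, hne, h1, h2⟩ : ∃ α β γ : ℝ, ¬ (α = 0 ∧ β = 0 ∧ γ = 0) ∧
      α * (B l1).1 + β * (B l2).1 + γ * (B l3).1 = 0 ∧
      α * (B l1).2 + β * (B l2).2 + γ * (B l3).2 = 0 := by
    by_cases h0 : (B l1).1 * (B l2).2 - (B l1).2 * (B l2).1 = 0
    · by_cases h3 : B l1 = 0
      · exact ⟨1, 0, 0, by simp, by simp [h3], by simp [h3]⟩
      · by_cases h4 : (B l1).1 = 0
        · have h5 : (B l1).2 ≠ 0 := fun h5 => h3 (Prod.ext h4 h5)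
          have h6 : (B l2).1 = 0 := by
            rw [h4] at h0
            simpa [h5] using h0
          exact ⟨(B l2).2, -(B l1).2, 0, fun h => h5 (by linarith [h.2.1]), by
            rw [h4, h6]; ring, by ring⟩
        · exact ⟨(B l2).1, -(B l1).1, 0, fun h => h4 (by linarith [h.2.1]), by ring, by
            linear_combination (-1) * h0⟩
    · exact ⟨(B l2).1 * (B l3).2 - (B l2).2 * (B l3).1,
        (B l3).1 * (B l1).2 - (B l3).2 * (B l1).1,
        (B l1).1 * (B l2).2 - (B l1).2 * (B l2).1, fun h => h0 h.2.2, by ring, by ring⟩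
  have hz : AC A Φ δ (α • l1 + β • l2 + γ • l3) = 0 := by
    rw [hB]
    have e1 : (B (α • l1 + β • l2 + γ • l3)).1 = 0 := by
      simp only [map_add, map_smul, Prod.fst_add, Prod.smul_fst, smul_eq_mul]
      exact h1
    have e2 : (B (α • l1 + β • l2 + γ • l3)).2 = 0 := by
      simp only [map_add, map_smul, Prod.snd_add, Prod.smul_snd, smul_eq_mul]
      exact h2
    rw [e1, e2]
    simp
  have hz' : ((⟨(A (α • l1 + β • l2 + γ • l3)).1, δ * (Φ (α • l1 + β • l2 + γ • l3)).1⟩ : ℂ),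
    (⟨(A (α • l1 + β • l2 + γ • l3)).2, δ * (Φ (α • l1 + β • l2 + γ • l3)).2⟩ : ℂ)) = 0 := hz
  have hAz : A (α • l1 + β • l2 + γ • l3) = (α, β) := by
    rw [map_add, map_add, map_smul, map_smul, map_smul, hl1, hl2, hl3]
    simp
  have hPz : Φ (α • l1 + β • l2 + γ • l3) = (γ, 0) := by
    rw [map_add, map_add, map_smul, map_smul, map_smul, hp1, hp2, hp3]
    simp
  rw [hAz, hPz] at hz'
  have q1 := congrArg (fun p : ℂ × ℂ => p.1.re) hz'
  have q2 := congrArg (fun p : ℂ × ℂ => p.2.re) hz'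
  have q3 := congrArg (fun p : ℂ × ℂ => p.1.im) hz'
  simp only [Prod.fst_zero, Prod.snd_zero, Complex.zero_re, Complex.zero_im] at q1 q2 q3
  refine hne ⟨q1, q2, ?_⟩
  rcases mul_eq_zero.1 q3 with q | q
  · exact absurd q hδ0.ne'
  · exact q

/-- the pencil of solutions -/
noncomputable def Apen (A : Vec n →ₗ[ℝ] ℝ × ℝ) (φ : Vec n →ₗ[ℝ] ℝ) (t s : ℝ) :
    Vec n →ₗ[ℝ] ℝ × ℝ where
  toFun x := ((A x).1, t * (A x).2 + s * φ x)
  map_add' x y := by
    refine Prod.ext ?_ ?_ <;> simp <;> ring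
  map_smul' c x := by
    refine Prod.ext ?_ ?_ <;> simp <;> ring

theorem DD_Apen (A : Vec n →ₗ[ℝ] ℝ × ℝ) (φ : Vec n →ₗ[ℝ] ℝ) (t s : ℝ) (x x' : Vec n) :
    DD (Apen A φ t s) x x' = t * DD A x x' + s * ((A x).1 * φ x' - φ x * (A x').1) := by
  show (A x).1 * (t * (A x').2 + s * φ x') - (t * (A x).2 + s * φ x) * (A x').1 = _
  unfold DD
  ring

/-- two neighbouring blocks -/
theorem exists_two {Bs : List (List (Vec n))} (h : Good n Bs) (A : Vec n →ₗ[ℝ] ℝ × ℝ)
    (hA : Rk2 A) (hs : Sol A Bs) :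
    ∃ (B C : List (Vec n)) (Q : List (List (Vec n))) (a b : Vec n),
      Bs = [] ++ (B ++ [a]) :: (b :: C) :: Q := by
  match Bs, h, hs with
  | [], h, _ =>
    have h1 := h.len
    have h2 := h.two
    simp at h1
    omega
  | [B], h, hs =>
    exfalso
    have h1 := h.len
    refine not_big h.two h.tp (B := B) List.mem_cons_self ?_ A hs hA
    simpa using h1
  | B :: [] :: Q, h, _ => exact absurd rfl (h.ne [] (by simp))
  | B :: (b :: C) :: Q, h, _ =>
    have hB : B ≠ [] := h.ne B List.mem_cons_self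
    exact ⟨B.dropLast, C, Q, B.getLast hB, b, by
      rw [List.dropLast_append_getLast hB]; rfl⟩

theorem rank_three {Bs : List (List (Vec n))} (h : Good n Bs) {A : Vec n →ₗ[ℝ] ℝ × ℝ}
    (hA : Rk2 A) (hs : Sol A Bs) {φ : Vec n →ₗ[ℝ] ℝ}
    (hφ : ∀ B ∈ Bs, ∀ x ∈ B, ∀ x' ∈ B, (A x).1 * φ x' - φ x * (A x').1 = 0)
    (hne : ¬ ∃ u v : ℝ, ∀ x, φ x = u * (A x).1 + v * (A x).2) : False := by
  obtain ⟨z, z', hz⟩ := hA
  -- a vector with nonzero first coordinate
  obtain ⟨x0, hx0⟩ : ∃ x0, (A x0).1 ≠ 0 := by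
    by_contra hcon
    push Not at hcon
    apply hz
    unfold DD
    rw [hcon z, hcon z']
    ring
  have hsol : ∀ t s : ℝ, Sol (Apen A φ t s) Bs := by
    intro t s B hB x hx x' hx'
    rw [DD_Apen, hs B hB x hx x' hx', hφ B hB x hx x' hx']
    ring
  have hrk : ∀ t s : ℝ, (t = 1 ∨ (t = 0 ∧ s = 1)) → Rk2 (Apen A φ t s) := by
    intro t s hts
    by_contra hcon
    unfold Rk2 at hcon
    push Not at hcon
    by_cases hs0 : s = 0
    · have ht1 : t = 1 := by
        rcases hts with h1 | ⟨_, h1⟩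
        · exact h1
        · rw [hs0] at h1
          exact absurd h1 (by norm_num)
      have h1 := hcon z z'
      rw [DD_Apen, hs0, ht1] at h1
      apply hz
      linarith
    · apply hne
      have h1 : ∀ x, (A x0).1 * (t * (A x).2 + s * φ x) = (t * (A x0).2 + s * φ x0) * (A x).1 := by
        intro x
        have h2 : (A x0).1 * (t * (A x).2 + s * φ x) - (t * (A x0).2 + s * φ x0) * (A x).1 = 0 :=
          hcon x0 x
        linarith
      refine ⟨(t * (A x0).2 + s * φ x0) / (s * (A x0).1), -t / s, fun x => ?_⟩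
      have h2 := h1 x
      field_simp
      linear_combination h2
  obtain ⟨B, C, Q, a, b, rfl⟩ := exists_two h A ⟨z, z', hz⟩ hs
  have hinf := adj h (Apen A φ 0 1) (hrk 0 1 (Or.inr ⟨rfl, rfl⟩)) (hsol 0 1)
  rw [DD_Apen] at hinf
  have hκ : (A a).1 * φ b - φ a * (A b).1 ≠ 0 := by
    intro h0
    apply hinf
    rw [h0]
    ring
  have hfin := adj h (Apen A φ 1 (-(DD A a b) / ((A a).1 * φ b - φ a * (A b).1)))
    (hrk 1 _ (Or.inl rfl)) (hsol 1 _)
  apply hfin
  rw [DD_Apen]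
  field_simp
  ring

end

theorem trans_of_RR {n : ℕ} {Bs : List (List (Vec n))} (h : Good n Bs)
    (hR : ∀ Bs', Good n Bs' → Bs'.map List.length = Bs.map List.length → RR n Bs') :
    TT n Bs := by
  intro A hA hs Φ hd
  by_cases hsurj : Function.Surjective (A.prod Φ)
  · exfalso
    obtain ⟨l1, h1⟩ := hsurj ((1, 0), 0)
    obtain ⟨l2, h2⟩ := hsurj ((0, 1), 0)
    obtain ⟨l3, h3⟩ := hsurj (0, (1, 0))
    have g1 : A l1 = (1, 0) ∧ Φ l1 = 0 := Prod.ext_iff.1 h1
    have g2 : A l2 = (0, 1) ∧ Φ l2 = 0 := Prod.ext_iff.1 h2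
    have g3 : A l3 = 0 ∧ Φ l3 = (1, 0) := Prod.ext_iff.1 h3
    exact rank_four h hR hA hs hd g1.1 g2.1 g1.2 g2.2 g3.1 g3.2
  · have hlt : LinearMap.range (A.prod Φ) < ⊤ := by
      rw [lt_top_iff_ne_top]
      intro h0
      exact hsurj (LinearMap.range_eq_top.1 h0)
    obtain ⟨f, hf0, hf⟩ := Submodule.exists_le_ker_of_lt_top _ hlt
    set p : ℝ := f ((1, 0), 0) with hp
    set q : ℝ := f ((0, 1), 0) with hq
    set α : ℝ := f (0, (1, 0)) with hα
    set β : ℝ := f (0, (0, 1)) with hβ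
    have hfx : ∀ x : (ℝ × ℝ) × (ℝ × ℝ), f x = p * x.1.1 + q * x.1.2 + α * x.2.1 + β * x.2.2 := by
      intro x
      have e : x = x.1.1 • (((1, 0), 0) : (ℝ × ℝ) × (ℝ × ℝ)) + x.1.2 • (((0, 1), 0) :
          (ℝ × ℝ) × (ℝ × ℝ)) + x.2.1 • ((0, (1, 0)) : (ℝ × ℝ) × (ℝ × ℝ)) +
          x.2.2 • ((0, (0, 1)) : (ℝ × ℝ) × (ℝ × ℝ)) := by
        refine Prod.ext (Prod.ext ?_ ?_) (Prod.ext ?_ ?_) <;> simp
      rw [e, map_add, map_add, map_add, map_smul, map_smul, map_smul, map_smul]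
      simp only [smul_eq_mul, hp, hq, hα, hβ]
      simp
      ring
    have hrel : ∀ x, p * (A x).1 + q * (A x).2 + α * (Φ x).1 + β * (Φ x).2 = 0 := by
      intro x
      have h1 : f ((A.prod Φ) x) = 0 := hf ⟨x, rfl⟩
      rw [hfx] at h1
      exact h1
    have hαβ : α ^ 2 + β ^ 2 ≠ 0 := by
      intro h0
      have ha : α = 0 := by nlinarith [sq_nonneg α, sq_nonneg β]
      have hb : β = 0 := by nlinarith [sq_nonneg α, sq_nonneg β]
      obtain ⟨z, z', hz⟩ := hA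
      have e1 := hrel z
      have e2 := hrel z'
      rw [ha, hb] at e1 e2
      unfold DD at hz
      have hp0 : p = 0 := by
        apply mul_left_cancel₀ hz
        linear_combination (A z').2 * e1 - (A z).2 * e2
      have hq0 : q = 0 := by
        apply mul_left_cancel₀ hz
        linear_combination (A z).1 * e2 - (A z').1 * e1
      apply hf0
      apply LinearMap.ext
      intro x
      rw [hfx, hp0, hq0, ha, hb]
      simp
    -- new coordinates
    let A' : Vec n →ₗ[ℝ] ℝ × ℝ :=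
      { toFun := fun x => (α * (A x).1 + β * (A x).2, -β * (A x).1 + α * (A x).2)
        map_add' := fun x y => by
          refine Prod.ext ?_ ?_ <;> simp <;> ring
        map_smul' := fun c x => by
          refine Prod.ext ?_ ?_ <;> simp <;> ring }
    let φ : Vec n →ₗ[ℝ] ℝ :=
      { toFun := fun x => -β * (Φ x).1 + α * (Φ x).2
        map_add' := fun x y => by
          simp
          ring
        map_smul' := fun c x => by
          simp
          ring }
    have hDD : ∀ x x', DD A' x x' = (α ^ 2 + β ^ 2) * DD A x x' := by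
      intro x x'
      show (α * (A x).1 + β * (A x).2) * (-β * (A x').1 + α * (A x').2) -
        (-β * (A x).1 + α * (A x).2) * (α * (A x').1 + β * (A x').2) = _
      unfold DD
      ring
    have hA' : Rk2 A' := by
      obtain ⟨z, z', hz⟩ := hA
      exact ⟨z, z', by rw [hDD]; exact mul_ne_zero hαβ hz⟩
    have hs' : Sol A' Bs := by
      intro B hB x hx x' hx'
      rw [hDD, hs B hB x hx x' hx', mul_zero]
    have hφ : ∀ B ∈ Bs, ∀ x ∈ B, ∀ x' ∈ B, (A' x).1 * φ x' - φ x * (A' x').1 = 0 := by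
      intro B hB x hx x' hx'
      have e1 := hrel x
      have e2 := hrel x'
      have e3 := hs B hB x hx x' hx'
      have e4 := hd B hB x hx x' hx'
      unfold DD at e3
      unfold dD at e4
      show (α * (A x).1 + β * (A x).2) * (-β * (Φ x').1 + α * (Φ x').2) -
        (-β * (Φ x).1 + α * (Φ x).2) * (α * (A x').1 + β * (A x').2) = 0
      linear_combination (α ^ 2 + β ^ 2) * e4 - (-β * (A x').1 + α * (A x').2) * e1 +
        (-β * (A x).1 + α * (A x).2) * e2 + (p * α + q * β) * e3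
    by_cases hc : ∃ u v : ℝ, ∀ x, φ x = u * (A' x).1 + v * (A' x).2
    · obtain ⟨u, v, huv⟩ := hc
      have huv' : ∀ x, -β * (Φ x).1 + α * (Φ x).2 = u * (α * (A x).1 + β * (A x).2) +
          v * (-β * (A x).1 + α * (A x).2) := huv
      refine ⟨(-(α * p) - β * (u * α - v * β)) / (α ^ 2 + β ^ 2),
        (-(α * q) - β * (u * β + v * α)) / (α ^ 2 + β ^ 2),
        (-(β * p) + α * (u * α - v * β)) / (α ^ 2 + β ^ 2),
        (-(β * q) + α * (u * β + v * α)) / (α ^ 2 + β ^ 2), fun x => ?_⟩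
      have e1 := hrel x
      have e2 := huv' x
      refine Prod.ext ?_ ?_
      · show (Φ x).1 = _
        field_simp
        linear_combination α * e1 - β * e2
      · show (Φ x).2 = _
        field_simp
        linear_combination β * e1 + α * e2
    · exact absurd (rank_three h hA' hs' hφ hc) not_false

end Pool.CTP
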