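import Pool.Agent.CTP.Easy
import Pool.Agent.CTP.Comp

/-! Row STEP1. The data at the start of the homotopy (page, 3.3). -/

namespace Pool.CTP

/-- type II data: the two blocks are merged, `q` is deleted -/
def BsII {n : ℕ} (P Q : List (List (Vec n))) (B C : List (Vec n)) (a p b : Vec n) :
    List (List (Vec n)) := P ++ (B ++ a :: p :: b :: C) :: Q

/-- type I data: contraction at `p`, `q` is deleted -/
noncomputable def BsI {n : ℕ} (π : Vec (n + 1) →ₗ[ℝ] Vec n) (P Q : List (List (Vec (n + 1))))
    (B C : List (Vec (n + 1))) (a b : Vec (n + 1)) : List (List (Vec n)) :=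
  P.map (negB π) ++ negB π (B ++ [a]) :: (b :: C).map π :: Q.map (List.map π)

section
variable {n : ℕ} {P Q : List (List (Vec (n + 1)))} {B C : List (Vec (n + 1))}
  {a p q b : Vec (n + 1)}

theorem flatten_T (τ : ℝ) : (BsT P Q B C a p q b τ).flatten =
    (P.flatten ++ (B ++ [a])) ++ p :: ((1 - τ) • p + τ • q) :: (b :: (C ++ Q.flatten)) := by
  simp [BsT]

theorem good_II (hn : 2 ≤ n) (h : Good (n + 1) (BsT P Q B C a p q b 1)) :
    Good (n + 1) (BsII P Q B C a p b) := by
  have h1 := h.num
  have h2 : (BsII P Q B C a p b).flatten =
      (P.flatten ++ (B ++ [a])) ++ p :: (b :: (C ++ Q.flatten)) := by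
    simp [BsII]
  have h3 := h.tp
  rw [flatten_T] at h1 h3
  refine ⟨by omega, ?_, ?_, ?_, ?_⟩
  · intro D hD
    rcases List.mem_append.1 hD with hD | hD
    · exact h.ne D (List.mem_append_left _ hD)
    · rcases List.mem_cons.1 hD with rfl | hD
      · simp
      · exact h.ne D (List.mem_append_right _ (List.mem_cons_of_mem _ (List.mem_cons_of_mem _ hD)))
  · rw [h2]
    apply h3.sublist
    exact List.Sublist.append_left ((List.sublist_cons_self _ _).cons_cons _) _
  · rw [h2]
    simp only [BsT, List.length_append, List.length_cons, List.length_nil] at h1 ⊢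
    omega
  · rw [h2]
    simp only [BsT, BsII, List.length_append, List.length_cons, List.length_nil] at h1 ⊢
    omega

theorem good_I (hn : 2 ≤ n) (h : Good (n + 1) (BsT P Q B C a p q b 1))
    {π : Vec (n + 1) →ₗ[ℝ] Vec n} (hπ : IsContr p π) : Good n (BsI π P Q B C a b) := by
  have h1 := h.num
  have h3 := h.tp
  rw [flatten_T] at h1 h3
  have h2 : (BsI π P Q B C a b).flatten =
      negB π (P.flatten ++ (B ++ [a])) ++ (b :: (C ++ Q.flatten)).map π := by
    have e1 : (P.map (negB π)).flatten = negB π P.flatten := by
      unfold negB
      rw [List.map_flatten]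
    have e2 : (Q.map (List.map π)).flatten = Q.flatten.map π := by
      rw [List.map_flatten]
    unfold BsI
    rw [List.flatten_append, List.flatten_cons, List.flatten_cons, e1, e2]
    simp [negB]
  refine ⟨hn, ?_, ?_, ?_, ?_⟩
  · intro D hD
    rcases List.mem_append.1 hD with hD | hD
    · obtain ⟨D', hD', rfl⟩ := List.mem_map.1 hD
      have := h.ne D' (List.mem_append_left _ hD')
      simpa [negB] using this
    · rcases List.mem_cons.1 hD with rfl | hD
      · simp [negB]
      · rcases List.mem_cons.1 hD with rfl | hD
        · simp
        · obtain ⟨D', hD', rfl⟩ := List.mem_map.1 hD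
          have := h.ne D' (List.mem_append_right _
            (List.mem_cons_of_mem _ (List.mem_cons_of_mem _ hD')))
          simpa using this
  · rw [h2]
    apply (TP.contr hπ h3).sublist
    rw [List.map_cons]
    exact List.Sublist.append_left (List.sublist_cons_self _ _) _
  · rw [h2]
    simp only [BsT, negB, List.length_append, List.length_cons, List.length_nil,
      List.length_map] at h1 ⊢
    omega
  · rw [h2]
    simp only [BsT, BsI, negB, List.length_append, List.length_cons, List.length_nil,
      List.length_map] at h1 ⊢
    omega

/-- for `0 < τ` the data are admissible -/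
theorem good_T (h : Good (n + 1) (BsT P Q B C a p q b 1)) {τ : ℝ} (h0 : 0 < τ) (h1 : τ ≤ 1) :
    Good (n + 1) (BsT P Q B C a p q b τ) := by
  have h3 := h.tp
  have h4 := h.num
  have h5 := h.len
  rw [flatten_T] at h3 h4 h5
  refine ⟨h.two, ?_, ?_, ?_, ?_⟩
  · intro D hD
    rcases List.mem_append.1 hD with hD | hD
    · exact h.ne D (List.mem_append_left _ hD)
    · rcases List.mem_cons.1 hD with rfl | hD
      · simp
      · rcases List.mem_cons.1 hD with rfl | hD
        · simp
        · exact h.ne D (List.mem_append_right _
            (List.mem_cons_of_mem _ (List.mem_cons_of_mem _ hD)))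
  · rw [flatten_T]
    have h6 : (1 - (1 : ℝ)) • p + (1 : ℝ) • q = q := by
      rw [sub_self, zero_smul, one_smul, zero_add]
    rw [h6] at h3
    exact h3.cone_right (sub_nonneg.2 h1) h0
  · rw [flatten_T]
    simpa using h5
  · rw [flatten_T]
    simp only [BsT, List.length_append, List.length_cons, List.length_nil] at h4 ⊢
    omega

theorem DD_neg_neg {K : Type*} [Field K] [Algebra ℝ K] (A : Vec n →ₗ[ℝ] K × K)
    (x y : Vec n) : DD A (-x) (-y) = DD A x y := by
  unfold DD
  simp

theorem BsT_zero : BsT P Q B C a p q b 0 = P ++ (B ++ [a, p]) :: (p :: b :: C) :: Q := by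
  unfold BsT
  rw [sub_zero, one_smul, zero_smul, add_zero]

/-- solutions at `τ = 0` -/
theorem sol_zero {K : Type*} [Field K] [Algebra ℝ K] {π : Vec (n + 1) →ₗ[ℝ] Vec n}
    (hπ : IsContr p π) (A : Vec (n + 1) →ₗ[ℝ] K × K) :
    Sol A (BsT P Q B C a p q b 0) ↔
      (A p ≠ 0 ∧ Sol A (BsII P Q B C a p b)) ∨
      ∃ A' : Vec n →ₗ[ℝ] K × K, A = A' ∘ₗ π ∧ Sol A' (BsI π P Q B C a b) := by
  rw [BsT_zero]
  have hp : π p = 0 := (hπ.ker p).2 ⟨1, (one_smul _ _).symm⟩
  constructor
  · intro h
    by_cases hA : A p = 0
    · right
      obtain ⟨A', rfl⟩ := hπ.factor A hA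
      refine ⟨A', rfl, ?_⟩
      intro D hD x hx x' hx'
      rcases List.mem_append.1 hD with hD | hD
      · obtain ⟨D', hD', rfl⟩ := List.mem_map.1 hD
        obtain ⟨y, hy, rfl⟩ := List.mem_map.1 hx
        obtain ⟨y', hy', rfl⟩ := List.mem_map.1 hx'
        rw [DD_neg_neg]
        exact h D' (List.mem_append_left _ hD') y hy y' hy'
      · rcases List.mem_cons.1 hD with rfl | hD
        · obtain ⟨y, hy, rfl⟩ := List.mem_map.1 hx
          obtain ⟨y', hy', rfl⟩ := List.mem_map.1 hx'
          rw [DD_neg_neg]
          refine h (B ++ [a, p]) (List.mem_append_right _ List.mem_cons_self) y ?_ y' ?_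
          · rcases List.mem_append.1 hy with hy | hy
            · exact List.mem_append_left _ hy
            · rw [List.mem_singleton] at hy
              subst hy
              simp
          · rcases List.mem_append.1 hy' with hy | hy
            · exact List.mem_append_left _ hy
            · rw [List.mem_singleton] at hy
              subst hy
              simp
        · rcases List.mem_cons.1 hD with rfl | hD
          · obtain ⟨y, hy, rfl⟩ := List.mem_map.1 hx
            obtain ⟨y', hy', rfl⟩ := List.mem_map.1 hx'
            exact h (p :: b :: C) (List.mem_append_right _ (by simp)) y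
              (List.mem_cons_of_mem _ hy) y' (List.mem_cons_of_mem _ hy')
          · obtain ⟨D', hD', rfl⟩ := List.mem_map.1 hD
            obtain ⟨y, hy, rfl⟩ := List.mem_map.1 hx
            obtain ⟨y', hy', rfl⟩ := List.mem_map.1 hx'
            exact h D' (List.mem_append_right _ (List.mem_cons_of_mem _
              (List.mem_cons_of_mem _ hD'))) y hy y' hy'
    · left
      refine ⟨hA, ?_⟩
      intro D hD x hx x' hx'
      rcases List.mem_append.1 hD with hD | hD
      · exact h D (List.mem_append_left _ hD) x hx x' hx'
      · rcases List.mem_cons.1 hD with rfl | hD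
        · have key : ∀ y ∈ B ++ a :: p :: b :: C, DD A y p = 0 := by
            intro y hy
            have h1 := h (B ++ [a, p]) (List.mem_append_right _ List.mem_cons_self)
            have h2 := h (p :: b :: C) (List.mem_append_right _ (by simp))
            have hy' : y ∈ B ++ [a, p] ∨ y ∈ p :: b :: C := by
              simp only [List.mem_append, List.mem_cons, List.not_mem_nil, or_false] at hy ⊢
              tauto
            rcases hy' with hy' | hy'
            · exact h1 y hy' p (by simp)
            · exact h2 y hy' p (by simp)
          have e2 : DD A p x' = 0 := by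
            have := key x' hx'
            unfold DD at this ⊢
            linear_combination -this
          exact DD_trans A hA (key x hx) e2
        · exact h D (List.mem_append_right _ (List.mem_cons_of_mem _
            (List.mem_cons_of_mem _ hD))) x hx x' hx'
  · rintro (⟨hA, h⟩ | ⟨A', rfl, h⟩)
    · intro D hD x hx x' hx'
      rcases List.mem_append.1 hD with hD | hD
      · exact h D (List.mem_append_left _ hD) x hx x' hx'
      · have h1 := h (B ++ a :: p :: b :: C) (List.mem_append_right _ List.mem_cons_self)
        rcases List.mem_cons.1 hD with rfl | hD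
        · apply h1
          · simp only [List.mem_append, List.mem_cons, List.not_mem_nil, or_false] at hx ⊢
            tauto
          · simp only [List.mem_append, List.mem_cons, List.not_mem_nil, or_false] at hx' ⊢
            tauto
        · rcases List.mem_cons.1 hD with rfl | hD
          · apply h1
            · simp only [List.mem_append, List.mem_cons] at hx ⊢
              tauto
            · simp only [List.mem_append, List.mem_cons] at hx' ⊢
              tauto
          · exact h D (List.mem_append_right _ (List.mem_cons_of_mem _ hD)) x hx x' hx'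
    · have hDD : ∀ y y', DD (A' ∘ₗ π) y y' = DD A' (π y) (π y') := fun y y' => rfl
      have h0 : ∀ y, DD A' (π p) y = 0 := by
        intro y
        rw [hp]
        unfold DD
        simp
      have h0' : ∀ y, DD A' y (π p) = 0 := by
        intro y
        rw [hp]
        unfold DD
        simp
      intro D hD x hx x' hx'
      rw [hDD]
      rcases List.mem_append.1 hD with hD | hD
      · rw [← DD_neg_neg]
        exact h (negB π D) (List.mem_append_left _ (List.mem_map_of_mem hD)) _
          (List.mem_map_of_mem hx) _ (List.mem_map_of_mem hx')
      · rcases List.mem_cons.1 hD with rfl | hD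
        · have hx1 : x ∈ B ++ [a] ∨ x = p := by
            simp only [List.mem_append, List.mem_cons, List.not_mem_nil, or_false] at hx ⊢
            tauto
          have hx2 : x' ∈ B ++ [a] ∨ x' = p := by
            simp only [List.mem_append, List.mem_cons, List.not_mem_nil, or_false] at hx' ⊢
            tauto
          rcases hx1 with hx1 | rfl
          · rcases hx2 with hx2 | rfl
            · rw [← DD_neg_neg]
              exact h (negB π (B ++ [a])) (List.mem_append_right _ List.mem_cons_self) _
                (List.mem_map_of_mem hx1) _ (List.mem_map_of_mem hx2)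
            · exact h0' _
          · exact h0 _
        · rcases List.mem_cons.1 hD with rfl | hD
          · rcases List.mem_cons.1 hx with rfl | hx
            · exact h0 _
            · rcases List.mem_cons.1 hx' with rfl | hx'
              · exact h0' _
              · exact h ((b :: C).map π) (List.mem_append_right _ (by simp)) _
                  (List.mem_map_of_mem hx) _ (List.mem_map_of_mem hx')
          · exact h (D.map π) (List.mem_append_right _ (List.mem_cons_of_mem _
              (List.mem_cons_of_mem _ (List.mem_map_of_mem hD)))) _
              (List.mem_map_of_mem hx) _ (List.mem_map_of_mem hx')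

theorem pairs_split {α : Type*} (B : List α) (p b : α) (C : List α) :
    pairs (B ++ p :: b :: C) = pairs (B ++ [p]) ++ pairs (p :: b :: C) := by
  induction B with
  | nil => simp [pairs]
  | cons x B ih =>
      cases B with
      | nil => simp [pairs]
      | cons y B =>
          simp only [pairs, List.cons_append, List.tail_cons, List.zip_cons_cons] at ih ⊢
          rw [ih]

/-- rows at `τ = 0` -/
theorem rows_zero : rows (BsT P Q B C a p q b 0) = rows (BsII P Q B C a p b) := by
  rw [BsT_zero]
  have h := pairs_split (B ++ [a]) p b C
  unfold rows BsII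
  simp only [List.map_append, List.map_cons, List.flatten_append, List.flatten_cons]
  have e1 : B ++ a :: p :: b :: C = (B ++ [a]) ++ p :: b :: C := by simp
  have e2 : B ++ [a, p] = (B ++ [a]) ++ [p] := by simp
  rw [e1, e2, h]
  simp only [List.append_assoc]

end

end Pool.CTP
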