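import Pool.Agent.CTP.Defs
import Pool.Agent.Helper53.TPR.Flags

/-! Row TR1. Flags cosecant along disjoint intervals give a totally positive list: the coordinate
map modulo a list `B` of polynomials (`exists_rho`) and `TPR.allY_pos`. -/

namespace Pool.CTP

open Module Pool.CSC Polynomial

noncomputable section

section quot

variable {n N : ℕ}

lemma vol_getD (L : List ℝ[X]) (hL : L.length = n) :
    vol n (W L) = (Matrix.of fun i j : Fin n => (L.getD i 0).coeff j).det := by
  subst hL
  rw [vol_W]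
  congr 1
  ext i j
  rw [Matrix.of_apply, Matrix.of_apply, List.getD_eq_getElem _ _ i.2]
  rfl

/-- the matrix of coefficients of a list of polynomials -/
def cm (n : ℕ) (L : List ℝ[X]) : Matrix (Fin n) (Fin n) ℝ :=
  Matrix.of fun i j : Fin n => (L.getD i 0).coeff j

/-- coordinates with respect to the first members of the list -/
def rhoR (n N : ℕ) (L : List ℝ[X]) (h : N ≤ n) : ℝ[X] →ₗ[ℝ] Vec N :=
  LinearMap.pi fun i => ∑ j : Fin n, ((cm n L)⁻¹ j (Fin.castLE h i)) • lcoeff ℝ (j : ℕ)

lemma rhoR_apply (L : List ℝ[X]) (h : N ≤ n) (f : ℝ[X]) (i : Fin N) :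
    rhoR n N L h f i = ∑ j : Fin n, f.coeff j * (cm n L)⁻¹ j (Fin.castLE h i) := by
  simp [rhoR, mul_comm]

/-- all coordinates -/
def rho (n N : ℕ) (L : List ℝ[X]) (h : N ≤ n) : (Fin n → ℂ) →ₗ[ℂ] (Fin N → ℂ) :=
  LinearMap.pi fun i => ∑ j : Fin n, (((cm n L)⁻¹ j (Fin.castLE h i) : ℝ) : ℂ) •
    (lcoeff ℂ (j : ℕ) ∘ₗ fp n)

lemma rho_apply (L : List ℝ[X]) (h : N ≤ n) (v : Fin n → ℂ) (i : Fin N) :
    rho n N L h v i =
      ∑ j : Fin n, (fp n v).coeff j * (((cm n L)⁻¹ j (Fin.castLE h i) : ℝ) : ℂ) := by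
  simp [rho, mul_comm]

lemma rho_vecr (L : List ℝ[X]) (h : N ≤ n) {f : ℝ[X]} (hf : f.natDegree < n) :
    rho n N L h (TPR.vecr n f) = fun i => ((rhoR n N L h f i : ℝ) : ℂ) := by
  funext i
  rw [rho_apply, rhoR_apply, TPR.fp_vecr hf]
  push_cast
  refine Finset.sum_congr rfl fun j _ => ?_
  rw [cx, coeff_map]
  rfl

lemma fp_conj (v : Fin n → ℂ) (j : ℕ) :
    (fp n (fun i => (starRingEnd ℂ) (v i))).coeff j = (starRingEnd ℂ) ((fp n v).coeff j) := by
  rw [fp_apply, fp_apply, finsetSum_coeff, finsetSum_coeff, map_sum]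
  refine Finset.sum_congr rfl fun i _ => ?_
  rw [coeff_monomial, coeff_monomial]
  split_ifs
  · simp
  · simp

lemma rho_conj (L : List ℝ[X]) (h : N ≤ n) (v : Fin n → ℂ) (i : Fin N) :
    rho n N L h (fun j => (starRingEnd ℂ) (v j)) i = (starRingEnd ℂ) (rho n N L h v i) := by
  rw [rho_apply, rho_apply, map_sum]
  refine Finset.sum_congr rfl fun j _ => ?_
  rw [fp_conj, map_mul, Complex.conj_ofReal]

variable {L : List ℝ[X]}

lemma rhoR_self (hL : IsUnit (cm n L).det) (h : N ≤ n) {r : ℕ} (hr : r < n) (i : Fin N) :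
    rhoR n N L h (L.getD r 0) i = if r = (i : ℕ) then 1 else 0 := by
  rw [rhoR_apply]
  have h1 : (cm n L * (cm n L)⁻¹) ⟨r, hr⟩ (Fin.castLE h i) =
      (1 : Matrix (Fin n) (Fin n) ℝ) ⟨r, hr⟩ (Fin.castLE h i) := by
    rw [Matrix.mul_nonsing_inv _ hL]
  rw [Matrix.mul_apply, Matrix.one_apply] at h1
  have h2 : (⟨r, hr⟩ : Fin n) = Fin.castLE h i ↔ r = (i : ℕ) := by
    rw [Fin.ext_iff]
    rfl
  simp only [h2] at h1
  exact h1

/-- every vector is a combination of the list -/
lemma expand (hL : IsUnit (cm n L).det) (hdeg : ∀ r < n, (L.getD r 0).natDegree < n)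
    (v : Fin n → ℂ) : v = ∑ r : Fin n,
      (∑ j : Fin n, (fp n v).coeff j * (((cm n L)⁻¹ j r : ℝ) : ℂ)) •
        TPR.vecr n (L.getD r 0) := by
  apply fp_injective n
  rw [map_sum]
  ext q
  rw [finsetSum_coeff]
  by_cases hq : q < n
  · have h1 : ∀ j : Fin n, ∑ r : Fin n, (cm n L)⁻¹ j r * (L.getD r 0).coeff q =
        if (j : ℕ) = q then 1 else 0 := by
      intro j
      have h2 : ((cm n L)⁻¹ * cm n L) j ⟨q, hq⟩ = (1 : Matrix (Fin n) (Fin n) ℝ) j ⟨q, hq⟩ := by
        rw [Matrix.nonsing_inv_mul _ hL]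
      rw [Matrix.mul_apply, Matrix.one_apply] at h2
      simp only [Fin.ext_iff] at h2
      exact h2
    have h3 : ∀ r : Fin n, (fp n ((∑ j : Fin n, (fp n v).coeff j *
        (((cm n L)⁻¹ j r : ℝ) : ℂ)) • TPR.vecr n (L.getD r 0))).coeff q =
        ∑ j : Fin n, (fp n v).coeff j * (((cm n L)⁻¹ j r * (L.getD r 0).coeff q : ℝ) : ℂ) := by
      intro r
      rw [map_smul, TPR.fp_vecr (hdeg r r.2), coeff_smul, smul_eq_mul, Finset.sum_mul]
      refine Finset.sum_congr rfl fun j _ => ?_
      rw [cx, coeff_map]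
      push_cast
      rw [mul_assoc]
      rfl
    rw [Finset.sum_congr rfl fun r _ => h3 r, Finset.sum_comm]
    have h4 : ∀ j : Fin n, ∑ r : Fin n, (fp n v).coeff j *
        (((cm n L)⁻¹ j r * (L.getD r 0).coeff q : ℝ) : ℂ) =
        (fp n v).coeff j * if (j : ℕ) = q then 1 else 0 := by
      intro j
      rw [← Finset.mul_sum, ← Complex.ofReal_sum, h1]
      split_ifs <;> simp
    rw [Finset.sum_congr rfl fun j _ => h4 j, Finset.sum_eq_single ⟨q, hq⟩]
    · simp
    · intro j _ hj
      rw [if_neg, mul_zero]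
      intro h
      exact hj (Fin.ext h)
    · simp
  · have hz : ∀ w : Fin n → ℂ, (fp n w).coeff q = 0 := by
      intro w
      have h1 := fp_degree n w
      rw [mem_degreeLT] at h1
      exact coeff_eq_zero_of_degree_lt (h1.trans_le (by exact_mod_cast (not_lt.1 hq)))
    rw [hz, Finset.sum_eq_zero]
    intro r _
    rw [hz]

/-- the determinant of the coordinates -/
lemma dl_rhoR (h : N ≤ n) {A B : List ℝ[X]} (hA : A.length = N)
    (hL : IsUnit (cm n (A ++ B)).det) (s : List ℝ[X]) (hs : s.length = N) :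
    dl N (s.map (rhoR n N (A ++ B) h)) * (cm n (A ++ B)).det = (cm n (s ++ B)).det := by
  set M := cm n (A ++ B) with hM
  set T : Matrix (Fin n) (Fin n) ℝ := cm n (s ++ B) * M⁻¹ with hT
  have h1 : T.det * M.det = (cm n (s ++ B)).det := by
    rw [hT, Matrix.det_mul, mul_assoc, ← Matrix.det_mul, Matrix.nonsing_inv_mul _ hL,
      Matrix.det_one, mul_one]
  rw [← h1]
  congr 1
  have hrow : ∀ i j : Fin n, N ≤ (i : ℕ) → T i j = if i = j then 1 else 0 := by
    intro i j hi
    have h2 : cm n (s ++ B) i = M i := by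
      funext q
      rw [hM]
      simp only [cm, Matrix.of_apply]
      rw [List.getD_append_right _ _ _ _ (by omega), List.getD_append_right _ _ _ _ (by omega),
        hs, hA]
    have h3 : T i j = (M * M⁻¹) i j := by
      rw [hT, Matrix.mul_apply, Matrix.mul_apply, h2]
    rw [h3, Matrix.mul_nonsing_inv _ hL, Matrix.one_apply]
  have hblk := Matrix.twoBlockTriangular_det T (fun i : Fin n => (i : ℕ) < N) (by
    intro i hi j hj
    rw [hrow i j (not_lt.1 hi), if_neg]
    rintro rfl
    exact hi hj)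
  rw [hblk]
  have h4 : (T.toSquareBlockProp fun i : Fin n => ¬ (i : ℕ) < N) = 1 := by
    ext ⟨i, hi⟩ ⟨j, hj⟩
    rw [Matrix.toSquareBlockProp_def, Matrix.of_apply, hrow i j (not_lt.1 hi), Matrix.one_apply]
    simp only [Subtype.mk.injEq]
  rw [h4, Matrix.det_one, mul_one]
  let e : Fin N ≃ {i : Fin n // (i : ℕ) < N} :=
    { toFun := fun i => ⟨Fin.castLE h i, i.2⟩
      invFun := fun i => ⟨i.1, i.2⟩
      left_inv := fun i => rfl
      right_inv := fun i => rfl }
  rw [← Matrix.det_submatrix_equiv_self e, dl]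
  congr 1
  ext i j
  rw [Matrix.submatrix_apply, Matrix.toSquareBlockProp_def, Matrix.of_apply]
  rw [hT, Matrix.mul_apply]
  have hi : (i : ℕ) < s.length := by rw [hs]; exact i.2
  rw [List.getD_eq_getElem _ _ (by rw [List.length_map]; exact hi), List.getElem_map,
    rhoR_apply]
  refine Finset.sum_congr rfl fun q _ => ?_
  congr 1
  simp only [cm, Matrix.of_apply]
  rw [List.getD_append _ _ _ _ (by exact hi)]
  show (s[(i : ℕ)]).coeff q = (s.getD (i : ℕ) 0).coeff q
  rw [List.getD_eq_getElem _ _ hi]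

/-- the coordinate map modulo the span of `B` -/
lemma exists_rho {B Z : List ℝ[X]} (hBN : N + B.length = n) (hZ : N ≤ Z.length)
    (hZd : ∀ f ∈ Z, f.natDegree < n) (hBd : ∀ f ∈ B, f.natDegree < n)
    (hpos : ∀ A : List ℝ[X], A.Sublist Z → A.length = N → 0 < vol n (W (A ++ B))) :
    ∃ (ρ : (Fin n → ℂ) →ₗ[ℂ] (Fin N → ℂ)) (π : ℝ[X] →ₗ[ℝ] Vec N),
      Function.Surjective ρ ∧
      (∀ v i, ρ (fun j => (starRingEnd ℂ) (v j)) i = (starRingEnd ℂ) (ρ v i)) ∧
      LinearMap.ker ρ = Submodule.span ℂ {v | ∃ f ∈ B, v = TPR.vecr n f} ∧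
      (∀ f : ℝ[X], f.natDegree < n → ρ (TPR.vecr n f) = fun i => ((π f i : ℝ) : ℂ)) ∧
      TP N (Z.map π) := by
  set A := Z.take N with hA
  have hAl : A.length = N := by
    rw [hA, List.length_take]
    omega
  have hABl : (A ++ B).length = n := by
    rw [List.length_append, hAl, hBN]
  have h : N ≤ n := by omega
  have hdet : 0 < (cm n (A ++ B)).det := by
    have := hpos A (List.take_sublist _ _) hAl
    rwa [vol_getD _ hABl] at this
  have hU : IsUnit (cm n (A ++ B)).det := isUnit_iff_ne_zero.2 hdet.ne'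
  have hdeg : ∀ r < n, ((A ++ B).getD r 0).natDegree < n := by
    intro r hr
    rw [List.getD_eq_getElem _ _ (by rw [hABl]; exact hr)]
    have hm := List.getElem_mem (l := A ++ B) (n := r) (by rw [hABl]; exact hr)
    rw [List.mem_append] at hm
    rcases hm with hm | hm
    · exact hZd _ (List.mem_of_mem_take hm)
    · exact hBd _ hm
  refine ⟨rho n N (A ++ B) h, rhoR n N (A ++ B) h, ?_, rho_conj _ h, ?_,
    fun f hf => rho_vecr _ h hf, ?_⟩
  · intro w
    refine ⟨∑ i : Fin N, w i • TPR.vecr n ((A ++ B).getD i 0), ?_⟩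
    rw [map_sum]
    funext q
    rw [Finset.sum_apply, Finset.sum_eq_single q]
    · rw [map_smul, rho_vecr _ h (hdeg _ (by omega)), Pi.smul_apply, smul_eq_mul]
      rw [rhoR_self hU h (by omega), if_pos rfl]
      simp
    · intro i _ hi
      rw [map_smul, rho_vecr _ h (hdeg _ (by omega)), Pi.smul_apply, smul_eq_mul]
      rw [rhoR_self hU h (by omega), if_neg (fun h => hi (Fin.ext h))]
      simp
    · simp
  · apply le_antisymm
    · intro v hv
      rw [LinearMap.mem_ker] at hv
      rw [expand hU hdeg v]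
      refine Submodule.sum_mem _ fun r _ => ?_
      by_cases hr : (r : ℕ) < N
      · have h1 := congrFun hv ⟨r, hr⟩
        rw [rho_apply] at h1
        have h2 : (Fin.castLE h ⟨(r : ℕ), hr⟩ : Fin n) = r := rfl
        rw [h2] at h1
        rw [h1, Pi.zero_apply, zero_smul]
        exact Submodule.zero_mem _
      · refine Submodule.smul_mem _ _ (Submodule.subset_span ⟨_, ?_, rfl⟩)
        rw [List.getD_append_right _ _ _ _ (by omega), List.getD_eq_getElem _ _ (by omega)]
        exact List.getElem_mem _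
    · rw [Submodule.span_le]
      rintro v ⟨f, hf, rfl⟩
      rw [SetLike.mem_coe, LinearMap.mem_ker]
      obtain ⟨r, hr, rfl⟩ := List.mem_iff_getElem.1 hf
      have h1 : B[r] = (A ++ B).getD (N + r) 0 := by
        rw [List.getD_append_right _ _ _ _ (by omega), hAl, Nat.add_sub_cancel_left,
          List.getD_eq_getElem _ _ hr]
      rw [h1, rho_vecr _ h (hdeg _ (by omega))]
      funext i
      rw [rhoR_self hU h (by omega), if_neg (by omega)]
      simp
  · intro s hs hsl
    rw [List.sublist_map_iff] at hs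
    obtain ⟨s', hs', rfl⟩ := hs
    rw [List.length_map] at hsl
    have h1 := hpos s' hs' hsl
    rw [vol_getD _ (by rw [List.length_append, hsl, hBN])] at h1
    have h2 := dl_rhoR h hAl hU s' hsl
    change 0 < (cm n (s' ++ B)).det at h1
    rw [← h2] at h1
    exact pos_of_mul_pos_left h1 hdet.le

end quot

/-- flags cosecant along disjoint intervals give a totally positive list of blocks in the quotient
by the sum of their members `F l (a l)` -/
theorem exists_tp {n m N : ℕ} (hn : 2 ≤ n) (I : Fin m → Set ℝ) (hI : ∀ l, (I l).OrdConnected)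
    (hd : Pairwise (fun l l' => Disjoint (I l) (I l')))
    (F : Fin m → ℕ → Submodule ℂ (Fin n → ℂ)) (hF : ∀ l, Cosecant n (I l) (F l))
    (a r : Fin m → ℕ) (har : ∀ l, a l + r l ≤ n - 1) (hr : ∀ l, 1 ≤ r l)
    (hN : ∑ l, a l + N = n) (hlen : N ≤ ∑ l, r l) :
    ∃ (ρ : (Fin n → ℂ) →ₗ[ℂ] (Fin N → ℂ)) (ls : List (Fin m)) (y : Fin m → List (Vec N)),
      Function.Surjective ρ ∧
      (∀ v i, ρ (fun j => (starRingEnd ℂ) (v j)) i = (starRingEnd ℂ) (ρ v i)) ∧
      LinearMap.ker ρ = ⨆ l, F l (a l) ∧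
      ls.Perm (List.finRange m) ∧ (∀ l, (y l).length = r l) ∧
      TP N (ls.map y).flatten ∧
      ∀ l, (F l (a l + r l)).map ρ =
        Submodule.span ℂ {v | ∃ x ∈ y l, v = fun i => ((x i : ℝ) : ℂ)} := by
  classical
  choose hF0 s hsi hsI hFs using hF
  -- a root of every flag
  let z0 : Fin (n - 1) := ⟨0, by omega⟩
  let key : Fin m → ℝ := fun l => s l z0
  have hkey : Function.Injective key := by
    intro l l' h
    by_contra hne
    exact Set.disjoint_left.1 (hd hne) (hsI l z0) (by
      have : s l z0 = s l' z0 := h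
      rw [this]
      exact hsI l' z0)
  have hsep : ∀ l l', key l < key l' → ∀ i i', s l i < s l' i' := by
    intro l l' h i i'
    have hne : l ≠ l' := by
      rintro rfl
      exact lt_irrefl _ h
    exact sep (hI l) (hI l') (hd hne) (hsI l z0) (hsI l' z0) h _ (hsI l i) _ (hsI l' i')
  -- base points and additional roots
  have hbase : ∀ l, ∃ b b' : ℝ, (∀ l', key l' < key l → ∀ i, s l' i < b) ∧ b < b' ∧
      ∀ i, b' < s l i := by
    intro l
    obtain ⟨b, h1, h2⟩ := Order.exists_between_finsets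
      ((Finset.univ.filter fun l' => key l' < key l).biUnion
        fun l' => Finset.univ.image (s l')) (Finset.univ.image (s l)) (by
      intro x hx y hy
      simp only [Finset.mem_biUnion, Finset.mem_filter, Finset.mem_univ, true_and,
        Finset.mem_image] at hx hy
      obtain ⟨l', hl', i, rfl⟩ := hx
      obtain ⟨i', rfl⟩ := hy
      exact hsep _ _ hl' _ _)
    obtain ⟨b', h3, h4⟩ := Order.exists_between_finsets {b} (Finset.univ.image (s l)) (by
      intro x hx y hy
      rw [Finset.mem_singleton] at hx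
      subst hx
      exact h2 y hy)
    refine ⟨b, b', fun l' hl' i => h1 _ ?_, h3 b (by simp), fun i => h4 _ (by simp)⟩
    simp only [Finset.mem_biUnion, Finset.mem_filter, Finset.mem_univ, true_and,
      Finset.mem_image]
    exact ⟨l', hl', i, rfl⟩
  choose b b' hb1 hb2 hb3 using hbase
  have hbne : ∀ l i, b' l ≠ s l i := fun l i => (hb3 l i).ne
  have hale : ∀ l, a l + r l ≤ n := fun l => (har l).trans (Nat.sub_le _ _)
  -- the flags
  let S : Fin m → List ℝ := fun l => (TPR.rts n (s l) (b' l)).take (n - (a l + r l))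
  let T₀ : Fin m → List ℝ := fun l =>
    ((TPR.rts n (s l) (b' l)).take (n - a l)).drop (n - (a l + r l))
  let T : Fin m → List ℝ := fun l => (T₀ l).insertionSort (fun x y => y ≤ x)
  have hTp : ∀ l, (T l).Perm (T₀ l) := fun l => List.perm_insertionSort _ _
  let fl : Fin m → TPR.Fl := fun l => ⟨b l, S l, T l, a l⟩
  have hSlen : ∀ l, (S l).length = n - (a l + r l) := by
    intro l
    show ((TPR.rts n (s l) (b' l)).take (n - (a l + r l))).length = _
    rw [List.length_take, TPR.rts_length]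
    omega
  have hTlen : ∀ l, (T l).length = r l := by
    intro l
    rw [(hTp l).length_eq]
    show (((TPR.rts n (s l) (b' l)).take (n - a l)).drop (n - (a l + r l))).length = _
    rw [List.length_drop, List.length_take, TPR.rts_length]
    have := hale l
    omega
  have hSTm : ∀ l x, x ∈ S l ∨ x ∈ T l → x ∈ TPR.rts n (s l) (b' l) := by
    intro l x hx
    rcases hx with hx | hx
    · exact List.mem_of_mem_take hx
    · rw [(hTp l).mem_iff] at hx
      exact List.mem_of_mem_take (List.mem_of_mem_drop hx)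
  have hrts_lt : ∀ l x, x ∈ TPR.rts n (s l) (b' l) → b l < x := by
    intro l x hx
    rw [TPR.rts, List.mem_ofFn] at hx
    obtain ⟨i, rfl⟩ := hx
    rw [TPR.ext']
    split_ifs with h
    · exact (hb2 l).trans (hb3 l _)
    · exact hb2 l
  have hrts_lt' : ∀ l l', key l < key l' → ∀ x, x ∈ TPR.rts n (s l) (b' l) → x < b l' := by
    intro l l' hll x hx
    rw [TPR.rts, List.mem_ofFn] at hx
    obtain ⟨i, rfl⟩ := hx
    rw [TPR.ext']
    split_ifs with h
    · exact hb1 l' l hll _
    · exact (hb3 l z0).trans (hb1 l' l hll z0)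
  let σ := Tuple.sort key
  have hσ : StrictMono (key ∘ σ) :=
    (Tuple.monotone_sort key).strictMono_of_injective (hkey.comp σ.injective)
  let idx : List (Fin m) := List.ofFn σ
  have hidx_pw : idx.Pairwise (fun l l' => key l < key l') := by
    rw [List.pairwise_ofFn]
    intro i j hij
    exact hσ hij
  have hidx_nd : idx.Nodup := by
    rw [List.nodup_ofFn]
    exact σ.injective
  have hidx_mem : ∀ l, l ∈ idx := by
    intro l
    rw [List.mem_ofFn]
    exact ⟨σ.symm l, by simp⟩
  let Fs : List TPR.Fl := idx.map fl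
  have hgood : TPR.GoodF n Fs := by
    refine ⟨?_, ?_, ?_, ?_⟩
    · rw [List.pairwise_map]
      refine hidx_pw.imp ?_
      intro l l' hll
      refine ⟨?_, ?_⟩
      · exact ((hb2 l).trans (hb3 l z0)).trans (hb1 l' l hll z0)
      · intro x hx
        exact hrts_lt' l l' hll x (hSTm l x hx)
    · intro G hG x hx
      rw [List.mem_map] at hG
      obtain ⟨l, -, rfl⟩ := hG
      exact hrts_lt l x (hSTm l x hx)
    · intro G hG
      rw [List.mem_map] at hG
      obtain ⟨l, -, rfl⟩ := hG
      show a l + (S l).length + (T l).length ≤ n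
      rw [hSlen, hTlen]
      have := hale l
      omega
    · intro G hG
      rw [List.mem_map] at hG
      obtain ⟨l, -, rfl⟩ := hG
      show (T l).Pairwise (fun a b => b < a)
      have h1 : (T l).Pairwise (fun a b => b ≤ a) :=
        List.pairwise_insertionSort (fun x y : ℝ => y ≤ x) (T₀ l)
      have h2 : (T l).Nodup := by
        rw [(hTp l).nodup_iff]
        exact ((TPR.rts_nodup (hsi l) (hbne l)).sublist (List.take_sublist _ _)).sublist
          (List.drop_sublist _ _)
      have h3 := h1.and h2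
      exact h3.imp fun h => lt_of_le_of_ne h.1 (Ne.symm h.2)
  have hsumE : (Fs.map TPR.Fl.e).sum = ∑ l, a l := by
    have h1 : Fs.map TPR.Fl.e = List.ofFn (fun i => a (σ i)) := by
      simp only [Fs, idx, List.map_ofFn]
      rfl
    rw [h1, List.sum_ofFn, Equiv.sum_comp σ a]
  have hqf : ∀ l, TPR.qf n (fl l) = fr (S l) := by
    intro l
    show (X - C (b l)) ^ (n - a l - (T l).length - (S l).length) * fr (S l) = fr (S l)
    rw [hSlen, hTlen, show n - a l - r l - (n - (a l + r l)) = 0 by omega, pow_zero, one_mul]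
  have hperm : ∀ l, (S l ++ T l).Perm ((TPR.rts n (s l) (b' l)).take (n - a l)) := by
    intro l
    have h1 : (TPR.rts n (s l) (b' l)).take (n - a l) =
        ((TPR.rts n (s l) (b' l)).take (n - a l)).take (n - (a l + r l)) ++
        ((TPR.rts n (s l) (b' l)).take (n - a l)).drop (n - (a l + r l)) :=
      (List.take_append_drop _ _).symm
    rw [h1, List.take_take, show min (n - (a l + r l)) (n - a l) = n - (a l + r l) by omega]
    exact (List.Perm.refl _).append (hTp l)
  -- the total list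
  obtain ⟨ε, hε, hflat⟩ := TPR.allY_flat (n := n) fl idx 1 one_ne_zero hidx_nd
  let g : Fin m → List ℝ[X] := fun l => (TPR.Yv n (fl l)).map fun f => ε l • f
  have hglen : ∀ l, (g l).length = r l := by
    intro l
    simp only [g, TPR.Yv, List.length_map]
    exact hTlen l
  have hall : TPR.allY n 1 Fs = (idx.map g).flatten := by
    rw [hflat, List.flatMap_def]
  have hYvdeg : ∀ l, ∀ f ∈ TPR.Yv n (fl l), f.natDegree < n := by
    intro l f hf
    rw [TPR.Yv, List.mem_map] at hf
    obtain ⟨t, ht, rfl⟩ := hf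
    rw [hqf]
    refine lt_of_le_of_lt natDegree_mul_le ?_
    have ht' : t ∈ T l := ht
    show (fr (S l)).natDegree + (fr ((T l).erase t)).natDegree < n
    rw [TPR.natDegree_fr, TPR.natDegree_fr, List.length_erase_of_mem ht', hSlen, hTlen]
    have h1 : 0 < (T l).length := List.length_pos_of_mem ht'
    rw [hTlen] at h1
    have := hale l
    omega
  have hgdeg : ∀ l, ∀ f ∈ g l, f.natDegree < n := by
    intro l f hf
    simp only [g, List.mem_map] at hf
    obtain ⟨f', hf', rfl⟩ := hf
    exact (natDegree_smul_le _ _).trans_lt (hYvdeg l f' hf')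
  have hpE : ∀ l, TPR.qf n (fl l) * fr (fl l).T =
      fr ((TPR.rts n (s l) (b' l)).take (n - a l)) := by
    intro l
    rw [hqf, ← TPR.fr_perm (hperm l), TPR.fr_append]
  have hBmem : ∀ f, f ∈ TPR.allB n Fs ↔
      ∃ l, ∃ i < a l, f = X ^ i * fr ((TPR.rts n (s l) (b' l)).take (n - a l)) := by
    intro f
    rw [TPR.mem_allB]
    constructor
    · rintro ⟨G, hG, hf⟩
      rw [List.mem_map] at hG
      obtain ⟨l, -, rfl⟩ := hG
      rw [TPR.Bv, hpE, TPR.mem_bl_iff] at hf
      exact ⟨l, hf⟩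
    · rintro ⟨l, hf⟩
      refine ⟨fl l, List.mem_map.2 ⟨l, hidx_mem l, rfl⟩, ?_⟩
      rw [TPR.Bv, hpE, TPR.mem_bl_iff]
      exact hf
  have hBdeg : ∀ f ∈ TPR.allB n Fs, f.natDegree < n := by
    intro f hf
    rw [hBmem] at hf
    obtain ⟨l, i, hi, rfl⟩ := hf
    refine lt_of_le_of_lt natDegree_mul_le ?_
    rw [natDegree_X_pow, TPR.natDegree_fr, List.length_take, TPR.rts_length]
    have := hale l
    omega
  have hBlen : (TPR.allB n Fs).length + N = n := by
    rw [TPR.allB_length, hsumE, hN]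
  have hYlen : (TPR.allY n 1 Fs).length = ∑ l, r l := by
    rw [hall, List.length_flatten]
    have h1 : (idx.map g).map List.length = List.ofFn (fun i => r (σ i)) := by
      simp only [idx, List.map_ofFn]
      congr 1
      funext i
      exact hglen _
    rw [h1, List.sum_ofFn, Equiv.sum_comp σ r]
  obtain ⟨ρ, π, hρ1, hρ2, hρ3, hρ4, hρ5⟩ := exists_rho (n := n) (N := N)
    (B := TPR.allB n Fs) (Z := TPR.allY n 1 Fs) (by omega) (by rw [hYlen]; exact hlen)
    (by
      intro f hf
      rw [hall, List.mem_flatten] at hf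
      obtain ⟨l', hl', hf⟩ := hf
      rw [List.mem_map] at hl'
      obtain ⟨l, -, rfl⟩ := hl'
      exact hgdeg l f hf) hBdeg (by
      intro A hA hAl
      exact TPR.allY_pos Fs hgood A hA (by rw [hAl, hsumE]; omega))
  have hb : ∀ l, F l (a l) = Submodule.span ℂ {v | ∃ i < a l, v = TPR.vecr n
      (X ^ i * fr ((TPR.rts n (s l) (b' l)).take (n - a l)))} := fun l =>
    TPR.F_eq_span hn (hsi l) (hbne l) (hF0 l) (hFs l) (by
      have := hale l
      omega)
  have hker : LinearMap.ker ρ = ⨆ l, F l (a l) := by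
    rw [hρ3]
    apply le_antisymm
    · rw [Submodule.span_le]
      rintro v ⟨f, hf, rfl⟩
      rw [hBmem] at hf
      obtain ⟨l, i, hi, rfl⟩ := hf
      refine Submodule.mem_iSup_of_mem l ?_
      rw [hb l]
      exact Submodule.subset_span ⟨i, hi, rfl⟩
    · refine iSup_le fun l => ?_
      rw [hb l, Submodule.span_le]
      rintro v ⟨i, hi, rfl⟩
      exact Submodule.subset_span ⟨_, (hBmem _).2 ⟨l, i, hi, rfl⟩, rfl⟩
  refine ⟨ρ, idx, fun l => (g l).map π, hρ1, hρ2, hker, ?_, ?_, ?_, ?_⟩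
  · rw [List.perm_ext_iff_of_nodup hidx_nd (List.nodup_finRange m)]
    intro l
    simp [hidx_mem]
  · intro l
    rw [List.length_map, hglen]
  · have h1 : (idx.map fun l => (g l).map π).flatten = (TPR.allY n 1 Fs).map π := by
      rw [hall, List.map_flatten, List.map_map]
      rfl
    rw [h1]
    exact hρ5
  · intro l
    have h1 := TPR.F_sup hn (hsi l) (hbne l) (hF0 l) (hFs l)
      (e := a l) (r := r l) (hale l) (T l) (hTp l)
    have h2 : (F l (a l)).map ρ = ⊥ := by
      rw [eq_bot_iff]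
      rintro _ ⟨v, hv, rfl⟩
      have hv' : v ∈ LinearMap.ker ρ := by
        rw [hker]
        exact (le_iSup (fun l => F l (a l)) l) hv
      rw [Submodule.mem_bot]
      exact hv'
    rw [h1, Submodule.map_sup, h2, bot_sup_eq, Submodule.map_span]
    apply le_antisymm
    · rw [Submodule.span_le]
      rintro _ ⟨_, ⟨t, ht, rfl⟩, rfl⟩
      have hm : fr (S l) * fr ((T l).erase t) ∈ TPR.Yv n (fl l) := by
        rw [TPR.Yv, List.mem_map]
        exact ⟨t, ht, by rw [hqf]⟩
      have hd1 := hYvdeg l _ hm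
      have h3 : ε l • (fr (S l) * fr ((T l).erase t)) ∈ g l := List.mem_map.2 ⟨_, hm, rfl⟩
      have h4 : ρ (TPR.vecr n (fr (S l) * fr ((T l).erase t))) =
          (((ε l)⁻¹ : ℝ) : ℂ) • fun i => ((π (ε l • (fr (S l) * fr ((T l).erase t))) i : ℝ) : ℂ) := by
        rw [hρ4 _ hd1]
        funext i
        rw [map_smul, Pi.smul_apply, Pi.smul_apply, smul_eq_mul, smul_eq_mul, ← Complex.ofReal_mul,
          ← mul_assoc, inv_mul_cancel₀ (hε l), one_mul]
      show ρ (TPR.vecr n (fr (S l) * fr ((T l).erase t))) ∈ _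
      rw [h4]
      exact Submodule.smul_mem _ _ (Submodule.subset_span ⟨_, List.mem_map.2 ⟨_, h3, rfl⟩, rfl⟩)
    · rw [Submodule.span_le]
      rintro _ ⟨x, hx, rfl⟩
      obtain ⟨f, hf, rfl⟩ := List.mem_map.1 hx
      have hfd := hgdeg l f hf
      obtain ⟨f', hf', rfl⟩ := List.mem_map.1 hf
      rw [TPR.Yv, List.mem_map] at hf'
      obtain ⟨t, ht, rfl⟩ := hf'
      rw [SetLike.mem_coe, ← hρ4 _ hfd, map_smul, hqf]
      have h5 : ρ (ε l • TPR.vecr n (fr (S l) * fr ((fl l).T.erase t))) =
          ((ε l : ℝ) : ℂ) • ρ (TPR.vecr n (fr (S l) * fr ((fl l).T.erase t))) := by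
        rw [← LinearMap.map_smul ρ]
        congr 1
      rw [h5]
      exact Submodule.smul_mem _ _ (Submodule.subset_span ⟨_, ⟨t, ht, rfl⟩, rfl⟩)

end

end Pool.CTP
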