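import Pool.Agent.CTP.Defs
import Pool.Agent.CSCB.Pad

/-! Row TR2, linear algebra: subspaces of codimension two as kernels of maps to the plane. -/

namespace Pool.CTP.TR2

open Module Pool.CSC

noncomputable section

/-! ### complexification -/

/-- a real vector as a complex one -/
def rc {N : ℕ} (x : Vec N) : Fin N → ℂ := fun i => ((x i : ℝ) : ℂ)

/-- the complex linear extension of a real linear map -/
def cx {N : ℕ} (B : Vec N →ₗ[ℝ] ℂ × ℂ) : (Fin N → ℂ) →ₗ[ℂ] ℂ × ℂ where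
  toFun z := ∑ i, z i • B (Pi.single i 1)
  map_add' z w := by simp [add_smul, Finset.sum_add_distrib]
  map_smul' c z := by
    simp only [Pi.smul_apply, smul_eq_mul, RingHom.id_apply, Finset.smul_sum, mul_smul]

lemma cx_apply {N : ℕ} (B : Vec N →ₗ[ℝ] ℂ × ℂ) (z : Fin N → ℂ) :
    cx B z = ∑ i, z i • B (Pi.single i 1) := rfl

lemma cx_rc {N : ℕ} (B : Vec N →ₗ[ℝ] ℂ × ℂ) (x : Vec N) : cx B (rc x) = B x := by
  rw [cx_apply]
  have h1 : x = ∑ i, x i • (Pi.single i (1 : ℝ) : Vec N) := by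
    ext j
    simp [Finset.sum_apply, Pi.single_apply]
  conv_rhs => rw [h1, map_sum]
  refine Finset.sum_congr rfl fun i _ => ?_
  rw [map_smul, rc]
  exact Complex.coe_smul _ _

lemma rc_span {N : ℕ} (z : Fin N → ℂ) : z = ∑ i, z i • rc (Pi.single i (1 : ℝ) : Vec N) := by
  ext j
  simp only [Finset.sum_apply, Pi.smul_apply, rc, smul_eq_mul]
  rw [Finset.sum_eq_single j]
  · simp
  · intro i _ hi
    rw [Pi.single_eq_of_ne hi.symm]
    simp
  · intro h
    exact absurd (Finset.mem_univ _) h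

lemma cx_eq {N : ℕ} (B : Vec N →ₗ[ℝ] ℂ × ℂ) (A : (Fin N → ℂ) →ₗ[ℂ] ℂ × ℂ)
    (h : ∀ x, B x = A (rc x)) : cx B = A := by
  refine LinearMap.ext fun z => ?_
  rw [cx_apply]
  conv_rhs => rw [rc_span z, map_sum]
  refine Finset.sum_congr rfl fun i _ => ?_
  rw [map_smul, h]

/-- the restriction of a complex map to real vectors -/
def res {N : ℕ} (A : (Fin N → ℂ) →ₗ[ℂ] ℂ × ℂ) : Vec N →ₗ[ℝ] ℂ × ℂ where
  toFun x := A (rc x)
  map_add' x y := by
    rw [← map_add]
    congr 1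
    ext i
    simp [rc]
  map_smul' c x := by
    rw [RingHom.id_apply, ← Complex.coe_smul, ← map_smul]
    congr 1
    ext i
    simp [rc]

lemma res_apply {N : ℕ} (A : (Fin N → ℂ) →ₗ[ℂ] ℂ × ℂ) (x : Vec N) : res A x = A (rc x) := rfl

lemma cx_res {N : ℕ} (A : (Fin N → ℂ) →ₗ[ℂ] ℂ × ℂ) : cx (res A) = A := cx_eq _ _ fun _ => rfl

/-- determinant of two complex plane vectors -/
def dc (p q : ℂ × ℂ) : ℂ := p.1 * q.2 - p.2 * q.1

lemma DD_dc {N : ℕ} (B : Vec N →ₗ[ℝ] ℂ × ℂ) (x x' : Vec N) : DD B x x' = dc (B x) (B x') := rfl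

lemma dc_cramer {p q : ℂ × ℂ} (h : dc p q ≠ 0) (w : ℂ × ℂ) :
    w = (dc w q / dc p q) • p + (dc p w / dc p q) • q := by
  rw [dc] at h
  ext
  · simp only [dc, Prod.fst_add, Prod.smul_fst, smul_eq_mul]
    rw [div_mul_eq_mul_div, div_mul_eq_mul_div, ← add_div, eq_div_iff h]
    ring
  · simp only [dc, Prod.snd_add, Prod.smul_snd, smul_eq_mul]
    rw [div_mul_eq_mul_div, div_mul_eq_mul_div, ← add_div, eq_div_iff h]
    ring

lemma dc_parallel {p q : ℂ × ℂ} (hp : p ≠ 0) (h : dc p q = 0) : ∃ c : ℂ, q = c • p := by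
  rw [dc, sub_eq_zero] at h
  by_cases h1 : p.1 = 0
  · have h2 : p.2 ≠ 0 := fun h2 => hp (Prod.ext h1 h2)
    refine ⟨q.2 / p.2, ?_⟩
    have h3 : q.1 = 0 := by
      rw [h1, zero_mul] at h
      rcases mul_eq_zero.1 h.symm with h4 | h4
      · exact absurd h4 h2
      · exact h4
    ext
    · simp [h1, h3]
    · simp only [Prod.smul_snd, smul_eq_mul]
      field_simp
  · refine ⟨q.1 / p.1, ?_⟩
    ext
    · simp only [Prod.smul_fst, smul_eq_mul]
      field_simp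
    · simp only [Prod.smul_snd, smul_eq_mul]
      field_simp
      rw [mul_comm q.2, h, mul_comm]

lemma dc_sum_left {ι : Type*} (s : Finset ι) (f : ι → ℂ × ℂ) (q : ℂ × ℂ) :
    dc (∑ i ∈ s, f i) q = ∑ i ∈ s, dc (f i) q := by
  simp only [dc, Prod.fst_sum, Prod.snd_sum, Finset.sum_mul, Finset.sum_sub_distrib]

lemma dc_sum_right {ι : Type*} (s : Finset ι) (f : ι → ℂ × ℂ) (q : ℂ × ℂ) :
    dc q (∑ i ∈ s, f i) = ∑ i ∈ s, dc q (f i) := by
  simp only [dc, Prod.fst_sum, Prod.snd_sum, Finset.mul_sum, Finset.sum_sub_distrib]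

lemma dc_smul_left (c : ℂ) (p q : ℂ × ℂ) : dc (c • p) q = c * dc p q := by
  simp only [dc, Prod.smul_fst, Prod.smul_snd, smul_eq_mul]
  ring

lemma dc_smul_right (c : ℂ) (p q : ℂ × ℂ) : dc p (c • q) = c * dc p q := by
  simp only [dc, Prod.smul_fst, Prod.smul_snd, smul_eq_mul]
  ring

lemma rk2_surj {N : ℕ} {B : Vec N →ₗ[ℝ] ℂ × ℂ} (h : Rk2 B) : Function.Surjective (cx B) := by
  obtain ⟨x, x', hx⟩ := h
  intro w
  rw [DD_dc] at hx
  refine ⟨(dc w (B x') / dc (B x) (B x')) • rc x + (dc (B x) w / dc (B x) (B x')) • rc x', ?_⟩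
  rw [map_add, map_smul, map_smul, cx_rc, cx_rc]
  exact (dc_cramer hx w).symm

lemma rk2_of_surj {N : ℕ} {B : Vec N →ₗ[ℝ] ℂ × ℂ} (h : Function.Surjective (cx B)) : Rk2 B := by
  by_contra hc
  have h0 : ∀ x x', dc (B x) (B x') = 0 := by
    intro x x'
    by_contra h1
    exact hc ⟨x, x', h1⟩
  have h1 : ∀ z w, dc (cx B z) (cx B w) = 0 := by
    intro z w
    rw [cx_apply, cx_apply, dc_sum_left]
    refine Finset.sum_eq_zero fun i _ => ?_
    rw [dc_sum_right]
    refine Finset.sum_eq_zero fun j _ => ?_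
    rw [dc_smul_left, dc_smul_right, h0, mul_zero, mul_zero]
  obtain ⟨z, hz⟩ := h (1, 0)
  obtain ⟨w, hw⟩ := h (0, 1)
  have h2 := h1 z w
  rw [hz, hw, dc] at h2
  simp at h2

/-- a family of plane vectors spans at most a line iff they are pairwise parallel -/
lemma finrank_span_le_one (S : Set (ℂ × ℂ)) :
    finrank ℂ ↥(Submodule.span ℂ S) ≤ 1 ↔ ∀ p ∈ S, ∀ q ∈ S, dc p q = 0 := by
  constructor
  · intro h p hp q hq
    obtain ⟨v, hv⟩ := finrank_le_one_iff.1 h
    obtain ⟨c, hc⟩ := hv ⟨p, Submodule.subset_span hp⟩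
    obtain ⟨c', hc'⟩ := hv ⟨q, Submodule.subset_span hq⟩
    have h1 : p = c • (v : ℂ × ℂ) := by
      have := congrArg Subtype.val hc
      simpa using this.symm
    have h2 : q = c' • (v : ℂ × ℂ) := by
      have := congrArg Subtype.val hc'
      simpa using this.symm
    rw [h1, h2, dc_smul_left, dc_smul_right, dc]
    ring
  · intro h
    by_cases h0 : ∃ p ∈ S, p ≠ 0
    · obtain ⟨p, hp, hp0⟩ := h0
      have h1 : Submodule.span ℂ S ≤ Submodule.span ℂ {p} := by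
        rw [Submodule.span_le]
        intro q hq
        obtain ⟨c, rfl⟩ := dc_parallel hp0 (h p hp q hq)
        exact Submodule.smul_mem _ _ (Submodule.mem_span_singleton_self p)
      exact (Submodule.finrank_mono h1).trans (finrank_span_singleton hp0).le
    · push Not at h0
      have h1 : Submodule.span ℂ S = ⊥ := by
        rw [Submodule.span_eq_bot]
        exact h0
      rw [h1, finrank_bot]
      exact Nat.zero_le _

/-! ### subspaces of codimension two -/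

section ker

variable {k n N : ℕ} {ρ : (Fin n → ℂ) →ₗ[ℂ] (Fin N → ℂ)}

/-- the subspace given by a map to the plane -/
def kerH (ρ : (Fin n → ℂ) →ₗ[ℂ] (Fin N → ℂ)) (B : Vec N →ₗ[ℝ] ℂ × ℂ) :
    Submodule ℂ (Fin n → ℂ) := LinearMap.ker (cx B ∘ₗ ρ)

lemma mem_kerH {B : Vec N →ₗ[ℝ] ℂ × ℂ} {v : Fin n → ℂ} : v ∈ kerH ρ B ↔ cx B (ρ v) = 0 := by
  rw [kerH, LinearMap.mem_ker, LinearMap.comp_apply]

lemma exists_B (hn : n = k + 2) (hρ : Function.Surjective ρ) {H : Submodule ℂ (Fin n → ℂ)}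
    (hH : finrank ℂ ↥H = k) (hE : LinearMap.ker ρ ≤ H) :
    ∃ B : Vec N →ₗ[ℝ] ℂ × ℂ, Rk2 B ∧ H = kerH ρ B := by
  have h1 : finrank ℂ ((Fin n → ℂ) ⧸ H) = finrank ℂ (ℂ × ℂ) := by
    have h2 := Submodule.finrank_quotient_add_finrank H
    rw [finrank_V, hH] at h2
    rw [finrank_prod, finrank_self]
    omega
  let e := LinearEquiv.ofFinrankEq _ _ h1
  let e' := (LinearMap.quotKerEquivOfSurjective ρ hρ).symm
  let A : (Fin N → ℂ) →ₗ[ℂ] ℂ × ℂ :=
    e.toLinearMap ∘ₗ (LinearMap.ker ρ).liftQ H.mkQ (by rw [Submodule.ker_mkQ]; exact hE) ∘ₗ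
      e'.toLinearMap
  have hA : ∀ v, A (ρ v) = e (H.mkQ v) := by
    intro v
    have h3 : e' (ρ v) = (LinearMap.ker ρ).mkQ v := by
      rw [LinearEquiv.symm_apply_eq]
      rfl
    simp only [A, LinearMap.comp_apply, LinearEquiv.coe_coe]
    rw [h3]
    rfl
  refine ⟨res A, ?_, ?_⟩
  · apply rk2_of_surj
    rw [cx_res]
    intro w
    obtain ⟨v, hv⟩ := Submodule.mkQ_surjective H (e.symm w)
    exact ⟨ρ v, by rw [hA, hv, LinearEquiv.apply_symm_apply]⟩
  · ext v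
    rw [mem_kerH, cx_res, hA, LinearEquiv.map_eq_zero_iff, ← LinearMap.mem_ker,
      Submodule.ker_mkQ]

lemma finrank_kerH (hn : n = k + 2) (hρ : Function.Surjective ρ) {B : Vec N →ₗ[ℝ] ℂ × ℂ}
    (hB : Rk2 B) : finrank ℂ ↥(kerH ρ B) = k := by
  have h1 := LinearMap.finrank_range_add_finrank_ker (cx B ∘ₗ ρ)
  have h2 : LinearMap.range (cx B ∘ₗ ρ) = ⊤ :=
    LinearMap.range_eq_top.2 ((rk2_surj hB).comp hρ)
  rw [h2, finrank_top, finrank_prod, finrank_self, finrank_V] at h1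
  rw [kerH]
  omega

lemma ker_le_kerH (B : Vec N →ₗ[ℝ] ℂ × ℂ) : LinearMap.ker ρ ≤ kerH ρ B := by
  intro v hv
  rw [mem_kerH, LinearMap.mem_ker.1 hv, map_zero]

/-- dimension of the intersection with a subspace -/
lemma finrank_inf_kerH (B : Vec N →ₗ[ℝ] ℂ × ℂ) {U : Submodule ℂ (Fin n → ℂ)}
    {y : List (Vec N)} (hU : U.map ρ = Submodule.span ℂ {v | ∃ x ∈ y, v = rc x}) :
    finrank ℂ ↥(kerH ρ B ⊓ U) + finrank ℂ ↥(Submodule.span ℂ {p | ∃ x ∈ y, p = B x}) =
      finrank ℂ ↥U := by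
  have h1 := LinearMap.finrank_range_add_finrank_ker ((cx B ∘ₗ ρ) ∘ₗ U.subtype)
  have h2 : LinearMap.range ((cx B ∘ₗ ρ) ∘ₗ U.subtype) =
      Submodule.span ℂ {p | ∃ x ∈ y, p = B x} := by
    rw [LinearMap.range_comp, Submodule.range_subtype, Submodule.map_comp, hU,
      Submodule.map_span]
    congr 1
    ext p
    constructor
    · rintro ⟨_, ⟨x, hx, rfl⟩, rfl⟩
      exact ⟨x, hx, cx_rc B x⟩
    · rintro ⟨x, hx, rfl⟩
      exact ⟨rc x, ⟨x, hx, rfl⟩, cx_rc B x⟩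
  have h3 : finrank ℂ ↥(LinearMap.ker ((cx B ∘ₗ ρ) ∘ₗ U.subtype)) =
      finrank ℂ ↥(kerH ρ B ⊓ U) := by
    rw [LinearMap.ker_comp, kerH, inf_comm, ← Submodule.map_comap_subtype,
      Submodule.finrank_map_subtype_eq]
  rw [h2, h3] at h1
  omega

/-- the Schubert condition for one block -/
lemma cond_iff (B : Vec N →ₗ[ℝ] ℂ × ℂ) {U : Submodule ℂ (Fin n → ℂ)} {s : ℕ}
    (hs : finrank ℂ ↥U = s + 1)
    {y : List (Vec N)} (hU : U.map ρ = Submodule.span ℂ {v | ∃ x ∈ y, v = rc x}) :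
    s ≤ finrank ℂ ↥(kerH ρ B ⊓ U) ↔ ∀ x ∈ y, ∀ x' ∈ y, DD B x x' = 0 := by
  have h1 := finrank_inf_kerH B hU
  have h2 := finrank_span_le_one {p | ∃ x ∈ y, p = B x}
  have h3 : (∀ p ∈ {p | ∃ x ∈ y, p = B x}, ∀ q ∈ {p | ∃ x ∈ y, p = B x}, dc p q = 0) ↔
      ∀ x ∈ y, ∀ x' ∈ y, DD B x x' = 0 := by
    constructor
    · intro h x hx x' hx'
      exact h _ ⟨x, hx, rfl⟩ _ ⟨x', hx', rfl⟩
    · rintro h _ ⟨x, hx, rfl⟩ _ ⟨x', hx', rfl⟩
      exact h x hx x' hx'
  rw [← h3, ← h2]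
  omega

/-- real maps as complex maps -/
def toCC (A : Vec N →ₗ[ℝ] ℝ × ℝ) : Vec N →ₗ[ℝ] ℂ × ℂ where
  toFun x := (((A x).1 : ℂ), ((A x).2 : ℂ))
  map_add' x y := by
    simp
  map_smul' c x := by
    simp

lemma toCC_apply (A : Vec N →ₗ[ℝ] ℝ × ℝ) (x : Vec N) :
    toCC A x = (((A x).1 : ℂ), ((A x).2 : ℂ)) := rfl

lemma DD_toCC (A : Vec N →ₗ[ℝ] ℝ × ℝ) (x x' : Vec N) : DD (toCC A) x x' = ((DD A x x' : ℝ) : ℂ) := by
  simp [DD, toCC_apply]

lemma rk2_toCC {A : Vec N →ₗ[ℝ] ℝ × ℝ} (h : Rk2 A) : Rk2 (toCC A) := by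
  obtain ⟨x, x', hx⟩ := h
  exact ⟨x, x', by rw [DD_toCC]; exact_mod_cast hx⟩

lemma toCC_eq_zero (A : Vec N →ₗ[ℝ] ℝ × ℝ) {x : Vec N} : toCC A x = 0 ↔ A x = 0 := by
  rw [toCC_apply]
  constructor
  · intro h
    have h1 := congrArg Prod.fst h
    have h2 := congrArg Prod.snd h
    ext
    · simpa using h1
    · simpa using h2
  · intro h
    rw [h]
    simp

/-- two maps with the same kernel that agree on two vectors with independent images -/
lemma eq_of_kerH (hρ : Function.Surjective ρ) {A A' : Vec N →ₗ[ℝ] ℝ × ℝ} {p q : Vec N}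
    (h1 : A p = (1, 0)) (h2 : A q = (0, 1)) (h1' : A' p = (1, 0)) (h2' : A' q = (0, 1))
    (h : kerH ρ (toCC A) = kerH ρ (toCC A')) : A = A' := by
  refine LinearMap.ext fun x => ?_
  set z : Vec N := x - (A x).1 • p - (A x).2 • q with hz
  have h3 : A z = 0 := by
    rw [hz, map_sub, map_sub, map_smul, map_smul, h1, h2]
    ext <;> simp
  obtain ⟨v, hv⟩ := hρ (rc z)
  have h4 : v ∈ kerH ρ (toCC A) := by
    rw [mem_kerH, hv, cx_rc, toCC_eq_zero]
    exact h3
  rw [h, mem_kerH, hv, cx_rc, toCC_eq_zero] at h4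
  rw [hz, map_sub, map_sub, map_smul, map_smul, h1', h2'] at h4
  have h5 := congrArg Prod.fst h4
  have h6 := congrArg Prod.snd h4
  simp at h5 h6
  ext
  · linarith
  · linarith

/-- kernels of real maps are real -/
lemma isReal_kerH (hρ : ∀ v i, ρ (fun j => (starRingEnd ℂ) (v j)) i = (starRingEnd ℂ) (ρ v i))
    (A : Vec N →ₗ[ℝ] ℝ × ℝ) : IsReal n (kerH ρ (toCC A)) := by
  intro v hv
  rw [mem_kerH] at hv ⊢
  rw [cx_apply] at hv ⊢
  have h1 : ∑ i, ρ (fun j => (starRingEnd ℂ) (v j)) i • toCC A (Pi.single i 1) =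
      ((starRingEnd ℂ) (∑ i, ρ v i • toCC A (Pi.single i 1)).1,
        (starRingEnd ℂ) (∑ i, ρ v i • toCC A (Pi.single i 1)).2) := by
    ext
    · simp [Prod.fst_sum, toCC_apply, hρ]
    · simp [Prod.snd_sum, toCC_apply, hρ]
  rw [h1, hv]
  simp

/-- the subspace depends only on the map up to linear changes of the plane -/
lemma kerH_eq_of {B B' : Vec N →ₗ[ℝ] ℂ × ℂ} {a b c d : ℂ} (hd : a * d - b * c ≠ 0)
    (h : ∀ x, B x = (a * (B' x).1 + b * (B' x).2, c * (B' x).1 + d * (B' x).2)) :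
    kerH ρ B = kerH ρ B' := by
  have h1 : ∀ z, cx B z = (a * (cx B' z).1 + b * (cx B' z).2, c * (cx B' z).1 + d * (cx B' z).2) := by
    intro z
    rw [cx_apply, cx_apply]
    ext
    · simp only [Prod.fst_sum, Prod.snd_sum, Prod.smul_fst, Prod.smul_snd, smul_eq_mul, h,
        Finset.mul_sum, ← Finset.sum_add_distrib]
      exact Finset.sum_congr rfl fun i _ => by ring
    · simp only [Prod.fst_sum, Prod.snd_sum, Prod.smul_fst, Prod.smul_snd, smul_eq_mul, h,
        Finset.mul_sum, ← Finset.sum_add_distrib]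
      exact Finset.sum_congr rfl fun i _ => by ring
  ext v
  rw [mem_kerH, mem_kerH, h1]
  constructor
  · intro h2
    have h3 := congrArg Prod.fst h2
    have h4 := congrArg Prod.snd h2
    simp only [Prod.fst_zero, Prod.snd_zero] at h3 h4
    ext
    · have : (a * d - b * c) * (cx B' (ρ v)).1 = 0 := by linear_combination d * h3 - b * h4
      exact (mul_eq_zero.1 this).resolve_left hd
    · have : (a * d - b * c) * (cx B' (ρ v)).2 = 0 := by linear_combination a * h4 - c * h3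
      exact (mul_eq_zero.1 this).resolve_left hd
  · intro h2
    rw [h2]
    simp

/-- linear change of the plane -/
def mapR (a b c d : ℝ) (A : Vec N →ₗ[ℝ] ℝ × ℝ) : Vec N →ₗ[ℝ] ℝ × ℝ where
  toFun x := (a * (A x).1 + b * (A x).2, c * (A x).1 + d * (A x).2)
  map_add' x y := by
    ext <;> simp <;> ring
  map_smul' t x := by
    ext <;> simp <;> ring

lemma mapR_apply (a b c d : ℝ) (A : Vec N →ₗ[ℝ] ℝ × ℝ) (x : Vec N) :
    mapR a b c d A x = (a * (A x).1 + b * (A x).2, c * (A x).1 + d * (A x).2) := rfl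

lemma DD_mapR (a b c d : ℝ) (A : Vec N →ₗ[ℝ] ℝ × ℝ) (x x' : Vec N) :
    DD (mapR a b c d A) x x' = (a * d - b * c) * DD A x x' := by
  simp only [DD, mapR_apply]
  ring

lemma sol_mapR {A : Vec N →ₗ[ℝ] ℝ × ℝ} {Bs : List (List (Vec N))} (h : Sol A Bs)
    (a b c d : ℝ) : Sol (mapR a b c d A) Bs := by
  intro B hB x hx x' hx'
  rw [DD_mapR, h B hB x hx x' hx', mul_zero]

/-- a real representative -/
lemma real_rep {B : Vec N →ₗ[ℝ] ℂ × ℂ} (h : IsR B) (hB : Rk2 B) {Bs : List (List (Vec N))}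
    (hs : Sol B Bs) : ∃ A : Vec N →ₗ[ℝ] ℝ × ℝ, Rk2 A ∧ Sol A Bs ∧
      kerH ρ B = kerH ρ (toCC A) := by
  obtain ⟨A, a, b, c, d, hA⟩ := h
  have hD : ∀ x x', DD B x x' = (a * d - b * c) * ((DD A x x' : ℝ) : ℂ) := by
    intro x x'
    simp only [DD, hA, Complex.ofReal_sub, Complex.ofReal_mul]
    ring
  obtain ⟨x, x', hx⟩ := hB
  rw [hD] at hx
  have h1 : a * d - b * c ≠ 0 := left_ne_zero_of_mul hx
  refine ⟨A, ⟨x, x', ?_⟩, ?_, ?_⟩
  · intro h0
    rw [h0] at hx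
    simp at hx
  · intro B' hB' y hy y' hy'
    have h2 := hs B' hB' y hy y' hy'
    rw [hD] at h2
    exact_mod_cast (mul_eq_zero.1 h2).resolve_left h1
  · exact kerH_eq_of (B := B) (B' := toCC A) h1 fun x => hA x

/-- normalisation -/
lemma normalise {A : Vec N →ₗ[ℝ] ℝ × ℝ} {p q : Vec N} (hD : DD A q p ≠ 0)
    {Bs : List (List (Vec N))} (hs : Sol A Bs) : ∃ A' : Vec N →ₗ[ℝ] ℝ × ℝ,
      A' p = (1, 0) ∧ A' q = (0, 1) ∧ Sol A' Bs ∧ kerH ρ (toCC A) = kerH ρ (toCC A') := by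
  have hD' : (A p).1 * (A q).2 - (A p).2 * (A q).1 ≠ 0 := by
    intro h
    apply hD
    rw [DD]
    linear_combination -h
  set D := (A p).1 * (A q).2 - (A p).2 * (A q).1 with hDd
  refine ⟨mapR ((A q).2 / D) (-(A q).1 / D) (-(A p).2 / D) ((A p).1 / D) A, ?_, ?_,
    sol_mapR hs _ _ _ _, ?_⟩
  · rw [mapR_apply]
    ext
    · simp only
      rw [div_mul_eq_mul_div, div_mul_eq_mul_div, ← add_div, div_eq_one_iff_eq hD', hDd]
      ring
    · simp only
      rw [div_mul_eq_mul_div, div_mul_eq_mul_div, ← add_div, div_eq_zero_iff]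
      left
      ring
  · rw [mapR_apply]
    ext
    · simp only
      rw [div_mul_eq_mul_div, div_mul_eq_mul_div, ← add_div, div_eq_zero_iff]
      left
      ring
    · simp only
      rw [div_mul_eq_mul_div, div_mul_eq_mul_div, ← add_div, div_eq_one_iff_eq hD', hDd]
      ring
  · symm
    refine kerH_eq_of (a := (((A q).2 / D : ℝ) : ℂ)) (b := ((-(A q).1 / D : ℝ) : ℂ))
      (c := ((-(A p).2 / D : ℝ) : ℂ)) (d := (((A p).1 / D : ℝ) : ℂ)) ?_ fun x => ?_
    · have h1 : (A q).2 / D * ((A p).1 / D) - -(A q).1 / D * (-(A p).2 / D) = 1 / D := by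
        rw [div_mul_div_comm, div_mul_div_comm, ← sub_div, div_eq_div_iff (mul_ne_zero hD' hD') hD']
        rw [hDd]
        ring
      have h2 : (A q).2 / D * ((A p).1 / D) - -(A q).1 / D * (-(A p).2 / D) ≠ 0 := by
        rw [h1]
        exact one_div_ne_zero hD'
      exact_mod_cast h2
    · rw [toCC_apply, toCC_apply, mapR_apply]
      ext
      · simp only [Complex.ofReal_add, Complex.ofReal_mul]
      · simp only [Complex.ofReal_add, Complex.ofReal_mul]

end ker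

/-! ### the Schubert problem -/

/-- the data -/
structure Data2 (k n m N : ℕ) (lam : Fin m → Fin k → ℕ) (a b : Fin m → ℕ)
    (F : Fin m → ℕ → Submodule ℂ (Fin n → ℂ)) (ρ : (Fin n → ℂ) →ₗ[ℂ] (Fin N → ℂ))
    (y : Fin m → List (Vec N)) : Prop where
  hn : n = k + 2
  m1 : 1 ≤ m
  shape : ∀ l, ∀ i : Fin k, lam l i = if (i : ℕ) < a l then 2
    else if (i : ℕ) < a l + b l then 1 else 0
  hab : ∀ l, a l + b l ≤ k
  flag : ∀ l, IsFlag n (F l)
  surj : Function.Surjective ρ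
  conj : ∀ v i, ρ (fun j => (starRingEnd ℂ) (v j)) i = (starRingEnd ℂ) (ρ v i)
  ker : LinearMap.ker ρ = ⨆ l, F l (a l)
  map : ∀ l, (F l (a l + b l + 1)).map ρ = Submodule.span ℂ {v | ∃ x ∈ y l, v = rc x}

section main

variable {k n m N : ℕ} {lam : Fin m → Fin k → ℕ} {a b : Fin m → ℕ}
  {F : Fin m → ℕ → Submodule ℂ (Fin n → ℂ)} {ρ : (Fin n → ℂ) →ₗ[ℂ] (Fin N → ℂ)}
  {y : Fin m → List (Vec N)}

lemma Data2.mem_iff (S : Data2 k n m N lam a b F ρ y) (H : Submodule ℂ (Fin n → ℂ)) :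
    H ∈ ⋂ l, schub k n (lam l) (F l) ↔ finrank ℂ ↥H = k ∧ LinearMap.ker ρ ≤ H ∧
      ∀ l, a l + b l ≤ finrank ℂ ↥(H ⊓ F l (a l + b l + 1)) := by
  have hn : n = k + 2 * 1 := S.hn
  have hsh : ∀ l, ∀ i : Fin k, lam l i = if (i : ℕ) < a l then 2 * 1
    else if (i : ℕ) < a l + b l then 1 else 0 := S.shape
  rw [Set.mem_iInter, S.ker]
  constructor
  · intro h
    have hH := (h ⟨0, S.m1⟩).1
    have h1 := fun l => (CSCB.schub_iff hn le_rfl (S.hab l) (hsh l) (S.flag l) hH).1 (h l).2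
    exact ⟨hH, iSup_le fun l => (h1 l).1, fun l => (h1 l).2⟩
  · rintro ⟨hH, hE, hU⟩ l
    exact ⟨hH, (CSCB.schub_iff hn le_rfl (S.hab l) (hsh l) (S.flag l) hH).2
      ⟨(le_iSup (fun l => F l (a l)) l).trans hE, hU l⟩⟩

lemma Data2.kerH_mem_iff (S : Data2 k n m N lam a b F ρ y) {B : Vec N →ₗ[ℝ] ℂ × ℂ}
    (hB : Rk2 B) {ls : List (Fin m)} (hls : ∀ l, l ∈ ls) :
    kerH ρ B ∈ ⋂ l, schub k n (lam l) (F l) ↔ Sol B (ls.map y) := by
  have hn := S.hn
  rw [S.mem_iff]
  have h1 : ∀ l, (a l + b l ≤ finrank ℂ ↥(kerH ρ B ⊓ F l (a l + b l + 1)) ↔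
      ∀ x ∈ y l, ∀ x' ∈ y l, DD B x x' = 0) := by
    intro l
    have := S.hab l
    exact cond_iff B ((S.flag l).dim _ (by omega)) (S.map l)
  constructor
  · rintro ⟨-, -, h⟩ B' hB'
    obtain ⟨l, -, rfl⟩ := List.mem_map.1 hB'
    exact (h1 l).1 (h l)
  · intro h
    refine ⟨finrank_kerH hn S.surj hB, ker_le_kerH B, fun l => (h1 l).2 ?_⟩
    exact h (y l) (List.mem_map_of_mem (hls l))

/-- the parametrisation of the solutions by normalised real maps -/
theorem Data2.param (S : Data2 k n m N lam a b F ρ y) {ls : List (Fin m)} (hls : ∀ l, l ∈ ls)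
    (hR : RR N (ls.map y)) (hS : SS N (ls.map y)) (H : Submodule ℂ (Fin n → ℂ)) :
    H ∈ ⋂ l, schub k n (lam l) (F l) ↔ ∃ A : Vec N →ₗ[ℝ] ℝ × ℝ,
      A (lst (ls.map y)) = (1, 0) ∧ A (fst (ls.map y)) = (0, 1) ∧ Sol A (ls.map y) ∧
        H = kerH ρ (toCC A) := by
  constructor
  · intro hH
    have h1 := (S.mem_iff H).1 hH
    obtain ⟨B, hB, rfl⟩ := exists_B S.hn S.surj h1.1 h1.2.1
    have hs := (S.kerH_mem_iff hB hls).1 hH
    obtain ⟨A, hA, hAs, hAk⟩ := real_rep (ρ := ρ) (hR B hB hs) hB hs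
    have h2 := hS A hA hAs
    have h3 : DD A (fst (ls.map y)) (lst (ls.map y)) ≠ 0 := by
      intro h0
      rw [Sgn, h0, mul_zero] at h2
      exact lt_irrefl _ h2
    obtain ⟨A', h4, h5, h6, h7⟩ := normalise (ρ := ρ) h3 hAs
    exact ⟨A', h4, h5, h6, hAk.trans h7⟩
  · rintro ⟨A, h1, h2, h3, rfl⟩
    have hA : Rk2 A := ⟨lst (ls.map y), fst (ls.map y), by rw [DD, h1, h2]; norm_num⟩
    rw [S.kerH_mem_iff (rk2_toCC hA) hls]
    intro B hB x hx x' hx'
    rw [DD_toCC, h3 B hB x hx x' hx', Complex.ofReal_zero]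

theorem Data2.encard (S : Data2 k n m N lam a b F ρ y) {ls : List (Fin m)} (hls : ∀ l, l ∈ ls)
    (hR : RR N (ls.map y)) (hS : SS N (ls.map y)) :
    (⋂ l, schub k n (lam l) (F l)).encard = {A : Vec N →ₗ[ℝ] ℝ × ℝ |
      A (lst (ls.map y)) = (1, 0) ∧ A (fst (ls.map y)) = (0, 1) ∧ Sol A (ls.map y)}.encard := by
  have h1 : (⋂ l, schub k n (lam l) (F l)) = (fun A : Vec N →ₗ[ℝ] ℝ × ℝ => kerH ρ (toCC A)) ''
      {A : Vec N →ₗ[ℝ] ℝ × ℝ |
      A (lst (ls.map y)) = (1, 0) ∧ A (fst (ls.map y)) = (0, 1) ∧ Sol A (ls.map y)} := by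
    ext H
    rw [S.param hls hR hS]
    constructor
    · rintro ⟨A, h1, h2, h3, rfl⟩
      exact ⟨A, ⟨h1, h2, h3⟩, rfl⟩
    · rintro ⟨A, ⟨h1, h2, h3⟩, rfl⟩
      exact ⟨A, h1, h2, h3, rfl⟩
  rw [h1, Set.InjOn.encard_image]
  rintro A ⟨h1, h2, -⟩ A' ⟨h1', h2', -⟩ h
  exact eq_of_kerH S.surj h1 h2 h1' h2' h

/-- factorisation through `ρ` -/
lemma exists_factor (hρ : Function.Surjective ρ) (T : (Fin n → ℂ) →ₗ[ℂ] ℂ × ℂ)
    (h : LinearMap.ker ρ ≤ LinearMap.ker T) : ∃ T' : (Fin N → ℂ) →ₗ[ℂ] ℂ × ℂ,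
      ∀ v, T v = T' (ρ v) := by
  let e' := (LinearMap.quotKerEquivOfSurjective ρ hρ).symm
  refine ⟨(LinearMap.ker ρ).liftQ T h ∘ₗ e'.toLinearMap, fun v => ?_⟩
  have h3 : e' (ρ v) = (LinearMap.ker ρ).mkQ v := by
    rw [LinearEquiv.symm_apply_eq]
    rfl
  rw [LinearMap.comp_apply, LinearEquiv.coe_coe, h3]
  rfl

/-- real part of a complex map -/
def rePart (Ψ : Vec N →ₗ[ℝ] ℂ × ℂ) : Vec N →ₗ[ℝ] ℝ × ℝ where
  toFun x := ((Ψ x).1.re, (Ψ x).2.re)
  map_add' x y := by simp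
  map_smul' c x := by simp

/-- imaginary part of a complex map -/
def imPart (Ψ : Vec N →ₗ[ℝ] ℂ × ℂ) : Vec N →ₗ[ℝ] ℝ × ℝ where
  toFun x := ((Ψ x).1.im, (Ψ x).2.im)
  map_add' x y := by simp
  map_smul' c x := by simp

lemma dD_re (A : Vec N →ₗ[ℝ] ℝ × ℝ) (Ψ : Vec N →ₗ[ℝ] ℂ × ℂ) (x x' : Vec N)
    (h : dD (toCC A) Ψ x x' = 0) : dD A (rePart Ψ) x x' = 0 := by
  have h1 := congrArg Complex.re h
  simp only [dD, toCC_apply, Complex.add_re, Complex.sub_re, Complex.re_mul_ofReal,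
    Complex.re_ofReal_mul, Complex.zero_re] at h1
  exact h1

lemma dD_im (A : Vec N →ₗ[ℝ] ℝ × ℝ) (Ψ : Vec N →ₗ[ℝ] ℂ × ℂ) (x x' : Vec N)
    (h : dD (toCC A) Ψ x x' = 0) : dD A (imPart Ψ) x x' = 0 := by
  have h1 := congrArg Complex.im h
  simp only [dD, toCC_apply, Complex.add_im, Complex.sub_im, Complex.im_mul_ofReal,
    Complex.im_ofReal_mul, Complex.zero_im] at h1
  exact h1

/-- complex transversality from the real one -/
lemma trans_cc {A : Vec N →ₗ[ℝ] ℝ × ℝ} {Bs : List (List (Vec N))} (hT : Trans A Bs)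
    (Ψ : Vec N →ₗ[ℝ] ℂ × ℂ) (h : ∀ B ∈ Bs, ∀ x ∈ B, ∀ x' ∈ B, dD (toCC A) Ψ x x' = 0) :
    ∃ a b c d : ℂ, ∀ x, Ψ x = (a * (toCC A x).1 + b * (toCC A x).2,
      c * (toCC A x).1 + d * (toCC A x).2) := by
  obtain ⟨a, b, c, d, h1⟩ := hT (rePart Ψ) fun B hB x hx x' hx' =>
    dD_re A Ψ x x' (h B hB x hx x' hx')
  obtain ⟨a', b', c', d', h2⟩ := hT (imPart Ψ) fun B hB x hx x' hx' =>
    dD_im A Ψ x x' (h B hB x hx x' hx')
  refine ⟨⟨a, a'⟩, ⟨b, b'⟩, ⟨c, c'⟩, ⟨d, d'⟩, fun x => ?_⟩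
  have h3 := h1 x
  have h4 := h2 x
  have h5 := congrArg Prod.fst h3
  have h6 := congrArg Prod.snd h3
  have h7 := congrArg Prod.fst h4
  have h8 := congrArg Prod.snd h4
  simp only [rePart, imPart, LinearMap.coe_mk, AddHom.coe_mk] at h5 h6 h7 h8
  rw [toCC_apply]
  refine Prod.ext (Complex.ext ?_ ?_) (Complex.ext ?_ ?_)
  · rw [h5]
    simp
  · rw [h7]
    simp
  · rw [h6]
    simp
  · rw [h8]
    simp

/-- every solution is transverse -/
theorem Data2.tan (S : Data2 k n m N lam a b F ρ y) {ls : List (Fin m)} (hls : ∀ l, l ∈ ls)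
    (hlen : ∀ l, (y l).length = b l + 1) (hR : RR N (ls.map y)) (hT : TT N (ls.map y))
    (hS : SS N (ls.map y)) (hnz : ∀ A : Vec N →ₗ[ℝ] ℝ × ℝ, Rk2 A → Sol A (ls.map y) →
      ∀ x ∈ (ls.map y).flatten, A x ≠ 0) {H : Submodule ℂ (Fin n → ℂ)}
    (hH : H ∈ ⋂ l, schub k n (lam l) (F l)) (φ : ↥H →ₗ[ℂ] (Fin n → ℂ) ⧸ H)
    (hφ : ∀ l, TangentTo k n (lam l) (F l) H φ) : φ = 0 := by
  have hn := S.hn
  have hH1 := (S.mem_iff H).1 hH
  obtain ⟨A, h1, h2, h3, hHA⟩ := (S.param hls hR hS H).1 hH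
  have hA : Rk2 A := ⟨lst (ls.map y), fst (ls.map y), by rw [DD, h1, h2]; norm_num⟩
  have hAnz : ∀ l, ∀ x ∈ y l, A x ≠ 0 := fun l x hx =>
    hnz A hA h3 x (List.mem_flatten_of_mem (List.mem_map_of_mem (hls l)) hx)
  have hpar : ∀ l, ∀ x ∈ y l, ∀ x' ∈ y l, dc (toCC A x) (toCC A x') = 0 := by
    intro l x hx x' hx'
    rw [← DD_dc, DD_toCC, h3 (y l) (List.mem_map_of_mem (hls l)) x hx x' hx',
      Complex.ofReal_zero]
  -- `φ` vanishes on the kernel of `ρ`
  have hzero : ∀ l, ∀ x (hx : x ∈ H), x ∈ F l (a l) → φ ⟨x, hx⟩ = 0 := by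
    intro l x hx hxF
    have hle : F l (a l) ≤ H := by
      have h4 := le_iSup (fun l => F l (a l)) l
      rw [← S.ker] at h4
      exact h4.trans hH1.2.1
    have hab := S.hab l
    rcases Nat.eq_zero_or_pos (a l) with ha | ha
    · have h0 : F l (a l) = ⊥ := by
        rw [ha]
        exact Submodule.finrank_eq_zero.1 ((S.flag l).dim 0 (by omega))
      rw [h0, Submodule.mem_bot] at hxF
      subst hxF
      exact map_zero φ
    · have h3 : sidx k n (lam l) ⟨a l - 1, by omega⟩ = a l := by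
        rw [sidx, S.shape]
        simp only
        rw [if_pos (by omega)]
        omega
      have h4 := hφ l ⟨a l - 1, by omega⟩ (by
        rw [h3, inf_eq_right.2 hle, (S.flag l).dim _ (by omega)]
        simp only
        omega) ⟨x, hx⟩ (by rw [h3]; exact hxF)
      rw [h3] at h4
      obtain ⟨y, hy, hy'⟩ := h4
      rw [← hy', ← LinearMap.mem_ker, Submodule.ker_mkQ]
      exact hle hy
  have hker : LinearMap.ker ρ ≤ (LinearMap.ker φ).map H.subtype := by
    rw [S.ker]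
    refine iSup_le fun l => ?_
    intro x hx
    have hxH : x ∈ H := by
      have h4 := le_iSup (fun l => F l (a l)) l
      rw [← S.ker] at h4
      exact hH1.2.1 (h4 hx)
    exact ⟨⟨x, hxH⟩, hzero l x hxH hx, rfl⟩
  have hkerE : ∀ x (hx : x ∈ H), x ∈ LinearMap.ker ρ → φ ⟨x, hx⟩ = 0 := by
    intro x hx hxE
    obtain ⟨y, hy, hyx⟩ := hker hxE
    have : y = ⟨x, hx⟩ := Subtype.ext hyx
    rw [← this]
    exact hy
  -- the map to the plane
  set T : (Fin n → ℂ) →ₗ[ℂ] ℂ × ℂ := cx (toCC A) ∘ₗ ρ with hTd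
  have hTk : LinearMap.ker T = H := by
    rw [hHA]
    rfl
  have hTv : ∀ v, T v = cx (toCC A) (ρ v) := fun v => rfl
  let ψ : ((Fin n → ℂ) ⧸ H) →ₗ[ℂ] ℂ × ℂ := H.liftQ T hTk.ge
  have hψ : ∀ v, ψ (H.mkQ v) = T v := fun v => rfl
  have hψi : ∀ w, ψ w = 0 → w = 0 := by
    intro w hw
    obtain ⟨v, rfl⟩ := Submodule.mkQ_surjective H w
    rw [hψ, ← LinearMap.mem_ker, hTk] at hw
    rw [← LinearMap.mem_ker, Submodule.ker_mkQ]
    exact hw
  obtain ⟨Φ, hΦ⟩ := LinearMap.exists_extend (ψ ∘ₗ φ)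
  have hΦ' : ∀ x (hx : x ∈ H), Φ x = ψ (φ ⟨x, hx⟩) := by
    intro x hx
    have := LinearMap.congr_fun hΦ ⟨x, hx⟩
    exact this
  obtain ⟨Φ', hΦ2⟩ := exists_factor S.surj Φ (by
    intro x hx
    have hxH : x ∈ H := hH1.2.1 hx
    rw [LinearMap.mem_ker, hΦ' x hxH, hkerE x hxH hx, map_zero])
  -- the equations
  have heq : ∀ l, ∀ x ∈ y l, ∀ x' ∈ y l, dD (toCC A) (res Φ') x x' = 0 := by
    intro l x hx x' hx'
    have hab := S.hab l
    rcases Nat.eq_zero_or_pos (b l) with hb | hb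
    · have h4 := hlen l
      rw [hb, zero_add, List.length_eq_one_iff] at h4
      obtain ⟨z, hz⟩ := h4
      rw [hz, List.mem_singleton] at hx hx'
      subst hx
      subst hx'
      rw [dD]
      ring
    · have hx0 : toCC A x ≠ 0 := fun h => hAnz l x hx ((toCC_eq_zero A).1 h)
      have hmap := S.map l
      -- exactness
      have h4 := finrank_inf_kerH (ρ := ρ) (toCC A) hmap
      have h5 : finrank ℂ ↥(Submodule.span ℂ {p | ∃ x ∈ y l, p = toCC A x}) = 1 := by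
        apply le_antisymm
        · rw [finrank_span_le_one]
          rintro _ ⟨z, hz, rfl⟩ _ ⟨z', hz', rfl⟩
          exact hpar l z hz z' hz'
        · rw [Nat.one_le_iff_ne_zero]
          intro h0
          rw [Submodule.finrank_eq_zero, Submodule.span_eq_bot] at h0
          exact hx0 (h0 _ ⟨x, hx, rfl⟩)
      rw [h5, (S.flag l).dim _ (by omega), ← hHA] at h4
      have h6 : sidx k n (lam l) ⟨a l + b l - 1, by omega⟩ = a l + b l + 1 := by
        rw [sidx, S.shape]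
        simp only
        rw [if_neg (by omega), if_pos (by omega)]
        omega
      -- elements of the images of the block
      have hlin : ∀ z ∈ Submodule.span ℂ {v | ∃ x ∈ y l, v = rc x},
          dc (toCC A x) (cx (toCC A) z) = 0 := by
        intro z h7
        induction h7 using Submodule.span_induction with
        | mem v hv =>
          obtain ⟨z, hz, rfl⟩ := hv
          rw [cx_rc]
          exact hpar l x hx z hz
        | zero => rw [map_zero, dc]; simp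
        | add v w _ _ hv hw =>
          rw [map_add]
          rw [dc] at hv hw ⊢
          simp only [Prod.fst_add, Prod.snd_add]
          linear_combination hv + hw
        | smul c v _ hv =>
          rw [map_smul, dc_smul_right, hv, mul_zero]
      have hline : ∀ u ∈ F l (a l + b l + 1), dc (toCC A x) (T u) = 0 := by
        intro u hu
        apply hlin
        rw [← hmap]
        exact Submodule.mem_map_of_mem hu
      obtain ⟨u, hu, hux⟩ : rc x ∈ (F l (a l + b l + 1)).map ρ := by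
        rw [hmap]
        exact Submodule.subset_span ⟨x, hx, rfl⟩
      obtain ⟨u', hu', hux'⟩ : rc x' ∈ (F l (a l + b l + 1)).map ρ := by
        rw [hmap]
        exact Submodule.subset_span ⟨x', hx', rfl⟩
      obtain ⟨c, hc⟩ := dc_parallel hx0 (hpar l x hx x' hx')
      have hw1 : u' - c • u ∈ F l (a l + b l + 1) :=
        Submodule.sub_mem _ hu' (Submodule.smul_mem _ _ hu)
      have hw2 : u' - c • u ∈ H := by
        rw [← hTk, LinearMap.mem_ker, map_sub, map_smul, hTv, hTv, hux, hux', cx_rc, cx_rc, hc,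
          sub_self]
      have h8 := hφ l ⟨a l + b l - 1, by omega⟩ (by
        rw [h6]
        simp only
        omega) ⟨u' - c • u, hw2⟩ (by rw [h6]; exact hw1)
      rw [h6] at h8
      obtain ⟨u'', hu'', h9⟩ := h8
      have h10 : Φ (u' - c • u) = T u'' := by
        rw [hΦ' _ hw2, ← h9, hψ]
      have h11 := hline u'' hu''
      rw [← h10, hΦ2, map_sub, map_smul, hux, hux', map_sub, map_smul] at h11
      have h12 : dD (toCC A) (res Φ') x x' = dc (toCC A x) (Φ' (rc x') - c • Φ' (rc x)) := by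
        rw [dD, hc, res_apply, res_apply, dc]
        simp only [Prod.fst_sub, Prod.snd_sub, Prod.smul_fst, Prod.smul_snd, smul_eq_mul]
        ring
      rw [h12, h11]
  obtain ⟨a', b', c', d', hG⟩ := trans_cc (hT A hA h3) (res Φ') (by
    intro B hB x hx x' hx'
    obtain ⟨l, -, rfl⟩ := List.mem_map.1 hB
    exact heq l x hx x' hx')
  have hG' : ∀ z, Φ' z = (a' * (cx (toCC A) z).1 + b' * (cx (toCC A) z).2,
      c' * (cx (toCC A) z).1 + d' * (cx (toCC A) z).2) := by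
    intro z
    have h4 := cx_res Φ'
    rw [← h4, cx_apply, cx_apply]
    simp only [hG]
    ext
    · simp only [Prod.fst_sum, Prod.snd_sum, Prod.smul_fst, Prod.smul_snd, smul_eq_mul,
        Finset.mul_sum, ← Finset.sum_add_distrib]
      exact Finset.sum_congr rfl fun i _ => by ring
    · simp only [Prod.fst_sum, Prod.snd_sum, Prod.smul_fst, Prod.smul_snd, smul_eq_mul,
        Finset.mul_sum, ← Finset.sum_add_distrib]
      exact Finset.sum_congr rfl fun i _ => by ring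
  refine LinearMap.ext fun v => ?_
  rw [LinearMap.zero_apply]
  apply hψi
  have h4 := hΦ' v v.2
  have h5 : T (v : Fin n → ℂ) = 0 := by
    rw [← LinearMap.mem_ker, hTk]
    exact v.2
  rw [hTv] at h5
  rw [hΦ2, hG', h5] at h4
  have h6 : (⟨(v : Fin n → ℂ), v.2⟩ : ↥H) = v := rfl
  rw [h6] at h4
  rw [← h4]
  simp

end main

/-! ### the case without simple conditions -/

lemma finrank_iSup_le' {n m : ℕ} (L : Fin m → Submodule ℂ (Fin n → ℂ)) (c : Fin m → ℕ)
    (h : ∀ l, finrank ℂ ↥(L l) ≤ c l) : finrank ℂ ↥(⨆ l, L l) ≤ ∑ l, c l := by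
  have h1 : ∀ s : Finset (Fin m), finrank ℂ ↥(s.sup L) ≤ ∑ l ∈ s, c l := by
    intro s
    classical
    induction s using Finset.induction_on with
    | empty => simp
    | insert l s hl ih =>
      rw [Finset.sup_insert, Finset.sum_insert hl]
      exact (Submodule.finrank_add_le_finrank_add_finrank _ _).trans (add_le_add (h l) ih)
  have h2 := h1 Finset.univ
  rwa [Finset.sup_univ_eq_iSup] at h2

section two

variable {n m : ℕ} {I : Fin m → Set ℝ} {F : Fin m → ℕ → Submodule ℂ (Fin n → ℂ)}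

lemma finrank_E (hn : 2 ≤ n) (hm : 1 ≤ m) (hI : ∀ l, (I l).OrdConnected)
    (hd : Pairwise (fun l l' => Disjoint (I l) (I l'))) (hF : ∀ l, Cosecant n (I l) (F l))
    {a : Fin m → ℕ} (ha : ∑ l, a l ≤ n) : finrank ℂ ↥(⨆ l, F l (a l)) = ∑ l, a l := by
  have hfl : ∀ l, IsFlag n (F l) := fun l => isFlag_cosecant (by omega) (hF l)
  have hle : ∀ l, a l ≤ n := fun l =>
    (Finset.single_le_sum (fun _ _ => Nat.zero_le _) (Finset.mem_univ l)).trans ha
  apply le_antisymm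
  · exact finrank_iSup_le' _ _ fun l => ((hfl l).dim _ (hle l)).le
  · let z : Fin m := ⟨0, hm⟩
    let r : Fin m → ℕ := fun l => a l + if l = z then n - ∑ l, a l else 0
    have hr : ∑ l, r l = n := by
      simp only [r]
      rw [Finset.sum_add_distrib, Finset.sum_ite_eq' Finset.univ z fun _ => n - ∑ l, a l,
        if_pos (Finset.mem_univ _)]
      omega
    have hrz : r z = a z + (n - ∑ l, a l) := by
      simp only [r, if_true]
    have hrn : r z ≤ n := by
      rw [← hr]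
      exact Finset.single_le_sum (fun _ _ => Nat.zero_le _) (Finset.mem_univ z)
    have h1 := span_top hn I hI hd F hF r hr
    have h2 : F z (r z) ⊔ ⨆ l, F l (a l) = ⊤ := by
      rw [eq_top_iff, ← h1]
      refine iSup_le fun l => ?_
      by_cases hl : l = z
      · rw [hl]
        exact le_sup_left
      · have : r l = a l := by
          simp only [r]
          rw [if_neg hl, add_zero]
        rw [this]
        exact (le_iSup (fun l => F l (a l)) l).trans le_sup_right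
    have h3 := finrank_shrink ((hfl z).mono (a z) (r z) (by omega) hrn) (⨆ l, F l (a l))
    rw [h2, finrank_top, finrank_V, (hfl z).dim _ (hle z), (hfl z).dim _ hrn,
      sup_eq_right.2 (le_iSup (fun l => F l (a l)) z)] at h3
    omega

lemma isReal_iSup {L : Fin m → Submodule ℂ (Fin n → ℂ)} (h : ∀ l, IsReal n (L l)) :
    IsReal n (⨆ l, L l) := by
  intro v hv
  induction hv using Submodule.iSup_induction' with
  | mem l x hx => exact (le_iSup L l) (h l x hx)
  | zero =>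
    simp only [Pi.zero_apply, map_zero]
    exact Submodule.zero_mem _
  | add x y _ _ hx hy =>
    have : (fun i => (starRingEnd ℂ) ((x + y) i)) =
        (fun i => (starRingEnd ℂ) (x i)) + fun i => (starRingEnd ℂ) (y i) := by
      funext i
      simp
    rw [this]
    exact Submodule.add_mem _ hx hy

/-- only rectangular conditions: one solution -/
theorem case_two {k : ℕ} {lam : Fin m → Fin k → ℕ} {a : Fin m → ℕ} (hn : n = k + 2)
    (hm : 1 ≤ m) (shape : ∀ l, ∀ i : Fin k, lam l i = if (i : ℕ) < a l then 2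
      else if (i : ℕ) < a l + 0 then 1 else 0) (hak : ∀ l, a l ≤ k) (ha : ∑ l, a l = k)
    (hI : ∀ l, (I l).OrdConnected)
    (hd : Pairwise (fun l l' => Disjoint (I l) (I l'))) (hF : ∀ l, Cosecant n (I l) (F l)) :
    (⋂ l, schub k n (lam l) (F l)).encard = 1 ∧
      ∀ H ∈ ⋂ l, schub k n (lam l) (F l), IsReal n H ∧
        ∀ φ : ↥H →ₗ[ℂ] (Fin n → ℂ) ⧸ H,
          (∀ l, TangentTo k n (lam l) (F l) H φ) → φ = 0 := by
  have hfl : ∀ l, IsFlag n (F l) := fun l => isFlag_cosecant (by omega) (hF l)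
  have hE := finrank_E (by omega) hm hI hd hF (a := a) (by omega)
  have hn' : n = k + 2 * 1 := hn
  have hsh : ∀ l, ∀ i : Fin k, lam l i = if (i : ℕ) < a l then 2 * 1
    else if (i : ℕ) < a l + 0 then 1 else 0 := shape
  have hset : (⋂ l, schub k n (lam l) (F l)) = {⨆ l, F l (a l)} := by
    ext H
    rw [Set.mem_iInter, Set.mem_singleton_iff]
    constructor
    · intro h
      have hH := (h ⟨0, hm⟩).1
      have h1 := fun l => ((CSCB.schub_iff hn' le_rfl (by simpa using hak l) (hsh l) (hfl l)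
        hH).1 (h l).2).1
      symm
      apply Submodule.eq_of_le_of_finrank_eq (iSup_le h1)
      rw [hE, hH, ha]
    · rintro rfl l
      have hH : finrank ℂ ↥(⨆ l, F l (a l)) = k := by rw [hE, ha]
      refine ⟨hH, (CSCB.schub_iff hn' le_rfl (by simpa using hak l) (hsh l) (hfl l) hH).2
        ⟨le_iSup (fun l => F l (a l)) l, ?_⟩⟩
      have h2 : F l (a l) ≤ (⨆ l, F l (a l)) ⊓ F l (a l + 0 + 1) :=
        le_inf (le_iSup (fun l => F l (a l)) l)
          ((hfl l).mono _ _ (by omega) (by have := hak l; omega))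
      have h3 := Submodule.finrank_mono h2
      rw [(hfl l).dim _ (by have := hak l; omega)] at h3
      omega
  rw [hset]
  refine ⟨Set.encard_singleton _, ?_⟩
  rintro H (rfl : H = _)
  refine ⟨isReal_iSup fun l => isReal_cosecant (by omega) (hF l) (by have := hak l; omega), ?_⟩
  intro φ hφ
  have hzero : ∀ l, ∀ x (hx : x ∈ ⨆ l, F l (a l)), x ∈ F l (a l) → φ ⟨x, hx⟩ = 0 := by
    intro l x hx hxF
    have hle : F l (a l) ≤ ⨆ l, F l (a l) := le_iSup (fun l => F l (a l)) l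
    have hab := hak l
    rcases Nat.eq_zero_or_pos (a l) with ha | ha
    · have h0 : F l (a l) = ⊥ := by
        rw [ha]
        exact Submodule.finrank_eq_zero.1 ((hfl l).dim 0 (by omega))
      rw [h0, Submodule.mem_bot] at hxF
      subst hxF
      exact map_zero φ
    · have h3 : sidx k n (lam l) ⟨a l - 1, by omega⟩ = a l := by
        rw [sidx, shape]
        simp only
        rw [if_pos (by omega)]
        omega
      have h4 := hφ l ⟨a l - 1, by omega⟩ (by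
        rw [h3, inf_eq_right.2 hle, (hfl l).dim _ (by omega)]
        simp only
        omega) ⟨x, hx⟩ (by rw [h3]; exact hxF)
      rw [h3] at h4
      obtain ⟨y, hy, hy'⟩ := h4
      rw [← hy', ← LinearMap.mem_ker, Submodule.ker_mkQ]
      exact hle hy
  have hker : (⨆ l, F l (a l)) ≤ (LinearMap.ker φ).map (⨆ l, F l (a l)).subtype := by
    refine iSup_le fun l => ?_
    intro x hx
    have hxH : x ∈ ⨆ l, F l (a l) := (le_iSup (fun l => F l (a l)) l) hx
    exact ⟨⟨x, hxH⟩, hzero l x hxH hx, rfl⟩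
  refine LinearMap.ext fun v => ?_
  obtain ⟨w, hw, hwv⟩ := hker v.2
  have : w = v := Subtype.ext hwv
  rw [← this]
  exact hw

end two

end

end Pool.CTP.TR2
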